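import Mathlib

/-!
# The average of `k`-torsion below the exponent of Heath-Brown and Pierce: definitions

Paper proof: note 4539 on MP_e0c7e8_nt.
-/

set_option autoImplicit false

namespace Pool.Agent.Work.MP_e0c7e8_nt.AV

open Finset

/-! ## Diophantine part -/

open Classical in
/-- The points `P` of `N^4`, prime to `w`, such that `l (P_0 P_1 P_2 P_3)^m` has a square root
modulo `w^2` of size at most `U`. -/
noncomputable def HW (m l U w : ℕ) (N : Finset ℕ) : Finset (Fin 4 → ℕ) :=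
  (Fintype.piFinset fun _ => N).filter fun P =>
    (∀ i, (P i).Coprime w) ∧
      ∃ u : ℤ, |u| ≤ (U : ℤ) ∧ (w : ℤ) ^ 2 ∣ u ^ 2 - (l : ℤ) * (∏ i, (P i : ℤ)) ^ m

/-- `y` is a small relation modulo `w^2` between square roots of the numbers `c p_j^m`. -/
def Rel (m k Y w : ℕ) (p : Fin k → ℕ) (y : Fin k → ℤ) : Prop :=
  y ≠ 0 ∧ (∀ j, |y j| ≤ (Y : ℤ)) ∧ ∃ (c : (ZMod (w ^ 2))ˣ) (g : Fin k → ZMod (w ^ 2)),
    (∀ j, g j ^ 2 = (c : ZMod (w ^ 2)) * (p j : ZMod (w ^ 2)) ^ m) ∧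
      ∑ j, (y j : ZMod (w ^ 2)) * g j = 0

open Classical in
/-- The exceptional `k`-tuples. -/
noncomputable def EX (m k Y w : ℕ) (N : Finset ℕ) : Finset (Fin k → ℕ) :=
  (Fintype.piFinset fun _ => N).filter fun p => ¬ Function.Injective p ∨ ∃ y, Rel m k Y w p y

open Classical in
/-- The collisions. -/
noncomputable def CO (m w : ℕ) (N : Finset ℕ) : Finset ((Fin 3 → ℕ) × (Fin 3 → ℕ)) :=
  ((Fintype.piFinset fun _ => N) ×ˢ (Fintype.piFinset fun _ => N)).filter fun b =>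
    (w : ℤ) ^ 2 ∣ (∏ i, (b.1 i : ℤ)) ^ m - (∏ i, (b.2 i : ℤ)) ^ m

/-- The full boxes in `H`: four `k`-tuples such that all `k^4` points are in `H`. -/
def FB {α : Type} [DecidableEq α] (k : ℕ) (N : Finset α) (H : Finset (Fin 4 → α)) :
    Finset (Fin 4 → Fin k → α) :=
  (Fintype.piFinset fun _ => Fintype.piFinset fun _ => N).filter fun p =>
    ∀ a : Fin 4 → Fin k, (fun i => p i (a i)) ∈ H

/-- The common neighbourhood of the tuple `p` in the direction `i`. -/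
def CI {α : Type} [DecidableEq α] {k : ℕ} (H : Finset (Fin 4 → α)) (i : Fin 4)
    (p : Fin (k + 1) → α) : Finset (Fin 4 → α) :=
  H.filter fun c => c i = p 0 ∧ ∀ j, Function.update c i (p j) ∈ H

/-- A set of points with roots `u P` modulo `w^2` that are products of four functions. -/
structure Ty (m l U w : ℕ) (N : Finset ℕ) (H : Finset (Fin 4 → ℕ)) (u : (Fin 4 → ℕ) → ℤ)
    (ka : (ZMod (w ^ 2))ˣ) (c : Fin 4 → (ZMod (w ^ 2))ˣ)
    (g : Fin 4 → ℕ → (ZMod (w ^ 2))ˣ) : Prop where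
  mem : ∀ P ∈ H, ∀ i, P i ∈ N
  cop : ∀ P ∈ H, ∀ i, (P i).Coprime w
  small : ∀ P ∈ H, |u P| ≤ (U : ℤ)
  root : ∀ P ∈ H, (w : ℤ) ^ 2 ∣ u P ^ 2 - (l : ℤ) * (∏ i, (P i : ℤ)) ^ m
  prod : ∀ P ∈ H, ((u P : ℤ) : ZMod (w ^ 2)) =
    (ka : ZMod (w ^ 2)) * ∏ i, (g i (P i) : ZMod (w ^ 2))
  sq : ∀ P ∈ H, ∀ i, (g i (P i) : ZMod (w ^ 2)) ^ 2 =
    (c i : ZMod (w ^ 2)) * ((P i : ℕ) : ZMod (w ^ 2)) ^ m

/-! ## Parameters, functions of `m` -/

/-- The number of rows. -/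
def kk (m : ℕ) : ℕ := 16 * m

/-- A large number. -/
def rr (m : ℕ) : ℕ := (16 * m) ^ 5

/-- The saving is `P ^ bb`. -/
def bb (m : ℕ) : ℕ := m + 2

/-- The exponent of the small densities. -/
def qq (m : ℕ) : ℕ := (bb m + 1) * kk m ^ 4 + 1

/-- The number of primes in each of the four factors. -/
def jj (m : ℕ) : ℕ := 3 * rr m + 2

/-- `X` is about `P ^ KK`. -/
def KK (m : ℕ) : ℕ := (m + 1) * (4 * rr m + 2)

/-- `w` is at most `3 P ^ aa`. -/
def aa (m : ℕ) : ℕ := (4 * m - 2) * rr m + (3 * m - 1)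

/-- The coefficients of the relations are at most `P ^ yy`. -/
def yy (m : ℕ) : ℕ := (aa m - bb m - qq m - 2) / kk m

end Pool.Agent.Work.MP_e0c7e8_nt.AV
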