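import Pool.Agent.Work.MP_e0c7e8_nt.AV.Stmts

/-!
# Item AVG: choice of a modulus
-/

set_option autoImplicit false

namespace Pool.Agent.Work.MP_e0c7e8_nt.AV

open Finset

theorem AVG_pf : S_AVG := by
  intro S h e c θ H E C W hθ hH hE hC hS hw hsum he hc
  by_contra hcon
  push Not at hcon
  have hW : 0 ≤ W := le_trans (Nat.cast_nonneg _) hS
  have hpt : ∀ w ∈ S, h w ≤ θ * H / 2 + H * (e w / E + c w / C) := by
    intro w hwS
    obtain ⟨h0, h1, h2⟩ := hw w hwS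
    have he0 : 0 ≤ e w / E := div_nonneg h0 hE.le
    have hc0 : 0 ≤ c w / C := div_nonneg h1 hC.le
    have hθH : 0 ≤ θ * H / 2 := by positivity
    by_cases h3 : θ * H / 2 ≤ h w
    · by_cases h4 : e w ≤ E
      · have h5 := hcon w hwS h3 h4
        have h6 : 1 ≤ c w / C := (one_le_div hC).2 h5.le
        nlinarith [mul_le_mul_of_nonneg_left h6 hH.le, mul_nonneg hH.le he0]
      · have h6 : 1 ≤ e w / E := (one_le_div hE).2 (not_le.1 h4).le
        nlinarith [mul_le_mul_of_nonneg_left h6 hH.le, mul_nonneg hH.le hc0]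
    · nlinarith [mul_nonneg hH.le he0, mul_nonneg hH.le hc0, not_le.1 h3]
  have h1 : ∑ w ∈ S, h w ≤ ∑ w ∈ S, (θ * H / 2 + H * (e w / E + c w / C)) :=
    Finset.sum_le_sum hpt
  have h2 : ∑ w ∈ S, (θ * H / 2 + H * (e w / E + c w / C))
      = (S.card : ℝ) * (θ * H / 2) + H * ((∑ w ∈ S, e w) / E + (∑ w ∈ S, c w) / C) := by
    rw [Finset.sum_add_distrib, Finset.sum_const, nsmul_eq_mul, ← Finset.mul_sum,
      Finset.sum_add_distrib, Finset.sum_div, Finset.sum_div]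
  have h3 : (∑ w ∈ S, e w) / E ≤ θ * W / 8 := by
    rw [div_le_iff₀ hE]
    linarith
  have h4 : (∑ w ∈ S, c w) / C ≤ θ * W / 8 := by
    rw [div_le_iff₀ hC]
    linarith
  have h5 : (S.card : ℝ) * (θ * H / 2) ≤ W * (θ * H / 2) :=
    mul_le_mul_of_nonneg_right hS (by positivity)
  have h6 : H * ((∑ w ∈ S, e w) / E + (∑ w ∈ S, c w) / C) ≤ H * (θ * W / 8 + θ * W / 8) :=
    mul_le_mul_of_nonneg_left (add_le_add h3 h4) hH.le
  have h7 : 0 ≤ θ * W * H := by positivity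
  nlinarith [h1, h2, h5, h6, h7]

end Pool.Agent.Work.MP_e0c7e8_nt.AV
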