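import Pool.Agent.Work.MP_e0c7e8_nt.AV.StmtsI

/-!
# Block AV, item BAD: few discriminants with few split primes
-/

set_option autoImplicit false

namespace Pool.Agent.Work.MP_e0c7e8_nt.AV

open Finset Pool.Agent.Work.MP_e0c7e8_nt.SM Pool.Agent.Work.MP_e0c7e8_nt.BG

theorem BAD_pf (h1 : ClaimX4) (h2 : S_SQC) : S_BAD := by
  intro K hK c hc hc2
  obtain ⟨J, X0, hX0, hJ⟩ := h1 K hK c hc hc2
  refine ⟨(J : ℝ) + 1, by positivity, X0, hX0, fun X S hX hS => ?_⟩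
  have hX1 : (1 : ℝ) ≤ X := hX0.trans hX
  have h3 : (S.card : ℝ) ≤ J * Real.sqrt X := by
    refine h2 J X S hX1 (fun d hd => ⟨(hS d hd).1, (hS d hd).2.1⟩) fun S' hS' hN => ?_
    refine hJ X S' hX (fun d hd => ?_) hN
    have h4 := hS d (hS' hd)
    exact ⟨h4.1.ne, h4.2.1, h4.2.2⟩
  rw [← Real.sqrt_eq_rpow]
  have h5 := Real.sqrt_nonneg X
  linarith

end Pool.Agent.Work.MP_e0c7e8_nt.AV
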