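import Pool.Agent.Work.MP_e0c7e8_nt.AV.StmtsI

/-!
# Item BIG: solutions with large `v`
-/

set_option autoImplicit false

namespace Pool.Agent.Work.MP_e0c7e8_nt.AV

open Finset

namespace I_BIG

theorem ex_half (j : ℕ) (A : Finset ℕ) :
    ∃ t : Finset ℕ, A.card = 2 * j → t ⊆ A ∧ t.card = j ∧ (A \ t).card = j := by
  by_cases h : A.card = 2 * j
  · obtain ⟨t, ht, hc⟩ := Finset.exists_subset_card_eq (s := A) (n := j) (by omega)
    refine ⟨t, fun _ => ⟨ht, hc, ?_⟩⟩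
    rw [Finset.card_sdiff_of_subset ht]
    omega
  · exact ⟨∅, fun h' => absurd h' h⟩

/-- One half of a set with `2 j` elements. -/
noncomputable def hf (j : ℕ) (A : Finset ℕ) : Finset ℕ := (ex_half j A).choose

theorem hf_spec (j : ℕ) (A : Finset ℕ) (h : A.card = 2 * j) :
    hf j A ⊆ A ∧ (hf j A).card = j ∧ (A \ hf j A).card = j := (ex_half j A).choose_spec h

/-- The point of two sets. -/
noncomputable def pt (j : ℕ) (A B : Finset ℕ) : Fin 4 → ℕ :=
  ![∏ p ∈ hf j A, p, ∏ p ∈ A \ hf j A, p, ∏ p ∈ hf j B, p, ∏ p ∈ B \ hf j B, p]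

theorem mem_NN {P j : ℕ} {s : Finset ℕ} (hs : s ⊆ Pr P) (hc : s.card = j) :
    ∏ p ∈ s, p ∈ NN P j :=
  Finset.mem_image.2 ⟨s, Finset.mem_powersetCard.2 ⟨hs, hc⟩, rfl⟩

theorem prime_of_mem {P p : ℕ} (h : p ∈ Pr P) : p.Prime := (Finset.mem_filter.1 h).2.1

theorem le_of_mem {P p : ℕ} (h : p ∈ Pr P) : p ≤ P :=
  (Finset.mem_Icc.1 (Finset.mem_filter.1 h).1).2

theorem pt_mem {P j : ℕ} {A B : Finset ℕ} (hA : A ∈ powersetCard (2 * j) (Pr P))
    (hB : B ∈ powersetCard (2 * j) (Pr P)) (i : Fin 4) : pt j A B i ∈ NN P j := by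
  obtain ⟨hA1, hA2⟩ := Finset.mem_powersetCard.1 hA
  obtain ⟨hB1, hB2⟩ := Finset.mem_powersetCard.1 hB
  obtain ⟨a1, a2, a3⟩ := hf_spec j A hA2
  obtain ⟨b1, b2, b3⟩ := hf_spec j B hB2
  fin_cases i
  · exact mem_NN (a1.trans hA1) a2
  · exact mem_NN (Finset.sdiff_subset.trans hA1) a3
  · exact mem_NN (b1.trans hB1) b2
  · exact mem_NN (Finset.sdiff_subset.trans hB1) b3

theorem pt_cop {P j v : ℕ} {A B : Finset ℕ} (hA : A ∈ powersetCard (2 * j) (Pr P))
    (hB : B ∈ powersetCard (2 * j) (Pr P)) (hv : ∀ p ∈ A ∪ B, ¬ p ∣ v) (i : Fin 4) :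
    (pt j A B i).Coprime v := by
  obtain ⟨hA1, hA2⟩ := Finset.mem_powersetCard.1 hA
  obtain ⟨hB1, hB2⟩ := Finset.mem_powersetCard.1 hB
  obtain ⟨a1, -, -⟩ := hf_spec j A hA2
  obtain ⟨b1, -, -⟩ := hf_spec j B hB2
  have key : ∀ s : Finset ℕ, s ⊆ A ∪ B → Nat.Coprime (∏ p ∈ s, p) v := by
    intro s hs
    refine Nat.Coprime.prod_left fun p hp => ?_
    have hp' := hs hp
    have hpr : p.Prime := by
      rcases Finset.mem_union.1 hp' with h | h
      · exact prime_of_mem (hA1 h)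
      · exact prime_of_mem (hB1 h)
    exact (Nat.Prime.coprime_iff_not_dvd hpr).2 (hv p hp')
  fin_cases i
  · exact key _ (a1.trans Finset.subset_union_left)
  · exact key _ (Finset.sdiff_subset.trans Finset.subset_union_left)
  · exact key _ (b1.trans Finset.subset_union_right)
  · exact key _ (Finset.sdiff_subset.trans Finset.subset_union_right)

theorem pt_prod {j : ℕ} {A B : Finset ℕ} (hA : A.card = 2 * j) (hB : B.card = 2 * j) :
    ∏ i, ((pt j A B i : ℕ) : ℤ) = (∏ p ∈ A, (p : ℤ)) * ∏ p ∈ B, (p : ℤ) := by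
  obtain ⟨a1, -, -⟩ := hf_spec j A hA
  obtain ⟨b1, -, -⟩ := hf_spec j B hB
  rw [Fin.prod_univ_four]
  have e1 : ((∏ p ∈ hf j A, p : ℕ) : ℤ) * ((∏ p ∈ A \ hf j A, p : ℕ) : ℤ) = ∏ p ∈ A, (p : ℤ) := by
    push_cast
    rw [mul_comm]
    exact Finset.prod_sdiff a1
  have e2 : ((∏ p ∈ hf j B, p : ℕ) : ℤ) * ((∏ p ∈ B \ hf j B, p : ℕ) : ℤ) = ∏ p ∈ B, (p : ℤ) := by
    push_cast
    rw [mul_comm]
    exact Finset.prod_sdiff b1
  rw [← e1, ← e2, ← mul_assoc]
  rfl

theorem set_eq {P : ℕ} {s t : Finset ℕ} (hs : s ⊆ Pr P) (ht : t ⊆ Pr P)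
    (h : ∏ p ∈ s, p = ∏ p ∈ t, p) : s = t := by
  rw [← Nat.primeFactors_prod (fun p hp => prime_of_mem (hs hp)), h,
    Nat.primeFactors_prod (fun p hp => prime_of_mem (ht hp))]

theorem pt_inj {P j : ℕ} {A B A' B' : Finset ℕ} (hA : A ∈ powersetCard (2 * j) (Pr P))
    (hB : B ∈ powersetCard (2 * j) (Pr P)) (hA' : A' ∈ powersetCard (2 * j) (Pr P))
    (hB' : B' ∈ powersetCard (2 * j) (Pr P)) (h : pt j A B = pt j A' B') : A = A' ∧ B = B' := by
  obtain ⟨hA1, hA2⟩ := Finset.mem_powersetCard.1 hA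
  obtain ⟨hB1, hB2⟩ := Finset.mem_powersetCard.1 hB
  obtain ⟨hA1', hA2'⟩ := Finset.mem_powersetCard.1 hA'
  obtain ⟨hB1', hB2'⟩ := Finset.mem_powersetCard.1 hB'
  obtain ⟨a1, -, -⟩ := hf_spec j A hA2
  obtain ⟨b1, -, -⟩ := hf_spec j B hB2
  obtain ⟨a1', -, -⟩ := hf_spec j A' hA2'
  obtain ⟨b1', -, -⟩ := hf_spec j B' hB2'
  have h0 : ∏ p ∈ hf j A, p = ∏ p ∈ hf j A', p := congrFun h 0
  have h1 : ∏ p ∈ A \ hf j A, p = ∏ p ∈ A' \ hf j A', p := congrFun h 1
  have h2 : ∏ p ∈ hf j B, p = ∏ p ∈ hf j B', p := congrFun h 2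
  have h3 : ∏ p ∈ B \ hf j B, p = ∏ p ∈ B' \ hf j B', p := congrFun h 3
  have g0 := set_eq (a1.trans hA1) (a1'.trans hA1') h0
  have g1 := set_eq (Finset.sdiff_subset.trans hA1) (Finset.sdiff_subset.trans hA1') h1
  have g2 := set_eq (b1.trans hB1) (b1'.trans hB1') h2
  have g3 := set_eq (Finset.sdiff_subset.trans hB1) (Finset.sdiff_subset.trans hB1') h3
  constructor
  · rw [← Finset.sdiff_union_of_subset a1, ← Finset.sdiff_union_of_subset a1', g1, g0]
  · rw [← Finset.sdiff_union_of_subset b1, ← Finset.sdiff_union_of_subset b1', g3, g2]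

theorem prod_le {P j : ℕ} {A : Finset ℕ} (hA : A ∈ powersetCard (2 * j) (Pr P)) :
    ∏ p ∈ A, p ≤ P ^ (2 * j) := by
  obtain ⟨hA1, hA2⟩ := Finset.mem_powersetCard.1 hA
  calc ∏ p ∈ A, p ≤ P ^ A.card := Finset.prod_le_pow_card A (fun p => p) P
        (fun p hp => le_of_mem (hA1 hp))
    _ = P ^ (2 * j) := by rw [hA2]

theorem abs_u {m P j v : ℕ} {X : ℝ} {A B : Finset ℕ} {u : ℤ}
    (hA : A ∈ powersetCard (2 * j) (Pr P)) (hB : B ∈ powersetCard (2 * j) (Pr P))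
    (hs : Sol m X A B u v) : |u| ≤ ((2 * P ^ (2 * m * j) : ℕ) : ℤ) := by
  obtain ⟨D, -, -, hD⟩ := hs.eq
  have h1 : (∏ p ∈ A, (p : ℤ)) * ∏ p ∈ B, (p : ℤ) ≤ (P : ℤ) ^ (4 * j) := by
    have a := prod_le hA
    have b := prod_le hB
    have : (∏ p ∈ A, p) * ∏ p ∈ B, p ≤ P ^ (4 * j) := by
      calc (∏ p ∈ A, p) * ∏ p ∈ B, p ≤ P ^ (2 * j) * P ^ (2 * j) := Nat.mul_le_mul a b
        _ = P ^ (4 * j) := by rw [← pow_add]; congr 1; ring
    have h7 := (Nat.cast_le (α := ℤ)).2 this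
    push_cast at h7
    exact h7
  have h0 : 0 ≤ (∏ p ∈ A, (p : ℤ)) * ∏ p ∈ B, (p : ℤ) :=
    mul_nonneg (Finset.prod_nonneg fun _ _ => by positivity)
      (Finset.prod_nonneg fun _ _ => by positivity)
  have h2 : u ^ 2 ≤ (2 * (P : ℤ) ^ (2 * m * j)) ^ 2 := by
    have h3 : ((∏ p ∈ A, (p : ℤ)) * ∏ p ∈ B, (p : ℤ)) ^ m ≤ ((P : ℤ) ^ (4 * j)) ^ m :=
      pow_le_pow_left₀ h0 h1 m
    have h4 : (2 * (P : ℤ) ^ (2 * m * j)) ^ 2 = 4 * ((P : ℤ) ^ (4 * j)) ^ m := by
      rw [mul_pow, ← pow_mul, ← pow_mul]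
      norm_num
      congr 1
      ring
    rw [h4]
    have h5 : 0 ≤ (D : ℤ) * (v : ℤ) ^ 2 := by positivity
    linarith
  have := abs_le_of_sq_le_sq h2 (by positivity)
  push_cast
  exact this

theorem odd_case {m P j U v : ℕ} {X : ℝ} {A B : Finset ℕ} {u : ℤ}
    (hA : A ∈ powersetCard (2 * j) (Pr P)) (hB : B ∈ powersetCard (2 * j) (Pr P))
    (hU : 2 * P ^ (2 * m * j) ≤ U) (hs : Sol m X A B u v) :
    pt j A B ∈ HW m 4 U v (NN P j) := by
  classical
  refine Finset.mem_filter.2 ⟨Fintype.mem_piFinset.2 fun i => pt_mem hA hB i,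
    fun i => pt_cop hA hB hs.cop i, u, ?_, ?_⟩
  · exact (abs_u hA hB hs).trans (by exact_mod_cast hU)
  · obtain ⟨D, -, -, hD⟩ := hs.eq
    rw [pt_prod (Finset.mem_powersetCard.1 hA).2 (Finset.mem_powersetCard.1 hB).2]
    refine ⟨-(D : ℤ), ?_⟩
    push_cast
    linarith

theorem even_case {m P j U w : ℕ} {X : ℝ} {A B : Finset ℕ} {u : ℤ}
    (hA : A ∈ powersetCard (2 * j) (Pr P)) (hB : B ∈ powersetCard (2 * j) (Pr P))
    (hU : 2 * P ^ (2 * m * j) ≤ U) (hs : Sol m X A B u (2 * w)) :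
    pt j A B ∈ HW m 1 U w (NN P j) := by
  classical
  obtain ⟨D, -, -, hD⟩ := hs.eq
  have he : Even u := by
    have h2 : Even (u ^ 2) := by
      have : u ^ 2 = 2 * (2 * ((∏ p ∈ A, (p : ℤ)) * ∏ p ∈ B, (p : ℤ)) ^ m -
          2 * ((D : ℤ) * (w : ℤ) ^ 2)) := by
        push_cast at hD
        linarith
      rw [this]
      exact even_two_mul _
    exact (Int.even_pow.1 h2).1
  obtain ⟨u', hu'⟩ := he.two_dvd
  refine Finset.mem_filter.2 ⟨Fintype.mem_piFinset.2 fun i => pt_mem hA hB i,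
    fun i => (Nat.Coprime.coprime_mul_left_right (pt_cop hA hB hs.cop i)), u', ?_, ?_⟩
  · have h1 := (abs_u hA hB hs).trans (show ((2 * P ^ (2 * m * j) : ℕ) : ℤ) ≤ (U : ℤ) by
      exact_mod_cast hU)
    have h2 : |u'| ≤ |u| := by
      rw [hu', abs_mul]
      have : (0 : ℤ) ≤ |u'| := abs_nonneg _
      norm_num
      linarith
    exact h2.trans h1
  · rw [pt_prod (Finset.mem_powersetCard.1 hA).2 (Finset.mem_powersetCard.1 hB).2]
    refine ⟨-(D : ℤ), ?_⟩
    rw [hu'] at hD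
    push_cast at hD ⊢
    linarith

/-- The map. -/
noncomputable def psi (j : ℕ) (y : Finset ℕ × Finset ℕ × ℕ) :
    (Σ _ : ℕ, Fin 4 → ℕ) ⊕ (Σ _ : ℕ, Fin 4 → ℕ) :=
  if y.2.2 % 2 = 1 then Sum.inl ⟨y.2.2, pt j y.1 y.2.1⟩
  else Sum.inr ⟨y.2.2 / 2, pt j y.1 y.2.1⟩

end I_BIG

open I_BIG in
theorem BIG_pf (h1 : S_NUU) (h2 : S_QFN) : S_BIG := by
  classical
  intro m P j U W0 W1 T X hm hj hX hU hW hT hQ
  have hX0 : 0 < X := by linarith
  have hfin := (h2 m P (2 * j) X hX0).1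
  set S : Set (Finset ℕ × Finset ℕ × ℤ × ℕ) :=
    {x ∈ QS m X P (2 * j) | 2 * W0 + 1 < x.2.2.2} with hS
  have hSf : S.Finite := hfin.subset (Set.sep_subset _ _)
  set F := hSf.toFinset with hF
  have hmem : ∀ x, x ∈ F ↔ x ∈ QS m X P (2 * j) ∧ 2 * W0 + 1 < x.2.2.2 := by
    intro x
    rw [hF, Set.Finite.mem_toFinset]
    exact Iff.rfl
  set f : (Finset ℕ × Finset ℕ × ℤ × ℕ) → (Finset ℕ × Finset ℕ × ℕ) :=
    fun x => (x.1, x.2.1, x.2.2.2) with hf
  have hcard : F.card ≤ (112 * T) * (F.image f).card := by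
    refine Finset.card_le_mul_card_image F (112 * T) fun y hy => ?_
    obtain ⟨x0, hx0, rfl⟩ := Finset.mem_image.1 hy
    obtain ⟨hx0q, hx0v⟩ := (hmem x0).1 hx0
    obtain ⟨hA, hB, hAB, hs⟩ := hx0q
    obtain ⟨A, B, u0, v⟩ := x0
    simp only at hA hB hAB hs hx0v
    set n := (∏ p ∈ A, p) * ∏ p ∈ B, p with hn
    have hn1 : 1 ≤ n := by
      refine Nat.succ_le_of_lt (Nat.mul_pos (Finset.prod_pos fun p hp => ?_)
        (Finset.prod_pos fun p hp => ?_))
      · exact (prime_of_mem ((Finset.mem_powersetCard.1 hA).1 hp)).pos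
      · exact (prime_of_mem ((Finset.mem_powersetCard.1 hB).1 hp)).pos
    have hnv : n.Coprime v := by
      refine Nat.Coprime.mul_left (Nat.Coprime.prod_left fun p hp => ?_)
        (Nat.Coprime.prod_left fun p hp => ?_)
      · exact (Nat.Prime.coprime_iff_not_dvd
          (prime_of_mem ((Finset.mem_powersetCard.1 hA).1 hp))).2
          (hs.cop p (Finset.mem_union_left _ hp))
      · exact (Nat.Prime.coprime_iff_not_dvd
          (prime_of_mem ((Finset.mem_powersetCard.1 hB).1 hp))).2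
          (hs.cop p (Finset.mem_union_right _ hp))
    obtain ⟨hUf, hUc⟩ := h1 n v m X hn1 hs.pos hnv hX0
    set E : Set ℤ := {u : ℤ | ∃ D : ℕ, X / 2 < (D : ℝ) ∧ (D : ℝ) ≤ X ∧
      u ^ 2 + (D : ℤ) * (v : ℤ) ^ 2 = 4 * (n : ℤ) ^ m} with hE
    have hc1 : (F.filter fun x => f x = f (A, B, u0, v)).card ≤ hUf.toFinset.card := by
      refine Finset.card_le_card_of_injOn (fun x => x.2.2.1) ?_ ?_
      · intro x hx
        obtain ⟨hx1, hx2⟩ := Finset.mem_filter.1 (Finset.mem_coe.1 hx)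
        obtain ⟨hxq, -⟩ := (hmem x).1 hx1
        obtain ⟨A', B', u', v'⟩ := x
        simp only [hf, Prod.mk.injEq] at hx2
        obtain ⟨rfl, rfl, rfl⟩ := hx2
        obtain ⟨D, hD1, hD2, hD3⟩ := hxq.2.2.2.eq
        refine Finset.mem_coe.2 (hUf.mem_toFinset.2 ⟨D, hD1, hD2, ?_⟩)
        simp only at hD3 ⊢
        rw [hD3, hn]
        push_cast
        rfl
      · intro x hx x' hx' hxx
        obtain ⟨-, hx2⟩ := Finset.mem_filter.1 (Finset.mem_coe.1 hx)
        obtain ⟨-, hx2'⟩ := Finset.mem_filter.1 (Finset.mem_coe.1 hx')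
        obtain ⟨A1, B1, u1, v1⟩ := x
        obtain ⟨A2, B2, u2, v2⟩ := x'
        simp only [hf, Prod.mk.injEq] at hx2 hx2' hxx
        obtain ⟨rfl, rfl, rfl⟩ := hx2
        obtain ⟨rfl, rfl, rfl⟩ := hx2'
        rw [hxx]
    have hc2 : (hUf.toFinset.card : ℝ) ≤ 112 * T := by
      rw [← Set.ncard_eq_toFinset_card E hUf]
      refine hUc.trans ?_
      have hv0 : (0 : ℝ) < v := by exact_mod_cast hs.pos
      have hsq : Real.sqrt X / v ≤ 1 := by
        rw [div_le_one hv0]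
        refine hW.trans ?_
        have : (2 * W0 + 1 : ℕ) ≤ v := hx0v.le
        have h3 : ((2 * W0 + 1 : ℕ) : ℝ) ≤ (v : ℝ) := by exact_mod_cast this
        push_cast at h3
        linarith
      have hT' : ((2 ^ v.primeFactors.card : ℕ) : ℝ) ≤ (T : ℝ) := by
        exact_mod_cast hT v hs.pos (hQ (A, B, u0, v) ⟨hA, hB, hAB, hs⟩)
      push_cast at hT'
      have hs0 : 0 ≤ Real.sqrt X / v + 1 := by positivity
      calc 56 * 2 ^ v.primeFactors.card * (Real.sqrt X / v + 1)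
          ≤ 56 * (T : ℝ) * (1 + 1) := by
            refine mul_le_mul (by linarith) (by linarith) hs0 (by positivity)
        _ = 112 * T := by ring
    have hc3 : ((F.filter fun x => f x = f (A, B, u0, v)).card : ℝ) ≤ ((112 * T : ℕ) : ℝ) := by
      push_cast
      exact le_trans (by exact_mod_cast hc1) hc2
    exact_mod_cast hc3
  have himg : (F.image f).card ≤
      ∑ w ∈ (Ioc W0 W1).filter (fun w => Nat.Coprime 4 w), (HW m 4 U w (NN P j)).card +
      ∑ w ∈ (Ioc W0 W1).filter (fun w => Nat.Coprime 1 w), (HW m 1 U w (NN P j)).card := by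
    rw [← Finset.card_sigma, ← Finset.card_sigma, ← Finset.card_disjSum]
    refine Finset.card_le_card_of_injOn (psi j) ?_ ?_
    · intro y hy
      obtain ⟨x, hx, rfl⟩ := Finset.mem_image.1 (Finset.mem_coe.1 hy)
      obtain ⟨hxq, hxv⟩ := (hmem x).1 hx
      have hxW := hQ x hxq
      obtain ⟨hA, hB, hAB, hs⟩ := hxq
      obtain ⟨A, B, u, v⟩ := x
      simp only at hA hB hAB hs hxv hxW
      refine Finset.mem_coe.2 ?_
      by_cases hv : v % 2 = 1
      · have : psi j (f (A, B, u, v)) = Sum.inl ⟨v, pt j A B⟩ := by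
          simp only [psi, hf, hv, if_true]
        rw [this]
        refine Finset.inl_mem_disjSum.2 (Finset.mem_sigma.2 ⟨Finset.mem_filter.2
          ⟨Finset.mem_Ioc.2 ⟨by simp only; omega, hxW⟩, ?_⟩, ?_⟩)
        · simp only
          have : Nat.Coprime 2 v := (Nat.coprime_two_left).2 (Nat.odd_iff.2 hv)
          exact Nat.Coprime.mul_left (m := 2) (n := 2) this this
        · exact odd_case hA hB hU hs
      · have : psi j (f (A, B, u, v)) = Sum.inr ⟨v / 2, pt j A B⟩ := by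
          simp only [psi, hf, hv, if_false]
        rw [this]
        have hv2 : 2 * (v / 2) = v := by omega
        refine Finset.inr_mem_disjSum.2 (Finset.mem_sigma.2 ⟨Finset.mem_filter.2
          ⟨Finset.mem_Ioc.2 ⟨by simp only; omega, by simp only; omega⟩,
            Nat.coprime_one_left _⟩, ?_⟩)
        refine even_case hA hB hU (u := u) (X := X) ?_
        simp only
        rw [hv2]
        exact hs
    · intro y hy y' hy' hyy
      obtain ⟨x, hx, rfl⟩ := Finset.mem_image.1 (Finset.mem_coe.1 hy)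
      obtain ⟨x', hx', rfl⟩ := Finset.mem_image.1 (Finset.mem_coe.1 hy')
      obtain ⟨hxq, -⟩ := (hmem x).1 hx
      obtain ⟨hxq', -⟩ := (hmem x').1 hx'
      obtain ⟨hA, hB, -, -⟩ := hxq
      obtain ⟨hA', hB', -, -⟩ := hxq'
      obtain ⟨A, B, u, v⟩ := x
      obtain ⟨A', B', u', v'⟩ := x'
      simp only at hA hB hA' hB'
      simp only [hf] at hyy ⊢
      by_cases hv : v % 2 = 1
      · by_cases hv' : v' % 2 = 1
        · simp only [psi, hv, hv', if_true] at hyy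
          have hq := Sum.inl.inj hyy
          simp only [Sigma.mk.injEq, heq_eq_eq] at hq
          obtain ⟨rfl, hpt⟩ := hq
          obtain ⟨rfl, rfl⟩ := pt_inj hA hB hA' hB' hpt
          rfl
        · simp only [psi, hv, hv', if_true, if_false] at hyy
          exact absurd hyy (by simp)
      · by_cases hv' : v' % 2 = 1
        · simp only [psi, hv, hv', if_true, if_false] at hyy
          exact absurd hyy (by simp)
        · simp only [psi, hv, hv', if_false] at hyy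
          have hq := Sum.inr.inj hyy
          simp only [Sigma.mk.injEq, heq_eq_eq] at hq
          obtain ⟨hvv, hpt⟩ := hq
          obtain ⟨rfl, rfl⟩ := pt_inj hA hB hA' hB' hpt
          have : v = v' := by omega
          rw [this]
  have hfinal : (F.card : ℝ) ≤ 112 * T *
      (∑ w ∈ (Ioc W0 W1).filter (fun w => Nat.Coprime 4 w), ((HW m 4 U w (NN P j)).card : ℝ) +
        ∑ w ∈ (Ioc W0 W1).filter (fun w => Nat.Coprime 1 w),
          ((HW m 1 U w (NN P j)).card : ℝ)) := by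
    have := hcard.trans (Nat.mul_le_mul_left (112 * T) himg)
    exact_mod_cast this
  rw [Set.ncard_eq_toFinset_card S hSf]
  exact hfinal

end Pool.Agent.Work.MP_e0c7e8_nt.AV
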