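import Mathlib

/-!
# The number of full boxes (power means)
-/

set_option autoImplicit false

namespace Pool.Agent.Work.MP_e0c7e8_nt.AV

open Finset

/-- Power mean inequality for a finite type. -/
theorem pm {α : Type*} [Fintype α] (g : α → ℝ) (hg : ∀ a, 0 ≤ g a) (k : ℕ) (hk : 1 ≤ k) :
    (∑ a, g a) ^ k ≤ (Fintype.card α : ℝ) ^ (k - 1) * ∑ a, g a ^ k := by
  obtain ⟨n, rfl⟩ : ∃ n, k = n + 1 := ⟨k - 1, by omega⟩
  have h := pow_sum_le_card_mul_sum_pow (s := (Finset.univ : Finset α)) (f := g)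
    (fun i _ => hg i) n
  simpa [Finset.card_univ] using h

theorem sum_cons {V : Type*} [Fintype V] (s : ℕ) (f : (Fin (s + 1) → V) → ℝ) :
    ∑ c, f c = ∑ c' : Fin s → V, ∑ x : V, f (Fin.cons x c') := by
  rw [Finset.sum_comm, ← (Fin.consEquiv (fun _ => V)).sum_comp, Fintype.sum_prod_type]
  rfl

theorem prod_cons {s k : ℕ} (g : (Fin (s + 1) → Fin k) → ℝ) :
    ∏ e, g e = ∏ e' : Fin s → Fin k, ∏ j : Fin k, g (Fin.cons j e') := by
  rw [Finset.prod_comm, ← (Fin.consEquiv (fun _ => Fin k)).prod_comp, Fintype.prod_prod_type]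
  rfl

theorem expo (s k : ℕ) (hk : 1 ≤ k) :
    s * (k - 1) * k ^ s + k * (k ^ s - 1) + s * (k ^ s - k) = (s + 1) * (k ^ (s + 1) - k) := by
  obtain rfl | hs := Nat.eq_zero_or_pos s
  · simp
  have h1 : k ≤ k ^ s := Nat.le_self_pow (by omega) k
  have h2 : 1 ≤ k ^ s := le_trans hk h1
  have h3 : k ≤ k ^ (s + 1) := Nat.le_self_pow (by omega) k
  zify [hk, h1, h2, h3]
  ring

/-- `s` directions, boxes of side `k`. -/
theorem boxm {V : Type*} [Fintype V] (k : ℕ) (hk : 1 ≤ k) (s : ℕ) (f : (Fin s → V) → ℝ)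
    (hf : ∀ c, 0 ≤ f c) :
    (∑ c, f c) ^ (k ^ s) ≤ (Fintype.card V : ℝ) ^ (s * (k ^ s - k)) *
      ∑ p : Fin s → Fin k → V, ∏ e : Fin s → Fin k, f (fun i => p i (e i)) := by
  induction s with
  | zero =>
    simp
    exact le_of_eq (congrArg f (Subsingleton.elim _ _))
  | succ s ih =>
    set N : ℝ := (Fintype.card V : ℝ) with hN
    have hN0 : 0 ≤ N := Nat.cast_nonneg _
    let F : (Fin k → V) → (Fin s → V) → ℝ := fun p0 c' => ∏ j, f (Fin.cons (p0 j) c')
    have hF : ∀ p0 c', 0 ≤ F p0 c' := fun p0 c' => Finset.prod_nonneg fun j _ => hf _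
    have h0 : 0 ≤ ∑ c, f c := Finset.sum_nonneg fun c _ => hf c
    have e1 : (∑ c, f c) ^ k ≤ N ^ (s * (k - 1)) * ∑ p0, ∑ c', F p0 c' := by
      rw [sum_cons]
      refine (pm (fun c' : Fin s → V => ∑ x : V, f (Fin.cons x c'))
        (fun c' => Finset.sum_nonneg fun x _ => hf _) k hk).trans (le_of_eq ?_)
      rw [Fintype.card_fun, Fintype.card_fin, Nat.cast_pow, ← pow_mul, Finset.sum_comm]
      congr 1
      refine Finset.sum_congr rfl fun c' _ => ?_
      rw [Fintype.sum_pow]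
    have e2 : (∑ c, f c) ^ (k ^ (s + 1)) ≤
        (N ^ (s * (k - 1)) * ∑ p0, ∑ c', F p0 c') ^ (k ^ s) := by
      rw [pow_succ' k s, pow_mul]
      exact pow_le_pow_left₀ (pow_nonneg h0 k) e1 _
    have hA : ∀ p0, 0 ≤ ∑ c', F p0 c' := fun p0 => Finset.sum_nonneg fun c' _ => hF p0 c'
    have e3 := pm (fun p0 => ∑ c', F p0 c') hA (k ^ s) (Nat.one_le_pow _ _ (by omega))
    have e4 : ∑ p0, (∑ c', F p0 c') ^ (k ^ s) ≤ ∑ p0 : Fin k → V, N ^ (s * (k ^ s - k)) *
        ∑ p : Fin s → Fin k → V, ∏ e : Fin s → Fin k, F p0 (fun i => p i (e i)) :=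
      Finset.sum_le_sum fun p0 _ => ih (F p0) (hF p0)
    have e5 : ∑ p0 : Fin k → V, ∑ p : Fin s → Fin k → V,
        ∏ e : Fin s → Fin k, F p0 (fun i => p i (e i)) =
        ∑ p : Fin (s + 1) → Fin k → V, ∏ e : Fin (s + 1) → Fin k, f (fun i => p i (e i)) := by
      rw [← (Fin.consEquiv (fun _ => Fin k → V)).sum_comp, Fintype.sum_prod_type]
      refine Finset.sum_congr rfl fun p0 _ => Finset.sum_congr rfl fun p _ => ?_
      rw [prod_cons]
      refine Finset.prod_congr rfl fun e _ => Finset.prod_congr rfl fun j _ => ?_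
      congr 1
      funext i
      refine Fin.cases ?_ (fun i => ?_) i
      · simp [Fin.consEquiv]
      · simp [Fin.consEquiv]
    calc (∑ c, f c) ^ (k ^ (s + 1))
        ≤ (N ^ (s * (k - 1)) * ∑ p0, ∑ c', F p0 c') ^ (k ^ s) := e2
      _ = N ^ (s * (k - 1) * k ^ s) * (∑ p0, ∑ c', F p0 c') ^ (k ^ s) := by
          rw [mul_pow, ← pow_mul]
      _ ≤ N ^ (s * (k - 1) * k ^ s) * ((Fintype.card (Fin k → V) : ℝ) ^ (k ^ s - 1) *
            ∑ p0, (∑ c', F p0 c') ^ (k ^ s)) := by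
          exact mul_le_mul_of_nonneg_left e3 (pow_nonneg hN0 _)
      _ ≤ N ^ (s * (k - 1) * k ^ s) * ((Fintype.card (Fin k → V) : ℝ) ^ (k ^ s - 1) *
            ∑ p0 : Fin k → V, N ^ (s * (k ^ s - k)) *
        ∑ p : Fin s → Fin k → V, ∏ e : Fin s → Fin k, F p0 (fun i => p i (e i))) := by
          refine mul_le_mul_of_nonneg_left (mul_le_mul_of_nonneg_left e4 ?_) (pow_nonneg hN0 _)
          exact pow_nonneg (Nat.cast_nonneg _) _
      _ = N ^ ((s + 1) * (k ^ (s + 1) - k)) *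
      ∑ p : Fin (s + 1) → Fin k → V, ∏ e : Fin (s + 1) → Fin k, f (fun i => p i (e i)) := by
          rw [← Finset.mul_sum, e5, Fintype.card_fun, Fintype.card_fin, Nat.cast_pow, ← hN,
            ← pow_mul, ← expo s k hk, pow_add, pow_add]
          ring

end Pool.Agent.Work.MP_e0c7e8_nt.AV
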