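import Mathlib
import Pool.Agent.Work.MP_e0c7e8_nt.AV.I_BOXM

/-!
# A good full box
-/

set_option autoImplicit false

namespace Pool.Agent.Work.MP_e0c7e8_nt.AV.BoxG

open Finset

variable {V : Type*}

/-- `c` in `H` with `c i = q 0` such that every replacement of `c i` by a value of `q` is in `H`. -/
def CC [DecidableEq V] {k : ℕ} (hk : 0 < k) (H : Finset (Fin 4 → V)) (i : Fin 4) (q : Fin k → V) :
    Finset (Fin 4 → V) :=
  H.filter (fun c => c i = q ⟨0, hk⟩ ∧ ∀ j : Fin k, Function.update c i (q j) ∈ H)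

/-- The full boxes. -/
def FB [Fintype V] [DecidableEq V] (k : ℕ) (H : Finset (Fin 4 → V)) :
    Finset (Fin 4 → Fin k → V) :=
  Finset.univ.filter (fun p => ∀ e : Fin 4 → Fin k, (fun i => p i (e i)) ∈ H)

theorem card_FB [Fintype V] [DecidableEq V] (k : ℕ) (hk : 0 < k) (N0 θ : ℝ)
    (hV : (Fintype.card V : ℝ) ≤ N0) (hN0 : 0 < N0) (hθ : 0 < θ)
    (H : Finset (Fin 4 → V)) (hH : θ * N0 ^ 4 ≤ (H.card : ℝ)) :
    θ ^ (k ^ 4) * N0 ^ (4 * k) ≤ ((FB k H).card : ℝ) := by
  classical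
  have h := boxm (V := V) k hk 4 (fun c => if c ∈ H then (1 : ℝ) else 0)
    (fun c => by split_ifs <;> norm_num)
  have e1 : ∑ c : Fin 4 → V, (if c ∈ H then (1 : ℝ) else 0) = (H.card : ℝ) := by
    rw [Finset.sum_ite_mem, Finset.univ_inter, Finset.sum_const, nsmul_eq_mul, mul_one]
  have e2 : ∑ p : Fin 4 → Fin k → V, ∏ e : Fin 4 → Fin k,
      (if (fun i => p i (e i)) ∈ H then (1 : ℝ) else 0) = ((FB k H).card : ℝ) := by
    rw [FB, Finset.card_filter, Nat.cast_sum]
    refine Finset.sum_congr rfl fun p _ => ?_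
    by_cases hp : ∀ e : Fin 4 → Fin k, (fun i => p i (e i)) ∈ H
    · rw [if_pos hp, Nat.cast_one]
      exact Finset.prod_eq_one fun e _ => if_pos (hp e)
    · rw [if_neg hp, Nat.cast_zero]
      push Not at hp
      obtain ⟨e, he⟩ := hp
      exact Finset.prod_eq_zero (Finset.mem_univ e) (if_neg he)
  rw [e1, e2] at h
  have hk4 : k ≤ k ^ 4 := Nat.le_self_pow (by norm_num) k
  have h1 : (θ * N0 ^ 4) ^ (k ^ 4) ≤ (H.card : ℝ) ^ (k ^ 4) :=
    pow_le_pow_left₀ (by positivity) hH _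
  have h2 : (Fintype.card V : ℝ) ^ (4 * (k ^ 4 - k)) ≤ N0 ^ (4 * (k ^ 4 - k)) :=
    pow_le_pow_left₀ (Nat.cast_nonneg _) hV _
  have h3 : (θ * N0 ^ 4) ^ (k ^ 4) ≤ N0 ^ (4 * (k ^ 4 - k)) * ((FB k H).card : ℝ) :=
    h1.trans (h.trans (mul_le_mul_of_nonneg_right h2 (Nat.cast_nonneg _)))
  have h4 : (θ * N0 ^ 4) ^ (k ^ 4) =
      N0 ^ (4 * (k ^ 4 - k)) * (θ ^ (k ^ 4) * N0 ^ (4 * k)) := by
    rw [mul_pow, ← pow_mul, mul_comm (N0 ^ (4 * (k ^ 4 - k))), mul_assoc, ← pow_add]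
    congr 2
    omega
  rw [h4] at h3
  exact le_of_mul_le_mul_left h3 (by positivity)

theorem card_first [Fintype V] [DecidableEq V] {k : ℕ} (hk : 0 < k) (v : V) :
    ((Finset.univ : Finset (Fin k → V)).filter (fun r => r ⟨0, hk⟩ = v)).card =
      Fintype.card V ^ (k - 1) := by
  classical
  have e : (Finset.univ : Finset (Fin k → V)).filter (fun r => r ⟨0, hk⟩ = v) =
      Fintype.piFinset (fun j : Fin k => if j = ⟨0, hk⟩ then {v} else Finset.univ) := by
    ext r
    simp only [Finset.mem_filter, Finset.mem_univ, true_and, Fintype.mem_piFinset]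
    constructor
    · intro h j
      split_ifs with hj
      · rw [hj, h]; exact Finset.mem_singleton_self _
      · exact Finset.mem_univ _
    · intro h
      have := h ⟨0, hk⟩
      rw [if_pos rfl] at this
      exact Finset.mem_singleton.1 this
  rw [e, Fintype.card_piFinset, ← Finset.mul_prod_erase _ _ (Finset.mem_univ (⟨0, hk⟩ : Fin k)),
    if_pos rfl, Finset.card_singleton, one_mul]
  rw [Finset.prod_congr rfl (g := fun _ => Fintype.card V)]
  · rw [Finset.prod_const, Finset.card_erase_of_mem (Finset.mem_univ _), Finset.card_univ,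
      Fintype.card_fin]
  · intro j hj
    rw [if_neg (Finset.ne_of_mem_erase hj), Finset.card_univ]

theorem card_pi4 [Fintype V] [DecidableEq V] {k : ℕ} (i : Fin 4) (A : Finset (Fin k → V))
    (B : Fin 4 → Finset (Fin k → V)) (M : ℕ) (hB : ∀ i', i' ≠ i → (B i').card ≤ M) :
    (Fintype.piFinset (fun i' : Fin 4 => if i' = i then A else B i')).card ≤ A.card * M ^ 3 := by
  classical
  rw [Fintype.card_piFinset, ← Finset.mul_prod_erase _ _ (Finset.mem_univ i), if_pos rfl]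
  refine Nat.mul_le_mul_left _ ?_
  refine (Finset.prod_le_pow_card _ _ M ?_).trans (le_of_eq ?_)
  · intro j hj
    rw [if_neg (Finset.ne_of_mem_erase hj)]
    exact hB j (Finset.ne_of_mem_erase hj)
  · rw [Finset.card_erase_of_mem (Finset.mem_univ _), Finset.card_univ, Fintype.card_fin]

theorem bad1 [Fintype V] [DecidableEq V] (k : ℕ) (N0 κ : ℝ)
    (hV : (Fintype.card V : ℝ) ≤ N0) (hN0 : 0 < N0) (hκ : 0 ≤ κ)
    (H : Finset (Fin 4 → V)) (E : Finset (Fin k → V)) (hE : (E.card : ℝ) ≤ κ * N0 ^ k)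
    (i : Fin 4) :
    (((FB k H).filter (fun p => p i ∈ E)).card : ℝ) ≤ κ * N0 ^ (4 * k) := by
  classical
  have h1 : (FB k H).filter (fun p => p i ∈ E) ⊆
      Fintype.piFinset (fun i' : Fin 4 => if i' = i then E else Finset.univ) := by
    intro p hp
    rw [Finset.mem_filter] at hp
    rw [Fintype.mem_piFinset]
    intro i'
    split_ifs with h
    · rw [h]; exact hp.2
    · exact Finset.mem_univ _
  have h2 := (Finset.card_le_card h1).trans (card_pi4 i E (fun _ => Finset.univ)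
    (Fintype.card V ^ k) (fun i' _ => by rw [Finset.card_univ, Fintype.card_fun, Fintype.card_fin]))
  have h3 : (((FB k H).filter (fun p => p i ∈ E)).card : ℝ) ≤
      (E.card : ℝ) * ((Fintype.card V : ℝ) ^ k) ^ 3 := by exact_mod_cast h2
  refine h3.trans ?_
  have h4 : ((Fintype.card V : ℝ) ^ k) ^ 3 ≤ (N0 ^ k) ^ 3 :=
    pow_le_pow_left₀ (by positivity) (pow_le_pow_left₀ (Nat.cast_nonneg _) hV _) _
  calc (E.card : ℝ) * ((Fintype.card V : ℝ) ^ k) ^ 3 ≤ (κ * N0 ^ k) * (N0 ^ k) ^ 3 := by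
        refine mul_le_mul hE h4 (by positivity) (by positivity)
    _ = κ * N0 ^ (4 * k) := by
        rw [mul_assoc, ← pow_succ' (N0 ^ k) 3, ← pow_mul, mul_comm k]

theorem bad2 [Fintype V] [DecidableEq V] (k : ℕ) (hk : 0 < k) (N0 κ : ℝ)
    (hV : (Fintype.card V : ℝ) ≤ N0) (hN0 : 0 < N0) (hκ : 0 ≤ κ)
    (H : Finset (Fin 4 → V)) (i : Fin 4) :
    (((FB k H).filter (fun p => ((CC hk H i (p i)).card : ℝ) < κ * N0 ^ 3)).card : ℝ) ≤
      κ * N0 ^ (4 * k) := by
  classical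
  set Q : Finset (Fin k → V) :=
    Finset.univ.filter (fun q => ((CC hk H i q).card : ℝ) < κ * N0 ^ 3) with hQ
  have h1 : (FB k H).filter (fun p => ((CC hk H i (p i)).card : ℝ) < κ * N0 ^ 3) ⊆
      Q.biUnion (fun q => (CC hk H i q).biUnion (fun c =>
        Fintype.piFinset (fun i' : Fin 4 => if i' = i then ({q} : Finset (Fin k → V)) else
          Finset.univ.filter (fun r => r ⟨0, hk⟩ = c i')))) := by
    intro p hp
    rw [Finset.mem_filter, FB, Finset.mem_filter] at hp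
    rw [Finset.mem_biUnion]
    refine ⟨p i, ?_, ?_⟩
    · rw [hQ, Finset.mem_filter]
      exact ⟨Finset.mem_univ _, hp.2⟩
    rw [Finset.mem_biUnion]
    refine ⟨fun i' => p i' ⟨0, hk⟩, ?_, ?_⟩
    · rw [CC, Finset.mem_filter]
      refine ⟨hp.1.2 (fun _ => ⟨0, hk⟩), rfl, fun j => ?_⟩
      have := hp.1.2 (Function.update (fun _ => (⟨0, hk⟩ : Fin k)) i j)
      convert this using 1
      funext i'
      by_cases h : i' = i
      · subst h; simp
      · simp [h]
    · rw [Fintype.mem_piFinset]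
      intro i'
      split_ifs with h
      · rw [h]; exact Finset.mem_singleton_self _
      · rw [Finset.mem_filter]
        exact ⟨Finset.mem_univ _, rfl⟩
  have h2 : ∀ q ∈ Q, (((CC hk H i q).biUnion (fun c =>
        Fintype.piFinset (fun i' : Fin 4 => if i' = i then ({q} : Finset (Fin k → V)) else
          Finset.univ.filter (fun r => r ⟨0, hk⟩ = c i')))).card : ℝ) ≤
      (κ * N0 ^ 3) * (N0 ^ (k - 1)) ^ 3 := by
    intro q hq
    rw [hQ, Finset.mem_filter] at hq
    have h3 : ((CC hk H i q).biUnion (fun c =>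
        Fintype.piFinset (fun i' : Fin 4 => if i' = i then ({q} : Finset (Fin k → V)) else
          Finset.univ.filter (fun r => r ⟨0, hk⟩ = c i')))).card ≤
        (CC hk H i q).card * (Fintype.card V ^ (k - 1)) ^ 3 := by
      refine Finset.card_biUnion_le_card_mul _ _ _ fun c _ => ?_
      refine (card_pi4 i {q} _ (Fintype.card V ^ (k - 1)) fun i' _ => ?_).trans (le_of_eq ?_)
      · rw [card_first hk]
      · rw [Finset.card_singleton, one_mul]
    have h4 : (((CC hk H i q).biUnion (fun c =>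
        Fintype.piFinset (fun i' : Fin 4 => if i' = i then ({q} : Finset (Fin k → V)) else
          Finset.univ.filter (fun r => r ⟨0, hk⟩ = c i')))).card : ℝ) ≤
        ((CC hk H i q).card : ℝ) * ((Fintype.card V : ℝ) ^ (k - 1)) ^ 3 := by exact_mod_cast h3
    refine h4.trans ?_
    refine mul_le_mul hq.2.le ?_ (by positivity) (by positivity)
    exact pow_le_pow_left₀ (by positivity) (pow_le_pow_left₀ (Nat.cast_nonneg _) hV _) _
  have h5 : (((FB k H).filter (fun p => ((CC hk H i (p i)).card : ℝ) < κ * N0 ^ 3)).card : ℝ) ≤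
      ∑ q ∈ Q, (κ * N0 ^ 3) * (N0 ^ (k - 1)) ^ 3 := by
    have h6 := (Finset.card_le_card h1).trans Finset.card_biUnion_le
    have h7 : (((FB k H).filter (fun p => ((CC hk H i (p i)).card : ℝ) < κ * N0 ^ 3)).card : ℝ) ≤
        ∑ q ∈ Q, (((CC hk H i q).biUnion (fun c =>
        Fintype.piFinset (fun i' : Fin 4 => if i' = i then ({q} : Finset (Fin k → V)) else
          Finset.univ.filter (fun r => r ⟨0, hk⟩ = c i')))).card : ℝ) := by exact_mod_cast h6
    exact h7.trans (Finset.sum_le_sum h2)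
  refine h5.trans ?_
  rw [Finset.sum_const, nsmul_eq_mul]
  have h8 : (Q.card : ℝ) ≤ N0 ^ k := by
    have h9 : Q.card ≤ Fintype.card V ^ k := by
      refine (Finset.card_le_univ Q).trans (le_of_eq ?_)
      rw [Fintype.card_fun, Fintype.card_fin]
    calc (Q.card : ℝ) ≤ (Fintype.card V : ℝ) ^ k := by exact_mod_cast h9
      _ ≤ N0 ^ k := pow_le_pow_left₀ (Nat.cast_nonneg _) hV _
  calc (Q.card : ℝ) * (κ * N0 ^ 3 * (N0 ^ (k - 1)) ^ 3)
      ≤ N0 ^ k * (κ * N0 ^ 3 * (N0 ^ (k - 1)) ^ 3) :=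
        mul_le_mul_of_nonneg_right h8 (by positivity)
    _ = κ * N0 ^ (4 * k) := by
        obtain ⟨n, rfl⟩ : ∃ n, k = n + 1 := ⟨k - 1, by omega⟩
        rw [Nat.add_sub_cancel]
        ring

/-- [BOX] There is a full box whose tuples are not exceptional and for which all the sets `CC`
are large. -/
theorem goodbox [Fintype V] [DecidableEq V] (k : ℕ) (hk : 0 < k) (N0 θ e κ : ℝ)
    (hV : (Fintype.card V : ℝ) ≤ N0) (hN0 : 0 < N0) (hθ : 0 < θ) (he : 0 ≤ e) (hκ : 0 ≤ κ)
    (h8 : 4 * (e + κ) < θ ^ (k ^ 4))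
    (H : Finset (Fin 4 → V)) (hH : θ * N0 ^ 4 ≤ (H.card : ℝ))
    (E : Finset (Fin k → V)) (hE : (E.card : ℝ) ≤ e * N0 ^ k) :
    ∃ p : Fin 4 → Fin k → V, (∀ e : Fin 4 → Fin k, (fun i => p i (e i)) ∈ H) ∧
      (∀ i, p i ∉ E) ∧ ∀ i, κ * N0 ^ 3 ≤ ((CC hk H i (p i)).card : ℝ) := by
  classical
  by_contra hcon
  push Not at hcon
  have h1 : FB k H ⊆ (Finset.univ : Finset (Fin 4)).biUnion (fun i =>
      (FB k H).filter (fun p => p i ∈ E) ∪
      (FB k H).filter (fun p => ((CC hk H i (p i)).card : ℝ) < κ * N0 ^ 3)) := by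
    intro p hp
    rw [Finset.mem_biUnion]
    have hp' := hp
    rw [FB, Finset.mem_filter] at hp'
    by_cases h : ∀ i, p i ∉ E
    · obtain ⟨i, hi⟩ := hcon p hp'.2 h
      exact ⟨i, Finset.mem_univ _, Finset.mem_union_right _ (Finset.mem_filter.2 ⟨hp, hi⟩)⟩
    · push Not at h
      obtain ⟨i, hi⟩ := h
      exact ⟨i, Finset.mem_univ _, Finset.mem_union_left _ (Finset.mem_filter.2 ⟨hp, hi⟩)⟩
  have h2 : ((FB k H).card : ℝ) ≤ ∑ i : Fin 4,
      ((((FB k H).filter (fun p => p i ∈ E)).card : ℝ) +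
      (((FB k H).filter (fun p => ((CC hk H i (p i)).card : ℝ) < κ * N0 ^ 3)).card : ℝ)) := by
    have h3 := (Finset.card_le_card h1).trans (Finset.card_biUnion_le.trans
      (Finset.sum_le_sum fun i _ => Finset.card_union_le _ _))
    exact_mod_cast h3
  have h4 : ∑ i : Fin 4,
      ((((FB k H).filter (fun p => p i ∈ E)).card : ℝ) +
      (((FB k H).filter (fun p => ((CC hk H i (p i)).card : ℝ) < κ * N0 ^ 3)).card : ℝ)) ≤
      ∑ _i : Fin 4, (e * N0 ^ (4 * k) + κ * N0 ^ (4 * k)) :=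
    Finset.sum_le_sum fun i _ => add_le_add (bad1 k N0 e hV hN0 he H E hE i)
      (bad2 k hk N0 κ hV hN0 hκ H i)
  have h5 := card_FB k hk N0 θ hV hN0 hθ H hH
  have h6 : ∑ _i : Fin 4, (e * N0 ^ (4 * k) + κ * N0 ^ (4 * k)) =
      4 * (e + κ) * N0 ^ (4 * k) := by
    rw [Finset.sum_const, Finset.card_univ, Fintype.card_fin, nsmul_eq_mul]
    push_cast
    ring
  have h7 : θ ^ (k ^ 4) * N0 ^ (4 * k) ≤ 4 * (e + κ) * N0 ^ (4 * k) := by
    rw [← h6]; exact h5.trans (h2.trans h4)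
  have h9 := le_of_mul_le_mul_right h7 (by positivity)
  linarith

end Pool.Agent.Work.MP_e0c7e8_nt.AV.BoxG
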