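import Pool.Agent.Work.MP_e0c7e8_nt.AV.Stmts
import Pool.Agent.Work.MP_e0c7e8_nt.AV.I_BOXG

/-!
# Item BOX of the block AV: a full box outside `E` with large common neighbourhoods
-/

set_option autoImplicit false

namespace Pool.Agent.Work.MP_e0c7e8_nt.AV

open Finset

namespace I_BOX

/-- The points of a set with all coordinates in `N`, as functions with values in the subtype. -/
theorem card_sub {α : Type} [DecidableEq α] {ι : Type} [Fintype ι] [DecidableEq ι] (N : Finset α)
    (S : Finset (ι → α)) :
    ((Finset.univ : Finset (ι → ↥N)).filter (fun c => (fun i => (c i : α)) ∈ S)).card ≤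
      S.card := by
  refine Finset.card_le_card_of_injOn (fun c i => (c i : α)) ?_ ?_
  · intro c hc
    exact (Finset.mem_filter.1 (Finset.mem_coe.1 hc)).2
  · intro c _ c' _ h
    funext i
    exact Subtype.ext (congrFun h i)

theorem card_sub' {α : Type} [DecidableEq α] {ι : Type} [Fintype ι] [DecidableEq ι] (N : Finset α)
    (S : Finset (ι → α)) (hS : S ⊆ Fintype.piFinset fun _ => N) :
    S.card ≤
      ((Finset.univ : Finset (ι → ↥N)).filter (fun c => (fun i => (c i : α)) ∈ S)).card := by
  classical
  have h : S ⊆ ((Finset.univ : Finset (ι → ↥N)).filter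
      (fun c => (fun i => (c i : α)) ∈ S)).image (fun c i => (c i : α)) := by
    intro c hc
    have hc' := Fintype.mem_piFinset.1 (hS hc)
    rw [Finset.mem_image]
    exact ⟨fun i => ⟨c i, hc' i⟩, Finset.mem_filter.2 ⟨Finset.mem_univ _, hc⟩, rfl⟩
  exact (Finset.card_le_card h).trans Finset.card_image_le

end I_BOX

open I_BOX in
theorem BOX_pf : S_BOX := by
  intro k α _ N H E N0 θ e κ hN0 hθ he hκ hN hH hHc hE h4
  have hV : (Fintype.card ↥N : ℝ) ≤ N0 := by
    rw [Fintype.card_coe]
    exact hN
  have hHc' : θ * N0 ^ 4 ≤ (((Finset.univ : Finset (Fin 4 → ↥N)).filter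
      (fun c => (fun i => (c i : α)) ∈ H)).card : ℝ) :=
    hHc.trans (by exact_mod_cast card_sub' N H hH)
  have hE' : (((Finset.univ : Finset (Fin (k + 1) → ↥N)).filter
      (fun c => (fun i => (c i : α)) ∈ E)).card : ℝ) ≤ e * N0 ^ (k + 1) :=
    le_trans (by exact_mod_cast card_sub N E) hE
  obtain ⟨p, hp1, hp2, hp3⟩ := BoxG.goodbox (V := ↥N) (k + 1) (Nat.succ_pos k) N0 θ e κ hV hN0 hθ
    he hκ.le h4 _ hHc' _ hE'
  refine ⟨fun i j => (p i j : α), ?_, ?_, ?_⟩
  · rw [FB, Finset.mem_filter]
    refine ⟨?_, ?_⟩
    · rw [Fintype.mem_piFinset]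
      intro i
      rw [Fintype.mem_piFinset]
      intro j
      exact (p i j).2
    · intro a
      exact (Finset.mem_filter.1 (hp1 a)).2
  · intro i hi
    exact hp2 i (Finset.mem_filter.2 ⟨Finset.mem_univ _, hi⟩)
  · intro i
    refine (hp3 i).trans ?_
    have hle : (BoxG.CC (V := ↥N) (Nat.succ_pos k) ((Finset.univ : Finset (Fin 4 → ↥N)).filter
        (fun c => (fun i => (c i : α)) ∈ H)) i (p i)).card ≤
        (CI H i (fun j => (p i j : α))).card := by
      refine Finset.card_le_card_of_injOn (fun c i => (c i : α)) ?_ ?_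
      · intro c hc
        have hc' := Finset.mem_coe.1 hc
        rw [BoxG.CC, Finset.mem_filter] at hc'
        obtain ⟨h1, h2, h3⟩ := hc'
        refine Finset.mem_coe.2 ?_
        rw [CI, Finset.mem_filter]
        refine ⟨(Finset.mem_filter.1 h1).2, ?_, fun j => ?_⟩
        · show ((c i : ↥N) : α) = ((p i 0 : ↥N) : α)
          rw [h2]
          rfl
        · have h4 := (Finset.mem_filter.1 (h3 j)).2
          have h5 : (fun i' => ((Function.update c i (p i j)) i' : α)) =
              Function.update (fun i => (c i : α)) i (p i j : α) := by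
            funext i'
            by_cases h : i' = i
            · subst h
              simp
            · simp [h]
          rw [h5] at h4
          exact h4
      · intro c _ c' _ h
        funext i'
        exact Subtype.ext (congrFun h i')
    exact_mod_cast hle

end Pool.Agent.Work.MP_e0c7e8_nt.AV
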