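import Pool.Agent.Work.MP_e0c7e8_nt.AV.StmtsI

/-!
# MP_e0c7e8_nt, block AV, item CCP (helper77): common primes
-/

set_option autoImplicit false

namespace Pool.Agent.Work.MP_e0c7e8_nt.AV

open Finset Pool.Agent.Work.MP_e0c7e8_nt.SM Pool.Agent.Work.MP_e0c7e8_nt.BG

namespace I_CCP

lemma mem_PRS {G : Type} [CommGroup G] {c : ℕ → G} {m i : ℕ} {S : Finset ℕ}
    {x : Finset ℕ × Finset ℕ} :
    x ∈ PRS c m i S ↔ ((x.1 ⊆ S ∧ x.1.card = i) ∧ (x.2 ⊆ S ∧ x.2.card = i)) ∧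
      (∏ p ∈ x.1, c p) ^ m = (∏ p ∈ x.2, c p) ^ m := by
  classical
  unfold PRS
  rw [mem_filter, mem_product, mem_powersetCard, mem_powersetCard]

lemma mem_DPR {G : Type} [CommGroup G] {c : ℕ → G} {m i : ℕ} {S : Finset ℕ}
    {x : Finset ℕ × Finset ℕ} :
    x ∈ DPR c m i S ↔ x ∈ PRS c m i S ∧ Disjoint x.1 x.2 := by
  classical
  unfold DPR
  rw [mem_filter]

lemma sdiff_mem {G : Type} [CommGroup G] {c : ℕ → G} {m J : ℕ} {S : Finset ℕ}
    {x : Finset ℕ × Finset ℕ} (hx : x ∈ PRS c m J S) :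
    (x.1 \ x.2, x.2 \ x.1) ∈ DPR c m (x.1 \ x.2).card S := by
  rw [mem_PRS] at hx
  obtain ⟨⟨⟨h1, h2⟩, h3, h4⟩, h5⟩ := hx
  rw [mem_DPR, mem_PRS]
  refine ⟨⟨⟨⟨sdiff_subset.trans h1, rfl⟩, sdiff_subset.trans h3, ?_⟩, ?_⟩, ?_⟩
  · have e1 := card_sdiff_add_card_inter x.1 x.2
    have e2 := card_sdiff_add_card_inter x.2 x.1
    rw [inter_comm x.2 x.1] at e2
    show (x.2 \ x.1).card = (x.1 \ x.2).card
    omega
  · show (∏ p ∈ x.1 \ x.2, c p) ^ m = (∏ p ∈ x.2 \ x.1, c p) ^ m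
    have e1 : (∏ p ∈ x.1 \ x.2, c p) * (∏ p ∈ x.1 ∩ x.2, c p) = ∏ p ∈ x.1, c p := by
      rw [mul_comm]
      exact prod_inter_mul_prod_sdiff x.1 x.2 c
    have e2 : (∏ p ∈ x.2 \ x.1, c p) * (∏ p ∈ x.1 ∩ x.2, c p) = ∏ p ∈ x.2, c p := by
      rw [mul_comm, inter_comm x.1 x.2]
      exact prod_inter_mul_prod_sdiff x.2 x.1 c
    rw [← e1, ← e2, mul_pow, mul_pow] at h5
    exact mul_right_cancel h5
  · show Disjoint (x.1 \ x.2) (x.2 \ x.1)
    exact disjoint_sdiff_sdiff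

end I_CCP

theorem CCP_pf : S_CCP := by
  intro G _ c m J S
  classical
  have h1 : (PRS c m J S).card ≤ ((range (J + 1)).sigma
      (fun i => powersetCard (J - i) S ×ˢ DPR c m i S)).card := by
    refine card_le_card_of_injOn
      (fun x => ⟨(x.1 \ x.2).card, (x.1 ∩ x.2, (x.1 \ x.2, x.2 \ x.1))⟩) ?_ ?_
    · intro x hx
      have hx' : x ∈ PRS c m J S := hx
      have hd := I_CCP.sdiff_mem hx'
      rw [I_CCP.mem_PRS] at hx'
      obtain ⟨⟨⟨h1, h2⟩, h3, h4⟩, h5⟩ := hx'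
      have e1 := card_sdiff_add_card_inter x.1 x.2
      rw [mem_coe, mem_sigma, mem_range, mem_product, mem_powersetCard]
      refine ⟨?_, ⟨inter_subset_left.trans h1, ?_⟩, hd⟩
      · show (x.1 \ x.2).card < J + 1
        omega
      · show (x.1 ∩ x.2).card = J - (x.1 \ x.2).card
        omega
    · intro x _ y _ hxy
      simp only [Sigma.mk.injEq] at hxy
      obtain ⟨-, h⟩ := hxy
      have h' := eq_of_heq h
      simp only [Prod.mk.injEq] at h'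
      obtain ⟨a1, a2, a3⟩ := h'
      refine Prod.ext ?_ ?_
      · have e1 : x.1 = (x.1 \ x.2) ∪ (x.1 ∩ x.2) := (sdiff_union_inter x.1 x.2).symm
        have e2 : y.1 = (y.1 \ y.2) ∪ (y.1 ∩ y.2) := (sdiff_union_inter y.1 y.2).symm
        rw [e1, e2, a1, a2]
      · have e1 : x.2 = (x.2 \ x.1) ∪ (x.1 ∩ x.2) := by
          rw [inter_comm]; exact (sdiff_union_inter x.2 x.1).symm
        have e2 : y.2 = (y.2 \ y.1) ∪ (y.1 ∩ y.2) := by
          rw [inter_comm]; exact (sdiff_union_inter y.2 y.1).symm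
        rw [e1, e2, a1, a3]
  refine h1.trans ?_
  rw [card_sigma]
  refine sum_le_sum fun i _ => ?_
  rw [card_product, card_powersetCard]
  exact Nat.mul_le_mul_right _ (Nat.choose_le_pow _ _)

end Pool.Agent.Work.MP_e0c7e8_nt.AV
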