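import Pool.Agent.Work.MP_e0c7e8_nt.AV.StmtsI
import Pool.Agent.Work.MP_e0c7e8_nt.BG.I_IDB

/-!
# Item CL1 of the block AV (helper52): classes and generators
-/

set_option autoImplicit false

namespace Pool.Agent.Work.MP_e0c7e8_nt.AV

open Finset Pool.Agent.Work.MP_e0c7e8_nt.SM Pool.Agent.Work.MP_e0c7e8_nt.BG

/-- Products of fractional ideals that are ideals. -/
theorem I_CL1.coe_prod {R : Type} [CommRing R] [IsDomain R] (s : Finset ℕ)
    (W : ℕ → (FractionalIdeal (nonZeroDivisors R) (FractionRing R))ˣ) (I : ℕ → Ideal R)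
    (h : ∀ p ∈ s, (W p : FractionalIdeal (nonZeroDivisors R) (FractionRing R)) = (I p : _)) :
    ((∏ p ∈ s, W p : (FractionalIdeal (nonZeroDivisors R) (FractionRing R))ˣ) :
      FractionalIdeal (nonZeroDivisors R) (FractionRing R)) =
      ((∏ p ∈ s, I p : Ideal R) : FractionalIdeal (nonZeroDivisors R) (FractionRing R)) := by
  have := I_IDB.coe_prod s W I (fun _ => 1) h
  simpa only [pow_one] using this

theorem CL1_pf (h1 : ClaimC2b1) : S_CL1 := by
  classical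
  intro d n hd hd4 hRt
  have hU : ∀ p : ℕ, ∃ U V : (FractionalIdeal (nonZeroDivisors ↥(Od d)) (FractionRing ↥(Od d)))ˣ,
      p.Prime → chi d p = 1 →
      (U : FractionalIdeal (nonZeroDivisors ↥(Od d)) (FractionRing ↥(Od d))) =
        (Pi1 d p (n p) : FractionalIdeal (nonZeroDivisors ↥(Od d)) (FractionRing ↥(Od d))) ∧
      (V : FractionalIdeal (nonZeroDivisors ↥(Od d)) (FractionRing ↥(Od d))) =
        (Pi2 d p (n p) : FractionalIdeal (nonZeroDivisors ↥(Od d)) (FractionRing ↥(Od d))) ∧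
      ClassGroup.mk (FractionRing ↥(Od d)) U * ClassGroup.mk (FractionRing ↥(Od d)) V = 1 := by
    intro p
    by_cases hp : p.Prime ∧ chi d p = 1
    · obtain ⟨ha, hb⟩ := hRt p hp.1 hp.2
      have hp0 : ((p : ℕ) : ↥(Od d)) ≠ 0 := by exact_mod_cast hp.1.ne_zero
      obtain ⟨U, V, h⟩ := ItemC2b.units _ _ _ hp0 (h1 d p (n p) hd hd4 hp.1 ha hb)
      exact ⟨U, V, fun _ _ => h⟩
    · exact ⟨1, 1, fun ha hb => absurd ⟨ha, hb⟩ hp⟩
  choose U V hUV using hU
  refine ⟨fun p => ClassGroup.mk (FractionRing ↥(Od d)) (U p), ?_⟩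
  intro A B m hAB hm
  have hA : ∀ p ∈ A, (U p : FractionalIdeal (nonZeroDivisors ↥(Od d)) (FractionRing ↥(Od d))) =
      (Pi1 d p (n p) : FractionalIdeal (nonZeroDivisors ↥(Od d)) (FractionRing ↥(Od d))) := by
    intro p hp
    obtain ⟨hp1, hp2⟩ := hAB p (Finset.mem_union_left _ hp)
    exact (hUV p hp1 hp2).1
  have hB : ∀ p ∈ B, (V p : FractionalIdeal (nonZeroDivisors ↥(Od d)) (FractionRing ↥(Od d))) =
      (Pi2 d p (n p) : FractionalIdeal (nonZeroDivisors ↥(Od d)) (FractionRing ↥(Od d))) := by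
    intro p hp
    obtain ⟨hp1, hp2⟩ := hAB p (Finset.mem_union_right _ hp)
    exact (hUV p hp1 hp2).2.1
  have hinv : (∏ p ∈ B, ClassGroup.mk (FractionRing ↥(Od d)) (U p)) *
      (∏ p ∈ B, ClassGroup.mk (FractionRing ↥(Od d)) (V p)) = 1 := by
    rw [← Finset.prod_mul_distrib]
    apply Finset.prod_eq_one
    intro p hp
    obtain ⟨hp1, hp2⟩ := hAB p (Finset.mem_union_right _ hp)
    exact (hUV p hp1 hp2).2.2
  have hone : ClassGroup.mk (FractionRing ↥(Od d))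
      ((∏ p ∈ A, U p) ^ m * (∏ p ∈ B, V p) ^ m) = 1 := by
    rw [map_mul, map_pow, map_pow, map_prod, map_prod]
    have hm' : (∏ p ∈ A, ClassGroup.mk (FractionRing ↥(Od d)) (U p)) ^ m =
      (∏ p ∈ B, ClassGroup.mk (FractionRing ↥(Od d)) (U p)) ^ m := hm
    rw [hm', ← mul_pow, hinv, one_pow]
  have hval : (((∏ p ∈ A, U p) ^ m * (∏ p ∈ B, V p) ^ m :
      (FractionalIdeal (nonZeroDivisors ↥(Od d)) (FractionRing ↥(Od d)))ˣ) :
      FractionalIdeal (nonZeroDivisors ↥(Od d)) (FractionRing ↥(Od d))) =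
      (((∏ p ∈ A, Pi1 d p (n p)) ^ m * (∏ p ∈ B, Pi2 d p (n p)) ^ m : Ideal ↥(Od d)) :
        FractionalIdeal (nonZeroDivisors ↥(Od d)) (FractionRing ↥(Od d))) := by
    rw [Units.val_mul, Units.val_pow_eq_pow_val, Units.val_pow_eq_pow_val,
      I_CL1.coe_prod A U (fun p => Pi1 d p (n p)) hA,
      I_CL1.coe_prod B V (fun p => Pi2 d p (n p)) hB,
      FractionalIdeal.coeIdeal_mul, FractionalIdeal.coeIdeal_pow, FractionalIdeal.coeIdeal_pow]
  rw [ClassGroup.mk_eq_one_of_coe_ideal hval] at hone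
  obtain ⟨g, _, hg⟩ := hone
  exact ⟨g, hg⟩

end Pool.Agent.Work.MP_e0c7e8_nt.AV
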