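import Pool.Agent.Work.MP_e0c7e8_nt.AV.StmtsI
import Pool.Agent.Work.MP_e0c7e8_nt.SM.ItemC2b2

/-!
# Item CL2 of the block AV (helper71): the equation
-/

set_option autoImplicit false

namespace Pool.Agent.Work.MP_e0c7e8_nt.AV

open Finset Pool.Agent.Work.MP_e0c7e8_nt.SM Pool.Agent.Work.MP_e0c7e8_nt.BG

namespace I_CL2

open ItemC2b2

theorem key (h0 : ClaimC0) (h1 : ClaimC2b1) (d : ℤ) (S : Finset ℕ) (n : ℕ → ℤ) (f g : ℕ → ℕ)
    (α : ↥(Od d)) (hd : d < 0) (hd4 : d % 4 = 0 ∨ d % 4 = 1)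
    (hS : ∀ p ∈ S, p.Prime ∧ (p : ℤ) ∣ FF d (n p) ∧ ¬ (p : ℤ) ∣ 2 * n p + d)
    (hfg : ∀ p ∈ S, (f p = 0 ∧ 0 < g p) ∨ (g p = 0 ∧ 0 < f p))
    (hprod : ∏ p ∈ S, (Pi1 d p (n p) ^ f p * Pi2 d p (n p) ^ g p) = Ideal.span {α}) :
    ∃ u v : ℤ, u ^ 2 + u * v * d + v ^ 2 * ((d ^ 2 - d) / 4) = ∏ p ∈ S, (p : ℤ) ^ (f p + g p) ∧
      ∀ p ∈ S, ¬ (p : ℤ) ∣ v := by
  obtain ⟨hrep, hns, hnb, hth, σ, hσθ, hσn⟩ := h0 d hd hd4
  -- the integer m
  obtain ⟨m, hm⟩ : ∃ m : ℕ, m = ∏ p ∈ S, p ^ (f p + g p) := ⟨_, rfl⟩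
  have hmpos : 0 < m := by
    rw [hm]
    exact Finset.prod_pos (fun p hp => pow_pos (hS p hp).1.pos _)
  -- the norm ideal
  have hA : Ideal.span {α} * Ideal.map (σ : ↥(Od d) →+* ↥(Od d)) (Ideal.span {α}) =
      Ideal.span {(m : ↥(Od d))} := by
    rw [← hprod]
    have e1 : Ideal.map (σ : ↥(Od d) →+* ↥(Od d))
        (∏ p ∈ S, (Pi1 d p (n p) ^ f p * Pi2 d p (n p) ^ g p)) =
        ∏ p ∈ S, (Pi2 d p (n p) ^ f p * Pi1 d p (n p) ^ g p) := by
      have e0 := map_prod (Ideal.mapHom (σ : ↥(Od d) →+* ↥(Od d)))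
        (fun p => Pi1 d p (n p) ^ f p * Pi2 d p (n p) ^ g p) S
      change Ideal.map (σ : ↥(Od d) →+* ↥(Od d)) _ = ∏ p ∈ S, Ideal.map
        (σ : ↥(Od d) →+* ↥(Od d)) (Pi1 d p (n p) ^ f p * Pi2 d p (n p) ^ g p) at e0
      rw [e0]
      refine Finset.prod_congr rfl ?_
      intro p _
      rw [Ideal.map_mul, Ideal.map_pow, Ideal.map_pow, map_Pi1 σ hσθ, map_Pi2 σ hσθ]
    rw [e1, ← Finset.prod_mul_distrib]
    have e2 : ∀ p ∈ S, Pi1 d p (n p) ^ f p * Pi2 d p (n p) ^ g p *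
        (Pi2 d p (n p) ^ f p * Pi1 d p (n p) ^ g p) =
        Ideal.span {(p : ↥(Od d)) ^ (f p + g p)} := by
      intro p hp
      obtain ⟨hp1, hp2, hp3⟩ := hS p hp
      rw [← Ideal.span_singleton_pow, ← h1 d p (n p) hd hd4 hp1 hp2 hp3]
      ring
    rw [Finset.prod_congr rfl e2, Ideal.prod_span_singleton, hm]
    push_cast
    rfl
  obtain ⟨u, v, huv⟩ := hrep α
  obtain ⟨N, hN⟩ : ∃ N : ℤ, N = u ^ 2 + u * v * d + v ^ 2 * ((d ^ 2 - d) / 4) := ⟨_, rfl⟩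
  have hnα : Complex.normSq (α : ℂ) = (N : ℝ) := by
    rw [huv, hns u v, hN]
  have hασ : α * σ α = (N : ↥(Od d)) := by
    apply Subtype.ext
    rw [hσn α, hnα]
    simp
  rw [Ideal.map_span, Set.image_singleton, Ideal.span_singleton_mul_span_singleton] at hA
  have hA' : Ideal.span {(N : ↥(Od d))} = Ideal.span {(m : ↥(Od d))} := by
    rw [← hασ, ← hA]
    rfl
  have hdv1 : (N : ℤ) ∣ (m : ℤ) := by
    apply dvd_of_dvd hd hrep hnb
    have : (m : ↥(Od d)) ∈ Ideal.span {(N : ↥(Od d))} := by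
      rw [hA']; exact Ideal.mem_span_singleton_self _
    have := Ideal.mem_span_singleton.1 this
    rwa [Int.cast_natCast]
  have hdv2 : (m : ℤ) ∣ N := by
    apply dvd_of_dvd hd hrep hnb
    have : (N : ↥(Od d)) ∈ Ideal.span {(m : ↥(Od d))} := by
      rw [← hA']; exact Ideal.mem_span_singleton_self _
    have := Ideal.mem_span_singleton.1 this
    rwa [Int.cast_natCast]
  have hN0 : 0 ≤ N := by
    have := Complex.normSq_nonneg (α : ℂ)
    rw [hnα] at this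
    exact_mod_cast this
  have hNm : N = (m : ℤ) := Int.dvd_antisymm hN0 (by positivity) hdv1 hdv2
  refine ⟨u, v, ?_, ?_⟩
  · rw [← hN, hNm, hm]
    push_cast
    rfl
  -- the key step
  have hθ2 : th d * th d = (d : ↥(Od d)) * th d - (((d ^ 2 - d) / 4 : ℤ) : ↥(Od d)) := by
    linear_combination -hth
  intro p hp hpv
  obtain ⟨hp1, hp2, hp3⟩ := hS p hp
  have hfgp : 0 < f p + g p := by
    rcases hfg p hp with h | h <;> omega
  have hpα : (p : ↥(Od d)) ∣ α := by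
    have h2 : p ∣ m := by
      rw [hm]
      exact (dvd_pow_self p hfgp.ne').trans (Finset.dvd_prod_of_mem _ hp)
    have h3 : (p : ℤ) ∣ u ^ 2 := by
      have h4 : (p : ℤ) ∣ N := by
        rw [hNm]
        exact_mod_cast h2
      have h5 : u ^ 2 = N - (u * d) * v - (v * ((d ^ 2 - d) / 4)) * v := by
        rw [hN]; ring
      rw [h5]
      exact ((h4.sub (hpv.mul_left _)).sub (hpv.mul_left _))
    have h4 : (p : ℤ) ∣ u := (Nat.prime_iff_prime_int.1 hp1).dvd_of_dvd_pow h3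
    obtain ⟨w, hw⟩ := h4
    obtain ⟨w', hw'⟩ := hpv
    refine ⟨(w : ↥(Od d)) + (w' : ↥(Od d)) * th d, ?_⟩
    rw [huv, hw, hw']
    push_cast
    ring
  obtain ⟨F, hF⟩ := hp2
  have hFF : ((n p : ℤ) : ↥(Od d)) ^ 2 + (d : ↥(Od d)) * ((n p : ℤ) : ↥(Od d)) +
      (((d ^ 2 - d) / 4 : ℤ) : ↥(Od d)) = (p : ↥(Od d)) * (F : ↥(Od d)) := by
    have := congrArg (fun z : ℤ => (z : ↥(Od d))) hF
    unfold FF at this
    push_cast at this
    exact this
  -- M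
  obtain ⟨M, hM⟩ : ∃ M : ℕ, M = ∏ q ∈ S.erase p, q ^ (f q + g q) := ⟨_, rfl⟩
  have hpM : ¬ (p : ℤ) ∣ (M : ℤ) := by
    intro hcon
    rw [Int.natCast_dvd_natCast, hM, (Nat.Prime.prime hp1).dvd_finsetProd_iff] at hcon
    obtain ⟨q, hq, hpq⟩ := hcon
    obtain ⟨hq1, hq2⟩ := Finset.mem_erase.1 hq
    have := (Nat.prime_dvd_prime_iff_eq hp1 (hS q hq2).1).1 (hp1.dvd_of_dvd_pow hpq)
    exact hq1 this.symm
  have hMmem : (M : ↥(Od d)) ∈
      ∏ q ∈ S.erase p, (Pi1 d q (n q) ^ f q * Pi2 d q (n q) ^ g q) := by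
    rw [hM]
    push_cast
    refine Ideal.prod_mem_prod ?_
    intro q _
    rw [pow_add]
    refine Ideal.mul_mem_mul (Ideal.pow_mem_pow ?_ _) (Ideal.pow_mem_pow ?_ _)
    · exact Ideal.subset_span (by simp)
    · exact Ideal.subset_span (by simp)
  have hmem : ∀ x : ↥(Od d), ∀ k : ℕ,
      x ^ k ∈ Pi1 d p (n p) ^ f p * Pi2 d p (n p) ^ g p →
      (p : ↥(Od d)) ∣ x ^ k * ((M : ℤ) : ↥(Od d)) := by
    intro x k hx
    have h2 : x ^ k * (M : ↥(Od d)) ∈ Ideal.span {α} := by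
      rw [← hprod, ← Finset.mul_prod_erase S _ hp]
      exact Ideal.mul_mem_mul hx hMmem
    have h3 := hpα.trans (Ideal.mem_span_singleton.1 h2)
    rwa [Int.cast_natCast]
  rcases hfg p hp with ⟨hf, hg⟩ | ⟨hg, hf⟩
  · obtain ⟨k, hk⟩ : ∃ k, g p = k + 1 := ⟨g p - 1, by omega⟩
    refine not_dvd hd hrep hnb p hp1 (n p + d) (-1) (2 * n p + d) F (M : ℤ) (Or.inr rfl) hp3 hpM
      ((n p : ↥(Od d)) + d - th d) ?_ ?_ k ?_
    · push_cast; ring
    · push_cast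
      linear_combination hθ2 - hFF
    · refine hmem _ _ ?_
      rw [hf, hk, pow_zero, one_mul]
      exact Ideal.pow_mem_pow (Ideal.subset_span (by simp)) _
  · obtain ⟨k, hk⟩ : ∃ k, f p = k + 1 := ⟨f p - 1, by omega⟩
    refine not_dvd hd hrep hnb p hp1 (n p) 1 (2 * n p + d) F (M : ℤ) (Or.inl rfl) hp3 hpM
      ((n p : ↥(Od d)) + th d) ?_ ?_ k ?_
    · push_cast; ring
    · push_cast
      linear_combination hθ2 - hFF
    · refine hmem _ _ ?_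
      rw [hg, hk, pow_zero, mul_one]
      exact Ideal.pow_mem_pow (Ideal.subset_span (by simp)) _

end I_CL2

theorem CL2_pf (h0 : ClaimC0) (h1 : ClaimC2b1) : S_CL2 := by
  intro d n hd hd4 hn A B m g hAB hdis hne hm hid
  classical
  have hS : ∀ p ∈ A ∪ B, p.Prime ∧ (p : ℤ) ∣ FF d (n p) ∧ ¬ (p : ℤ) ∣ 2 * n p + d :=
    fun p hp => ⟨(hAB p hp).1, hn p (hAB p hp).1 (hAB p hp).2⟩
  set f : ℕ → ℕ := fun p => if p ∈ A then m else 0 with hf
  set e : ℕ → ℕ := fun p => if p ∈ A then 0 else m with he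
  have hBA : ∀ p ∈ B, p ∉ A := fun p hp hpA => Finset.disjoint_left.1 hdis hpA hp
  have hprod : ∏ p ∈ A ∪ B, (Pi1 d p (n p) ^ f p * Pi2 d p (n p) ^ e p) = Ideal.span {g} := by
    rw [← hid, Finset.prod_union hdis, ← Finset.prod_pow, ← Finset.prod_pow]
    congr 1
    · refine Finset.prod_congr rfl fun p hp => ?_
      simp only [hf, he, if_pos hp, pow_zero, mul_one]
    · refine Finset.prod_congr rfl fun p hp => ?_
      simp only [hf, he, if_neg (hBA p hp), pow_zero, one_mul]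
  have hfe : ∀ p ∈ A ∪ B, (f p = 0 ∧ 0 < e p) ∨ (e p = 0 ∧ 0 < f p) := by
    intro p _
    by_cases hp : p ∈ A
    · right
      simp only [hf, he, if_pos hp]
      exact ⟨trivial, by omega⟩
    · left
      simp only [hf, he, if_neg hp]
      exact ⟨trivial, by omega⟩
  obtain ⟨u, v, huv, hv⟩ := I_CL2.key h0 h1 d (A ∪ B) n f e g hd hd4 hS hfe hprod
  have hpr : ∏ p ∈ A ∪ B, (p : ℤ) ^ (f p + e p) =
      ((∏ p ∈ A, (p : ℤ)) * ∏ p ∈ B, (p : ℤ)) ^ m := by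
    rw [← Finset.prod_union hdis, ← Finset.prod_pow]
    refine Finset.prod_congr rfl fun p _ => ?_
    congr 1
    by_cases hp : p ∈ A
    · simp only [hf, he, if_pos hp, add_zero]
    · simp only [hf, he, if_neg hp, zero_add]
  rw [hpr] at huv
  refine ⟨2 * u + d * v, v.natAbs, ?_, ?_, ?_⟩
  · obtain ⟨p, hp⟩ := hne
    by_contra hcon
    have hv0 : v = 0 := by omega
    exact hv p hp (by rw [hv0]; exact dvd_zero _)
  · intro p hp hcon
    exact hv p hp (Int.natCast_dvd.2 hcon)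
  · have h4 : 4 * ((d ^ 2 - d) / 4) = d ^ 2 - d := by
      refine Int.mul_ediv_cancel' ?_
      rcases hd4 with h | h
      · obtain ⟨c, hc⟩ : (4 : ℤ) ∣ d := Int.dvd_of_emod_eq_zero h
        exact ⟨d * c - c, by rw [hc]; ring⟩
      · obtain ⟨c, hc⟩ : (4 : ℤ) ∣ d - 1 := by omega
        refine ⟨d * c, ?_⟩
        have : d ^ 2 - d = d * (d - 1) := by ring
        rw [this, hc]
        ring
    have h5 : ((d.natAbs : ℕ) : ℤ) = -d := by
      rw [Int.natCast_natAbs, abs_of_neg hd]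
    have h6 : ((v.natAbs : ℕ) : ℤ) ^ 2 = v ^ 2 := Int.natAbs_sq v
    rw [h5, h6, ← huv]
    linear_combination (-v ^ 2) * h4

end Pool.Agent.Work.MP_e0c7e8_nt.AV
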