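import Pool.Agent.Work.MP_e0c7e8_nt.AV.StmtsI

/-!
# Item [e0c7e8 AV CLP]: equal powers of products of classes of split primes (helper51)
-/

set_option autoImplicit false

namespace Pool.Agent.Work.MP_e0c7e8_nt.AV

open Finset Pool.Agent.Work.MP_e0c7e8_nt.SM Pool.Agent.Work.MP_e0c7e8_nt.BG

theorem CLP_pf (h0 : ClaimC2b0) (h1 : S_CL1) (h2 : S_CL2) : S_CLP := by
  intro d hd hd4
  have hex : ∀ p : ℕ, ∃ n : ℤ, p.Prime → chi d p = 1 →
      (p : ℤ) ∣ FF d n ∧ ¬ (p : ℤ) ∣ 2 * n + d := by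
    intro p
    by_cases hp : p.Prime ∧ chi d p = 1
    · obtain ⟨n, hn⟩ := h0 d p hd4 hp.1 hp.2
      exact ⟨n, fun _ _ => hn⟩
    · exact ⟨0, fun ha hb => absurd ⟨ha, hb⟩ hp⟩
  choose n hn using hex
  have hR : Rt d n := hn
  obtain ⟨c, hc⟩ := h1 d n hd hd4 hR
  refine ⟨c, fun A B m hAB hdis hne hm heq => ?_⟩
  obtain ⟨g, hg⟩ := hc A B m hAB heq
  exact h2 d n hd hd4 hR A B m g hAB hdis hne hm hg

end Pool.Agent.Work.MP_e0c7e8_nt.AV
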