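import Pool.Agent.Work.MP_e0c7e8_nt.AV.Stmts

/-! Item COA of block AV: the collisions on average. -/

set_option autoImplicit false

namespace Pool.Agent.Work.MP_e0c7e8_nt.AV

open Finset

namespace I_COA

theorem prod_pos {N0 : ℕ} {N : Finset ℕ} (hN : ∀ n ∈ N, 1 ≤ n ∧ n ≤ N0) {b : Fin 3 → ℕ}
    (hb : b ∈ Fintype.piFinset fun _ : Fin 3 => N) : 1 ≤ ∏ i, b i := by
  rw [Fintype.mem_piFinset] at hb
  exact Nat.succ_le_of_lt (Finset.prod_pos fun i _ =>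
    Nat.lt_of_lt_of_le Nat.zero_lt_one (hN _ (hb i)).1)

theorem prod_le {N0 : ℕ} {N : Finset ℕ} (hN : ∀ n ∈ N, 1 ≤ n ∧ n ≤ N0) {b : Fin 3 → ℕ}
    (hb : b ∈ Fintype.piFinset fun _ : Fin 3 => N) : ∏ i, b i ≤ N0 ^ 3 := by
  rw [Fintype.mem_piFinset] at hb
  have h1 : ∏ i, b i ≤ ∏ _i : Fin 3, N0 :=
    Finset.prod_le_prod' fun i _ => (hN _ (hb i)).2
  rwa [Finset.prod_const, Finset.card_univ, Fintype.card_fin] at h1

theorem card_pi {N0 : ℕ} {N : Finset ℕ} (hN : ∀ n ∈ N, 1 ≤ n ∧ n ≤ N0) :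
    (Fintype.piFinset fun _ : Fin 3 => N).card ≤ N0 ^ 3 := by
  rw [Fintype.card_piFinset, Finset.prod_const, Finset.card_univ, Fintype.card_fin]
  apply Nat.pow_le_pow_left
  have h1 : N ⊆ Finset.Icc 1 N0 := fun n hn => Finset.mem_Icc.2 (hN n hn)
  have h2 := Finset.card_le_card h1
  rwa [Nat.card_Icc, Nat.add_sub_cancel] at h2

theorem diag {m N0 T : ℕ} {N : Finset ℕ} (hm : 1 ≤ m) (hN : ∀ n ∈ N, 1 ≤ n ∧ n ≤ N0)
    (hT : ∀ M : ℕ, M ≠ 0 → M ≤ N0 ^ (3 * m) → M.divisors.card ≤ T) :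
    (((Fintype.piFinset fun _ : Fin 3 => N) ×ˢ (Fintype.piFinset fun _ : Fin 3 => N)).filter
      fun b => ∏ i, b.1 i = ∏ i, b.2 i).card ≤ N0 ^ 3 * T ^ 3 := by
  classical
  set D := (((Fintype.piFinset fun _ : Fin 3 => N) ×ˢ (Fintype.piFinset fun _ : Fin 3 => N)).filter
      fun b => ∏ i, b.1 i = ∏ i, b.2 i) with hD
  have hmem : ∀ b ∈ D, b.1 ∈ (Fintype.piFinset fun _ : Fin 3 => N) := by
    intro b hb
    rw [hD, Finset.mem_filter, Finset.mem_product] at hb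
    exact hb.1.1
  rw [Finset.card_eq_sum_card_fiberwise (f := Prod.fst)
    (t := (Fintype.piFinset fun _ : Fin 3 => N)) (fun b hb => hmem b hb)]
  have hfib : ∀ a ∈ (Fintype.piFinset fun _ : Fin 3 => N),
      (D.filter fun b => b.1 = a).card ≤ T ^ 3 := by
    intro a ha
    have h1 := prod_pos hN ha
    have h2 := prod_le hN ha
    have hN0 : 1 ≤ N0 := by
      have h3 := (Fintype.mem_piFinset.1 ha) 0
      exact le_trans (hN _ h3).1 (hN _ h3).2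
    have h4 : (∏ i, a i).divisors.card ≤ T := by
      apply hT _ (by omega)
      exact le_trans h2 (Nat.pow_le_pow_right hN0 (by omega))
    have h5 : (D.filter fun b => b.1 = a).card ≤
        (Fintype.piFinset fun _ : Fin 3 => (∏ i, a i).divisors).card := by
      apply Finset.card_le_card_of_injOn Prod.snd
      · intro b hb
        have hb' := hb
        rw [Finset.mem_coe, Finset.mem_filter, hD, Finset.mem_filter] at hb'
        obtain ⟨⟨_, hb2⟩, hb3⟩ := hb'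
        rw [Finset.mem_coe, Fintype.mem_piFinset]
        intro i
        rw [Nat.mem_divisors]
        refine ⟨?_, by omega⟩
        rw [← hb3, hb2]
        exact Finset.dvd_prod_of_mem _ (Finset.mem_univ i)
      · intro b hb c hc hbc
        rw [Finset.mem_coe, Finset.mem_filter] at hb hc
        exact Prod.ext (hb.2.trans hc.2.symm) hbc
    rw [Fintype.card_piFinset, Finset.prod_const, Finset.card_univ, Fintype.card_fin] at h5
    exact le_trans h5 (Nat.pow_le_pow_left h4 3)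
  calc ∑ a ∈ (Fintype.piFinset fun _ : Fin 3 => N), (D.filter fun b => b.1 = a).card
      ≤ (Fintype.piFinset fun _ : Fin 3 => N).card • T ^ 3 := Finset.sum_le_card_nsmul _ _ _ hfib
    _ ≤ N0 ^ 3 * T ^ 3 := by
      rw [smul_eq_mul]
      exact Nat.mul_le_mul_right _ (card_pi hN)

theorem off {m N0 T W0 W1 : ℕ} {N : Finset ℕ} (hm : 1 ≤ m) (hN : ∀ n ∈ N, 1 ≤ n ∧ n ≤ N0)
    (hT : ∀ M : ℕ, M ≠ 0 → M ≤ N0 ^ (3 * m) → M.divisors.card ≤ T)
    (b : (Fin 3 → ℕ) × (Fin 3 → ℕ)) (hb1 : b.1 ∈ Fintype.piFinset fun _ : Fin 3 => N)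
    (hb2 : b.2 ∈ Fintype.piFinset fun _ : Fin 3 => N) :
    ((Finset.Ioc W0 W1).filter fun w : ℕ => ∏ i, b.1 i ≠ ∏ i, b.2 i ∧
      (w : ℤ) ^ 2 ∣ (∏ i, (b.1 i : ℤ)) ^ m - (∏ i, (b.2 i : ℤ)) ^ m).card ≤ T := by
  classical
  by_cases hne : ∏ i, b.1 i = ∏ i, b.2 i
  · have h0 : ((Finset.Ioc W0 W1).filter fun w : ℕ => ∏ i, b.1 i ≠ ∏ i, b.2 i ∧
      (w : ℤ) ^ 2 ∣ (∏ i, (b.1 i : ℤ)) ^ m - (∏ i, (b.2 i : ℤ)) ^ m) = ∅ := by
      rw [Finset.filter_eq_empty_iff]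
      intro w _ h
      exact h.1 hne
    rw [h0]
    exact Nat.zero_le _
  · have p1 := prod_pos hN hb1
    have p2 := prod_pos hN hb2
    have q1 := prod_le hN hb1
    have q2 := prod_le hN hb2
    set A := ∏ i, b.1 i with hA
    set B := ∏ i, b.2 i with hB
    have hA' : (∏ i, (b.1 i : ℤ)) = (A : ℤ) := by rw [hA]; push_cast; rfl
    have hB' : (∏ i, (b.2 i : ℤ)) = (B : ℤ) := by rw [hB]; push_cast; rfl
    rw [hA', hB']
    have r1 : A ^ m ≤ N0 ^ (3 * m) := by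
      rw [pow_mul]
      exact Nat.pow_le_pow_left q1 m
    have r2 : B ^ m ≤ N0 ^ (3 * m) := by
      rw [pow_mul]
      exact Nat.pow_le_pow_left q2 m
    have s1 : 1 ≤ A ^ m := Nat.one_le_pow _ _ p1
    have s2 : 1 ≤ B ^ m := Nat.one_le_pow _ _ p2
    have hpne : A ^ m ≠ B ^ m := by
      intro h
      exact hne (Nat.pow_left_injective (by omega) h)
    set M := ((A : ℤ) ^ m - (B : ℤ) ^ m).natAbs with hM
    have hM1 : ((A : ℤ) ^ m - (B : ℤ) ^ m) = ((A ^ m : ℕ) : ℤ) - ((B ^ m : ℕ) : ℤ) := by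
      push_cast
      ring
    have hM0 : M ≠ 0 := by
      rw [hM, hM1]
      omega
    have hM2 : M ≤ N0 ^ (3 * m) := by
      rw [hM, hM1]
      omega
    refine le_trans (Finset.card_le_card ?_) (hT M hM0 hM2)
    intro w hw
    rw [Finset.mem_filter] at hw
    rw [Nat.mem_divisors]
    refine ⟨?_, hM0⟩
    have h1 : (w : ℤ) ∣ (A : ℤ) ^ m - (B : ℤ) ^ m := dvd_trans (dvd_pow_self _ two_ne_zero) hw.2.2
    rw [hM]
    exact Int.natCast_dvd.1 h1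

end I_COA

open I_COA

theorem COA_pf : S_COA := by
  intro m N0 T W0 W1 N hm hN hT
  classical
  set Pi := (Fintype.piFinset fun _ : Fin 3 => N) with hPi
  set D := ((Pi ×ˢ Pi).filter fun b => ∏ i, b.1 i = ∏ i, b.2 i) with hD
  have hDc : D.card ≤ N0 ^ 3 * T ^ 3 := diag hm hN hT
  have hsub : ∀ w : ℕ, (CO m w N).card ≤ D.card + ((Pi ×ˢ Pi).filter fun b =>
      ∏ i, b.1 i ≠ ∏ i, b.2 i ∧
      (w : ℤ) ^ 2 ∣ (∏ i, (b.1 i : ℤ)) ^ m - (∏ i, (b.2 i : ℤ)) ^ m).card := by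
    intro w
    refine le_trans (Finset.card_le_card ?_) (Finset.card_union_le _ _)
    intro b hb
    unfold CO at hb
    rw [Finset.mem_filter] at hb
    rw [Finset.mem_union, hD, Finset.mem_filter, Finset.mem_filter]
    by_cases h : ∏ i, b.1 i = ∏ i, b.2 i
    · exact Or.inl ⟨hb.1, h⟩
    · exact Or.inr ⟨hb.1, h, hb.2⟩
  have hsum : ∑ w ∈ Ioc W0 W1, (CO m w N).card ≤ ∑ _w ∈ Ioc W0 W1, D.card +
      ∑ w ∈ Ioc W0 W1, ((Pi ×ˢ Pi).filter fun b => ∏ i, b.1 i ≠ ∏ i, b.2 i ∧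
      (w : ℤ) ^ 2 ∣ (∏ i, (b.1 i : ℤ)) ^ m - (∏ i, (b.2 i : ℤ)) ^ m).card := by
    rw [← Finset.sum_add_distrib]
    exact Finset.sum_le_sum fun w _ => hsub w
  refine le_trans hsum (Nat.add_le_add ?_ ?_)
  · rw [Finset.sum_const, Nat.card_Ioc, smul_eq_mul, mul_comm]
    exact Nat.mul_le_mul hDc (Nat.sub_le _ _)
  · have hsw : ∑ w ∈ Ioc W0 W1, ((Pi ×ˢ Pi).filter fun b => ∏ i, b.1 i ≠ ∏ i, b.2 i ∧
        (w : ℤ) ^ 2 ∣ (∏ i, (b.1 i : ℤ)) ^ m - (∏ i, (b.2 i : ℤ)) ^ m).card =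
        ∑ b ∈ Pi ×ˢ Pi, ((Ioc W0 W1).filter fun w : ℕ => ∏ i, b.1 i ≠ ∏ i, b.2 i ∧
        (w : ℤ) ^ 2 ∣ (∏ i, (b.1 i : ℤ)) ^ m - (∏ i, (b.2 i : ℤ)) ^ m).card := by
      simp only [Finset.card_filter]
      exact Finset.sum_comm
    rw [hsw]
    have hb : ∀ b ∈ Pi ×ˢ Pi, ((Ioc W0 W1).filter fun w : ℕ => ∏ i, b.1 i ≠ ∏ i, b.2 i ∧
        (w : ℤ) ^ 2 ∣ (∏ i, (b.1 i : ℤ)) ^ m - (∏ i, (b.2 i : ℤ)) ^ m).card ≤ T := by
      intro b hb
      rw [Finset.mem_product] at hb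
      exact off hm hN hT b hb.1 hb.2
    refine le_trans (Finset.sum_le_card_nsmul _ _ _ hb) ?_
    rw [smul_eq_mul, Finset.card_product]
    have h1 := card_pi hN
    have h2 : N0 ^ 6 = N0 ^ 3 * N0 ^ 3 := by ring
    rw [h2]
    exact Nat.mul_le_mul_right _ (Nat.mul_le_mul h1 h1)

end Pool.Agent.Work.MP_e0c7e8_nt.AV
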