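import Pool.Agent.Work.MP_e0c7e8_nt.AV.StmtsI

/-!
# Item CSG: Cauchy-Schwarz for the `m`-th powers of products
-/

set_option autoImplicit false

namespace Pool.Agent.Work.MP_e0c7e8_nt.AV

open Finset Pool.Agent.Work.MP_e0c7e8_nt.SM Pool.Agent.Work.MP_e0c7e8_nt.BG

namespace I_CSG

open Classical in
theorem cs {α G : Type} (f : α → G) (s : Finset α) (T : Finset G) (hT : ∀ a ∈ s, f a ∈ T) :
    s.card ^ 2 ≤ T.card * ((s ×ˢ s).filter fun x => f x.1 = f x.2).card := by
  have h1 : s.card = ∑ g ∈ T, (s.filter fun a => f a = g).card :=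
    Finset.card_eq_sum_card_fiberwise hT
  have h2 : ((s ×ˢ s).filter fun x => f x.1 = f x.2).card =
      ∑ g ∈ T, (s.filter fun a => f a = g).card ^ 2 := by
    rw [Finset.card_eq_sum_card_fiberwise (f := fun x : α × α => f x.1) (t := T)]
    · refine Finset.sum_congr rfl fun g _ => ?_
      rw [sq, ← Finset.card_product]
      congr 1
      ext ⟨a, b⟩
      simp only [mem_filter, mem_product]
      constructor
      · rintro ⟨⟨⟨ha, hb⟩, hab⟩, hg⟩
        exact ⟨⟨ha, hg⟩, hb, hab ▸ hg⟩
      · rintro ⟨⟨ha, hg⟩, hb, hg'⟩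
        exact ⟨⟨⟨ha, hb⟩, hg.trans hg'.symm⟩, hg⟩
    · intro x hx
      have hx' := Finset.mem_coe.1 hx
      rw [mem_filter, mem_product] at hx'
      exact hT _ hx'.1.1
  rw [h2]
  nth_rw 1 [h1]
  exact sq_sum_le_card_mul_sum_sq

theorem ker_range {G : Type} [CommGroup G] [Finite G] (m : ℕ) :
    Nat.card {y : G // y ^ m = 1} * Nat.card (powMonoidHom m : G →* G).range = Nat.card G := by
  have h1 : Nat.card {y : G // y ^ m = 1} = Nat.card (powMonoidHom m : G →* G).ker := by
    refine Nat.card_congr (Equiv.subtypeEquivRight fun y => ?_)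
    rw [MonoidHom.mem_ker, powMonoidHom_apply]
  rw [h1, ← Subgroup.index_ker, mul_comm]
  exact Subgroup.index_mul_card _

end I_CSG

theorem CSG_pf : S_CSG := by
  classical
  intro G _ _ c m J S
  have : Fintype G := Fintype.ofFinite G
  set T : Finset G := Finset.univ.filter fun g => g ∈ (powMonoidHom m : G →* G).range with hTdef
  have hTc : T.card = Nat.card (powMonoidHom m : G →* G).range := by
    rw [Nat.card_eq_fintype_card, Fintype.card_subtype]
  have h := I_CSG.cs (fun A : Finset ℕ => (∏ p ∈ A, c p) ^ m) (powersetCard J S) T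
    (fun A _ => by
      rw [hTdef, mem_filter]
      exact ⟨mem_univ _, ⟨∏ p ∈ A, c p, rfl⟩⟩)
  rw [hTc] at h
  have h2 : ((powersetCard J S ×ˢ powersetCard J S).filter
      fun x => (fun A : Finset ℕ => (∏ p ∈ A, c p) ^ m) x.1 =
        (fun A : Finset ℕ => (∏ p ∈ A, c p) ^ m) x.2).card = (PRS c m J S).card := by
    unfold PRS
    congr 1
  rw [h2] at h
  calc Nat.card {y : G // y ^ m = 1} * (powersetCard J S).card ^ 2
      ≤ Nat.card {y : G // y ^ m = 1} *
        (Nat.card (powMonoidHom m : G →* G).range * (PRS c m J S).card) :=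
        Nat.mul_le_mul_left _ h
    _ = Nat.card G * (PRS c m J S).card := by
        rw [← mul_assoc, I_CSG.ker_range]

end Pool.Agent.Work.MP_e0c7e8_nt.AV
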