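import Pool.Agent.Work.MP_e0c7e8_nt.AV.Stmts

/-!
# [DVB] the divisor bound
-/

set_option autoImplicit false

namespace Pool.Agent.Work.MP_e0c7e8_nt.AV

namespace I_DVB

open Finset

theorem exists_pow_le_two_pow (J : ℕ) : ∃ c : ℕ, 1 ≤ c ∧ ∀ e : ℕ, (e + 1) ^ J ≤ c * 2 ^ e := by
  have h : Filter.Tendsto (fun n : ℕ => ((n : ℝ) ^ J / 2 ^ n)) Filter.atTop (nhds 0) :=
    tendsto_pow_const_div_const_pow_of_one_lt J (by norm_num)
  obtain ⟨B, hB⟩ := h.bddAbove_range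
  refine ⟨⌈2 * B⌉₊ + 1, by omega, fun e => ?_⟩
  have h1 : ((e + 1 : ℕ) : ℝ) ^ J / 2 ^ (e + 1) ≤ B := hB ⟨e + 1, rfl⟩
  rw [div_le_iff₀ (by positivity)] at h1
  have h2 : (2 * B : ℝ) ≤ ⌈2 * B⌉₊ := Nat.le_ceil _
  have h3 : (((e + 1) ^ J : ℕ) : ℝ) ≤ (((⌈2 * B⌉₊ + 1) * 2 ^ e : ℕ) : ℝ) := by
    push_cast
    push_cast at h1
    calc ((e : ℝ) + 1) ^ J ≤ B * 2 ^ (e + 1) := h1
      _ = (2 * B) * 2 ^ e := by ring
      _ ≤ (⌈2 * B⌉₊ + 1) * 2 ^ e := by gcongr; linarith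
  exact_mod_cast h3

theorem card_divisors_pow_le (J : ℕ) : ∃ C : ℕ, 1 ≤ C ∧ ∀ k : ℕ, k ≠ 0 →
    (k.divisors.card) ^ J ≤ C * k := by
  obtain ⟨c, hc1, hc⟩ := exists_pow_le_two_pow J
  refine ⟨c ^ (2 ^ J), Nat.one_le_pow _ _ hc1, fun k hk => ?_⟩
  rw [Nat.card_divisors hk, ← Finset.prod_pow]
  have hstep : ∏ p ∈ k.primeFactors, (k.factorization p + 1) ^ J ≤
      ∏ p ∈ k.primeFactors, ((if p < 2 ^ J then c else 1) * p ^ (k.factorization p)) := by
    apply Finset.prod_le_prod'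
    intro p hp
    have hp2 := (Nat.prime_of_mem_primeFactors hp).two_le
    split_ifs with h
    · exact (hc _).trans (Nat.mul_le_mul_left _ (Nat.pow_le_pow_left hp2 _))
    · rw [one_mul]
      have h1 : k.factorization p + 1 ≤ 2 ^ (k.factorization p) := Nat.lt_two_pow_self
      calc (k.factorization p + 1) ^ J ≤ (2 ^ (k.factorization p)) ^ J := Nat.pow_le_pow_left h1 _
        _ = (2 ^ J) ^ (k.factorization p) := by rw [← pow_mul, ← pow_mul, mul_comm]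
        _ ≤ p ^ (k.factorization p) := Nat.pow_le_pow_left (not_lt.mp h) _
  refine hstep.trans ?_
  rw [Finset.prod_mul_distrib]
  have h2 : ∏ p ∈ k.primeFactors, p ^ k.factorization p = k :=
    Nat.prod_factorization_pow_eq_self hk
  rw [h2]
  apply Nat.mul_le_mul_right
  rw [Finset.prod_ite, Finset.prod_const, Finset.prod_const_one, mul_one]
  apply Nat.pow_le_pow_right hc1
  calc _ ≤ (Finset.range (2 ^ J)).card := by
        apply Finset.card_le_card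
        intro p hp
        simp only [Finset.mem_filter] at hp
        exact Finset.mem_range.mpr hp.2
    _ = 2 ^ J := Finset.card_range _

end I_DVB

theorem DVB_pf : S_DVB := by
  intro C h
  obtain ⟨C0, -, hC0⟩ := I_DVB.card_divisors_pow_le (h * (C + 1))
  refine ⟨C0, fun P hP M hM hMP => ?_⟩
  refine (Nat.pow_le_pow_iff_left (Nat.succ_ne_zero C)).1 ?_
  calc (M.divisors.card ^ h) ^ (C + 1) = M.divisors.card ^ (h * (C + 1)) := (pow_mul _ _ _).symm
    _ ≤ C0 * M := hC0 M hM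
    _ ≤ P * P ^ C := Nat.mul_le_mul hP hMP
    _ = P ^ (C + 1) := (pow_succ' P C).symm

end Pool.Agent.Work.MP_e0c7e8_nt.AV
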