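import Pool.Agent.Work.MP_e0c7e8_nt.AV.Stmts

/-!
# MP_e0c7e8_nt, block AV, item EXA (helper90)
The exceptional tuples on average over the modulus.
-/

set_option autoImplicit false

namespace Pool.Agent.Work.MP_e0c7e8_nt.AV

open Finset

namespace I_EXA

/-- the tuples with two equal entries `p i = p j` -/
lemma card_eq_pair (k : ℕ) (N : Finset ℕ) (i j : Fin k) (hij : i ≠ j) :
    ((Fintype.piFinset fun _ : Fin k => N).filter fun p => p i = p j).card ≤ N.card ^ (k - 1) := by
  classical
  have hc : (Fintype.piFinset fun _ : {x : Fin k // x ≠ i} => N).card = N.card ^ (k - 1) := by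
    rw [Fintype.card_piFinset]
    simp [Finset.prod_const, Finset.card_univ, Fintype.card_subtype_compl]
  rw [← hc]
  refine Finset.card_le_card_of_injOn (fun p => fun x : {x : Fin k // x ≠ i} => p x) ?_ ?_
  · intro p hp
    have hp' := Finset.mem_filter.1 (Finset.mem_coe.1 hp)
    have h1 := Fintype.mem_piFinset.1 hp'.1
    exact Finset.mem_coe.2 (Fintype.mem_piFinset.2 fun x => h1 x)
  · intro p hp q hq hpq
    have hp' := (Finset.mem_filter.1 (Finset.mem_coe.1 hp)).2
    have hq' := (Finset.mem_filter.1 (Finset.mem_coe.1 hq)).2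
    funext x
    by_cases hx : x = i
    · subst hx
      have h2 := congrFun hpq ⟨j, hij.symm⟩
      simp only at h2
      rw [hp', hq', h2]
    · exact congrFun hpq ⟨x, hx⟩

/-- the tuples that are not injective -/
lemma card_not_inj (k N0 : ℕ) (N : Finset ℕ) (hN : N.card ≤ N0) :
    ((Fintype.piFinset fun _ : Fin k => N).filter fun p => ¬ Function.Injective p).card ≤
      k ^ 2 * N0 ^ (k - 1) := by
  classical
  have hsub : ((Fintype.piFinset fun _ : Fin k => N).filter fun p => ¬ Function.Injective p) ⊆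
      ((Finset.univ : Finset (Fin k × Fin k)).filter fun e => e.1 ≠ e.2).biUnion fun e =>
        (Fintype.piFinset fun _ : Fin k => N).filter fun p => p e.1 = p e.2 := by
    intro p hp
    obtain ⟨h1, h2⟩ := Finset.mem_filter.1 hp
    simp only [Function.Injective, not_forall] at h2
    obtain ⟨i, j, h3, h4⟩ := h2
    refine Finset.mem_biUnion.2 ⟨(i, j), ?_, ?_⟩
    · exact Finset.mem_filter.2 ⟨Finset.mem_univ _, h4⟩
    · exact Finset.mem_filter.2 ⟨h1, h3⟩
  refine (Finset.card_le_card hsub).trans (Finset.card_biUnion_le.trans ?_)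
  have h5 : ∀ e ∈ ((Finset.univ : Finset (Fin k × Fin k)).filter fun e => e.1 ≠ e.2),
      ((Fintype.piFinset fun _ : Fin k => N).filter fun p => p e.1 = p e.2).card ≤
        N0 ^ (k - 1) := by
    intro e he
    exact (card_eq_pair k N e.1 e.2 (Finset.mem_filter.1 he).2).trans (Nat.pow_le_pow_left hN _)
  refine (Finset.sum_le_card_nsmul _ _ _ h5).trans ?_
  rw [smul_eq_mul]
  refine Nat.mul_le_mul_right _ ?_
  refine (Finset.card_filter_le _ _).trans ?_
  simp [Finset.card_univ, sq]

end I_EXA

theorem EXA_pf (hNZM : S_NZM) : S_EXA := by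
  classical
  intro m k Y N0 T W0 W1 N hm hk hN hT
  have hNc : N.card ≤ N0 := by
    have h1 : N ⊆ Finset.Icc 1 N0 := fun n hn =>
      Finset.mem_Icc.2 ⟨(hN n hn).1, (hN n hn).2.1⟩
    simpa using Finset.card_le_card h1
  set A : Finset (Fin k → ℕ) := Fintype.piFinset fun _ : Fin k => N with hA
  set Bx : Finset (Fin k → ℤ) := Fintype.piFinset fun _ : Fin k => Finset.Icc (-(Y : ℤ)) Y with hBx
  have hAc : A.card ≤ N0 ^ k := by
    rw [hA, Fintype.card_piFinset]
    simpa [Finset.prod_const, Finset.card_univ] using Nat.pow_le_pow_left hNc k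
  have hBc : Bx.card = (2 * Y + 1) ^ k := by
    rw [hBx, Fintype.card_piFinset]
    have h2 : (Finset.Icc (-(Y : ℤ)) Y).card = 2 * Y + 1 := by
      rw [Int.card_Icc]; omega
    simp [Finset.prod_const, Finset.card_univ, h2]
  have key : ∀ w ∈ Finset.Ioc W0 W1, (EX m k Y w N).card ≤ k ^ 2 * N0 ^ (k - 1) +
      ∑ p ∈ A.filter Function.Injective, ∑ y ∈ Bx.filter (fun y => y ≠ 0),
        (if Rel m k Y w p y then 1 else 0) := by
    intro w hw
    have hsub : EX m k Y w N ⊆ (A.filter fun p => ¬ Function.Injective p) ∪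
        (A.filter Function.Injective).filter (fun p => ∃ y, Rel m k Y w p y) := by
      intro p hp
      unfold EX at hp
      obtain ⟨h1, h2⟩ := Finset.mem_filter.1 hp
      by_cases h3 : Function.Injective p
      · rcases h2 with h2 | h2
        · exact absurd h3 h2
        · exact Finset.mem_union_right _ (Finset.mem_filter.2 ⟨Finset.mem_filter.2 ⟨h1, h3⟩, h2⟩)
      · exact Finset.mem_union_left _ (Finset.mem_filter.2 ⟨h1, h3⟩)
    refine (Finset.card_le_card hsub).trans ((Finset.card_union_le _ _).trans ?_)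
    refine Nat.add_le_add (I_EXA.card_not_inj k N0 N hNc) ?_
    rw [Finset.card_filter]
    refine Finset.sum_le_sum fun p hp => ?_
    split_ifs with h
    · obtain ⟨y, hy⟩ := h
      have hyB : y ∈ Bx.filter (fun y => y ≠ 0) := by
        refine Finset.mem_filter.2 ⟨Fintype.mem_piFinset.2 fun j => ?_, hy.1⟩
        exact Finset.mem_Icc.2 (abs_le.1 (hy.2.1 j))
      have h5 := Finset.single_le_sum
        (f := fun y => if Rel m k Y w p y then (1 : ℕ) else 0) (fun _ _ => Nat.zero_le _) hyB
      simp only [if_pos hy] at h5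
      exact h5
    · exact Nat.zero_le _
  refine (Finset.sum_le_sum key).trans ?_
  rw [Finset.sum_add_distrib]
  refine Nat.add_le_add ?_ ?_
  · rw [Finset.sum_const, smul_eq_mul, Nat.card_Ioc, mul_comm]
    exact Nat.mul_le_mul_left _ (Nat.sub_le _ _)
  · rw [Finset.sum_comm]
    have h6 : ∀ p ∈ A.filter Function.Injective,
        ∑ w ∈ Finset.Ioc W0 W1, ∑ y ∈ Bx.filter (fun y => y ≠ 0),
          (if Rel m k Y w p y then 1 else 0) ≤ (2 * Y + 1) ^ k * T := by
      intro p hp
      obtain ⟨hpA, hpi⟩ := Finset.mem_filter.1 hp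
      have hpN := Fintype.mem_piFinset.1 hpA
      rw [Finset.sum_comm]
      have h7 : ∀ y ∈ Bx.filter (fun y => y ≠ 0),
          ∑ w ∈ Finset.Ioc W0 W1, (if Rel m k Y w p y then 1 else 0) ≤ T := by
        intro y hy
        obtain ⟨hyB, hy0⟩ := Finset.mem_filter.1 hy
        have hyb : ∀ j, |y j| ≤ (Y : ℤ) := fun j =>
          abs_le.2 (Finset.mem_Icc.1 (Fintype.mem_piFinset.1 hyB j))
        obtain ⟨M, hM0, hM1, hM2⟩ := hNZM m k Y N0 p y hm hk hpi
          (fun j => ⟨(hN _ (hpN j)).2.2, (hN _ (hpN j)).2.1⟩) hy0 hyb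
        rw [← Finset.card_filter]
        refine le_trans (Finset.card_le_card ?_) (hT M hM0 hM1)
        intro w hw
        obtain ⟨hw1, hw2⟩ := Finset.mem_filter.1 hw
        have hw3 : 1 ≤ w := by
          have := (Finset.mem_Ioc.1 hw1).1
          omega
        exact Nat.mem_divisors.2 ⟨(dvd_pow_self w two_ne_zero).trans (hM2 w hw3 hw2), hM0⟩
      refine (Finset.sum_le_card_nsmul _ _ _ h7).trans ?_
      rw [smul_eq_mul]
      refine Nat.mul_le_mul_right _ ?_
      rw [← hBc]
      exact Finset.card_filter_le _ _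
    refine (Finset.sum_le_card_nsmul _ _ _ h6).trans ?_
    rw [smul_eq_mul, mul_assoc]
    exact Nat.mul_le_mul_right _ ((Finset.card_filter_le _ _).trans hAc)

end Pool.Agent.Work.MP_e0c7e8_nt.AV
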