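import Pool.Agent.Work.MP_e0c7e8_nt.AV.StmtsI

/-!
# FDM: one dyadic interval
-/

set_option autoImplicit false

namespace Pool.Agent.Work.MP_e0c7e8_nt.AV

open Finset Pool.Agent.Work.MP_e0c7e8_nt.SM Pool.Agent.Work.MP_e0c7e8_nt.BG

namespace I_FDM

theorem mem_DD {X : ℝ} {d : ℤ} (h : d ∈ DD X) : d < 0 ∧ (d % 4 = 0 ∨ d % 4 = 1) ∧
    X / 2 < |(d : ℝ)| ∧ |(d : ℝ)| ≤ X := by
  simp only [DD, mem_filter, mem_Icc] at h
  obtain ⟨⟨h1, h2⟩, h3, h4⟩ := h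
  have h5 : d < 0 := by omega
  refine ⟨h5, h3, h4, ?_⟩
  have h6 : (d : ℝ) < 0 := by exact_mod_cast h5
  rw [abs_of_neg h6]
  have h7 : -(d : ℝ) ≤ (⌊X⌋ : ℝ) := by
    have h8 : -d ≤ ⌊X⌋ := by omega
    exact_mod_cast h8
  exact h7.trans (Int.floor_le X)

theorem card_DD {X : ℝ} (hX : 0 ≤ X) : ((DD X).card : ℝ) ≤ X := by
  have h1 : (DD X).card ≤ (Icc (-⌊X⌋) (-1)).card := card_filter_le _ _
  rw [Int.card_Icc] at h1
  have h2 : (0 : ℤ) ≤ ⌊X⌋ := Int.floor_nonneg.2 hX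
  have h3 : (((DD X).card : ℕ) : ℤ) ≤ ⌊X⌋ := by omega
  have h4 : ((DD X).card : ℝ) ≤ (⌊X⌋ : ℝ) := by exact_mod_cast h3
  exact h4.trans (Int.floor_le X)

theorem tor_le (h1a : ClaimC1a) {C2 : ℝ} (hC2 : 0 < C2)
    (hcl : ∀ d : ℤ, d < 0 → (d % 4 = 0 ∨ d % 4 = 1) →
      (∑ a ∈ Icc 1 (Nat.sqrt (d.natAbs / 3)), wt d a : ℝ) ≤ C2 * |(d : ℝ)| ^ ((1 : ℝ) / 2 + 1 / 8))
    (m : ℕ) {X : ℝ} {d : ℤ} (hd : d ∈ DD X) :
    (Nat.card {y : ClassGroup ↥(Od d) // y ^ m = 1} : ℝ) ≤ C2 * X ^ ((5 : ℝ) / 8) := by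
  obtain ⟨h1, h2, h3, h4⟩ := mem_DD hd
  obtain ⟨hf, hc⟩ := h1a d h1 h2
  haveI := hf
  have h5 : Nat.card {y : ClassGroup ↥(Od d) // y ^ m = 1} ≤ Nat.card (ClassGroup ↥(Od d)) :=
    Nat.card_le_card_of_injective Subtype.val Subtype.val_injective
  have h6 : (Nat.card {y : ClassGroup ↥(Od d) // y ^ m = 1} : ℝ) ≤
      (∑ a ∈ Icc 1 (Nat.sqrt (d.natAbs / 3)), wt d a : ℝ) := by
    exact_mod_cast h5.trans hc
  have h7 : (1 : ℝ) / 2 + 1 / 8 = 5 / 8 := by norm_num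
  have h8 := hcl d h1 h2
  rw [h7] at h8
  refine h6.trans (h8.trans (mul_le_mul_of_nonneg_left ?_ hC2.le))
  exact Real.rpow_le_rpow (abs_nonneg _) h4 (by norm_num)

/-- the exponent -/
theorem expo (hPAR : S_PAR) (m : ℕ) (hm : 5 ≤ m) :
    (3 : ℝ) / 2 - (2 * jj m - 1 / 2) / KK m = (3 : ℝ) / 2 - 3 / (2 * m + 2) - 1 / (2 * KK m) ∧
    (9 : ℝ) / 8 ≤ (3 : ℝ) / 2 - 3 / (2 * m + 2) - 1 / (2 * KK m) ∧ 0 < KK m ∧ 1 ≤ jj m := by
  obtain ⟨_, _, h1, h2, _, _⟩ := hPAR m hm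
  have hK : 8 ≤ KK m := by omega
  have hj : 1 ≤ jj m := by unfold jj; omega
  have hKr : (8 : ℝ) ≤ (KK m : ℝ) := by exact_mod_cast hK
  have hmr : (5 : ℝ) ≤ (m : ℝ) := by exact_mod_cast hm
  have h1r : 4 * ((m : ℝ) + 1) * (jj m : ℝ) = 3 * (KK m : ℝ) + 2 * ((m : ℝ) + 1) := by
    exact_mod_cast h1
  have hK0 : (KK m : ℝ) ≠ 0 := by positivity
  have hm0 : (2 * (m : ℝ) + 2) ≠ 0 := by positivity
  refine ⟨?_, ?_, by omega, hj⟩
  · have h3 : (3 : ℝ) / (2 * m + 2) = (2 * jj m - 1) / KK m := by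
      rw [div_eq_div_iff hm0 hK0]
      linarith
    rw [h3]
    field_simp
    ring
  · have h3 : (3 : ℝ) / (2 * m + 2) ≤ 1 / 4 := by
      rw [div_le_div_iff₀ (by positivity) (by norm_num)]
      linarith
    have h4 : (1 : ℝ) / (2 * KK m) ≤ 1 / 16 := by
      rw [div_le_div_iff₀ (by positivity) (by norm_num)]
      linarith
    linarith

end I_FDM

open I_FDM in
theorem FDM_pf (hPAR : S_PAR) (hBAD : S_BAD) (hGSM : S_GSM) (h1a : ClaimC1a) (h1c : ClaimC1c) :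
    S_FDM := by
  classical
  intro m hm ho
  obtain ⟨hE, hE2, hK, hj⟩ := expo hPAR m hm
  set E : ℝ := (3 : ℝ) / 2 - 3 / (2 * m + 2) - 1 / (2 * KK m) with hEdef
  obtain ⟨X0, C1, hX0, hC1, hG⟩ := hGSM m hm ho
  have hjr : (1 : ℝ) ≤ (jj m : ℝ) := by exact_mod_cast hj
  have hc1 : (0 : ℝ) < 1 / (32 * jj m) := by positivity
  have hc2 : (1 : ℝ) / (32 * jj m) < 1 / 2 := by
    rw [div_lt_div_iff₀ (by positivity) (by norm_num)]
    linarith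
  obtain ⟨C3, hC3, X0', hX0', hB⟩ := hBAD (KK m) hK (1 / (32 * jj m)) hc1 hc2
  obtain ⟨C2, hC2, hcl⟩ := h1c (1 / 8) (by norm_num)
  set X1 : ℝ := max X0 X0' with hX1
  have hX1' : 1 ≤ X1 := le_max_of_le_left hX0
  refine ⟨C1 + C2 * C3 + C2 * X1 ^ 2, by positivity, fun X hX => ?_⟩
  have hX00 : 0 < X := lt_of_lt_of_le one_pos hX
  have hXE1 : 1 ≤ X ^ E := Real.one_le_rpow hX (by linarith)
  have htor := fun d (hd : d ∈ DD X) => tor_le h1a hC2 hcl m hd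
  rcases le_or_gt X1 X with hXX | hXX
  · have hb1 : X0 ≤ X := (le_max_left _ _).trans hXX
    have hb2 : X0' ≤ X := (le_max_right _ _).trans hXX
    set gd : ℤ → Prop := fun d => X ^ ((1 - 1 / (32 * jj m)) / (KK m : ℝ)) ≤
      (Pd d ⌊X ^ ((1 : ℝ) / (KK m : ℕ))⌋₊ : ℝ) with hgd
    rw [← sum_filter_add_sum_filter_not (DD X) gd]
    have h1 : ∑ d ∈ (DD X).filter gd,
        (Nat.card {y : ClassGroup ↥(Od d) // y ^ m = 1} : ℝ) ≤ C1 * X ^ E := by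
      have h2 := hG X ((DD X).filter gd) hb1 (fun d hd => by
        rw [mem_filter] at hd
        obtain ⟨h3, h4, h5, h6⟩ := mem_DD hd.1
        exact ⟨h3, h4, h5, h6, hd.2⟩)
      rwa [hE] at h2
    have h2 : ∑ d ∈ (DD X).filter (fun d => ¬ gd d),
        (Nat.card {y : ClassGroup ↥(Od d) // y ^ m = 1} : ℝ) ≤ C2 * C3 * X ^ E := by
      have h3 : (((DD X).filter (fun d => ¬ gd d)).card : ℝ) ≤ C3 * X ^ ((1 : ℝ) / 2) :=
        hB X _ hb2 (fun d hd => by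
          rw [mem_filter] at hd
          obtain ⟨h3, _, _, h6⟩ := mem_DD hd.1
          exact ⟨h3, h6, (not_le.1 hd.2).le⟩)
      calc ∑ d ∈ (DD X).filter (fun d => ¬ gd d),
          (Nat.card {y : ClassGroup ↥(Od d) // y ^ m = 1} : ℝ)
          ≤ ∑ d ∈ (DD X).filter (fun d => ¬ gd d), C2 * X ^ ((5 : ℝ) / 8) :=
            sum_le_sum fun d hd => htor d (mem_filter.1 hd).1
        _ = (((DD X).filter (fun d => ¬ gd d)).card : ℝ) * (C2 * X ^ ((5 : ℝ) / 8)) := by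
            rw [sum_const, nsmul_eq_mul]
        _ ≤ (C3 * X ^ ((1 : ℝ) / 2)) * (C2 * X ^ ((5 : ℝ) / 8)) :=
            mul_le_mul_of_nonneg_right h3 (by positivity)
        _ = C2 * C3 * X ^ ((9 : ℝ) / 8) := by
            have h4 : X ^ ((9 : ℝ) / 8) = X ^ ((1 : ℝ) / 2) * X ^ ((5 : ℝ) / 8) := by
              rw [← Real.rpow_add hX00]
              norm_num
            rw [h4]
            ring
        _ ≤ C2 * C3 * X ^ E :=
            mul_le_mul_of_nonneg_left (Real.rpow_le_rpow_of_exponent_le hX hE2) (by positivity)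
    have h3 : 0 ≤ C2 * X1 ^ 2 * X ^ E := by positivity
    linarith [add_mul (C1 + C2 * C3) (C2 * X1 ^ 2) (X ^ E), add_mul C1 (C2 * C3) (X ^ E)]
  · have h1 : X ^ ((5 : ℝ) / 8) ≤ X1 := by
      calc X ^ ((5 : ℝ) / 8) ≤ X ^ (1 : ℝ) := Real.rpow_le_rpow_of_exponent_le hX (by norm_num)
        _ = X := Real.rpow_one X
        _ ≤ X1 := hXX.le
    have h2 : ∑ d ∈ DD X, (Nat.card {y : ClassGroup ↥(Od d) // y ^ m = 1} : ℝ) ≤
        C2 * X1 ^ 2 := by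
      calc ∑ d ∈ DD X, (Nat.card {y : ClassGroup ↥(Od d) // y ^ m = 1} : ℝ)
          ≤ ∑ d ∈ DD X, C2 * X1 :=
            sum_le_sum fun d hd => (htor d hd).trans (mul_le_mul_of_nonneg_left h1 hC2.le)
        _ = ((DD X).card : ℝ) * (C2 * X1) := by rw [sum_const, nsmul_eq_mul]
        _ ≤ X1 * (C2 * X1) :=
            mul_le_mul_of_nonneg_right ((card_DD hX00.le).trans hXX.le) (by positivity)
        _ = C2 * X1 ^ 2 := by ring
    calc ∑ d ∈ DD X, (Nat.card {y : ClassGroup ↥(Od d) // y ^ m = 1} : ℝ)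
        ≤ C2 * X1 ^ 2 := h2
      _ ≤ (C1 + C2 * C3 + C2 * X1 ^ 2) * 1 := by
          have : 0 ≤ C1 + C2 * C3 := by positivity
          linarith
      _ ≤ _ := mul_le_mul_of_nonneg_left hXE1 (by positivity)

end Pool.Agent.Work.MP_e0c7e8_nt.AV
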