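import Pool.Agent.Work.MP_e0c7e8_nt.AV.StmtsI

/-! Item FIN of the block AV (helper39): sum over dyadic intervals. -/

set_option autoImplicit false

namespace Pool.Agent.Work.MP_e0c7e8_nt.AV

open Finset Pool.Agent.Work.MP_e0c7e8_nt.SM Pool.Agent.Work.MP_e0c7e8_nt.BG

namespace I_FIN

/-- The discriminants up to `X`. -/
noncomputable def AA (X : ℝ) : Finset ℤ :=
  (Icc (-⌊X⌋) (-1)).filter fun d : ℤ => d % 4 = 0 ∨ d % 4 = 1

lemma abs_of_mem {X : ℝ} {d : ℤ} (h1 : -⌊X⌋ ≤ d) (h2 : d ≤ -1) : |(d : ℝ)| ≤ X := by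
  have h3 : ((-d : ℤ) : ℝ) ≤ X := Int.le_floor.mp (by omega)
  have h4 : (d : ℝ) ≤ 0 := by exact_mod_cast (by omega : d ≤ 0)
  rw [abs_of_nonpos h4]
  push_cast at h3
  exact h3

lemma sub (X : ℝ) : AA X ⊆ AA (X / 2) ∪ DD X := by
  intro d hd
  rw [AA, mem_filter, mem_Icc] at hd
  obtain ⟨⟨h1, h2⟩, h3⟩ := hd
  rw [mem_union]
  by_cases h : X / 2 < |(d : ℝ)|
  · right
    rw [DD, mem_filter, mem_Icc]
    exact ⟨⟨h1, h2⟩, h3, h⟩
  · left
    rw [AA, mem_filter, mem_Icc]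
    refine ⟨⟨?_, h2⟩, h3⟩
    have h4 : (d : ℝ) ≤ 0 := by exact_mod_cast (by omega : d ≤ 0)
    rw [not_lt, abs_of_nonpos h4] at h
    have h5 : -d ≤ ⌊X / 2⌋ := Int.le_floor.mpr (by push_cast; exact h)
    omega

lemma step (f : ℤ → ℝ) (hf : ∀ d, 0 ≤ f d) (X : ℝ) :
    ∑ d ∈ AA X, f d ≤ ∑ d ∈ AA (X / 2), f d + ∑ d ∈ DD X, f d := by
  classical
  calc ∑ d ∈ AA X, f d ≤ ∑ d ∈ AA (X / 2) ∪ DD X, f d :=
        sum_le_sum_of_subset_of_nonneg (sub X) fun d _ _ => hf d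
    _ ≤ ∑ d ∈ AA (X / 2), f d + ∑ d ∈ DD X, f d := by
        rw [← sum_union_inter]
        have : 0 ≤ ∑ d ∈ AA (X / 2) ∩ DD X, f d := sum_nonneg fun d _ => hf d
        linarith

lemma small {X : ℝ} (hX : X < 1) : AA X = ∅ := by
  rw [AA]
  apply filter_eq_empty_iff.mpr
  intro d hd
  rw [mem_Icc] at hd
  have : ⌊X⌋ < 1 := Int.floor_lt.mpr (by exact_mod_cast hX)
  omega

lemma dyad (f : ℤ → ℝ) (hf : ∀ d, 0 ≤ f d) (C e : ℝ) (hC : 0 < C) (he : 1 ≤ e)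
    (h : ∀ X : ℝ, 1 ≤ X → ∑ d ∈ DD X, f d ≤ C * X ^ e) (n : ℕ) :
    ∀ X : ℝ, 0 < X → X < 2 ^ n → ∑ d ∈ AA X, f d ≤ 2 * C * X ^ e := by
  induction n with
  | zero =>
    intro X h0 hX
    rw [pow_zero] at hX
    rw [small hX, sum_empty]
    positivity
  | succ n ih =>
    intro X h0 hX
    rcases lt_or_ge X 1 with h1 | h1
    · rw [small h1, sum_empty]
      positivity
    · have h2 := ih (X / 2) (by positivity) (by rw [pow_succ] at hX; linarith)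
      have h3 : (X / 2) ^ e ≤ X ^ e / 2 := by
        rw [Real.div_rpow h0.le (by norm_num)]
        have h4 : (2 : ℝ) ≤ 2 ^ e := by
          calc (2 : ℝ) = 2 ^ (1 : ℝ) := (Real.rpow_one 2).symm
            _ ≤ 2 ^ e := Real.rpow_le_rpow_of_exponent_le (by norm_num) he
        have h5 : 0 ≤ X ^ e := Real.rpow_nonneg h0.le e
        exact div_le_div_of_nonneg_left h5 (by norm_num) h4
      calc ∑ d ∈ AA X, f d ≤ ∑ d ∈ AA (X / 2), f d + ∑ d ∈ DD X, f d := step f hf X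
        _ ≤ 2 * C * (X / 2) ^ e + C * X ^ e := add_le_add h2 (h X h1)
        _ ≤ 2 * C * (X ^ e / 2) + C * X ^ e := by gcongr
        _ = 2 * C * X ^ e := by ring

end I_FIN

theorem FIN_pf (h1 : S_FDM) (h2 : S_TWO) (h3 : S_PAR) : S_FIN := by
  intro a m hm hodd
  obtain ⟨C1, hC1, H1⟩ := h1 m hm hodd
  have hm0 : (5 : ℝ) ≤ m := by exact_mod_cast hm
  have hm6 : (1 : ℝ) ≤ (m : ℝ) ^ 6 := one_le_pow₀ (by linarith)
  have hKK : 2 * (KK m : ℝ) ≤ 11 * 10 ^ 6 * (m : ℝ) ^ 6 := by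
    have h := (h3 m hm).2.2.2.2.1
    exact_mod_cast h
  have hKpos : 0 < (KK m : ℝ) := by
    have : 0 < KK m := by unfold KK; positivity
    exact_mod_cast this
  set ε : ℝ := 1 / (11 * 10 ^ 6 * (m : ℝ) ^ 6) - 1 / (20000000 * (m : ℝ) ^ 6) with hε
  have hε0 : 0 < ε := by
    rw [hε, sub_pos]
    apply one_div_lt_one_div_of_lt (by positivity)
    nlinarith
  obtain ⟨C2, hC2, H2⟩ := h2 a ε hε0
  set e : ℝ := (3 : ℝ) / 2 - 3 / (2 * m + 2) - 1 / (20000000 * m ^ 6) with he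
  have he1 : (3 : ℝ) / 2 - 3 / (2 * m + 2) - 1 / (2 * KK m) + ε ≤ e := by
    have h4 : 1 / (11 * 10 ^ 6 * (m : ℝ) ^ 6) ≤ 1 / (2 * (KK m : ℝ)) :=
      one_div_le_one_div_of_le (by positivity) hKK
    rw [he, hε]
    linarith
  have he2 : 1 ≤ e := by
    have h4 : 3 / (2 * (m : ℝ) + 2) ≤ 1 / 4 := by
      rw [div_le_div_iff₀ (by positivity) (by norm_num)]
      linarith
    have h5 : 1 / (20000000 * (m : ℝ) ^ 6) ≤ 1 / 4 := by
      apply one_div_le_one_div_of_le (by norm_num)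
      nlinarith
    rw [he]
    linarith
  have key : ∀ X : ℝ, 1 ≤ X → ∑ d ∈ DD X,
      (Nat.card {x : ClassGroup ↥(Od d) // x ^ (2 ^ a * m) = 1} : ℝ) ≤ C2 * C1 * X ^ e := by
    intro X hX
    have hX0 : 0 < X := by linarith
    have hm0' : 0 < m := by omega
    calc ∑ d ∈ DD X, (Nat.card {x : ClassGroup ↥(Od d) // x ^ (2 ^ a * m) = 1} : ℝ)
        ≤ ∑ d ∈ DD X, C2 * X ^ ε * (Nat.card {y : ClassGroup ↥(Od d) // y ^ m = 1} : ℝ) := by
          apply sum_le_sum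
          intro d hd
          rw [DD, mem_filter, mem_Icc] at hd
          obtain ⟨⟨hd1, hd2⟩, hd3, hd4⟩ := hd
          have hd5 : |(d : ℝ)| ≤ X := I_FIN.abs_of_mem hd1 hd2
          refine (H2 m d hm0' (by omega) hd3).trans ?_
          have h6 : |(d : ℝ)| ^ ε ≤ X ^ ε := Real.rpow_le_rpow (abs_nonneg _) hd5 hε0.le
          have h7 : (0 : ℝ) ≤ (Nat.card {y : ClassGroup ↥(Od d) // y ^ m = 1} : ℝ) :=
            Nat.cast_nonneg _
          exact mul_le_mul_of_nonneg_right (mul_le_mul_of_nonneg_left h6 hC2.le) h7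
      _ = C2 * X ^ ε * ∑ d ∈ DD X, (Nat.card {y : ClassGroup ↥(Od d) // y ^ m = 1} : ℝ) := by
          rw [mul_sum]
      _ ≤ C2 * X ^ ε * (C1 * X ^ ((3 : ℝ) / 2 - 3 / (2 * m + 2) - 1 / (2 * KK m))) :=
          mul_le_mul_of_nonneg_left (H1 X hX) (by positivity)
      _ = C2 * C1 * X ^ ((3 : ℝ) / 2 - 3 / (2 * m + 2) - 1 / (2 * KK m) + ε) := by
          rw [Real.rpow_add hX0]; ring
      _ ≤ C2 * C1 * X ^ e := by
          apply mul_le_mul_of_nonneg_left _ (by positivity)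
          exact Real.rpow_le_rpow_of_exponent_le hX he1
  refine ⟨2 * (C2 * C1), by positivity, fun X hX => ?_⟩
  obtain ⟨n, hn⟩ := pow_unbounded_of_one_lt X (one_lt_two)
  exact I_FIN.dyad (fun d => (Nat.card {x : ClassGroup ↥(Od d) // x ^ (2 ^ a * m) = 1} : ℝ))
    (fun d => Nat.cast_nonneg _) (C2 * C1) e (by positivity) he2 key n X (by linarith) hn

end Pool.Agent.Work.MP_e0c7e8_nt.AV
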