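import Pool.Agent.Work.MP_e0c7e8_nt.AV.Stmts

/-! Item FXD of block AV (helper10): one direction. -/

set_option autoImplicit false

namespace Pool.Agent.Work.MP_e0c7e8_nt.AV

open Finset

namespace FXD

/-- Cauchy-Schwarz for the pairs with equal images. -/
theorem pairs {α β : Type} [DecidableEq α] [DecidableEq β] (C : Finset α) (f : α → β) :
    C.card ^ 2 ≤ (C.image f).card * ((C ×ˢ C).filter fun x => f x.1 = f x.2).card := by
  have h1 : C.card = ∑ v ∈ C.image f, (C.filter fun c => f c = v).card :=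
    Finset.card_eq_sum_card_image f C
  have h2 : ((C ×ˢ C).filter fun x => f x.1 = f x.2).card =
      ∑ v ∈ C.image f, (C.filter fun c => f c = v).card ^ 2 := by
    rw [Finset.card_eq_sum_card_fiberwise (f := fun x : α × α => f x.1) (t := C.image f)]
    · apply Finset.sum_congr rfl
      intro v _
      rw [sq, ← Finset.card_product]
      congr 1
      ext x
      simp only [Finset.mem_filter, Finset.mem_product]
      constructor
      · rintro ⟨⟨⟨h1, h2⟩, h3⟩, h4⟩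
        exact ⟨⟨h1, h4⟩, h2, h3 ▸ h4⟩
      · rintro ⟨⟨h1, h4⟩, h2, h3⟩
        exact ⟨⟨⟨h1, h2⟩, h4.trans h3.symm⟩, h4⟩
    · intro x hx
      have := (Finset.mem_product.mp (Finset.mem_filter.mp hx).1).1
      exact Finset.mem_image_of_mem f this
  rw [h2]
  calc C.card ^ 2 = (∑ v ∈ C.image f, (C.filter fun c => f c = v).card) ^ 2 := by rw [← h1]
    _ ≤ (C.image f).card * ∑ v ∈ C.image f, (C.filter fun c => f c = v).card ^ 2 :=
      sq_sum_le_card_mul_sum_sq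

end FXD

theorem FXD_pf (h₁ : S_R1) : S_FXD := by
  classical
  intro m k l U w Y N0 N H u ka c g κ L i p hT hm hw hlw hY hN0 hκ hL hp hκC hCO hYU hmain
  have hCIpos : 0 < ((CI H i p).card : ℝ) := by
    refine lt_of_lt_of_le ?_ hκC
    have : (0 : ℝ) < N0 := by exact_mod_cast hN0
    positivity
  obtain ⟨x₀, hx₀⟩ : (CI H i p).Nonempty := by
    rw [← Finset.card_pos]; exact_mod_cast hCIpos
  have hCI : ∀ x ∈ CI H i p, x ∈ H ∧ x i = p 0 ∧ ∀ j, Function.update x i (p j) ∈ H := by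
    intro x hx
    have := Finset.mem_filter.mp hx
    exact ⟨this.1, this.2.1, this.2.2⟩
  have hpN : ∀ j, p j ∈ N := by
    intro j
    have := hT.mem _ ((hCI x₀ hx₀).2.2 j) i
    rwa [Function.update_self] at this
  -- no relation
  have hnR : ∀ y, ¬ Rel m (k + 1) Y w p y := by
    intro y hy
    apply hp
    rw [EX, Finset.mem_filter]
    exact ⟨by rw [Fintype.mem_piFinset]; exact hpN, Or.inr ⟨y, hy⟩⟩
  let C := CI H i p
  let u' : Fin (k + 1) → (Fin 4 → ℕ) → ℤ := fun j x => u (Function.update x i (p j))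
  let G : (Fin 4 → ℕ) → (ZMod (w ^ 2))ˣ := fun x => ka * ∏ i' ∈ Finset.univ.erase i, g i' (x i')
  have hU : ∀ j, ∀ x ∈ C, |u' j x| ≤ (U : ℤ) := fun j x hx => hT.small _ ((hCI x hx).2.2 j)
  have hG : ∀ j, ∀ x ∈ C, ((u' j x : ℤ) : ZMod (w ^ 2)) =
      (g i (p j) : ZMod (w ^ 2)) * (G x : ZMod (w ^ 2)) := by
    intro j x hx
    rw [hT.prod _ ((hCI x hx).2.2 j)]
    rw [← Finset.mul_prod_erase Finset.univ _ (Finset.mem_univ i)]
    simp only [G, Function.update_self, Units.val_mul, Units.coe_prod]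
    have : ∏ x_1 ∈ Finset.univ.erase i, ((g x_1 (Function.update x i (p j) x_1) : (ZMod (w ^ 2))ˣ) :
        ZMod (w ^ 2)) = ∏ x_1 ∈ Finset.univ.erase i, ((g x_1 (x x_1) : (ZMod (w ^ 2))ˣ) :
        ZMod (w ^ 2)) := by
      apply Finset.prod_congr rfl
      intro a ha
      rw [Function.update_of_ne (Finset.ne_of_mem_erase ha)]
    rw [this]
    ring
  have hg : ∀ y : Fin (k + 1) → ℤ, y ≠ 0 → (∀ j, |y j| ≤ (Y : ℤ)) →
      ∑ j, (y j : ZMod (w ^ 2)) * ((g i (p j) : (ZMod (w ^ 2))ˣ) : ZMod (w ^ 2)) ≠ 0 := by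
    intro y hy hyY h0
    refine hnR y ⟨hy, hyY, c i, fun j => (g i (p j) : ZMod (w ^ 2)), ?_, h0⟩
    intro j
    have := hT.sq _ ((hCI x₀ hx₀).2.2 j) i
    rwa [Function.update_self] at this
  -- the number of columns
  let f : (Fin 4 → ℕ) → (Fin (k + 1) → ℤ) := fun x j => u' j x
  set V := (C.image f).card with hV
  have hpair : ((C ×ˢ C).filter fun x => f x.1 = f x.2).card ≤ (CO m w N).card := by
    apply Finset.card_le_card_of_injOn
      (fun x => ((fun a => x.1 (i.succAbove a)), (fun a => x.2 (i.succAbove a))))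
    · intro x hx
      have hx' := Finset.mem_filter.mp hx
      obtain ⟨hx1, hx2⟩ := Finset.mem_product.mp hx'.1
      have hff := congrFun hx'.2 0
      simp only [f, u'] at hff
      have e1 : Function.update x.1 i (p 0) = x.1 := by
        rw [← (hCI _ hx1).2.1]; exact Function.update_eq_self _ _
      have e2 : Function.update x.2 i (p 0) = x.2 := by
        rw [← (hCI _ hx2).2.1]; exact Function.update_eq_self _ _
      rw [e1, e2] at hff
      have r1 := hT.root _ (hCI _ hx1).1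
      have r2 := hT.root _ (hCI _ hx2).1
      rw [hff] at r1
      have r3 := dvd_sub r2 r1
      rw [Fin.prod_univ_succAbove _ i, Fin.prod_univ_succAbove _ i, (hCI _ hx1).2.1,
        (hCI _ hx2).2.1] at r3
      have r4 : (w : ℤ) ^ 2 ∣ ((l : ℤ) * (p 0 : ℤ) ^ m) *
          ((∏ a, (x.1 (i.succAbove a) : ℤ)) ^ m - (∏ a, (x.2 (i.succAbove a) : ℤ)) ^ m) := by
        have e : (u x.2 ^ 2 - (l : ℤ) * ((p 0 : ℤ) * ∏ a, (x.2 (i.succAbove a) : ℤ)) ^ m) -
            (u x.2 ^ 2 - (l : ℤ) * ((p 0 : ℤ) * ∏ a, (x.1 (i.succAbove a) : ℤ)) ^ m) =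
            ((l : ℤ) * (p 0 : ℤ) ^ m) *
          ((∏ a, (x.1 (i.succAbove a) : ℤ)) ^ m - (∏ a, (x.2 (i.succAbove a) : ℤ)) ^ m) := by
          rw [mul_pow, mul_pow]; ring
        rw [← e]; exact r3
      have hcop0 : (p 0).Coprime w := by
        have := hT.cop _ (hCI _ hx1).1 i
        rwa [(hCI _ hx1).2.1] at this
      have hcop : IsCoprime ((w : ℤ) ^ 2) ((l : ℤ) * (p 0 : ℤ) ^ m) := by
        have h1 : IsCoprime (w : ℤ) (l : ℤ) := (Nat.isCoprime_iff_coprime.mpr hlw).symm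
        have h2 : IsCoprime (w : ℤ) (p 0 : ℤ) := (Nat.isCoprime_iff_coprime.mpr hcop0).symm
        exact IsCoprime.pow_left (h1.mul_right (h2.pow_right))
      have r5 := hcop.dvd_of_dvd_mul_left r4
      rw [Finset.mem_coe, CO, Finset.mem_filter, Finset.mem_product, Fintype.mem_piFinset,
        Fintype.mem_piFinset]
      exact ⟨⟨fun a => hT.mem _ (hCI _ hx1).1 _, fun a => hT.mem _ (hCI _ hx2).1 _⟩, r5⟩
    · intro x hx y hy hxy
      obtain ⟨hx1, hx2⟩ := Finset.mem_product.mp (Finset.mem_filter.mp hx).1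
      obtain ⟨hy1, hy2⟩ := Finset.mem_product.mp (Finset.mem_filter.mp hy).1
      simp only [Prod.mk.injEq] at hxy
      have key : ∀ z z' : Fin 4 → ℕ, z i = z' i →
          ((fun a => z (i.succAbove a)) = fun a => z' (i.succAbove a)) → z = z' := by
        intro z z' h1 h2
        funext a
        rcases Fin.eq_self_or_eq_succAbove i a with h | ⟨b, h⟩
        · rw [h]; exact h1
        · rw [h]; exact congrFun h2 b
      exact Prod.ext (key _ _ ((hCI _ hx1).2.1.trans (hCI _ hy1).2.1.symm) hxy.1)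
        (key _ _ ((hCI _ hx2).2.1.trans (hCI _ hy2).2.1.symm) hxy.2)
  have hCS := FXD.pairs C f
  have hCSR : (κ * (N0 : ℝ) ^ 3) ^ 2 ≤ (V : ℝ) * (L * (N0 : ℝ) ^ 3) := by
    have h1 : ((C.card : ℝ)) ^ 2 ≤ (V : ℝ) *
        (((C ×ˢ C).filter fun x => f x.1 = f x.2).card : ℝ) := by exact_mod_cast hCS
    have h2 : (((C ×ˢ C).filter fun x => f x.1 = f x.2).card : ℝ) ≤ L * (N0 : ℝ) ^ 3 :=
      le_trans (by exact_mod_cast hpair) hCO
    calc (κ * (N0 : ℝ) ^ 3) ^ 2 ≤ (C.card : ℝ) ^ 2 := by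
          apply pow_le_pow_left₀ _ hκC
          positivity
      _ ≤ _ := h1
      _ ≤ _ := by gcongr
  have hN0R : (0 : ℝ) < (N0 : ℝ) ^ 3 := by
    have : (0 : ℝ) < N0 := by exact_mod_cast hN0
    positivity
  have hVL : κ ^ 2 * (N0 : ℝ) ^ 3 ≤ V * L := by
    have h3 : (κ ^ 2 * (N0 : ℝ) ^ 3) * (N0 : ℝ) ^ 3 ≤ (V * L) * (N0 : ℝ) ^ 3 := by
      calc (κ ^ 2 * (N0 : ℝ) ^ 3) * (N0 : ℝ) ^ 3 = (κ * (N0 : ℝ) ^ 3) ^ 2 := by ring
        _ ≤ (V : ℝ) * (L * (N0 : ℝ) ^ 3) := hCSR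
        _ = _ := by ring
    exact le_of_mul_le_mul_right h3 hN0R
  have hfin : 9 ^ (k + 1) * (k + 1).factorial * ((k + 1) * Y * U) ^ 2 <
      (Y + 1) ^ (k + 1) * V * w ^ 2 := by
    have hw0 : (0 : ℝ) < (w : ℝ) := by exact_mod_cast (by omega : 0 < w)
    have h4 : ((9 : ℝ) ^ (k + 1) * ((k + 1).factorial : ℝ) * ((k + 1 : ℝ) * Y * U) ^ 2) * L <
        (((Y : ℝ) + 1) ^ (k + 1) * V * (w : ℝ) ^ 2) * L := by
      calc ((9 : ℝ) ^ (k + 1) * ((k + 1).factorial : ℝ) * ((k + 1 : ℝ) * Y * U) ^ 2) * L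
          < ((Y : ℝ) + 1) ^ (k + 1) * κ ^ 2 * (N0 : ℝ) ^ 3 * (w : ℝ) ^ 2 := hmain
        _ = ((Y : ℝ) + 1) ^ (k + 1) * (w : ℝ) ^ 2 * (κ ^ 2 * (N0 : ℝ) ^ 3) := by ring
        _ ≤ ((Y : ℝ) + 1) ^ (k + 1) * (w : ℝ) ^ 2 * (V * L) := by gcongr
        _ = _ := by ring
    have h5 := lt_of_mul_lt_mul_right h4 hL.le
    exact_mod_cast h5
  intro x hx x' hx' j j'
  exact h₁ (k + 1) w U Y V (Fin 4 → ℕ) C u' (fun j => (g i (p j) : ZMod (w ^ 2))) G hY (by omega)
    hU hG hg hYU le_rfl hfin x hx x' hx' j j'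

end Pool.Agent.Work.MP_e0c7e8_nt.AV
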