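import Pool.Agent.Work.MP_e0c7e8_nt.AV.Stmts

/-!
# Item [e0c7e8 AV FXT]: roots that are products, for the set `HW` (helper51)
-/

set_option autoImplicit false

namespace Pool.Agent.Work.MP_e0c7e8_nt.AV

open Finset

theorem FXT_pf (hTYP : S_TYP) : S_FXT := by
  intro m l U w L N hm hw hl hL
  classical
  have hw2 : NeZero (w ^ 2) := ⟨by positivity⟩
  have hl2 : l.Coprime (w ^ 2) := hl.pow_right 2
  have hmem : ∀ P ∈ HW m l U w N, (∀ i, P i ∈ N) ∧ (∀ i, (P i).Coprime w) ∧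
      ∃ u : ℤ, |u| ≤ (U : ℤ) ∧ (w : ℤ) ^ 2 ∣ u ^ 2 - (l : ℤ) * (∏ i, (P i : ℤ)) ^ m := by
    intro P hP
    unfold HW at hP
    obtain ⟨h1, h2, h3⟩ := Finset.mem_filter.1 hP
    exact ⟨fun i => Fintype.mem_piFinset.1 h1 i, h2, h3⟩
  choose! u hu1 hu2 using fun P hP => (hmem P hP).2.2
  obtain ⟨a, ha⟩ : ∃ a : ℕ → (ZMod (w ^ 2))ˣ, ∀ n : ℕ, n.Coprime w →
      ((a n : (ZMod (w ^ 2))ˣ) : ZMod (w ^ 2)) = (n : ZMod (w ^ 2)) ^ m := by
    refine ⟨fun n => if h : n.Coprime (w ^ 2) then ZMod.unitOfCoprime n h ^ m else 1,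
      fun n hn => ?_⟩
    have h2 : n.Coprime (w ^ 2) := hn.pow_right 2
    show (((if h : n.Coprime (w ^ 2) then ZMod.unitOfCoprime n h ^ m else 1) :
      (ZMod (w ^ 2))ˣ) : ZMod (w ^ 2)) = (n : ZMod (w ^ 2)) ^ m
    rw [dif_pos h2, Units.val_pow_eq_pow_val, ZMod.coe_unitOfCoprime]
  have heq : ∀ P ∈ HW m l U w N, ((u P : ℤ) : ZMod (w ^ 2)) ^ 2
      = ((ZMod.unitOfCoprime l hl2 * ∏ i, a (P i) : (ZMod (w ^ 2))ˣ) : ZMod (w ^ 2)) := by
    intro P hP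
    have h1 := hu2 P hP
    have h2 : (((w ^ 2 : ℕ) : ℤ)) ∣ u P ^ 2 - (l : ℤ) * (∏ i, (P i : ℤ)) ^ m := by
      push_cast
      exact h1
    rw [← ZMod.intCast_zmod_eq_zero_iff_dvd] at h2
    push_cast at h2
    rw [Units.val_mul, ZMod.coe_unitOfCoprime, Units.coe_prod]
    rw [sub_eq_zero.1 h2, ← Finset.prod_pow]
    congr 1
    exact Finset.prod_congr rfl fun i _ => (ha (P i) ((hmem P hP).2.1 i)).symm
  have hunit : ∀ P ∈ HW m l U w N, ∃ v : (ZMod (w ^ 2))ˣ,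
      (v : ZMod (w ^ 2)) = ((u P : ℤ) : ZMod (w ^ 2)) := by
    intro P hP
    have h1 : IsUnit (((u P : ℤ) : ZMod (w ^ 2)) ^ 2) := by
      rw [heq P hP]
      exact Units.isUnit _
    have h2 : IsUnit (((u P : ℤ) : ZMod (w ^ 2))) := (isUnit_pow_iff two_ne_zero).1 h1
    exact ⟨h2.unit, h2.unit_spec⟩
  choose! v hv using hunit
  obtain ⟨H', hsub, hcard, ka, c, g, h1, h2⟩ := hTYP (ZMod (w ^ 2))ˣ ℕ L hL (HW m l U w N) a
    (ZMod.unitOfCoprime l hl2) v (fun P hP => by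
      apply Units.ext
      rw [Units.val_pow_eq_pow_val, hv P hP]
      exact heq P hP)
  refine ⟨H', hsub, hcard, u, ka, c, g, ?_⟩
  exact
    { mem := fun P hP i => (hmem P (hsub hP)).1 i
      cop := fun P hP i => (hmem P (hsub hP)).2.1 i
      small := fun P hP => hu1 P (hsub hP)
      root := fun P hP => hu2 P (hsub hP)
      prod := fun P hP => by
        rw [← hv P (hsub hP), h1 P hP, Units.val_mul, Units.coe_prod]
      sq := fun P hP i => by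
        have h3 := congrArg (fun x : (ZMod (w ^ 2))ˣ => (x : ZMod (w ^ 2))) (h2 P hP i)
        simp only [Units.val_pow_eq_pow_val, Units.val_mul] at h3
        rw [h3, ha (P i) ((hmem P (hsub hP)).2.1 i)] }

end Pool.Agent.Work.MP_e0c7e8_nt.AV
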