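import Pool.Agent.Work.MP_e0c7e8_nt.AV.Stmts

/-!
# Item FXW of the block AV: few points for one modulus.
-/

set_option autoImplicit false

namespace Pool.Agent.Work.MP_e0c7e8_nt.AV

open Finset

namespace I_FXW

/-- Squarefree numbers with quotient a square are equal. -/
theorem sqf_eq {q q' A B : ℕ} (hq : Squarefree q) (hq' : Squarefree q') (hA : A ≠ 0) (hB : B ≠ 0)
    (h : q' * A ^ 2 = q * B ^ 2) : q = q' := by
  have h0 : q ≠ 0 := hq.ne_zero
  have h0' : q' ≠ 0 := hq'.ne_zero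
  refine Nat.eq_of_factorization_eq h0 h0' fun p => ?_
  have h1 : (q' * A ^ 2).factorization p = (q * B ^ 2).factorization p := by rw [h]
  rw [Nat.factorization_mul h0' (pow_ne_zero 2 hA), Nat.factorization_mul h0 (pow_ne_zero 2 hB),
    Nat.factorization_pow, Nat.factorization_pow] at h1
  simp only [Finsupp.coe_add, Finsupp.coe_smul, Pi.add_apply, Pi.smul_apply, smul_eq_mul] at h1
  have h2 := hq.natFactorization_le_one p
  have h3 := hq'.natFactorization_le_one p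
  omega

/-- The difference is not zero. -/
theorem diff_ne {m q q' : ℕ} {a a' : ℤ} (hm : Odd m) (hq : Squarefree q) (hq' : Squarefree q')
    (hne : q ≠ q') (ha : a ≠ 0) (ha' : a' ≠ 0) :
    (q' : ℤ) ^ m * a ^ 2 - (q : ℤ) ^ m * a' ^ 2 ≠ 0 := by
  intro h
  apply hne
  obtain ⟨s, rfl⟩ := hm
  have h0 : q ≠ 0 := hq.ne_zero
  have h0' : q' ≠ 0 := hq'.ne_zero
  refine sqf_eq (A := q' ^ s * a.natAbs) (B := q ^ s * a'.natAbs) hq hq'
    (mul_ne_zero (pow_ne_zero _ h0') (Int.natAbs_ne_zero.mpr ha))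
    (mul_ne_zero (pow_ne_zero _ h0) (Int.natAbs_ne_zero.mpr ha')) ?_
  have h1 : (q' : ℤ) ^ (2 * s + 1) * a ^ 2 = (q : ℤ) ^ (2 * s + 1) * a' ^ 2 := by linarith
  have h2 : ((q' * (q' ^ s * a.natAbs) ^ 2 : ℕ) : ℤ) = ((q * (q ^ s * a'.natAbs) ^ 2 : ℕ) : ℤ) := by
    push_cast
    rw [mul_pow, mul_pow, sq_abs, sq_abs]
    calc (q' : ℤ) * (((q' : ℤ) ^ s) ^ 2 * a ^ 2) = (q' : ℤ) ^ (2 * s + 1) * a ^ 2 := by ring
      _ = (q : ℤ) ^ (2 * s + 1) * a' ^ 2 := h1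
      _ = (q : ℤ) * (((q : ℤ) ^ s) ^ 2 * a' ^ 2) := by ring
  exact_mod_cast h2

/-- One of the two terms is less than `w^2`. -/
theorem term_lt {m N0 q U w : ℕ} {a : ℤ} (hq : q ≤ N0) (ha : a ^ 4 ≤ (U : ℤ))
    (hlt : N0 ^ (2 * m) * U < w ^ 4) : (q : ℤ) ^ m * a ^ 2 < (w : ℤ) ^ 2 := by
  have h1 : ((q : ℤ) ^ m * a ^ 2) ^ 2 < ((w : ℤ) ^ 2) ^ 2 := by
    calc ((q : ℤ) ^ m * a ^ 2) ^ 2 = (q : ℤ) ^ (2 * m) * a ^ 4 := by
          rw [mul_pow, ← pow_mul, ← pow_mul, mul_comm m 2]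
      _ ≤ (N0 : ℤ) ^ (2 * m) * (U : ℤ) := by
          apply mul_le_mul _ ha (by positivity) (by positivity)
          exact pow_le_pow_left₀ (by positivity) (by exact_mod_cast hq) _
      _ < (w : ℤ) ^ 4 := by exact_mod_cast hlt
      _ = ((w : ℤ) ^ 2) ^ 2 := by ring
  exact lt_of_pow_lt_pow_left₀ 2 (by positivity) h1

/-- The arithmetic contradiction. -/
theorem contra {m l U w N0 q q' n : ℕ} {a a' x x' : ℤ} (hm : Odd m)
    (hl : l.Coprime w) (hn : n.Coprime w) (hq : Squarefree q) (hq' : Squarefree q')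
    (hqN : q ≤ N0) (hqN' : q' ≤ N0) (hne : q ≠ q') (ha : a ≠ 0) (ha' : a' ≠ 0)
    (haU : a ^ 4 ≤ (U : ℤ)) (haU' : a' ^ 4 ≤ (U : ℤ)) (hlt : N0 ^ (2 * m) * U < w ^ 4)
    (hx : (w : ℤ) ^ 2 ∣ x ^ 2 - (l : ℤ) * ((q : ℤ) * n) ^ m)
    (hx' : (w : ℤ) ^ 2 ∣ x' ^ 2 - (l : ℤ) * ((q' : ℤ) * n) ^ m)
    (hrel : x' * a = x * a') : False := by
  have h1 : (w : ℤ) ^ 2 ∣ ((l : ℤ) * (n : ℤ) ^ m) * ((q' : ℤ) ^ m * a ^ 2 - (q : ℤ) ^ m * a' ^ 2) := by
    have h2 : ((l : ℤ) * (n : ℤ) ^ m) * ((q' : ℤ) ^ m * a ^ 2 - (q : ℤ) ^ m * a' ^ 2) =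
        (x ^ 2 - (l : ℤ) * ((q : ℤ) * n) ^ m) * a' ^ 2 -
          (x' ^ 2 - (l : ℤ) * ((q' : ℤ) * n) ^ m) * a ^ 2 +
            ((x' * a) ^ 2 - (x * a') ^ 2) := by
      rw [mul_pow, mul_pow]; ring
    rw [h2, hrel, sub_self, add_zero]
    exact dvd_sub (Dvd.dvd.mul_right hx _) (Dvd.dvd.mul_right hx' _)
  have hcop : IsCoprime ((w : ℤ) ^ 2) ((l : ℤ) * (n : ℤ) ^ m) := by
    have hl' : IsCoprime (w : ℤ) (l : ℤ) := (Nat.isCoprime_iff_coprime.mpr hl).symm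
    have hn' : IsCoprime (w : ℤ) (n : ℤ) := (Nat.isCoprime_iff_coprime.mpr hn).symm
    exact (hl'.mul_right hn'.pow_right).pow_left
  have h3 : (w : ℤ) ^ 2 ∣ ((q' : ℤ) ^ m * a ^ 2 - (q : ℤ) ^ m * a' ^ 2) := hcop.dvd_of_dvd_mul_left h1
  have h4 := term_lt (m := m) hqN' haU hlt
  have h5 := term_lt (m := m) hqN haU' hlt
  have h6 : 0 ≤ (q' : ℤ) ^ m * a ^ 2 := by positivity
  have h7 : 0 ≤ (q : ℤ) ^ m * a' ^ 2 := by positivity
  have h8 : |(q' : ℤ) ^ m * a ^ 2 - (q : ℤ) ^ m * a' ^ 2| < (w : ℤ) ^ 2 := by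
    rw [abs_lt]; constructor <;> linarith
  exact diff_ne hm hq hq' hne ha ha' (Int.eq_zero_of_abs_lt_dvd h3 h8)

theorem mem_EX {m k Y w : ℕ} {N : Finset ℕ} {p : Fin k → ℕ}
    (hp : p ∈ (Fintype.piFinset fun _ : Fin k => N))
    (h : ¬ Function.Injective p ∨ ∃ y, Rel m k Y w p y) : p ∈ EX m k Y w N := by
  classical
  unfold EX
  rw [Finset.mem_filter]
  exact ⟨hp, h⟩

/-- The two elements of `Fin (k+1)`. -/
def f2 (k : ℕ) (b : Fin 2) : Fin (k + 1) := if b = 0 then 0 else Fin.last k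

theorem f2_zero (k : ℕ) : f2 k 0 = 0 := by simp [f2]

theorem f2_one (k : ℕ) : f2 k 1 = Fin.last k := by simp [f2]

/-- The points of the small box. -/
def pt {k : ℕ} (p : Fin 4 → Fin (k + 1) → ℕ) (e : Fin 4 → Fin 2) : Fin 4 → ℕ :=
  fun i => p i (f2 k (e i))

theorem update_pt {k : ℕ} (p : Fin 4 → Fin (k + 1) → ℕ) (e : Fin 4 → Fin 2) (i : Fin 4)
    (b : Fin 2) (c : Fin 2) :
    Function.update (pt p (Function.update e i c)) i (p i (f2 k b)) =
      pt p (Function.update e i b) := by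
  funext t
  by_cases h : t = i
  · subst h; simp [pt]
  · simp [pt, Function.update_of_ne h]

end I_FXW

open I_FXW in
theorem FXW_pf (hFXT : S_FXT) (hBOX : S_BOX) (hFXD : S_FXD) (hGEO : S_GEO) : S_FXW := by
  intro m k l U w Y N0 L2 N θ e κ L hm hk hw hl hY hN hL2 hL2' hθ he hκ hL hHW hEX hCO hbox hYU
    hineq hlt hN0
  have hm1 : 1 ≤ m := hm.pos
  obtain ⟨H, hH, hcard, u, ka, c, g, hTy⟩ := hFXT m l U w L2 N hm1 hw hl hL2
  have hL2r : (0 : ℝ) < (L2 : ℝ) ^ 5 := by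
    have : (0 : ℝ) < (L2 : ℝ) := by exact_mod_cast hL2'
    positivity
  have hNcard : (N.card : ℝ) ≤ (N0 : ℝ) := by
    have h1 : N ⊆ Finset.Icc 1 N0 := fun n hn => by
      rw [Finset.mem_Icc]; exact ⟨(hN n hn).1, (hN n hn).2.1⟩
    have h2 := Finset.card_le_card h1
    rw [Nat.card_Icc] at h2
    exact_mod_cast (by omega : N.card ≤ N0)
  have hHN : H ⊆ (Fintype.piFinset fun _ => N) := fun P hP => by
    rw [Fintype.mem_piFinset]; exact fun i => hTy.mem P hP i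
  have hθ' : θ / (L2 : ℝ) ^ 5 * (N0 : ℝ) ^ 4 ≤ (H.card : ℝ) := by
    rw [div_mul_eq_mul_div, div_le_iff₀ hL2r]
    refine hHW.trans ?_
    rw [mul_comm (H.card : ℝ)]
    exact_mod_cast hcard
  obtain ⟨p, hp, hpE, hCI⟩ := hBOX k ℕ N H (EX m (k + 1) Y w N) (N0 : ℝ) (θ / (L2 : ℝ) ^ 5) e κ
    (by exact_mod_cast hN0) (div_pos hθ hL2r) he hκ hNcard hHN hθ' hEX hbox
  have hpN : ∀ i, p i ∈ (Fintype.piFinset fun _ : Fin (k + 1) => N) := by
    intro i
    rw [FB, Finset.mem_filter, Fintype.mem_piFinset] at hp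
    exact hp.1 i
  have hpH : ∀ a : Fin 4 → Fin (k + 1), (fun i => p i (a i)) ∈ H := by
    rw [FB, Finset.mem_filter] at hp
    exact hp.2
  have hpNm : ∀ i j, p i j ∈ N := fun i j => (Fintype.mem_piFinset.mp (hpN i)) j
  have hinj : ∀ i, Function.Injective (p i) := by
    intro i
    by_contra hcon
    apply hpE i
    exact mem_EX (hpN i) (Or.inl hcon)
  have hptH : ∀ e : Fin 4 → Fin 2, pt p e ∈ H := fun e => hpH fun i => f2 k (e i)
  have hptCI : ∀ (e : Fin 4 → Fin 2) (i : Fin 4),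
      pt p (Function.update e i 0) ∈ CI H i (p i) := by
    intro e i
    rw [CI, Finset.mem_filter]
    refine ⟨hptH _, by simp [pt, f2_zero], fun j => ?_⟩
    have h1 : Function.update (pt p (Function.update e i 0)) i (p i j) =
        fun t => p t (Function.update (fun t => f2 k (e t)) i j t) := by
      funext t
      by_cases h : t = i
      · subst h; simp
      · simp [pt, Function.update_of_ne h]
    rw [h1]
    exact hpH _
  have : Fact (1 < w ^ 2) := ⟨by nlinarith⟩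
  have hx0 : ∀ P ∈ H, u P ≠ 0 := by
    intro P hP h0
    have h1 := hTy.prod P hP
    rw [h0, Int.cast_zero] at h1
    have h2 : (ka : ZMod (w ^ 2)) * ∏ i, (g i (P i) : ZMod (w ^ 2)) =
        ((ka * ∏ i, g i (P i) : (ZMod (w ^ 2))ˣ) : ZMod (w ^ 2)) := by
      push_cast; rfl
    rw [h2] at h1
    exact Units.ne_zero _ h1.symm
  have hgeo := hGEO (fun e => u (pt p e)) U (fun e => ⟨hx0 _ (hptH e), hTy.small _ (hptH e)⟩)
    (by
      intro i e1 e2
      have h1 := hFXD m k l U w Y N0 N H u ka c g κ L i (p i) hTy hm1 hw hl hY hN0 hκ hL (hpE i)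
        (hCI i) hCO hYU hineq (pt p (Function.update e1 i 0)) (hptCI e1 i)
        (pt p (Function.update e2 i 0)) (hptCI e2 i) (f2 k 0) (f2 k 1)
      rw [update_pt, update_pt, update_pt, update_pt] at h1
      rw [h1, mul_comm])
  obtain ⟨i, a, a', ha, ha', haU, haU', hrel⟩ := hgeo
  let e0 : Fin 4 → Fin 2 := fun _ => 0
  have hr := hrel e0
  have hP0 := hptH (Function.update e0 i 0)
  have hP1 := hptH (Function.update e0 i 1)
  have hroot0 := hTy.root _ hP0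
  have hroot1 := hTy.root _ hP1
  have hprod : ∀ b : Fin 2, (∏ t, ((pt p (Function.update e0 i b)) t : ℤ)) =
      ((p i (f2 k b) : ℕ) : ℤ) * ((∏ t ∈ Finset.univ.erase i, p t 0 : ℕ) : ℤ) := by
    intro b
    rw [← Finset.mul_prod_erase Finset.univ _ (Finset.mem_univ i)]
    congr 1
    · simp [pt]
    · push_cast
      refine Finset.prod_congr rfl fun t ht => ?_
      have h : t ≠ i := Finset.ne_of_mem_erase ht
      simp [pt, Function.update_of_ne h, e0, f2_zero]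
  rw [hprod] at hroot0 hroot1
  have hncop : (∏ t ∈ Finset.univ.erase i, p t 0 : ℕ).Coprime w := by
    refine Nat.Coprime.prod_left fun t ht => ?_
    have h : t ≠ i := Finset.ne_of_mem_erase ht
    have h1 := hTy.cop _ hP0 t
    simpa [pt, Function.update_of_ne h, e0, f2_zero] using h1
  have hne : p i (f2 k 0) ≠ p i (f2 k 1) := by
    intro h
    have h1 := hinj i h
    rw [f2_zero, f2_one] at h1
    have h2 := congrArg Fin.val h1
    simp at h2
    omega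
  exact contra hm hl hncop (hN _ (hpNm i (f2 k 0))).2.2 (hN _ (hpNm i (f2 k 1))).2.2
    (hN _ (hpNm i (f2 k 0))).2.1 (hN _ (hpNm i (f2 k 1))).2.1 hne ha ha' haU haU' hlt hroot0 hroot1
    hr

end Pool.Agent.Work.MP_e0c7e8_nt.AV
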