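import Pool.Agent.Work.MP_e0c7e8_nt.AV.StmtsI

/-!
# GDS: the sum over the discriminants with many split primes
-/

set_option autoImplicit false

namespace Pool.Agent.Work.MP_e0c7e8_nt.AV

open Finset Pool.Agent.Work.MP_e0c7e8_nt.SM Pool.Agent.Work.MP_e0c7e8_nt.BG

namespace I_GDS

theorem card_Sp_le (d : ℤ) (P : ℕ) : (Sp d P).card ≤ P := by
  refine (card_filter_le _ _).trans ?_
  simp

theorem dpr_zero {G : Type} [CommGroup G] (c : ℕ → G) (m : ℕ) (S : Finset ℕ) :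
    (DPR c m 0 S).card ≤ 1 := by
  classical
  have h : DPR c m 0 S ⊆ {((∅ : Finset ℕ), (∅ : Finset ℕ))} := by
    intro x hx
    simp only [DPR, PRS, mem_filter, mem_product, powersetCard_zero, mem_singleton] at hx
    rw [mem_singleton]
    exact Prod.ext hx.1.1.1 hx.1.1.2
  calc (DPR c m 0 S).card ≤ _ := card_le_card h
    _ = 1 := card_singleton _

theorem one (hCSG : S_CSG) (hCCP : S_CCP) {G : Type} [CommGroup G] [Finite G] (c : ℕ → G)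
    (m J P : ℕ) (S : Finset ℕ) (hS : S.card ≤ P) (Hc Gr : ℝ) (hG0 : 0 ≤ Gr)
    (hHc : (Nat.card G : ℝ) ≤ Hc) (hGr : Gr ≤ ((powersetCard J S).card : ℝ)) :
    (Nat.card {y : G // y ^ m = 1} : ℝ) * Gr ^ 2 ≤
      Hc * ((P : ℝ) ^ J + ∑ i ∈ Icc 1 J, (P : ℝ) ^ (J - i) * ((DPR c m i S).card : ℝ)) := by
  have h1 : (Nat.card {y : G // y ^ m = 1} : ℝ) * ((powersetCard J S).card : ℝ) ^ 2 ≤
      (Nat.card G : ℝ) * ((PRS c m J S).card : ℝ) := by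
    exact_mod_cast hCSG G c m J S
  have h2 : ((PRS c m J S).card : ℝ) ≤
      ∑ i ∈ range (J + 1), (S.card : ℝ) ^ (J - i) * ((DPR c m i S).card : ℝ) := by
    exact_mod_cast hCCP G c m J S
  have h3 : ∑ i ∈ range (J + 1), (S.card : ℝ) ^ (J - i) * ((DPR c m i S).card : ℝ) ≤
      (P : ℝ) ^ J + ∑ i ∈ Icc 1 J, (P : ℝ) ^ (J - i) * ((DPR c m i S).card : ℝ) := by
    have h4 : range (J + 1) = insert 0 (Icc 1 J) := by
      ext i
      simp only [mem_range, mem_insert, mem_Icc]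
      omega
    rw [h4, sum_insert (by simp)]
    have hSP : (S.card : ℝ) ≤ (P : ℝ) := by exact_mod_cast hS
    refine add_le_add ?_ (sum_le_sum fun i _ => ?_)
    · rw [Nat.sub_zero]
      have h5 : ((DPR c m 0 S).card : ℝ) ≤ 1 := by exact_mod_cast dpr_zero c m S
      calc (S.card : ℝ) ^ J * ((DPR c m 0 S).card : ℝ) ≤ (P : ℝ) ^ J * 1 :=
            mul_le_mul (pow_le_pow_left₀ (Nat.cast_nonneg _) hSP J) h5 (Nat.cast_nonneg _)
              (by positivity)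
        _ = (P : ℝ) ^ J := mul_one _
    · exact mul_le_mul_of_nonneg_right (pow_le_pow_left₀ (Nat.cast_nonneg _) hSP _)
        (Nat.cast_nonneg _)
  have hP0 : (0 : ℝ) ≤ ((PRS c m J S).card : ℝ) := Nat.cast_nonneg _
  have hHc0 : 0 ≤ Hc := le_trans (Nat.cast_nonneg _) hHc
  calc (Nat.card {y : G // y ^ m = 1} : ℝ) * Gr ^ 2
      ≤ (Nat.card {y : G // y ^ m = 1} : ℝ) * ((powersetCard J S).card : ℝ) ^ 2 :=
        mul_le_mul_of_nonneg_left (pow_le_pow_left₀ hG0 hGr 2) (Nat.cast_nonneg _)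
    _ ≤ (Nat.card G : ℝ) * ((PRS c m J S).card : ℝ) := h1
    _ ≤ Hc * ((PRS c m J S).card : ℝ) := mul_le_mul_of_nonneg_right hHc hP0
    _ ≤ _ := mul_le_mul_of_nonneg_left (h2.trans h3) hHc0

end I_GDS

open I_GDS in
theorem GDS_pf (hCLP : S_CLP) (hCSG : S_CSG) (hCCP : S_CCP) (hSLS : S_SLS) (hQFN : S_QFN)
    (hC1a : ClaimC1a) : S_GDS := by
  intro m J P X Hc G Ds hm _ hX hG hHc hDs
  have h1 : ∀ d : ℤ, ∃ c : ℕ → ClassGroup ↥(Od d), d < 0 → (d % 4 = 0 ∨ d % 4 = 1) → Cl d c := by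
    intro d
    by_cases h : d < 0 ∧ (d % 4 = 0 ∨ d % 4 = 1)
    · obtain ⟨c, hc⟩ := hCLP d h.1 h.2
      exact ⟨c, fun _ _ => hc⟩
    · exact ⟨fun _ => 1, fun a b => absurd ⟨a, b⟩ h⟩
  choose c hc using h1
  have h2 : ∀ d ∈ Ds, (Nat.card {y : ClassGroup ↥(Od d) // y ^ m = 1} : ℝ) * G ^ 2 ≤
      Hc * ((P : ℝ) ^ J +
        ∑ i ∈ Icc 1 J, (P : ℝ) ^ (J - i) * ((DPR (c d) m i (Sp d P)).card : ℝ)) := by
    intro d hd
    obtain ⟨h3, h4, _, _, h7, h8⟩ := hDs d hd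
    haveI : Finite (ClassGroup ↥(Od d)) := (hC1a d h3 h4).1
    exact one hCSG hCCP (c d) m J P (Sp d P) (card_Sp_le d P) Hc G hG h7 h8
  have h3 : ∀ i ∈ Icc 1 J, ∑ d ∈ Ds, ((DPR (c d) m i (Sp d P)).card : ℝ) ≤
      ((QS m X P i).ncard : ℝ) := by
    intro i hi
    rw [mem_Icc] at hi
    have h4 := hSLS m P i X Ds c hm hi.1 hX (fun d hd => by
      obtain ⟨h5, h6, h7, h8, _, _⟩ := hDs d hd
      exact ⟨h5, h6, h7, h8, hc d h5 h6⟩) (hQFN m P i X hX).1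
    exact_mod_cast h4
  calc (∑ d ∈ Ds, (Nat.card {y : ClassGroup ↥(Od d) // y ^ m = 1} : ℝ)) * G ^ 2
      = ∑ d ∈ Ds, (Nat.card {y : ClassGroup ↥(Od d) // y ^ m = 1} : ℝ) * G ^ 2 := by
        rw [sum_mul]
    _ ≤ ∑ d ∈ Ds, Hc * ((P : ℝ) ^ J +
        ∑ i ∈ Icc 1 J, (P : ℝ) ^ (J - i) * ((DPR (c d) m i (Sp d P)).card : ℝ)) :=
        sum_le_sum h2
    _ = Hc * ((Ds.card : ℝ) * (P : ℝ) ^ J + ∑ i ∈ Icc 1 J, (P : ℝ) ^ (J - i) *
        ∑ d ∈ Ds, ((DPR (c d) m i (Sp d P)).card : ℝ)) := by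
        rw [← mul_sum, sum_add_distrib, sum_const, nsmul_eq_mul, sum_comm]
        simp only [mul_sum]
    _ ≤ _ := by
        refine mul_le_mul_of_nonneg_left (add_le_add le_rfl (sum_le_sum fun i hi => ?_)) hHc
        exact mul_le_mul_of_nonneg_left (h3 i hi) (by positivity)

end Pool.Agent.Work.MP_e0c7e8_nt.AV
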