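import Mathlib

/-!
# Boxes with constant ratios
-/

set_option autoImplicit false

namespace Pool.Agent.Work.MP_e0c7e8_nt.AV

open Finset

/-- A function on the cube with constant ratios in all directions is a product. -/
theorem prodForm (s : ℕ) : ∀ (x : (Fin s → Bool) → ℤ), (∀ ε, x ε ≠ 0) →
    (∀ (i : Fin s) (ε ε' : Fin s → Bool),
      x (Function.update ε i true) * x (Function.update ε' i false) =
        x (Function.update ε' i true) * x (Function.update ε i false)) →
    ∃ (t : ℤ) (a a' : Fin s → ℤ), t ≠ 0 ∧ (∀ i, a i ≠ 0) ∧ (∀ i, a' i ≠ 0) ∧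
      ∀ ε, x ε = t * ∏ i, (if ε i then a' i else a i) := by
  induction s with
  | zero =>
    intro x hx _
    refine ⟨x default, fun _ => 1, fun _ => 1, hx _, fun _ => one_ne_zero, fun _ => one_ne_zero,
      fun ε => ?_⟩
    rw [Subsingleton.elim ε default]
    simp
  | succ s ih =>
    intro x hx hr
    -- the ratio in the first direction
    set x0 : (Fin s → Bool) → ℤ := fun ε => x (Fin.cons false ε) with hx0
    set x1 : (Fin s → Bool) → ℤ := fun ε => x (Fin.cons true ε) with hx1
    have hup : ∀ (b b' : Bool) (ε : Fin s → Bool),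
        Function.update (Fin.cons b ε : Fin (s + 1) → Bool) 0 b' = Fin.cons b' ε := by
      intro b b' ε
      exact Fin.update_cons_zero (α := fun _ => Bool) b ε b'
    have hups : ∀ (b b' : Bool) (ε : Fin s → Bool) (i : Fin s),
        Function.update (Fin.cons b ε : Fin (s + 1) → Bool) i.succ b' =
          Fin.cons b (Function.update ε i b') := by
      intro b b' ε i
      exact (Fin.cons_update (α := fun _ => Bool) b ε i b').symm
    have h01 : ∀ ε ε', x1 ε * x0 ε' = x1 ε' * x0 ε := by
      intro ε ε'
      have := hr 0 (Fin.cons false ε) (Fin.cons false ε')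
      rw [hup, hup, hup, hup] at this
      exact this
    let e0 : Fin s → Bool := fun _ => false
    have hg : Int.gcd (x0 e0) (x1 e0) ≠ 0 := by
      rw [Ne, Int.gcd_eq_zero_iff]
      exact fun h => hx _ h.1
    obtain ⟨a, a', hcop, ha, ha'⟩ : ∃ a a' : ℤ, IsCoprime a a' ∧
        x0 e0 = a * (Int.gcd (x0 e0) (x1 e0) : ℤ) ∧ x1 e0 = a' * (Int.gcd (x0 e0) (x1 e0) : ℤ) := by
      obtain ⟨a, a', h1, h2, h3⟩ := Int.exists_gcd_one (m := x0 e0) (n := x1 e0)
        (Nat.pos_of_ne_zero hg)
      exact ⟨a, a', Int.isCoprime_iff_gcd_eq_one.2 h1, h2, h3⟩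
    have hg' : (Int.gcd (x0 e0) (x1 e0) : ℤ) ≠ 0 := by exact_mod_cast hg
    generalize (Int.gcd (x0 e0) (x1 e0) : ℤ) = g at ha ha' hg'
    have ha0 : a ≠ 0 := by
      rintro rfl
      rw [zero_mul] at ha
      exact hx _ ha
    have ha0' : a' ≠ 0 := by
      rintro rfl
      rw [zero_mul] at ha'
      exact hx _ ha'
    have hrat : ∀ ε, x1 ε * a = x0 ε * a' := by
      intro ε
      have := h01 ε e0
      rw [ha, ha'] at this
      have h2 : g * (x1 ε * a) = g * (x0 ε * a') := by linarith
      exact mul_left_cancel₀ hg' h2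
    have hdvd : ∀ ε, a ∣ x0 ε := by
      intro ε
      have h1 : a ∣ x0 ε * a' := ⟨x1 ε, by rw [← hrat]; ring⟩
      exact hcop.dvd_of_dvd_mul_right h1
    choose z hz using hdvd
    have hz0 : ∀ ε, z ε ≠ 0 := by
      intro ε h
      have := hz ε
      rw [h, mul_zero] at this
      exact hx _ this
    have hz1 : ∀ ε, x1 ε = a' * z ε := by
      intro ε
      have h1 := hrat ε
      rw [hz ε] at h1
      have h2 : a * x1 ε = a * (a' * z ε) := by linarith
      exact mul_left_cancel₀ ha0 h2
    have hzr : ∀ (i : Fin s) (ε ε' : Fin s → Bool),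
        z (Function.update ε i true) * z (Function.update ε' i false) =
          z (Function.update ε' i true) * z (Function.update ε i false) := by
      intro i ε ε'
      have h1 := hr i.succ (Fin.cons false ε) (Fin.cons false ε')
      rw [hups, hups, hups, hups] at h1
      have h2 : (a * a) * (z (Function.update ε i true) * z (Function.update ε' i false)) =
          (a * a) * (z (Function.update ε' i true) * z (Function.update ε i false)) := by
        have e1 := hz (Function.update ε i true)
        have e2 := hz (Function.update ε' i false)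
        have e3 := hz (Function.update ε' i true)
        have e4 := hz (Function.update ε i false)
        simp only [hx0] at e1 e2 e3 e4
        rw [e1, e2, e3, e4] at h1
        linarith
      exact mul_left_cancel₀ (mul_ne_zero ha0 ha0) h2
    obtain ⟨t, b, b', ht, hb, hb', hform⟩ := ih z hz0 hzr
    refine ⟨t, Fin.cons a b, Fin.cons a' b', ht, ?_, ?_, ?_⟩
    · intro i
      refine Fin.cases ?_ (fun i => ?_) i
      · simpa using ha0
      · simpa using hb i
    · intro i
      refine Fin.cases ?_ (fun i => ?_) i
      · simpa using ha0'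
      · simpa using hb' i
    · intro ε
      rw [Fin.prod_univ_succ]
      have hε : ε = Fin.cons (ε 0) (fun i => ε i.succ) := (Fin.cons_self_tail ε).symm
      simp only [Fin.cons_zero, Fin.cons_succ]
      cases h : ε 0 with
      | false =>
        have h1 : x ε = x0 (fun i => ε i.succ) := by
          rw [hx0]
          show x ε = x (Fin.cons false (fun i => ε i.succ))
          rw [← h, ← hε]
        rw [h1, hz, hform]
        simp only [Bool.false_eq_true, if_false]
        ring
      | true =>
        have h1 : x ε = x1 (fun i => ε i.succ) := by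
          rw [hx1]
          show x ε = x (Fin.cons true (fun i => ε i.succ))
          rw [← h, ← hε]
        rw [h1, hz1, hform]
        simp only [if_true]
        ring

/-- [GEO] In one of the four directions the ratio has height at most `U ^ (1 / 4)`. -/
theorem geo (U : ℕ) (x : (Fin 4 → Bool) → ℤ) (hx : ∀ ε, x ε ≠ 0) (hU : ∀ ε, |x ε| ≤ U)
    (hr : ∀ (i : Fin 4) (ε ε' : Fin 4 → Bool),
      x (Function.update ε i true) * x (Function.update ε' i false) =
        x (Function.update ε' i true) * x (Function.update ε i false)) :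
    ∃ (i : Fin 4) (a a' : ℤ), a ≠ 0 ∧ a' ≠ 0 ∧ |a| ^ 4 ≤ U ∧ |a'| ^ 4 ≤ U ∧
      ∀ ε, x (Function.update ε i true) * a = x (Function.update ε i false) * a' := by
  obtain ⟨t, a, a', ht, ha, ha', hform⟩ := prodForm 4 x hx hr
  set M : Fin 4 → ℤ := fun i => max |a i| |a' i| with hM
  have hprod : ∏ i, M i ≤ U := by
    let ε : Fin 4 → Bool := fun i => decide (|a i| ≤ |a' i|)
    have h1 : |x ε| = |t| * ∏ i, M i := by
      rw [hform ε, abs_mul, Finset.abs_prod]
      congr 1
      refine Finset.prod_congr rfl fun i _ => ?_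
      by_cases h : |a i| ≤ |a' i|
      · simp [ε, h, hM]
      · simp [ε, h, hM, max_eq_left (le_of_lt (not_le.1 h))]
    have h2 : 1 ≤ |t| := Int.one_le_abs ht
    have h3 : 0 ≤ ∏ i, M i := Finset.prod_nonneg fun i _ => le_max_of_le_left (abs_nonneg _)
    have h4 := hU ε
    rw [h1] at h4
    nlinarith
  have hex : ∃ i, M i ^ 4 ≤ U := by
    by_contra hcon
    push Not at hcon
    have h1 : ∏ _i : Fin 4, ((U : ℤ) + 1) ≤ ∏ i, M i ^ 4 :=
      Finset.prod_le_prod (fun i _ => by positivity) fun i _ => hcon i
    rw [Finset.prod_pow, Finset.prod_const, Finset.card_univ, Fintype.card_fin] at h1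
    have h3 : 0 ≤ ∏ i, M i := Finset.prod_nonneg fun i _ => le_max_of_le_left (abs_nonneg _)
    have h2 : (∏ i, M i) ^ 4 ≤ (U : ℤ) ^ 4 := pow_le_pow_left₀ h3 hprod 4
    have h4 : (U : ℤ) ^ 4 < ((U : ℤ) + 1) ^ 4 :=
      pow_lt_pow_left₀ (by omega) (by positivity) (by norm_num)
    omega
  obtain ⟨i, hi⟩ := hex
  refine ⟨i, a i, a' i, ha i, ha' i, ?_, ?_, ?_⟩
  · exact (pow_le_pow_left₀ (abs_nonneg _) (le_max_left _ _) 4).trans hi
  · exact (pow_le_pow_left₀ (abs_nonneg _) (le_max_right _ _) 4).trans hi
  · intro ε
    rw [hform, hform, ← Finset.mul_prod_erase _ _ (Finset.mem_univ i),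
      ← Finset.mul_prod_erase _ (fun j => if (Function.update ε i false) j then a' j else a j)
      (Finset.mem_univ i)]
    have h1 : ∏ j ∈ Finset.univ.erase i, (if (Function.update ε i true) j then a' j else a j) =
        ∏ j ∈ Finset.univ.erase i, (if (Function.update ε i false) j then a' j else a j) := by
      refine Finset.prod_congr rfl fun j hj => ?_
      rw [Function.update_of_ne (Finset.ne_of_mem_erase hj),
        Function.update_of_ne (Finset.ne_of_mem_erase hj)]
    rw [h1]
    simp only [Function.update_self, if_true, Bool.false_eq_true, if_false]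
    ring

end Pool.Agent.Work.MP_e0c7e8_nt.AV
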