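import Pool.Agent.Work.MP_e0c7e8_nt.AV.Stmts
import Pool.Agent.Work.MP_e0c7e8_nt.AV.I_GEO

/-!
# Item GEO of the block AV: products of four ratios
-/

set_option autoImplicit false

namespace Pool.Agent.Work.MP_e0c7e8_nt.AV

open Finset

namespace I_GEO2

/-- `false ↦ 0`, `true ↦ 1` -/
def tf (b : Bool) : Fin 2 := if b then 1 else 0

/-- the inverse -/
def ft (b : Fin 2) : Bool := decide (b = 1)

theorem tf_ft (b : Fin 2) : tf (ft b) = b := by
  fin_cases b <;> rfl

theorem comp_update (e : Fin 4 → Bool) (i : Fin 4) (b : Bool) :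
    (fun j => tf (Function.update e i b j)) = Function.update (fun j => tf (e j)) i (tf b) := by
  funext j
  by_cases h : j = i
  · subst h
    simp
  · simp [h]

end I_GEO2

open I_GEO2 in
theorem GEO_pf : S_GEO := by
  intro x U hx hr
  obtain ⟨i, a, a', ha, ha', h1, h2, h3⟩ := geo U (fun e : Fin 4 → Bool => x (fun j => tf (e j)))
    (fun e => (hx _).1) (fun e => (hx _).2) (by
      intro i e e'
      simp only [comp_update]
      have h := hr i (fun j => tf (e' j)) (fun j => tf (e j))
      have t1 : tf true = 1 := rfl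
      have t0 : tf false = 0 := rfl
      rw [t1, t0]
      linarith)
  refine ⟨i, a, a', ha, ha', ?_, ?_, ?_⟩
  · have : |a| ^ 4 = a ^ 4 := by
      rw [← abs_pow, abs_of_nonneg (by positivity)]
    rw [← this]
    exact h1
  · have : |a'| ^ 4 = a' ^ 4 := by
      rw [← abs_pow, abs_of_nonneg (by positivity)]
    rw [← this]
    exact h2
  · intro e
    have h := h3 (fun j => ft (e j))
    simp only [comp_update, tf_ft] at h
    exact h

end Pool.Agent.Work.MP_e0c7e8_nt.AV
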