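import Pool.Agent.Work.MP_e0c7e8_nt.AV.Stmts

set_option autoImplicit false

namespace Pool.Agent.Work.MP_e0c7e8_nt.AV

open Finset

namespace I_MTA

theorem hw_le (m l U w B : ℕ) (N : Finset ℕ) (hN : N.card ≤ B) :
    (HW m l U w N).card ≤ B ^ 4 := by
  classical
  unfold HW
  refine (Finset.card_filter_le _ _).trans ?_
  rw [Fintype.card_piFinset_const]
  exact Nat.pow_le_pow_left hN 4

theorem card_le_of (B : ℕ) (N : Finset ℕ) (hN : ∀ n ∈ N, 1 ≤ n ∧ n ≤ B ∧ Squarefree n) :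
    N.card ≤ B := by
  have h : N ⊆ Icc 1 B := fun n hn => Finset.mem_Icc.2 ⟨(hN n hn).1, (hN n hn).2.1⟩
  have := Finset.card_le_card h
  rwa [Nat.card_Icc, Nat.add_sub_cancel] at this

/-- the numerical inequality for the exceptional tuples -/
theorem num_e (P a b q y j k s : ℕ) (hk : 1 ≤ k) (hP : 1 ≤ P) (hP1 : 16 * k ^ 2 ≤ P)
    (hP2 : 16 * 3 ^ k ≤ P) (h1 : k * y + q + b + 2 ≤ a) (h2 : q + b + 1 ≤ j)
    (hs : s ≤ k ^ 2 * (P ^ j) ^ (k - 1) * (3 * P ^ a) + (P ^ j) ^ k * (2 * P ^ y + 1) ^ k * P) :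
    8 * (P ^ b * P ^ q) * s ≤ 3 * P ^ a * P ^ (k * j) := by
  have hA : 2 * (8 * (P ^ b * P ^ q) * (k ^ 2 * (P ^ j) ^ (k - 1) * (3 * P ^ a))) ≤
      3 * P ^ a * P ^ (k * j) := by
    have e1 : k * j = (b + q + 1) + (j * (k - 1) + (j - (b + q + 1))) := by
      obtain ⟨k', rfl⟩ : ∃ k', k = k' + 1 := ⟨k - 1, by omega⟩
      have : (k' + 1) * j = j * k' + j := by ring
      rw [this, Nat.add_sub_cancel]
      omega
    have e2 : P ^ (j * (k - 1)) ≤ P ^ (j * (k - 1) + (j - (b + q + 1))) :=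
      Nat.pow_le_pow_right hP (Nat.le_add_right _ _)
    calc 2 * (8 * (P ^ b * P ^ q) * (k ^ 2 * (P ^ j) ^ (k - 1) * (3 * P ^ a)))
        = 3 * P ^ a * ((16 * k ^ 2) * (P ^ b * P ^ q) * P ^ (j * (k - 1))) := by
          rw [pow_mul]; ring
      _ ≤ 3 * P ^ a * (P * (P ^ b * P ^ q) * P ^ (j * (k - 1) + (j - (b + q + 1)))) := by
          gcongr
      _ = 3 * P ^ a * P ^ (k * j) := by
          rw [e1]; ring
  have hB : 2 * (8 * (P ^ b * P ^ q) * ((P ^ j) ^ k * (2 * P ^ y + 1) ^ k * P)) ≤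
      3 * P ^ a * P ^ (k * j) := by
    have e3 : 2 * P ^ y + 1 ≤ 3 * P ^ y := by
      have : 1 ≤ P ^ y := Nat.one_le_pow _ _ hP
      omega
    calc 2 * (8 * (P ^ b * P ^ q) * ((P ^ j) ^ k * (2 * P ^ y + 1) ^ k * P))
        ≤ 2 * (8 * (P ^ b * P ^ q) * ((P ^ j) ^ k * (3 * P ^ y) ^ k * P)) := by gcongr
      _ = (16 * 3 ^ k) * (P ^ b * P ^ q * P ^ (k * y) * P) * P ^ (k * j) := by
          rw [mul_pow, ← pow_mul P y k, ← pow_mul P j k, mul_comm y k, mul_comm j k]; ring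
      _ ≤ P * (P ^ b * P ^ q * P ^ (k * y) * P) * P ^ (k * j) := by gcongr
      _ = P ^ (k * y + q + b + 2) * P ^ (k * j) := by ring
      _ ≤ P ^ a * P ^ (k * j) := by
          have := Nat.pow_le_pow_right hP h1
          gcongr
      _ ≤ 3 * P ^ a * P ^ (k * j) := by
          have : P ^ a ≤ 3 * P ^ a := by omega
          gcongr
  have hC := Nat.mul_le_mul_left (8 * (P ^ b * P ^ q)) hs
  rw [Nat.mul_add] at hC
  omega

/-- the numerical inequality for the collisions -/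
theorem num_c (P a j s T : ℕ) (hP : 16 ≤ P) (h3 : 3 * j ≤ a) (hT : T ^ 3 ≤ P)
    (hs : s ≤ (P ^ j) ^ 3 * T ^ 3 * (3 * P ^ a) + (P ^ j) ^ 6 * T) :
    8 * s ≤ 3 * P ^ a * P ^ (2 + 3 * j) := by
  have hP1 : 1 ≤ P := by omega
  have hT1 : T ≤ P := (Nat.le_self_pow (by norm_num) T).trans hT
  have hA : 2 * (8 * ((P ^ j) ^ 3 * T ^ 3 * (3 * P ^ a))) ≤ 3 * P ^ a * P ^ (2 + 3 * j) := by
    calc 2 * (8 * ((P ^ j) ^ 3 * T ^ 3 * (3 * P ^ a)))
        ≤ 2 * (8 * ((P ^ j) ^ 3 * P * (3 * P ^ a))) := by gcongr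
      _ = 3 * P ^ a * (16 * P * P ^ (3 * j)) := by rw [mul_comm 3 j, pow_mul]; ring
      _ ≤ 3 * P ^ a * (P * P * P ^ (3 * j)) := by gcongr
      _ = 3 * P ^ a * P ^ (2 + 3 * j) := by ring
  have hB : 2 * (8 * ((P ^ j) ^ 6 * T)) ≤ 3 * P ^ a * P ^ (2 + 3 * j) := by
    calc 2 * (8 * ((P ^ j) ^ 6 * T)) ≤ 2 * (8 * ((P ^ j) ^ 6 * P)) := by gcongr
      _ = (16 * P * P ^ (3 * j)) * P ^ (3 * j) := by rw [mul_comm 3 j, pow_mul]; ring
      _ ≤ (P * P * P ^ (3 * j)) * P ^ a := by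
          have := Nat.pow_le_pow_right hP1 h3
          gcongr
      _ = P ^ a * P ^ (2 + 3 * j) := by ring
      _ ≤ 3 * P ^ a * P ^ (2 + 3 * j) := by
          have : P ^ a ≤ 3 * P ^ a := by omega
          gcongr
  have hC := Nat.mul_le_mul_left 8 hs
  rw [Nat.mul_add] at hC
  omega

/-- a cube root -/
theorem exists_T (P : ℕ) : ∃ T : ℕ, T ^ 3 ≤ P ∧ ∀ n : ℕ, n ^ 3 ≤ P → n ≤ T := by
  refine ⟨Nat.findGreatest (fun t => t ^ 3 ≤ P) P, ?_, ?_⟩
  · exact Nat.findGreatest_spec (P := fun t => t ^ 3 ≤ P) (Nat.zero_le P) (by simp)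
  · intro n hn
    exact Nat.le_findGreatest ((Nat.le_self_pow (by norm_num) n).trans hn) hn

end I_MTA

theorem MTA_pf (hDVB : S_DVB) (hEXA : S_EXA) (hCOA : S_COA) (hAVG : S_AVG) (hPAR : S_PAR) :
    S_MTA := by
  intro m hm ho
  obtain ⟨⟨-, -, -, hp1, hp2, hp3⟩, -, -⟩ := hPAR m hm
  have hk : 1 ≤ kk m := by unfold kk; omega
  generalize kk m = k at *
  generalize aa m = a at *
  generalize bb m = b at *
  generalize qq m = q at *
  generalize jj m = j at *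
  generalize yy m = y at *
  obtain ⟨P1, h1⟩ := hDVB ((1 + y + j * m) * 2 ^ k) 1
  obtain ⟨P2, h2⟩ := hDVB (j * (3 * m)) 3
  refine ⟨max (max P1 P2) (max (16 * k ^ 2) (16 * 3 ^ k)), fun P hP N hN l hlt => ?_⟩
  have hPP1 : P1 ≤ P := le_trans (le_trans (le_max_left _ _) (le_max_left _ _)) hP
  have hPP2 : P2 ≤ P := le_trans (le_trans (le_max_right _ _) (le_max_left _ _)) hP
  have hPk : 16 * k ^ 2 ≤ P := le_trans (le_trans (le_max_left _ _) (le_max_right _ _)) hP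
  have hP3 : 16 * 3 ^ k ≤ P := le_trans (le_trans (le_max_right _ _) (le_max_right _ _)) hP
  have hP16 : 16 ≤ P := by
    have : 1 ≤ 3 ^ k := Nat.one_le_pow _ _ (by norm_num)
    omega
  have hPone : 1 ≤ P := by omega
  have hkP : k ≤ P := by nlinarith [hk, hPk, Nat.zero_le k]
  obtain ⟨T, hT, hT'⟩ := I_MTA.exists_T P
  -- the exceptional tuples
  have hE := hEXA m k (P ^ y) (P ^ j) P (P ^ (a - b)) (3 * P ^ a) N ho hk hN (by
    intro M hM0 hM
    have := h1 P hPP1 M hM0 (hM.trans (by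
      rw [pow_mul P (1 + y + j * m)]
      apply Nat.pow_le_pow_left
      calc k * P ^ y * (P ^ j) ^ m ≤ P * P ^ y * (P ^ j) ^ m := by gcongr
        _ = P ^ (1 + y + j * m) := by rw [← pow_mul]; ring))
    simpa using this)
  have hE' := I_MTA.num_e P a b q y j k _ hk hPone hPk hP3 hp1 (by omega) hE
  -- the collisions
  have hC := hCOA m (P ^ j) T (P ^ (a - b)) (3 * P ^ a) N (by omega)
    (fun n hn => ⟨(hN n hn).1, (hN n hn).2.1⟩) (by
    intro M hM0 hM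
    exact hT' _ (h2 P hPP2 M hM0 (hM.trans (by rw [← pow_mul]))))
  have hC' := I_MTA.num_c P a j _ T hP16 hp3 hT hC
  -- the choice of the modulus
  have hPr : (0 : ℝ) < (P : ℝ) := by exact_mod_cast hPone
  have hNc : N.card ≤ P ^ j := I_MTA.card_le_of _ N hN
  have key := hAVG ((Ioc (P ^ (a - b)) (3 * P ^ a)).filter (fun w => l.Coprime w))
    (fun w => ((HW m l (2 * P ^ (2 * m * j)) w N).card : ℝ))
    (fun w => ((EX m k (P ^ y) w N).card : ℝ)) (fun w => ((CO m w N).card : ℝ))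
    (1 / (P : ℝ) ^ b) ((P : ℝ) ^ (4 * j)) ((P : ℝ) ^ (k * j) / (P : ℝ) ^ q)
    ((P : ℝ) ^ (b + 2 + 3 * j)) (3 * (P : ℝ) ^ a) (by positivity) (by positivity) (by positivity)
    (by positivity) ?_ ?_ ?_ ?_ ?_
  · obtain ⟨w, hw, hw1, hw2, hw3⟩ := key
    rw [Finset.mem_filter] at hw
    refine ⟨w, hw.1, hw.2, ?_, ?_, ?_⟩
    · have : (P : ℝ) ^ (4 * j) ≤ 2 * (P : ℝ) ^ b *
          ((HW m l (2 * P ^ (2 * m * j)) w N).card : ℝ) := by
        have h := mul_le_mul_of_nonneg_left hw1 (by positivity : (0 : ℝ) ≤ 2 * (P : ℝ) ^ b)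
        have e : 2 * (P : ℝ) ^ b * (1 / (P : ℝ) ^ b * (P : ℝ) ^ (4 * j) / 2) =
            (P : ℝ) ^ (4 * j) := by
          field_simp
        linarith [h, e]
      exact_mod_cast this
    · have : (P : ℝ) ^ q * ((EX m k (P ^ y) w N).card : ℝ) ≤ (P : ℝ) ^ (k * j) := by
        rw [le_div_iff₀ (by positivity)] at hw2
        linarith [hw2]
      exact_mod_cast this
    · exact_mod_cast hw3
  · have h : ((Ioc (P ^ (a - b)) (3 * P ^ a)).filter (fun w => l.Coprime w)).card ≤ 3 * P ^ a := by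
      refine (Finset.card_filter_le _ _).trans ?_
      rw [Nat.card_Ioc]
      exact Nat.sub_le _ _
    exact_mod_cast h
  · intro w _
    refine ⟨by positivity, by positivity, ?_⟩
    have h := I_MTA.hw_le m l (2 * P ^ (2 * m * j)) w (P ^ j) N hNc
    have e : (P ^ j) ^ 4 = P ^ (4 * j) := by rw [← pow_mul, mul_comm]
    rw [e] at h
    exact_mod_cast h
  · have h : (3 * (P : ℝ) ^ a * (P : ℝ) ^ (4 * j)) < (P : ℝ) ^ b *
        ∑ w ∈ (Ioc (P ^ (a - b)) (3 * P ^ a)).filter (fun w => l.Coprime w),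
          ((HW m l (2 * P ^ (2 * m * j)) w N).card : ℝ) := by
      exact_mod_cast hlt
    have e : 1 / (P : ℝ) ^ b * (3 * (P : ℝ) ^ a) * (P : ℝ) ^ (4 * j) =
        (3 * (P : ℝ) ^ a * (P : ℝ) ^ (4 * j)) / (P : ℝ) ^ b := by ring
    rw [e, div_lt_iff₀ (by positivity)]
    linarith [h]
  · have h0 : ∑ w ∈ (Ioc (P ^ (a - b)) (3 * P ^ a)).filter (fun w => l.Coprime w),
        (EX m k (P ^ y) w N).card ≤ ∑ w ∈ Ioc (P ^ (a - b)) (3 * P ^ a),
        (EX m k (P ^ y) w N).card := Finset.sum_le_sum_of_subset (Finset.filter_subset _ _)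
    have h1 := (Nat.mul_le_mul_left (8 * (P ^ b * P ^ q)) h0).trans hE'
    have h2 : 8 * ((P : ℝ) ^ b * (P : ℝ) ^ q) *
        ∑ w ∈ (Ioc (P ^ (a - b)) (3 * P ^ a)).filter (fun w => l.Coprime w),
          ((EX m k (P ^ y) w N).card : ℝ) ≤ 3 * (P : ℝ) ^ a * (P : ℝ) ^ (k * j) := by
      exact_mod_cast h1
    have e : 1 / (P : ℝ) ^ b * (3 * (P : ℝ) ^ a) * ((P : ℝ) ^ (k * j) / (P : ℝ) ^ q) / 8 =
        (3 * (P : ℝ) ^ a * (P : ℝ) ^ (k * j)) / (8 * ((P : ℝ) ^ b * (P : ℝ) ^ q)) := by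
      field_simp
    rw [e, le_div_iff₀ (by positivity)]
    linarith [h2]
  · have h0 : ∑ w ∈ (Ioc (P ^ (a - b)) (3 * P ^ a)).filter (fun w => l.Coprime w),
        (CO m w N).card ≤ ∑ w ∈ Ioc (P ^ (a - b)) (3 * P ^ a),
        (CO m w N).card := Finset.sum_le_sum_of_subset (Finset.filter_subset _ _)
    have h1 := (Nat.mul_le_mul_left 8 h0).trans hC'
    have h2 : 8 * ∑ w ∈ (Ioc (P ^ (a - b)) (3 * P ^ a)).filter (fun w => l.Coprime w),
          ((CO m w N).card : ℝ) ≤ 3 * (P : ℝ) ^ a * (P : ℝ) ^ (2 + 3 * j) := by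
      exact_mod_cast h1
    have e : 1 / (P : ℝ) ^ b * (3 * (P : ℝ) ^ a) * (P : ℝ) ^ (b + 2 + 3 * j) / 8 =
        (3 * (P : ℝ) ^ a * (P : ℝ) ^ (2 + 3 * j)) / 8 := by
      rw [add_assoc b, pow_add (P : ℝ) b]
      field_simp
    rw [e]
    linarith [h2]

end Pool.Agent.Work.MP_e0c7e8_nt.AV
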