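import Pool.Agent.Work.MP_e0c7e8_nt.AV.Stmts

/-!
# [MTB] no modulus with many points and few exceptional tuples and collisions

Paper proof: note 4539 on MP_e0c7e8_nt.
-/

set_option autoImplicit false

namespace Pool.Agent.Work.MP_e0c7e8_nt.AV

open Finset

namespace I_MTB

/-- `2 ^ ω(n)` is at most the number of divisors. -/
theorem two_pow_le (n : ℕ) (hn : n ≠ 0) : 2 ^ n.primeFactors.card ≤ n.divisors.card := by
  rw [Nat.card_divisors hn, ← Finset.prod_const]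
  refine Finset.prod_le_prod' fun p hp => ?_
  have h1 : 1 ≤ n.factorization p := by
    have h := (Nat.prime_of_mem_primeFactors hp).factorization_pos_of_dvd hn
      (Nat.dvd_of_mem_primeFactors hp)
    exact h
  omega

/-- the loss `2 L2 ^ 5` is at most `P`. -/
theorem loss (P d w : ℕ) (hw : w ≠ 0) (hd : w.divisors.card = d) (hP : d ^ 10 ≤ P)
    (h28 : (2 * 28 ^ 5) ^ 2 ≤ P) : 2 * (28 * 2 ^ w.primeFactors.card) ^ 5 ≤ P := by
  have h1 : 2 ^ w.primeFactors.card ≤ d := hd ▸ two_pow_le w hw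
  have h2 : (2 ^ w.primeFactors.card) ^ 10 ≤ P := (Nat.pow_le_pow_left h1 10).trans hP
  refine (Nat.pow_le_pow_iff_left (two_ne_zero)).1 ?_
  calc (2 * (28 * 2 ^ w.primeFactors.card) ^ 5) ^ 2
      = (2 * 28 ^ 5) ^ 2 * (2 ^ w.primeFactors.card) ^ 10 := by ring
    _ ≤ P * P := Nat.mul_le_mul h28 h2
    _ = P ^ 2 := by ring

/-- the density inequality -/
theorem dens (x : ℝ) (L2 : ℝ) (b q K : ℕ) (hx : 8 < x) (hL : 1 ≤ L2) (hL2 : 2 * L2 ^ 5 ≤ x)
    (hq : q = (b + 1) * K + 1) :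
    4 * (1 / x ^ q + 1 / x ^ q) < (1 / (2 * x ^ b) / L2 ^ 5) ^ K := by
  have hx0 : 0 < x := by linarith
  have hL0 : 0 < L2 := by linarith
  have h1 : 1 / x ^ (b + 1) ≤ 1 / (2 * x ^ b) / L2 ^ 5 := by
    rw [div_div]
    apply one_div_le_one_div_of_le (by positivity)
    calc 2 * x ^ b * L2 ^ 5 = x ^ b * (2 * L2 ^ 5) := by ring
      _ ≤ x ^ b * x := by gcongr
      _ = x ^ (b + 1) := by ring
  have h2 : (1 / x ^ (b + 1)) ^ K ≤ (1 / (2 * x ^ b) / L2 ^ 5) ^ K :=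
    pow_le_pow_left₀ (by positivity) h1 K
  refine lt_of_lt_of_le ?_ h2
  have h3 : 4 * (1 / x ^ q + 1 / x ^ q) = 8 / x ^ q := by ring
  rw [h3, hq, one_div, inv_pow, ← pow_mul, pow_succ, div_lt_iff₀ (by positivity)]
  have h4 : (x ^ ((b + 1) * K))⁻¹ * (x ^ ((b + 1) * K) * x) = x := by
    field_simp
  rw [h4]
  exact hx

end I_MTB

open I_MTB in
theorem MTB_pf (hW : S_FXW) (hR : S_RT1) (hD : S_DVB) (hP : S_PAR) : S_MTB := by
  intro m hm ho
  obtain ⟨⟨_, _, hy1, hp1, hp2, _⟩, ⟨hq1, hq2, hq3⟩, _⟩ := hP m hm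
  obtain ⟨PD, hD⟩ := hD (aa m + 1) 10
  have hqq : qq m = (bb m + 1) * kk m ^ 4 + 1 := rfl
  obtain ⟨k, hk⟩ : ∃ k, kk m = k + 1 := ⟨16 * m - 1, by unfold kk; omega⟩
  have hk1 : 1 ≤ k := by unfold kk at hk; omega
  rw [hk] at hp1 hq3 hqq
  refine ⟨PD + 9 ^ (k + 1) * (k + 1).factorial * (2 * (k + 1)) ^ 2 + 2 * (k + 1) +
    (2 * 28 ^ 5) ^ 2 + 9, ?_⟩
  intro P hP N hN l w hw hl hHW hEX hCO
  rw [hk] at hEX
  have hPD : PD ≤ P := by
    have := Nat.zero_le (9 ^ (k + 1) * (k + 1).factorial * (2 * (k + 1)) ^ 2)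
    omega
  have hC1 : 9 ^ (k + 1) * (k + 1).factorial * (2 * (k + 1)) ^ 2 < P := by omega
  have hkP : 2 * (k + 1) ≤ P := by omega
  have h28 : (2 * 28 ^ 5) ^ 2 ≤ P := by omega
  have h9 : 9 ≤ P := by omega
  obtain ⟨hw1, hw2⟩ := Finset.mem_Ioc.1 hw
  have hP0 : 0 < P := by omega
  have hPpow : ∀ n : ℕ, 1 ≤ P ^ n := fun n => Nat.one_le_pow _ _ hP0
  have h2w : 2 ≤ w := by
    have := hPpow (aa m - bb m)
    omega
  have hw0 : w ≠ 0 := by omega
  have hwle : w ≤ P ^ (aa m + 1) := by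
    rw [pow_succ]
    have h3 : 3 * P ^ aa m ≤ P ^ aa m * P := by
      rw [mul_comm]; exact Nat.mul_le_mul_left _ (by omega)
    exact hw2.trans h3
  have hd := hD P hPD w hw0 hwle
  have hL5 := loss P _ w hw0 rfl hd h28
  set L2 := 28 * 2 ^ w.primeFactors.card with hL2
  have hL21 : 1 ≤ L2 := by
    have := Nat.one_le_pow w.primeFactors.card 2 (by norm_num)
    omega
  set x : ℝ := (P : ℝ) with hx
  have hx8 : 8 < x := by rw [hx]; exact_mod_cast (by omega : 8 < P)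
  have hx0 : 0 < x := by linarith
  have hx1 : 1 ≤ x := by linarith
  have hL21' : (1 : ℝ) ≤ (L2 : ℝ) := by exact_mod_cast hL21
  have hL5' : 2 * (L2 : ℝ) ^ 5 ≤ x := by rw [hx]; exact_mod_cast hL5
  have hbb : 2 * bb m ≤ 2 * aa m := by omega
  -- `P^(2 aa - 2 bb) ≤ w^2`
  have hww : P ^ (2 * aa m - 2 * bb m) ≤ w ^ 2 := by
    have h := Nat.pow_le_pow_left hw1.le 2
    rw [← pow_mul] at h
    have he : (aa m - bb m) * 2 = 2 * aa m - 2 * bb m := by omega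
    rwa [he] at h
  refine hW m k l (2 * P ^ (2 * m * jj m)) w (P ^ yy m) (P ^ jj m) L2 N
    (1 / (2 * x ^ bb m)) (1 / x ^ qq m) (1 / x ^ qq m) (x ^ (bb m + 2)) ho hk1 h2w hl
    (hPpow _) hN (hR w (by omega)) hL21 (by positivity) (by positivity) (by positivity)
    (by positivity) ?_ ?_ ?_ ?_ ?_ ?_ ?_ (hPpow _)
  · -- many points
    rw [div_mul_eq_mul_div, div_le_iff₀ (by positivity)]
    have h : ((P ^ (4 * jj m) : ℕ) : ℝ) ≤
        ((2 * P ^ bb m * (HW m l (2 * P ^ (2 * m * jj m)) w N).card : ℕ) : ℝ) := by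
      exact_mod_cast hHW
    push_cast at h
    rw [← hx] at h
    push_cast
    rw [← hx]
    calc 1 * (x ^ jj m) ^ 4 = x ^ (4 * jj m) := by rw [one_mul, ← pow_mul, mul_comm]
      _ ≤ _ := h
      _ = _ := by ring
  · -- few exceptional tuples
    rw [div_mul_eq_mul_div, le_div_iff₀ (by positivity)]
    have h : ((P ^ qq m * (EX m (k + 1) (P ^ yy m) w N).card : ℕ) : ℝ) ≤
        ((P ^ ((k + 1) * jj m) : ℕ) : ℝ) := by
      exact_mod_cast hEX
    push_cast at h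
    rw [← hx] at h
    push_cast
    rw [← hx]
    calc _ = x ^ qq m * ((EX m (k + 1) (P ^ yy m) w N).card : ℝ) := by ring
      _ ≤ x ^ ((k + 1) * jj m) := h
      _ = 1 * (x ^ jj m) ^ (k + 1) := by rw [one_mul, ← pow_mul, mul_comm]
  · -- few collisions
    have h : ((CO m w N).card : ℝ) ≤ ((P ^ (bb m + 2 + 3 * jj m) : ℕ) : ℝ) := by
      exact_mod_cast hCO
    push_cast at h
    rw [← hx] at h
    push_cast
    rw [← hx]
    calc _ ≤ _ := h
      _ = x ^ (bb m + 2) * (x ^ jj m) ^ 3 := by rw [← pow_mul, ← pow_add, mul_comm (jj m) 3]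
  · exact dens x L2 (bb m) (qq m) ((k + 1) ^ 4) hx8 hL21' hL5' hqq
  · -- `(k+1) Y U ≤ w^2`
    calc (k + 1) * P ^ yy m * (2 * P ^ (2 * m * jj m))
        = (2 * (k + 1)) * (P ^ yy m * P ^ (2 * m * jj m)) := by ring
      _ ≤ P * (P ^ yy m * P ^ (2 * m * jj m)) := Nat.mul_le_mul_right _ hkP
      _ = P ^ (yy m + 2 * m * jj m + 1) := by rw [← pow_add, ← pow_succ']
      _ ≤ P ^ (2 * aa m - 2 * bb m) := Nat.pow_le_pow_right hP0 (by omega)
      _ ≤ w ^ 2 := hww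
  · -- the rank inequality
    have hC1' : (9 : ℝ) ^ (k + 1) * ((k + 1).factorial : ℝ) * (2 * ((k : ℝ) + 1)) ^ 2 < x := by
      rw [hx]; exact_mod_cast hC1
    have hww' : x ^ (2 * aa m - 2 * bb m) ≤ (w : ℝ) ^ 2 := by rw [hx]; exact_mod_cast hww
    have hL : (9 : ℝ) ^ (k + 1) * ((k + 1).factorial : ℝ) *
        ((k + 1 : ℝ) * ((P ^ yy m : ℕ) : ℝ) * ((2 * P ^ (2 * m * jj m) : ℕ) : ℝ)) ^ 2 *
          x ^ (bb m + 2) =
        ((9 : ℝ) ^ (k + 1) * ((k + 1).factorial : ℝ) * (2 * ((k : ℝ) + 1)) ^ 2) *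
          x ^ (2 * yy m + 4 * m * jj m + bb m + 2) := by
      push_cast
      rw [← hx]
      have he : 2 * yy m + 4 * m * jj m + bb m + 2 =
        yy m + yy m + (2 * m * jj m + 2 * m * jj m) + (bb m + 2) := by ring
      rw [he, pow_add x (yy m + yy m + _), pow_add x (yy m + yy m), pow_add x (yy m),
        pow_add x (2 * m * jj m)]
      ring
    have hRR : x ^ (2 * yy m + 4 * m * jj m + bb m + 3) ≤
        ((((P ^ yy m : ℕ) : ℝ) + 1) ^ (k + 1) * (1 / x ^ qq m) ^ 2 *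
          ((P ^ jj m : ℕ) : ℝ) ^ 3 * (w : ℝ) ^ 2) := by
      push_cast
      rw [← hx]
      have h1 : x ^ ((k + 1) * yy m) ≤ (x ^ yy m + 1) ^ (k + 1) := by
        rw [mul_comm, pow_mul]
        exact pow_le_pow_left₀ (by positivity) (by linarith) _
      have h2 : x ^ (2 * yy m + 4 * m * jj m + bb m + 3) * (x ^ qq m) ^ 2 ≤
          x ^ ((k + 1) * yy m) * (x ^ jj m) ^ 3 * x ^ (2 * aa m - 2 * bb m) := by
        rw [← pow_mul, ← pow_mul, ← pow_add, ← pow_add, ← pow_add]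
        apply pow_le_pow_right₀ hx1
        omega
      have h3 : (x ^ yy m + 1) ^ (k + 1) * (1 / x ^ qq m) ^ 2 * (x ^ jj m) ^ 3 * (w : ℝ) ^ 2 =
          ((x ^ yy m + 1) ^ (k + 1) * (x ^ jj m) ^ 3 * (w : ℝ) ^ 2) / (x ^ qq m) ^ 2 := by
        field_simp
      rw [h3, le_div_iff₀ (by positivity)]
      refine h2.trans ?_
      gcongr
    rw [hL]
    refine lt_of_lt_of_le ?_ hRR
    have he : x ^ (2 * yy m + 4 * m * jj m + bb m + 3) =
        x * x ^ (2 * yy m + 4 * m * jj m + bb m + 2) := by rw [← pow_succ']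
    rw [he]
    exact mul_lt_mul_of_pos_right hC1' (by positivity)
  · -- `N0^(2m) U < w^4`
    have hw4 : P ^ (4 * aa m - 4 * bb m) < w ^ 4 := by
      have h := Nat.pow_lt_pow_left hw1 (n := 4) (by norm_num)
      rw [← pow_mul] at h
      have he : (aa m - bb m) * 4 = 4 * aa m - 4 * bb m := by omega
      rwa [he] at h
    refine lt_of_le_of_lt ?_ hw4
    calc (P ^ jj m) ^ (2 * m) * (2 * P ^ (2 * m * jj m))
        = 2 * (P ^ (2 * m * jj m) * P ^ (2 * m * jj m)) := by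
          rw [← pow_mul, mul_comm (jj m) (2 * m)]; ring
      _ ≤ P * (P ^ (2 * m * jj m) * P ^ (2 * m * jj m)) := Nat.mul_le_mul_right _ (by omega)
      _ = P ^ (2 * m * jj m + 2 * m * jj m + 1) := by rw [← pow_add, ← pow_succ']
      _ ≤ P ^ (4 * aa m - 4 * bb m) := Nat.pow_le_pow_right hP0 (by
          have : 4 * m * jj m = 2 * m * jj m + 2 * m * jj m := by ring
          omega)

end Pool.Agent.Work.MP_e0c7e8_nt.AV
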