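import Pool.Agent.Work.MP_e0c7e8_nt.AV.StmtsI

/-!
# Block AV, item NUU (helper72): the number of `u` for given `n`, `v`
-/

set_option autoImplicit false

namespace Pool.Agent.Work.MP_e0c7e8_nt.AV

open Finset Pool.Agent.Work.MP_e0c7e8_nt.SM Pool.Agent.Work.MP_e0c7e8_nt.BG

namespace I_NUU

/-- The set of solutions. -/
def US (n v m : ℕ) (X : ℝ) : Set ℤ := {u : ℤ | ∃ D : ℕ, X / 2 < (D : ℝ) ∧ (D : ℝ) ≤ X ∧
    u ^ 2 + (D : ℤ) * (v : ℤ) ^ 2 = 4 * (n : ℤ) ^ m}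

theorem US_finite (n v m : ℕ) (X : ℝ) : (US n v m X).Finite := by
  refine (Set.finite_Icc (-(4 * (n : ℤ) ^ m)) (4 * (n : ℤ) ^ m)).subset ?_
  rintro u ⟨D, -, -, h⟩
  have h1 : (0 : ℤ) ≤ (D : ℤ) * (v : ℤ) ^ 2 := by positivity
  have h2 : u ^ 2 ≤ 4 * (n : ℤ) ^ m := by omega
  rw [Set.mem_Icc]
  constructor
  · nlinarith [sq_nonneg (u + 1)]
  · nlinarith [sq_nonneg (u - 1)]

theorem US_neg {n v m : ℕ} {X : ℝ} {u : ℤ} (h : u ∈ US n v m X) : -u ∈ US n v m X := by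
  obtain ⟨D, h1, h2, h3⟩ := h
  exact ⟨D, h1, h2, by rw [← h3]; ring⟩

/-- Two nonnegative solutions are close. -/
theorem close {n v m : ℕ} {X : ℝ} {u u' : ℤ} (h : u ∈ US n v m X) (h' : u' ∈ US n v m X)
    (h0 : 0 ≤ u') (hle : u' ≤ u) : ((u - u' : ℤ) : ℝ) ≤ Real.sqrt X * v := by
  obtain ⟨D, h1, h2, h3⟩ := h
  obtain ⟨D', h1', h2', h3'⟩ := h'
  have hX : 0 ≤ X := by
    have : (0 : ℝ) ≤ D := Nat.cast_nonneg _
    linarith
  have e : (u - u') ^ 2 ≤ ((D' : ℤ) - D) * (v : ℤ) ^ 2 := by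
    have e1 : u ^ 2 - u' ^ 2 = ((D' : ℤ) - D) * (v : ℤ) ^ 2 := by
      linear_combination h3 - h3'
    rw [← e1]
    nlinarith
  have e2 : (((u - u' : ℤ)) : ℝ) ^ 2 ≤ (Real.sqrt X * v) ^ 2 := by
    have e3 : (((u - u') ^ 2 : ℤ) : ℝ) ≤ ((((D' : ℤ) - D) * (v : ℤ) ^ 2 : ℤ) : ℝ) := by
      exact_mod_cast e
    push_cast at e3 ⊢
    rw [mul_pow, Real.sq_sqrt hX]
    refine e3.trans ?_
    have hv : (0 : ℝ) ≤ (v : ℝ) ^ 2 := by positivity
    have : (D' : ℝ) - D ≤ X := by linarith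
    exact mul_le_mul_of_nonneg_right this hv
  exact (abs_le.1 (abs_le_of_sq_le_sq e2 (by positivity))).2

theorem fiber (n v m : ℕ) (X : ℝ) (hv : 1 ≤ v) (F : Finset ℤ)
    (hF : ∀ u ∈ F, u ∈ US n v m X ∧ 0 ≤ u)
    (hc : ∀ u ∈ F, ∀ u' ∈ F, ((v : ℤ) ^ 2) ∣ u - u') :
    F.card ≤ ⌊Real.sqrt X / v⌋₊ + 1 := by
  rcases F.eq_empty_or_nonempty with hE | hE
  · rw [hE, card_empty]
    exact Nat.zero_le _
  have hm := F.min'_mem hE
  set u₀ := F.min' hE with hu0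
  have hvp : (0 : ℤ) < (v : ℤ) ^ 2 := by positivity
  have key : ∀ u ∈ F, ∃ k : ℕ, u - u₀ = (v : ℤ) ^ 2 * k ∧ k < ⌊Real.sqrt X / v⌋₊ + 1 := by
    intro u hu
    obtain ⟨k, hk⟩ := hc u hu u₀ hm
    have hle : u₀ ≤ u := F.min'_le u hu
    have hk0 : 0 ≤ k := by
      by_contra hneg
      have h1 : (v : ℤ) ^ 2 * k < 0 := mul_neg_of_pos_of_neg hvp (not_le.1 hneg)
      omega
    refine ⟨k.toNat, by rw [Int.toNat_of_nonneg hk0]; exact hk, ?_⟩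
    rw [Nat.lt_succ_iff]
    apply Nat.le_floor
    have h2 := close (hF u hu).1 (hF u₀ hm).1 (hF u₀ hm).2 hle
    rw [hk] at h2
    have hvr : (0 : ℝ) < v := by exact_mod_cast hv
    have h3 : ((k.toNat : ℕ) : ℝ) = (k : ℝ) := by
      have : ((k.toNat : ℕ) : ℤ) = k := Int.toNat_of_nonneg hk0
      exact_mod_cast this
    rw [h3, le_div_iff₀ hvr]
    push_cast at h2
    have h4 : (v : ℝ) * ((k : ℝ) * v) ≤ v * Real.sqrt X := by nlinarith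
    exact le_of_mul_le_mul_left h4 hvr
  choose! f hf using key
  rw [← card_range (⌊Real.sqrt X / v⌋₊ + 1)]
  refine card_le_card_of_injOn f ?_ ?_
  · intro u hu
    rw [mem_coe, mem_range]
    exact (hf u hu).2
  · intro u hu u' hu' he
    have h1 := (hf u hu).1
    have h2 := (hf u' hu').1
    rw [he, ← h2] at h1
    omega

theorem pos_card (h1 : S_RT2) (n v m : ℕ) (X : ℝ) (hn : 1 ≤ n) (hv : 1 ≤ v) (hnv : n.Coprime v)
    (S : Finset ℤ) (hS : ∀ u ∈ S, u ∈ US n v m X ∧ 0 ≤ u) :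
    S.card ≤ (⌊Real.sqrt X / v⌋₊ + 1) * (28 * 2 ^ v.primeFactors.card) := by
  refine le_trans ?_ (Nat.mul_le_mul_left _ (h1 v n m hv hn hnv))
  have hvp : (0 : ℤ) < (v : ℤ) ^ 2 := by positivity
  refine card_le_mul_card_image_of_maps_to (f := fun u : ℤ => (u % (v : ℤ) ^ 2).toNat) ?_ _ ?_
  · intro u hu
    obtain ⟨⟨D, -, -, hD⟩, -⟩ := hS u hu
    have h2 : (((u % (v : ℤ) ^ 2).toNat : ℕ) : ℤ) = u % (v : ℤ) ^ 2 :=
      Int.toNat_of_nonneg (Int.emod_nonneg _ hvp.ne')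
    change (u % (v : ℤ) ^ 2).toNat ∈ _
    rw [mem_filter, mem_range]
    constructor
    · have h3 := Int.emod_lt_of_pos u hvp
      rw [← h2] at h3
      exact_mod_cast h3
    · rw [h2]
      have h4 : (v : ℤ) ^ 2 ∣ u - u % (v : ℤ) ^ 2 := Int.dvd_self_sub_emod
      have h5 : (v : ℤ) ^ 2 ∣ u ^ 2 - 4 * (n : ℤ) ^ m := ⟨-(D : ℤ), by linear_combination hD⟩
      have e : (u % (v : ℤ) ^ 2) ^ 2 - 4 * (n : ℤ) ^ m =
        (u ^ 2 - 4 * (n : ℤ) ^ m) - (u - u % (v : ℤ) ^ 2) * (u + u % (v : ℤ) ^ 2) := by ring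
      rw [e]
      exact dvd_sub h5 (Dvd.dvd.mul_right h4 _)
  · intro b _
    refine fiber n v m X hv _ (fun u hu => hS u (mem_filter.1 hu).1) (fun u hu u' hu' => ?_)
    have h2 := (mem_filter.1 hu).2
    have h3 := (mem_filter.1 hu').2
    have h4 : (((u % (v : ℤ) ^ 2).toNat : ℕ) : ℤ) = u % (v : ℤ) ^ 2 :=
      Int.toNat_of_nonneg (Int.emod_nonneg _ hvp.ne')
    have h5 : (((u' % (v : ℤ) ^ 2).toNat : ℕ) : ℤ) = u' % (v : ℤ) ^ 2 :=
      Int.toNat_of_nonneg (Int.emod_nonneg _ hvp.ne')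
    have h6 : u % (v : ℤ) ^ 2 = u' % (v : ℤ) ^ 2 := by
      rw [← h4, ← h5, h2, h3]
    exact Int.ModEq.dvd h6.symm

end I_NUU

open I_NUU in
theorem NUU_pf (h1 : S_RT2) : S_NUU := by
  intro n v m X hn hv hnv hX
  have hfin := US_finite n v m X
  refine ⟨hfin, ?_⟩
  change ((US n v m X).ncard : ℝ) ≤ _
  rw [Set.ncard_eq_toFinset_card _ hfin]
  set A := hfin.toFinset with hA
  have hmem : ∀ u, u ∈ A ↔ u ∈ US n v m X := fun u => hfin.mem_toFinset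
  have hp : (A.filter (fun u => 0 ≤ u)).card ≤
      (⌊Real.sqrt X / v⌋₊ + 1) * (28 * 2 ^ v.primeFactors.card) :=
    pos_card h1 n v m X hn hv hnv _ (fun u hu => by
      rw [mem_filter, hmem] at hu
      exact hu)
  have hneg : (A.filter (fun u => ¬ 0 ≤ u)).card ≤ (A.filter (fun u => 0 ≤ u)).card := by
    refine card_le_card_of_injOn (fun u => -u) ?_ ?_
    · intro u hu
      rw [mem_coe, mem_filter, hmem] at hu
      have hu2 := hu.2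
      rw [mem_coe, mem_filter, hmem]
      exact ⟨US_neg hu.1, by change 0 ≤ -u; omega⟩
    · intro u _ u' _ h
      exact neg_injective h
  have htot := card_filter_add_card_filter_not (s := A) (fun u : ℤ => 0 ≤ u)
  have hle : A.card ≤ 2 * ((⌊Real.sqrt X / v⌋₊ + 1) * (28 * 2 ^ v.primeFactors.card)) := by
    omega
  have hfl : ((⌊Real.sqrt X / v⌋₊ : ℕ) : ℝ) ≤ Real.sqrt X / v :=
    Nat.floor_le (by positivity)
  calc (A.card : ℝ) ≤ ((2 * ((⌊Real.sqrt X / v⌋₊ + 1) * (28 * 2 ^ v.primeFactors.card)) : ℕ) : ℝ) := by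
        exact_mod_cast hle
    _ = 56 * 2 ^ v.primeFactors.card * (((⌊Real.sqrt X / v⌋₊ : ℕ) : ℝ) + 1) := by
        push_cast
        ring
    _ ≤ 56 * 2 ^ v.primeFactors.card * (Real.sqrt X / v + 1) := by
        gcongr

end Pool.Agent.Work.MP_e0c7e8_nt.AV
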