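import Pool.Agent.Work.MP_e0c7e8_nt.AV.Defs

/-!
# The average of `k`-torsion below Heath-Brown and Pierce: statements, Diophantine part

Every item `S_XXX` is proved in its own file `AV/I_XXX.lean` as
`theorem XXX_pf (h₁ : S_YYY) ... : S_XXX`, where the hypotheses may be any EARLIER statements.
Paper proof: note 4539 on MP_e0c7e8_nt.
-/

set_option autoImplicit false

namespace Pool.Agent.Work.MP_e0c7e8_nt.AV

open Finset

/-! ## Norms of sums of square roots -/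

/-- [NRM] the product of all sums of signed square roots is a universal integer. Induction on `k`
with a stronger claim: for `t y : Fin k → ℤ` there is `F : ℤ[X]` such that in every commutative ring
with `g_j^2 = t_j`: `F.map = ∏_e (X + ∑_j (± y_j g_j))` (or: `eval x` for all `x` in the ring).
Step: if `F` works for `k`, then `F(X + y S) F(X - y S)` in `ℤ[X][S]` is invariant under `S ↦ -S`, so
it is a polynomial in `S^2` (`Polynomial.contract 2`, `expand`); put `S^2 = t`. Then take `X = 0`. -/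
def S_NRM : Prop := ∀ (k : ℕ) (t y : Fin k → ℤ), ∃ M : ℤ, ∀ (A : Type) [CommRing A] (g : Fin k → A),
  (∀ j, g j ^ 2 = (t j : A)) →
  (M : A) = ∏ e : Fin k → Bool, ∑ j, (if e j then (y j : A) * g j else -((y j : A) * g j))

/-- [SQI] the square roots of different squarefree numbers are linearly independent over the
rationals. (`BG/I_BES.lean`, `BES_pf` with `L = ℚ`, `Ω = algebraicClosure ℚ ℂ`, `k = 2`, or
directly.) -/
def S_SQI : Prop := ∀ (k : ℕ) (p : Fin k → ℕ), Function.Injective p → (∀ j, Squarefree (p j)) →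
  ∀ z : Fin k → ℤ, z ≠ 0 → ∑ j, (z j : ℝ) * Real.sqrt (p j) ≠ 0

/-- [NZM] a small relation modulo `w^2` gives a nonzero integer divisible by `w^2`. Take
`t_j = p_0^m p_j^m` in `NRM` (`0` the first index). In `ZMod (w^2)`: `g'_j = c⁻¹ g_0 g_j` has
`g'_j^2 = t_j` and `∑ y_j g'_j = 0`, so the factor with all signs `+` is zero. In `ℝ`:
`g_j = √(p_0)^m p_j^((m-1)/2) √(p_j)`; all factors are nonzero by `SQI` and at most `k Y N0^m`. -/
def S_NZM : Prop := ∀ (m k Y N0 : ℕ) (p : Fin k → ℕ) (y : Fin k → ℤ), Odd m → 1 ≤ k →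
  Function.Injective p → (∀ j, Squarefree (p j) ∧ p j ≤ N0) → y ≠ 0 → (∀ j, |y j| ≤ (Y : ℤ)) →
  ∃ M : ℕ, M ≠ 0 ∧ M ≤ (k * Y * N0 ^ m) ^ (2 ^ k) ∧ ∀ w : ℕ, 1 ≤ w → Rel m k Y w p y → w ^ 2 ∣ M

/-! ## Averages over the modulus -/

/-- [DVB] the divisor bound. -/
def S_DVB : Prop := ∀ C h : ℕ, ∃ P0 : ℕ, ∀ P : ℕ, P0 ≤ P → ∀ M : ℕ, M ≠ 0 → M ≤ P ^ C →
  M.divisors.card ^ h ≤ P

/-- [EXA] the exceptional tuples on average: at most `k^2 N0^(k-1)` tuples are not injective; for the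
others sum over `y` with `|y_j| ≤ Y` and use `NZM`: `w ↦ w` is injective from the `w` with `w^2 ∣ M`
to the divisors of `M`. -/
def S_EXA : Prop := ∀ (m k Y N0 T W0 W1 : ℕ) (N : Finset ℕ), Odd m → 1 ≤ k →
  (∀ n ∈ N, 1 ≤ n ∧ n ≤ N0 ∧ Squarefree n) →
  (∀ M : ℕ, M ≠ 0 → M ≤ (k * Y * N0 ^ m) ^ (2 ^ k) → M.divisors.card ≤ T) →
  ∑ w ∈ Ioc W0 W1, (EX m k Y w N).card ≤
    k ^ 2 * N0 ^ (k - 1) * W1 + N0 ^ k * (2 * Y + 1) ^ k * T

/-- [COA] the collisions on average: if `∏ b = ∏ b'` then `b'` is a triple of divisors of `∏ b`;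
otherwise `w^2` divides the nonzero number `|(∏ b)^m - (∏ b')^m| ≤ N0^(3m)`. -/
def S_COA : Prop := ∀ (m N0 T W0 W1 : ℕ) (N : Finset ℕ), 1 ≤ m → (∀ n ∈ N, 1 ≤ n ∧ n ≤ N0) →
  (∀ M : ℕ, M ≠ 0 → M ≤ N0 ^ (3 * m) → M.divisors.card ≤ T) →
  ∑ w ∈ Ioc W0 W1, (CO m w N).card ≤ N0 ^ 3 * T ^ 3 * W1 + N0 ^ 6 * T

/-- [AVG] choice of a modulus. Otherwise `h w ≤ θ H / 2 + H (e w / E + c w / C)` for all `w ∈ S`;
sum. -/
def S_AVG : Prop := ∀ (S : Finset ℕ) (h e c : ℕ → ℝ) (θ H E C W : ℝ), 0 < θ → 0 < H → 0 < E →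
  0 < C → (S.card : ℝ) ≤ W → (∀ w ∈ S, 0 ≤ e w ∧ 0 ≤ c w ∧ h w ≤ H) → θ * W * H < ∑ w ∈ S, h w →
  ∑ w ∈ S, e w ≤ θ * W * E / 8 → ∑ w ∈ S, c w ≤ θ * W * C / 8 →
  ∃ w ∈ S, θ * H / 2 ≤ h w ∧ e w ≤ E ∧ c w ≤ C

/-! ## Square classes -/

/-- [TYP] roots that are products. `G / G^2` has as many elements as `G[2]`. Choose representatives
`r_q` of the classes `q` and `s : G → G` with `s(x)^2 = r_[x] x`. For `P ∈ H` the square of
`κ_P = u P * (∏ s (a (P i)))⁻¹` is `l / ∏ r_[a (P i)]`, so it depends only on the four classes.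
Pigeonhole over the classes of the `a (P i)` and `κ_P κ_q⁻¹ ∈ G[2]`. -/
def S_TYP : Prop := ∀ (G α : Type) [CommGroup G] [Finite G] [DecidableEq α] (L : ℕ),
  Nat.card {x : G // x ^ 2 = 1} ≤ L → ∀ (H : Finset (Fin 4 → α)) (a : α → G) (l : G)
    (u : (Fin 4 → α) → G), (∀ P ∈ H, u P ^ 2 = l * ∏ i, a (P i)) →
  ∃ H' ⊆ H, H.card ≤ L ^ 5 * H'.card ∧ ∃ (ka : G) (c : Fin 4 → G) (g : Fin 4 → α → G),
    (∀ P ∈ H', u P = ka * ∏ i, g i (P i)) ∧ ∀ P ∈ H', ∀ i, g i (P i) ^ 2 = c i * a (P i)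

/-- [FXT] the same for `HW` (`TYP` with `G` the units of `ZMod (w^2)`, `a n = n^m`). -/
def S_FXT : Prop := ∀ (m l U w L : ℕ) (N : Finset ℕ), 1 ≤ m → 2 ≤ w → l.Coprime w →
  Nat.card {x : (ZMod (w ^ 2))ˣ // x ^ 2 = 1} ≤ L →
  ∃ H ⊆ HW m l U w N, (HW m l U w N).card ≤ L ^ 5 * H.card ∧ ∃ u ka c g,
    Ty m l U w N H u ka c g

/-! ## Full boxes -/

/-- [HO1] power means: `∑_b (number of a)^k ≥ (∑_b number of a)^k / |B|^(k-1)`
(`inner_le_nnorm_mul_nnorm`, or `inner_pow`, `Finset.pow_sum_div_card_le_sum_pow`..). -/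
def S_HO1 : Prop := ∀ (A B : Type) [DecidableEq A] [DecidableEq B] (NA : Finset A) (NB : Finset B)
  (H : Finset (A × B)) (k : ℕ), 1 ≤ k → H ⊆ NA ×ˢ NB →
  H.card ^ k ≤ NB.card ^ (k - 1) *
    (((Fintype.piFinset fun _ : Fin k => NA) ×ˢ NB).filter fun x => ∀ j, (x.1 j, x.2) ∈ H).card

/-- [HOL] many full boxes: `HO1` for the four coordinates one after the other (`α` replaced by
`Fin k → α`). -/
def S_HOL : Prop := ∀ (α : Type) [DecidableEq α] (N : Finset α) (H : Finset (Fin 4 → α)) (k : ℕ),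
  1 ≤ k → H ⊆ (Fintype.piFinset fun _ => N) →
  H.card ^ (k ^ 4) ≤ N.card ^ (4 * k ^ 4 - 4 * k) * (FB k N H).card

/-- [BOX] a full box outside `E` with large common neighbourhoods. By `HOL` there are at least
`θ^(k'^4) N0^(4k')` full boxes (`k' = k + 1`). At most `4 e N0^(4k')` have some `p i ∈ E`. If
`|CI H i p| < κ N0^3` then the first elements of the other three tuples form an element of
`CI H i p`, so there are at most `κ N0^3 N0^(3(k'-1))` full boxes with this `p i`. -/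
def S_BOX : Prop := ∀ (k : ℕ) (α : Type) [DecidableEq α] (N : Finset α) (H : Finset (Fin 4 → α))
  (E : Finset (Fin (k + 1) → α)) (N0 θ e κ : ℝ), 0 < N0 → 0 < θ → 0 ≤ e → 0 < κ →
  (N.card : ℝ) ≤ N0 → H ⊆ (Fintype.piFinset fun _ => N) → θ * N0 ^ 4 ≤ H.card →
  (E.card : ℝ) ≤ e * N0 ^ (k + 1) → 4 * (e + κ) < θ ^ ((k + 1) ^ 4) →
  ∃ p ∈ FB (k + 1) N H, (∀ i, p i ∉ E) ∧ ∀ i, κ * N0 ^ 3 ≤ ((CI H i (p i)).card : ℝ)

/-! ## The rank lemma -/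

/-- [MNR] minors of a matrix of rank one modulo `D`: expand `det (a bᵀ + D E)` in the rows. -/
def S_MNR : Prop := ∀ (R : ℕ) (D : ℤ) (B : Matrix (Fin R) (Fin R) ℤ) (a b : Fin R → ℤ),
  (∀ i j, D ∣ B i j - a i * b j) → D ^ (R - 1) ∣ B.det

/-- [IDX] the index of the lattice spanned by the rows of a matrix. (Mathlib has the determinant as
an index: `Submodule.natAbs_det_equiv`, `Ideal.natAbs_det_basis_change`,
`AddSubgroup.index_..`, `ZLattice.covolume..`.) -/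
def S_IDX : Prop := ∀ (R : ℕ) (s : Matrix (Fin R) (Fin R) ℤ), s.det ≠ 0 →
  (AddSubgroup.closure (Set.range fun i => s i) : AddSubgroup (Fin R → ℤ)).index = s.det.natAbs

/-- [LAT] lattice points in a small region. Choose `s` in `S` with `|det|` maximal, `= D0`. By
Cramer every `v ∈ S` is `∑ α_t s_t` with `|α_t| ≤ 1`. The group `Λ` generated by `S` has a basis
`h`; `D ∣ det h` by multilinearity, so by `IDX` the group `Λ0` generated by the `s_t` has index at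
most `D0 / D` in `Λ`; elements of `S` in the same coset of `Λ0` have the same `α_t` modulo `1`, so
there are at most `3^R` in each coset. -/
def S_LAT : Prop := ∀ (R : ℕ) (S : Finset (Fin R → ℤ)) (D Δ : ℕ),
  (∀ s : Fin R → Fin R → ℤ, (∀ t, s t ∈ S) → (D : ℤ) ∣ (Matrix.of s).det ∧
    |(Matrix.of s).det| ≤ (Δ : ℤ)) →
  (∃ s : Fin R → Fin R → ℤ, (∀ t, s t ∈ S) ∧ (Matrix.of s).det ≠ 0) → S.card * D ≤ 3 ^ R * Δ

/-- [RNK] the rank lemma. Let `b_1, .., b_R` be a basis of the group generated by the rows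
(`Submodule.basisOfPid` or `Module.Free`), `G` the matrix with these rows, `B = F G`. The rows of
`F` are different and generate `ℤ^R`; the columns of `G` are different. `det 1 = 1` is an integer
combination of `R × R` minors of `F` (multilinearity), so `D` divides the `R × R` minors of `G`.
`LAT` for the rows of `F` (with `D = 1`, `Δ` the maximal minor) and for the columns of `G`; the
product of the maximal minors is a minor of `B`, at most `R! M^R`. -/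
def S_RNK : Prop := ∀ (I J : Type) [Fintype I] [Fintype J] (B : Matrix I J ℤ) (M : ℕ),
  Function.Injective B → Function.Injective B.transpose → (∀ i j, |B i j| ≤ (M : ℤ)) →
  ∃ R : ℕ, (∃ (f : Fin R → I) (g : Fin R → J), (B.submatrix f g).det ≠ 0) ∧
    (∀ (f : Fin (R + 1) → I) (g : Fin (R + 1) → J), (B.submatrix f g).det = 0) ∧
    ∀ D : ℕ, (∀ (f : Fin R → I) (g : Fin R → J), (D : ℤ) ∣ (B.submatrix f g).det) →
      Fintype.card I * Fintype.card J * D ≤ 9 ^ R * R.factorial * M ^ R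

/-- [RK2] `RNK` and `MNR`: `2 ≤ R ≤ k` and `M^(R-2) ≤ D^(R-2)`. (If `R ≤ 1` then all `2 × 2` minors
vanish; minors of size more than `k` of `F G` vanish.) -/
def S_RK2 : Prop := ∀ (k : ℕ) (I J : Type) [Fintype I] [Fintype J] (B : Matrix I J ℤ) (M D : ℕ),
  Function.Injective B → Function.Injective B.transpose → (∀ i j, |B i j| ≤ (M : ℤ)) → M ≤ D →
  (∃ (F : I → Fin k → ℤ) (G : Fin k → J → ℤ), ∀ i j, B i j = ∑ t, F i t * G t j) →
  (∃ (a : I → ℤ) (b : J → ℤ), ∀ i j, (D : ℤ) ∣ B i j - a i * b j) →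
  (∃ i i' j j', B i j * B i' j' ≠ B i j' * B i' j) →
  Fintype.card I * Fintype.card J * D ≤ 9 ^ k * k.factorial * M ^ 2

/-- [R1] all columns are parallel. Otherwise `RK2` for the matrix `B_(y,x) = ∑ y_j x_j`,
`y ∈ {0..Y}^k`, `x` in the set of the different columns `(u j c)_j`, `M = k Y U`, `D = w^2`. -/
def S_R1 : Prop := ∀ (k w U Y V : ℕ) (γ : Type) (C : Finset γ) (u : Fin k → γ → ℤ)
  (g : Fin k → ZMod (w ^ 2)) (G : γ → (ZMod (w ^ 2))ˣ), 1 ≤ Y → 1 ≤ w →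
  (∀ j, ∀ c ∈ C, |u j c| ≤ (U : ℤ)) →
  (∀ j, ∀ c ∈ C, ((u j c : ℤ) : ZMod (w ^ 2)) = g j * (G c : ZMod (w ^ 2))) →
  (∀ y : Fin k → ℤ, y ≠ 0 → (∀ j, |y j| ≤ (Y : ℤ)) → ∑ j, (y j : ZMod (w ^ 2)) * g j ≠ 0) →
  k * Y * U ≤ w ^ 2 → V ≤ (C.image fun c j => u j c).card →
  9 ^ k * k.factorial * (k * Y * U) ^ 2 < (Y + 1) ^ k * V * w ^ 2 →
  ∀ c ∈ C, ∀ c' ∈ C, ∀ j j', u j c * u j' c' = u j c' * u j' c

/-! ## One modulus -/

/-- [FXD] one direction. The columns are the points of `CI H i p`, `u j c = u (c with p j)`,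
`g j = g i (p j)`; two equal columns `c, c'` give an element of `CO` (remove the `i`-th coordinate,
`Fin.prod_univ_succAbove`; `l` and `p 0` are prime to `w`), so the number `V` of different columns
satisfies `|CI|^2 ≤ V |CO|`; `p` is not in `EX`; `R1` with `k + 1` rows. -/
def S_FXD : Prop := ∀ (m k l U w Y N0 : ℕ) (N : Finset ℕ) (H : Finset (Fin 4 → ℕ))
  (u : (Fin 4 → ℕ) → ℤ) (ka : (ZMod (w ^ 2))ˣ) (c : Fin 4 → (ZMod (w ^ 2))ˣ)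
  (g : Fin 4 → ℕ → (ZMod (w ^ 2))ˣ) (κ L : ℝ) (i : Fin 4) (p : Fin (k + 1) → ℕ),
  Ty m l U w N H u ka c g → 1 ≤ m → 2 ≤ w → l.Coprime w → 1 ≤ Y → 1 ≤ N0 → 0 < κ → 0 < L →
  p ∉ EX m (k + 1) Y w N → κ * (N0 : ℝ) ^ 3 ≤ ((CI H i p).card : ℝ) →
  ((CO m w N).card : ℝ) ≤ L * (N0 : ℝ) ^ 3 → (k + 1) * Y * U ≤ w ^ 2 →
  (9 : ℝ) ^ (k + 1) * ((k + 1).factorial : ℝ) * ((k + 1 : ℝ) * Y * U) ^ 2 * L <
    ((Y : ℝ) + 1) ^ (k + 1) * κ ^ 2 * (N0 : ℝ) ^ 3 * (w : ℝ) ^ 2 →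
  ∀ x ∈ CI H i p, ∀ x' ∈ CI H i p, ∀ j j', u (Function.update x i (p j)) *
    u (Function.update x' i (p j')) = u (Function.update x' i (p j)) *
      u (Function.update x i (p j'))

/-- [GEO] products of four ratios. With `ρ_i = a' / a` in lowest terms, `x e` is an integer times
`∏ i, (if e i = 0 then a_i else a'_i)` (induction on the number of directions), so the product of
the `max |a_i| |a'_i|` is at most `U`. -/
def S_GEO : Prop := ∀ (x : (Fin 4 → Fin 2) → ℤ) (U : ℕ), (∀ e, x e ≠ 0 ∧ |x e| ≤ (U : ℤ)) →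
  (∀ i e e', x (Function.update e i 0) * x (Function.update e' i 1) =
    x (Function.update e i 1) * x (Function.update e' i 0)) →
  ∃ (i : Fin 4) (a a' : ℤ), a ≠ 0 ∧ a' ≠ 0 ∧ a ^ 4 ≤ (U : ℤ) ∧ a' ^ 4 ≤ (U : ℤ) ∧
    ∀ e, x (Function.update e i 1) * a = x (Function.update e i 0) * a'

/-- [FXW] few points for one modulus. `FXT`, `BOX` for the set `H` of `FXT` (`θ / L2^5`), `FXD` for
the four directions and `j, j' = 0, 1`, `GEO` for `x e = u (i ↦ p i (e i))` (nonzero: a unit modulo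
`w^2`, `w ≥ 2`). With `P = p i 0 ≠ P' = p i 1`: `u(P') a = u(P) a'`, square:
`w^2 ∣ l n^m (P'^m a^2 - P^m a'^2)`, `n` the product of the other three coordinates, so `w^2` divides
`P'^m a^2 - P^m a'^2`, which is not zero (`P`, `P'` squarefree and different, `m` odd) and at most
`N0^m √U` in absolute value. -/
def S_FXW : Prop := ∀ (m k l U w Y N0 L2 : ℕ) (N : Finset ℕ) (θ e κ L : ℝ), Odd m → 1 ≤ k →
  2 ≤ w → l.Coprime w → 1 ≤ Y → (∀ n ∈ N, 1 ≤ n ∧ n ≤ N0 ∧ Squarefree n) →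
  Nat.card {x : (ZMod (w ^ 2))ˣ // x ^ 2 = 1} ≤ L2 → 1 ≤ L2 → 0 < θ → 0 ≤ e → 0 < κ → 0 < L →
  θ * (N0 : ℝ) ^ 4 ≤ (HW m l U w N).card → ((EX m (k + 1) Y w N).card : ℝ) ≤ e * (N0 : ℝ) ^ (k + 1) →
  ((CO m w N).card : ℝ) ≤ L * (N0 : ℝ) ^ 3 → 4 * (e + κ) < (θ / (L2 : ℝ) ^ 5) ^ ((k + 1) ^ 4) →
  (k + 1) * Y * U ≤ w ^ 2 →
  (9 : ℝ) ^ (k + 1) * ((k + 1).factorial : ℝ) * ((k + 1 : ℝ) * Y * U) ^ 2 * L <
    ((Y : ℝ) + 1) ^ (k + 1) * κ ^ 2 * (N0 : ℝ) ^ 3 * (w : ℝ) ^ 2 →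
  N0 ^ (2 * m) * U < w ^ 4 → 1 ≤ N0 → False

/-! ## All moduli -/

/-- [PAR] the inequalities between the parameters. -/
def S_PAR : Prop := ∀ m : ℕ, 5 ≤ m →
  (4 * m * jj m = 2 * aa m + KK m ∧ Even (KK m) ∧ 1 ≤ yy m ∧
    kk m * yy m + qq m + bb m + 2 ≤ aa m ∧ qq m + bb m + 1 ≤ jj m ∧ 3 * jj m ≤ aa m) ∧
  (yy m + 2 * m * jj m + 1 + 2 * bb m ≤ 2 * aa m ∧ 4 * m * jj m + 1 + 4 * bb m ≤ 4 * aa m ∧
    2 * yy m + 4 * m * jj m + 3 * bb m + 2 * qq m + 3 ≤ kk m * yy m + 3 * jj m + 2 * aa m) ∧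
  (4 * (m + 1) * jj m = 3 * KK m + 2 * (m + 1) ∧ 4 * jj m + 8 ≤ KK m ∧
    2 * KK m ≤ 11 * 10 ^ 6 * m ^ 6 ∧ KK m + 2 * bb m + 2 ≤ 2 * aa m)

/-- [RT1] the number of `x` with `x^2 = 1` in `(ℤ / w^2)ˣ`: `claimC1b` (`SM/ItemC1b.lean`) for
`d = 4`, `a = w^2`: `FF 4 n = (n + 2)^2 - 1`. -/
def S_RT1 : Prop := ∀ w : ℕ, 1 ≤ w →
  Nat.card {x : (ZMod (w ^ 2))ˣ // x ^ 2 = 1} ≤ 28 * 2 ^ w.primeFactors.card

/-- [MTA] choice of `w` (`AVG` with `θ = P^(-bb)`, `W = 3 P^aa`, `H = P^(4 jj)`,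
`E = P^(kk jj - qq)`, `C = P^(bb + 2 + 3 jj)`; `EXA` for `k = kk m`, `Y = P^yy`, `COA`, `DVB`,
`PAR`). -/
def S_MTA : Prop := ∀ m : ℕ, 5 ≤ m → Odd m → ∃ P0 : ℕ, ∀ P : ℕ, P0 ≤ P → ∀ N : Finset ℕ,
  (∀ n ∈ N, 1 ≤ n ∧ n ≤ P ^ jj m ∧ Squarefree n) → ∀ l : ℕ,
  3 * P ^ aa m * P ^ (4 * jj m) < P ^ bb m *
    ∑ w ∈ (Ioc (P ^ (aa m - bb m)) (3 * P ^ aa m)).filter (fun w => l.Coprime w),
      (HW m l (2 * P ^ (2 * m * jj m)) w N).card →
  ∃ w ∈ Ioc (P ^ (aa m - bb m)) (3 * P ^ aa m), l.Coprime w ∧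
    P ^ (4 * jj m) ≤ 2 * P ^ bb m * (HW m l (2 * P ^ (2 * m * jj m)) w N).card ∧
    P ^ qq m * (EX m (kk m) (P ^ yy m) w N).card ≤ P ^ (kk m * jj m) ∧
    (CO m w N).card ≤ P ^ (bb m + 2 + 3 * jj m)

/-- [MTB] no such `w` (`FXW` with `k = kk m - 1`, `θ = P^(-bb) / 2`, `e = κ = P^(-qq)`,
`L = P^(bb + 2)`, `L2 = 28 * 2^ω(w)`, `2 L2^5 ≤ P` by `DVB` and `RT1`; `PAR`). -/
def S_MTB : Prop := ∀ m : ℕ, 5 ≤ m → Odd m → ∃ P0 : ℕ, ∀ P : ℕ, P0 ≤ P → ∀ N : Finset ℕ,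
  (∀ n ∈ N, 1 ≤ n ∧ n ≤ P ^ jj m ∧ Squarefree n) → ∀ l : ℕ,
  ∀ w ∈ Ioc (P ^ (aa m - bb m)) (3 * P ^ aa m), l.Coprime w →
    P ^ (4 * jj m) ≤ 2 * P ^ bb m * (HW m l (2 * P ^ (2 * m * jj m)) w N).card →
    P ^ qq m * (EX m (kk m) (P ^ yy m) w N).card ≤ P ^ (kk m * jj m) →
    (CO m w N).card ≤ P ^ (bb m + 2 + 3 * jj m) → False

/-- [MTP] Theorem MT of the note (`MTA`, `MTB`). -/
def S_MTP : Prop := ∀ m : ℕ, 5 ≤ m → Odd m → ∃ P0 : ℕ, ∀ P : ℕ, P0 ≤ P → ∀ N : Finset ℕ,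
  (∀ n ∈ N, 1 ≤ n ∧ n ≤ P ^ jj m ∧ Squarefree n) → ∀ l : ℕ,
  P ^ bb m * ∑ w ∈ (Ioc (P ^ (aa m - bb m)) (3 * P ^ aa m)).filter (fun w => l.Coprime w),
      (HW m l (2 * P ^ (2 * m * jj m)) w N).card ≤ 3 * P ^ aa m * P ^ (4 * jj m)

theorem MTP_pf (hA : S_MTA) (hB : S_MTB) : S_MTP := by
  intro m hm ho
  obtain ⟨PA, hA⟩ := hA m hm ho
  obtain ⟨PB, hB⟩ := hB m hm ho
  refine ⟨max PA PB, fun P hP N hN l => ?_⟩
  by_contra hlt
  obtain ⟨w, hw, hl, h1, h2, h3⟩ :=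
    hA P (le_trans (le_max_left _ _) hP) N hN l (not_le.1 hlt)
  exact hB P (le_trans (le_max_right _ _) hP) N hN l w hw hl h1 h2 h3

end Pool.Agent.Work.MP_e0c7e8_nt.AV
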