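import Mathlib
import Pool.Agent.Work.MP_e0c7e8_nt.AV.Stmts
import Pool.Agent.Work.MP_e0c7e8_nt.BG.I_BES

/-!
# Items NRM, SQI, NZM: small relations between square roots
-/

set_option autoImplicit false

namespace Pool.Agent.Work.MP_e0c7e8_nt.AV

open Finset Polynomial

namespace NZMq

/-- even and odd part of a polynomial at a square root of a fixed integer -/
theorem parts (v : ℤ) (F : ℤ[X]) : ∃ E O : ℤ[X], ∀ (A : Type) [CommRing A] (s a : A),
    s ^ 2 = (v : A) → aeval (a + s) F = aeval a E + s * aeval a O ∧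
      aeval (a - s) F = aeval a E - s * aeval a O := by
  induction F using Polynomial.induction_on with
  | C c =>
    refine ⟨C c, 0, ?_⟩
    intro A _ s a _
    simp
  | add p q hp hq =>
    obtain ⟨E1, O1, h1⟩ := hp
    obtain ⟨E2, O2, h2⟩ := hq
    refine ⟨E1 + E2, O1 + O2, ?_⟩
    intro A _ s a hs
    obtain ⟨a1, a2⟩ := h1 A s a hs
    obtain ⟨b1, b2⟩ := h2 A s a hs
    constructor
    · rw [map_add, a1, b1, map_add, map_add]; ring
    · rw [map_add, a2, b2, map_add, map_add]; ring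
  | monomial n c h =>
    obtain ⟨E, O, h⟩ := h
    refine ⟨E * X + C v * O, E + O * X, ?_⟩
    intro A _ s a hs
    obtain ⟨a1, a2⟩ := h A s a hs
    have hv : aeval a (C v : ℤ[X]) = s ^ 2 := by
      rw [hs, aeval_C]; simp
    have e1 : (C c * X ^ (n + 1) : ℤ[X]) = C c * X ^ n * X := by ring
    constructor
    · rw [e1, map_mul, a1, aeval_X, map_add, map_mul, map_mul, map_add, map_mul, aeval_X, hv]
      ring
    · rw [e1, map_mul, a2, aeval_X, map_add, map_mul, map_mul, map_add, map_mul, aeval_X, hv]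
      ring

theorem norm_poly (k : ℕ) : ∀ (t y : Fin k → ℤ), ∃ F : ℤ[X], ∀ (A : Type) [CommRing A]
    (g : Fin k → A), (∀ j, g j ^ 2 = (t j : A)) → ∀ a : A,
    aeval a F = ∏ e : Fin k → Bool,
      (a + ∑ j, (if e j then (y j : A) * g j else -((y j : A) * g j))) := by
  induction k with
  | zero =>
    intro t y
    refine ⟨X, ?_⟩
    intro A _ g hg a
    simp
  | succ k ih =>
    intro t y
    obtain ⟨F, hF⟩ := ih (fun j => t j.succ) (fun j => y j.succ)
    obtain ⟨E, O, hEO⟩ := parts (y 0 ^ 2 * t 0) F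
    refine ⟨E ^ 2 - C (y 0 ^ 2 * t 0) * O ^ 2, ?_⟩
    intro A _ g hg a
    have hs : ((y 0 : A) * g 0) ^ 2 = ((y 0 ^ 2 * t 0 : ℤ) : A) := by
      rw [mul_pow, hg 0]; push_cast; ring
    obtain ⟨h1, h2⟩ := hEO A ((y 0 : A) * g 0) a hs
    have hg' : ∀ j : Fin k, g j.succ ^ 2 = ((t j.succ : ℤ) : A) := fun j => hg j.succ
    have f1 := hF A (fun j => g j.succ) hg' (a + (y 0 : A) * g 0)
    have f2 := hF A (fun j => g j.succ) hg' (a - (y 0 : A) * g 0)
    have hv : aeval a (C (y 0 ^ 2 * t 0) : ℤ[X]) = ((y 0 : A) * g 0) ^ 2 := by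
      rw [hs, aeval_C]; simp
    have hl : aeval a (E ^ 2 - C (y 0 ^ 2 * t 0) * O ^ 2) =
        aeval (a + (y 0 : A) * g 0) F * aeval (a - (y 0 : A) * g 0) F := by
      rw [h1, h2, map_sub, map_mul, map_pow, map_pow, hv]; ring
    rw [hl, f1, f2]
    rw [← (Fin.consEquiv (fun _ : Fin (k + 1) => Bool)).prod_comp, Fintype.prod_prod_type]
    rw [Fintype.prod_bool]
    congr 1
    · apply Finset.prod_congr rfl
      intro e _
      simp only [Fin.consEquiv, Equiv.coe_fn_mk, Fin.sum_univ_succ, Fin.cons_zero, Fin.cons_succ]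
      simp only [if_true]
      ring
    · apply Finset.prod_congr rfl
      intro e _
      simp only [Fin.consEquiv, Equiv.coe_fn_mk, Fin.sum_univ_succ, Fin.cons_zero, Fin.cons_succ]
      simp
      ring

end NZMq

open NZMq

theorem NRM_pf : S_NRM := by
  intro k t y
  obtain ⟨F, hF⟩ := norm_poly k t y
  refine ⟨F.eval 0, ?_⟩
  intro A _ g hg
  have h := hF A g hg 0
  have h0 : aeval (0 : A) F = ((F.eval 0 : ℤ) : A) := by
    rw [aeval_def, eval₂_at_zero]
    simp [coeff_zero_eq_eval_zero]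
  rw [← h0, h]
  apply Finset.prod_congr rfl
  intro e _
  rw [zero_add]

theorem NZMq.sq_eq {a b : ℕ} (ha : Squarefree a) (hb : Squarefree b) {r : ℚ}
    (h : (a : ℚ) = r ^ 2 * b) : a = b := by
  have hd : (r.den : ℤ) ≠ 0 := by exact_mod_cast r.den_ne_zero
  have hc : IsCoprime r.num (r.den : ℤ) := by
    rw [Int.isCoprime_iff_nat_coprime]
    simpa using r.reduced
  have h1 : (a : ℤ) * (r.den : ℤ) ^ 2 = r.num ^ 2 * b := by
    have h2 : (a : ℚ) * (r.den : ℚ) ^ 2 = (r.num : ℚ) ^ 2 * b := by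
      have hr : r * r.den = r.num := Rat.mul_den_eq_num r
      rw [h, ← hr]; ring
    exact_mod_cast h2
  have hda : (r.den : ℤ) ^ 2 ∣ b := by
    have : (r.den : ℤ) ^ 2 ∣ r.num ^ 2 * b := ⟨a, by rw [← h1]; ring⟩
    exact (hc.symm.pow).dvd_of_dvd_mul_left this
  have hna : r.num ^ 2 ∣ (a : ℤ) := by
    have : r.num ^ 2 ∣ (r.den : ℤ) ^ 2 * a := ⟨b, by rw [← h1]; ring⟩
    exact (hc.pow).dvd_of_dvd_mul_left this
  have hb' : Squarefree (b : ℤ) := Int.squarefree_natCast.2 hb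
  have ha' : Squarefree (a : ℤ) := Int.squarefree_natCast.2 ha
  have u1 : IsUnit (r.den : ℤ) := hb' _ (by rw [← sq]; exact hda)
  have u2 : IsUnit r.num := ha' _ (by rw [← sq]; exact hna)
  have e1 : (r.den : ℤ) ^ 2 = 1 := by
    rcases Int.isUnit_iff.1 u1 with h | h <;> rw [h] <;> norm_num
  have e2 : r.num ^ 2 = 1 := by
    rcases Int.isUnit_iff.1 u2 with h | h <;> rw [h] <;> norm_num
  rw [e1, e2, mul_one, one_mul] at h1
  exact_mod_cast h1

theorem NZMq.sqi_aux (Ω : Type) [Field Ω] [Algebra ℚ Ω] [IsAlgClosure ℚ Ω] (φ : Ω →+* ℂ) (k : ℕ)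
    (p : Fin k → ℕ) (hinj : Function.Injective p) (hsq : ∀ j, Squarefree (p j)) (ξ : Fin k → Ω)
    (hξ : ∀ j, φ (ξ j) = ((Real.sqrt (p j) : ℝ) : ℂ)) (z : Fin k → ℤ) (hz : z ≠ 0) :
    ∑ j, (z j : ℝ) * Real.sqrt (p j) ≠ 0 := by
  intro hsum
  classical
  have hp0 : ∀ j, (0 : ℝ) < p j := fun j => by
    have := (hsq j).ne_zero
    positivity
  have hξ2 : ∀ j, ξ j ^ 2 = algebraMap ℚ Ω (p j : ℚ) := by
    intro j
    apply φ.injective
    have h1 : φ (algebraMap ℚ Ω (p j : ℚ)) = (p j : ℂ) := by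
      simp
    rw [h1, map_pow, hξ, ← Complex.ofReal_pow, Real.sq_sqrt (Nat.cast_nonneg _)]
    simp
  have hli : LinearIndependent ℚ ξ := by
    refine BG.BES_pf ℚ Ω 2 (by norm_num)
      ⟨-1, IsPrimitiveRoot.neg_one 0 (by norm_num)⟩ (Fin k) ξ ?_ ?_ ?_
    · intro i h
      have := hξ2 i
      rw [h] at this
      have h3 : (p i : ℚ) = 0 := by
        apply (algebraMap ℚ Ω).injective
        rw [← this, map_zero]; ring
      have := hp0 i
      have h4 : (p i : ℝ) = 0 := by exact_mod_cast h3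
      linarith
    · intro i
      exact ⟨p i, hξ2 i⟩
    · intro i j hij r h
      apply hij
      apply hinj
      have h5 : algebraMap ℚ Ω (p i : ℚ) = algebraMap ℚ Ω (r ^ 2 * (p j : ℚ)) := by
        rw [← hξ2 i, h, mul_pow, hξ2 j, map_mul, map_pow]
      exact sq_eq (hsq i) (hsq j) ((algebraMap ℚ Ω).injective h5)
  rw [Fintype.linearIndependent_iff] at hli
  have hz0 : ∑ j, (z j : ℚ) • ξ j = 0 := by
    apply φ.injective
    rw [map_sum, map_zero]
    have h7 : (∑ j, φ ((z j : ℚ) • ξ j)) =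
        ((∑ j, (z j : ℝ) * Real.sqrt (p j) : ℝ) : ℂ) := by
      rw [Complex.ofReal_sum]
      apply Finset.sum_congr rfl
      intro j _
      rw [Complex.ofReal_mul, ← hξ j, Algebra.smul_def, map_mul]
      congr 1
      simp
    rw [h7, hsum]
    simp
  apply hz
  funext j
  have := hli (fun j => (z j : ℚ)) hz0 j
  exact_mod_cast this

theorem SQI_pf : S_SQI := by
  intro k p hinj hsq z hz
  have halg : ∀ j, IsAlgebraic ℚ ((Real.sqrt (p j) : ℝ) : ℂ) := by
    intro j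
    refine ⟨X ^ 2 - C (p j : ℚ), ?_, ?_⟩
    · exact X_pow_sub_C_ne_zero (by norm_num) _
    · have : ((Real.sqrt (p j) : ℝ) : ℂ) ^ 2 = (p j : ℂ) := by
        rw [← Complex.ofReal_pow, Real.sq_sqrt (Nat.cast_nonneg _)]; simp
      simp [this]
  exact @sqi_aux (algebraicClosure ℚ ℂ) _ (algebraicClosure ℚ ℂ).algebra'
    (algebraicClosure.isAlgClosure ℚ ℂ) (algebraicClosure ℚ ℂ).val.toRingHom k p hinj hsq
    (fun j => ⟨((Real.sqrt (p j) : ℝ) : ℂ), (mem_algebraicClosure_iff).2 (halg j)⟩)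
    (fun j => rfl) z hz

theorem NZM_pf : S_NZM := by
  intro m k Y N0 p y hm hk hinj hp hy hY
  obtain ⟨h, hmh⟩ := hm
  let i0 : Fin k := ⟨0, by omega⟩
  obtain ⟨M, hM⟩ := NRM_pf k (fun j => ((p i0 * p j : ℕ) : ℤ) ^ m) y
  -- the real side
  have hreal := hM ℝ (fun j => ((p i0 * p j : ℕ) : ℝ) ^ h * (Real.sqrt (p i0) * Real.sqrt (p j)))
    (by
      intro j
      have e1 : Real.sqrt (p i0 : ℝ) ^ 2 = p i0 := Real.sq_sqrt (Nat.cast_nonneg _)
      have e2 : Real.sqrt (p j : ℝ) ^ 2 = p j := Real.sq_sqrt (Nat.cast_nonneg _)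
      rw [mul_pow, mul_pow, e1, e2, hmh]
      push_cast
      ring)
  have hfac : ∀ e : Fin k → Bool, (∑ j, (if e j then (y j : ℝ) * (((p i0 * p j : ℕ) : ℝ) ^ h *
      (Real.sqrt (p i0) * Real.sqrt (p j))) else -((y j : ℝ) * (((p i0 * p j : ℕ) : ℝ) ^ h *
      (Real.sqrt (p i0) * Real.sqrt (p j)))))) ≠ 0 := by
    intro e h0
    let z : Fin k → ℤ := fun j => (if e j then y j else - y j) * ((p i0 * p j : ℕ) : ℤ) ^ h
    have hz : z ≠ 0 := by
      intro hz
      apply hy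
      funext j
      have hzj := congrFun hz j
      have hpp : (((p i0 * p j : ℕ) : ℤ)) ^ h ≠ 0 := by
        apply pow_ne_zero
        have h1 := (hp i0).1.ne_zero
        have h2 := (hp j).1.ne_zero
        exact_mod_cast mul_ne_zero h1 h2
      simp only [z, Pi.zero_apply, mul_eq_zero, hpp, or_false] at hzj
      by_cases he : e j = true
      · simpa [he] using hzj
      · simpa [he] using hzj
    have hs := SQI_pf k p hinj (fun j => (hp j).1) z hz
    have hp0 : Real.sqrt (p i0 : ℝ) ≠ 0 := by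
      have h1 := (hp i0).1.ne_zero
      have : (0 : ℝ) < p i0 := by positivity
      exact (Real.sqrt_pos.2 this).ne'
    apply hs
    have h2 : Real.sqrt (p i0 : ℝ) * ∑ j, (z j : ℝ) * Real.sqrt (p j) = 0 := by
      rw [← h0, Finset.mul_sum]
      apply Finset.sum_congr rfl
      intro j _
      by_cases he : e j = true
      · simp only [z, he, if_true]
        push_cast
        ring
      · simp only [z, he]
        simp
        ring
    exact (mul_eq_zero.1 h2).resolve_left hp0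
  have hMr : (M : ℝ) ≠ 0 := by
    rw [hreal]
    exact Finset.prod_ne_zero_iff.2 fun e _ => hfac e
  have hM0 : M ≠ 0 := by exact_mod_cast hMr
  refine ⟨M.natAbs, Int.natAbs_ne_zero.2 hM0, ?_, ?_⟩
  · have hb : |(M : ℝ)| ≤ ((k : ℝ) * Y * (N0 : ℝ) ^ m) ^ (2 ^ k) := by
      rw [hreal, Finset.abs_prod]
      have hcard : (Finset.univ : Finset (Fin k → Bool)).card = 2 ^ k := by
        simp
      rw [← hcard, ← Finset.prod_const]
      apply Finset.prod_le_prod (fun _ _ => abs_nonneg _)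
      intro e _
      refine (Finset.abs_sum_le_sum_abs _ _).trans ?_
      have hterm : ∀ j ∈ (Finset.univ : Finset (Fin k)),
          |(if e j then (y j : ℝ) * (((p i0 * p j : ℕ) : ℝ) ^ h *
          (Real.sqrt (p i0) * Real.sqrt (p j))) else -((y j : ℝ) * (((p i0 * p j : ℕ) : ℝ) ^ h *
          (Real.sqrt (p i0) * Real.sqrt (p j)))))| ≤ (Y : ℝ) * (N0 : ℝ) ^ m := by
        intro j _
        have hsame : |(if e j then (y j : ℝ) * (((p i0 * p j : ℕ) : ℝ) ^ h *
          (Real.sqrt (p i0) * Real.sqrt (p j))) else -((y j : ℝ) * (((p i0 * p j : ℕ) : ℝ) ^ h *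
          (Real.sqrt (p i0) * Real.sqrt (p j)))))| = |(y j : ℝ)| * (((p i0 * p j : ℕ) : ℝ) ^ h *
          (Real.sqrt (p i0) * Real.sqrt (p j))) := by
          have hnn : (0 : ℝ) ≤ ((p i0 * p j : ℕ) : ℝ) ^ h *
            (Real.sqrt (p i0) * Real.sqrt (p j)) := by positivity
          by_cases he : e j = true
          · rw [if_pos he, abs_mul, abs_of_nonneg hnn]
          · rw [if_neg he, abs_neg, abs_mul, abs_of_nonneg hnn]
        rw [hsame]
        have hy1 : |(y j : ℝ)| ≤ (Y : ℝ) := by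
          have := hY j
          exact_mod_cast this
        have hpi : (p i0 : ℝ) ≤ N0 := by exact_mod_cast (hp i0).2
        have hpj : (p j : ℝ) ≤ N0 := by exact_mod_cast (hp j).2
        have hs1 : Real.sqrt (p i0) * Real.sqrt (p j) ≤ N0 := by
          rw [← Real.sqrt_mul (Nat.cast_nonneg _)]
          rw [Real.sqrt_le_left (Nat.cast_nonneg _)]
          rw [sq]
          exact mul_le_mul hpi hpj (Nat.cast_nonneg _) (Nat.cast_nonneg _)
        have hs2 : ((p i0 * p j : ℕ) : ℝ) ^ h ≤ ((N0 : ℝ) ^ 2) ^ h := by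
          apply pow_le_pow_left₀ (Nat.cast_nonneg _)
          push_cast
          rw [sq]
          exact mul_le_mul hpi hpj (Nat.cast_nonneg _) (Nat.cast_nonneg _)
        have hm2 : (N0 : ℝ) ^ m = ((N0 : ℝ) ^ 2) ^ h * N0 := by
          rw [hmh]; ring
        rw [hm2]
        apply mul_le_mul hy1 _ (by positivity) (Nat.cast_nonneg _)
        exact mul_le_mul hs2 hs1 (by positivity) (by positivity)
      refine (Finset.sum_le_card_nsmul _ _ _ hterm).trans ?_
      rw [Finset.card_univ, Fintype.card_fin, nsmul_eq_mul]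
      exact le_of_eq (by ring)
    have hc : ((M.natAbs : ℕ) : ℝ) ≤ (((k * Y * N0 ^ m) ^ (2 ^ k) : ℕ) : ℝ) := by
      rw [Nat.cast_natAbs]
      push_cast
      exact hb
    exact_mod_cast hc
  · intro w hw hrel
    obtain ⟨_, _, c, g, hg, hsum⟩ := hrel
    have hz := hM (ZMod (w ^ 2)) (fun j => ((c⁻¹ : (ZMod (w ^ 2))ˣ) : ZMod (w ^ 2)) * g i0 * g j)
      (by
        intro j
        have hcc : ((c⁻¹ : (ZMod (w ^ 2))ˣ) : ZMod (w ^ 2)) * (c : ZMod (w ^ 2)) = 1 :=
          Units.inv_mul c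
        have e1 : (((c⁻¹ : (ZMod (w ^ 2))ˣ) : ZMod (w ^ 2)) * g i0 * g j) ^ 2 =
            ((c⁻¹ : (ZMod (w ^ 2))ˣ) : ZMod (w ^ 2)) ^ 2 * (g i0 ^ 2) * (g j ^ 2) := by ring
        rw [e1, hg i0, hg j]
        push_cast
        calc ((c⁻¹ : (ZMod (w ^ 2))ˣ) : ZMod (w ^ 2)) ^ 2 *
              ((c : ZMod (w ^ 2)) * (p i0 : ZMod (w ^ 2)) ^ m) *
              ((c : ZMod (w ^ 2)) * (p j : ZMod (w ^ 2)) ^ m)
            = (((c⁻¹ : (ZMod (w ^ 2))ˣ) : ZMod (w ^ 2)) * (c : ZMod (w ^ 2))) ^ 2 *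
              (p i0 : ZMod (w ^ 2)) ^ m * (p j : ZMod (w ^ 2)) ^ m := by ring
          _ = _ := by rw [hcc]; ring)
    have hzero : (∏ e : Fin k → Bool, ∑ j, (if e j then (y j : ZMod (w ^ 2)) *
        (((c⁻¹ : (ZMod (w ^ 2))ˣ) : ZMod (w ^ 2)) * g i0 * g j) else -((y j : ZMod (w ^ 2)) *
        (((c⁻¹ : (ZMod (w ^ 2))ˣ) : ZMod (w ^ 2)) * g i0 * g j)))) = 0 := by
      apply Finset.prod_eq_zero (Finset.mem_univ (fun _ => true))
      simp only [if_true]
      have : ∑ j, (y j : ZMod (w ^ 2)) *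
          (((c⁻¹ : (ZMod (w ^ 2))ˣ) : ZMod (w ^ 2)) * g i0 * g j) =
          ((c⁻¹ : (ZMod (w ^ 2))ˣ) : ZMod (w ^ 2)) * g i0 * ∑ j, (y j : ZMod (w ^ 2)) * g j := by
        rw [Finset.mul_sum]
        apply Finset.sum_congr rfl
        intro j _
        ring
      rw [this, hsum, mul_zero]
    rw [hzero] at hz
    have hd : ((w ^ 2 : ℕ) : ℤ) ∣ M := (ZMod.intCast_zmod_eq_zero_iff_dvd M (w ^ 2)).1 hz
    exact Int.natCast_dvd.1 hd

end Pool.Agent.Work.MP_e0c7e8_nt.AV
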