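import Mathlib
import Pool.Agent.Work.MP_e0c7e8_nt.AV.Stmts

/-!
# Item PAR: the inequalities between the parameters
-/

set_option autoImplicit false

namespace Pool.Agent.Work.MP_e0c7e8_nt.AV

theorem PAR_pf : S_PAR := by
  intro m hm
  obtain ⟨n, rfl⟩ : ∃ n, m = n + 5 := ⟨m - 5, by omega⟩
  obtain ⟨x, hx⟩ : ∃ x, x = (16 * (n + 5)) ^ 4 := ⟨_, rfl⟩
  obtain ⟨r, hr⟩ : ∃ r, r = rr (n + 5) := ⟨_, rfl⟩
  have hx1 : 1 ≤ x := by rw [hx]; exact Nat.one_le_pow _ _ (by omega)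
  have hrx : r = 16 * (n * x) + 80 * x := by
    rw [hr, hx]; unfold rr; ring
  have hnx : n ≤ n * x := Nat.le_mul_of_pos_right _ hx1
  have hb : bb (n + 5) = n + 7 := rfl
  have hk : kk (n + 5) = 16 * (n + 5) := rfl
  have hq : qq (n + 5) = n * x + 8 * x + 1 := by
    unfold qq; rw [hb, hk, ← hx]; ring
  have hj : jj (n + 5) = 3 * r + 2 := by unfold jj; rw [← hr]
  have hK : KK (n + 5) = 4 * (n * r) + 24 * r + 2 * n + 12 := by
    unfold KK; rw [← hr]; ring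
  have ha : aa (n + 5) = 4 * (n * r) + 18 * r + 3 * n + 14 := by
    unfold aa; rw [← hr]
    have e1 : 4 * (n + 5) - 2 = 4 * n + 18 := by omega
    have e2 : 3 * (n + 5) - 1 = 3 * n + 14 := by omega
    rw [e1, e2]; ring
  obtain ⟨y, hy⟩ : ∃ y, y = yy (n + 5) := ⟨_, rfl⟩
  have hs0 : (0 : ℕ) ≤ n * r := Nat.zero_le _
  have hle : bb (n + 5) + qq (n + 5) + 2 ≤ aa (n + 5) := by
    rw [hb, hq, ha]; omega
  have hyd : y = (aa (n + 5) - bb (n + 5) - qq (n + 5) - 2) / kk (n + 5) := by rw [hy]; rfl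
  have hkpos : 0 < kk (n + 5) := by rw [hk]; omega
  have hy1 : kk (n + 5) * y ≤ aa (n + 5) - bb (n + 5) - qq (n + 5) - 2 := by
    rw [hyd]; exact Nat.mul_div_le _ _
  have hy2 : aa (n + 5) - bb (n + 5) - qq (n + 5) - 2 < kk (n + 5) * y + kk (n + 5) := by
    rw [hyd]
    have := Nat.lt_mul_div_succ (aa (n + 5) - bb (n + 5) - qq (n + 5) - 2) hkpos
    rw [Nat.mul_add, Nat.mul_one] at this
    exact this
  have hyu : 16 * y ≤ 4 * r + 3 := by
    have h1 : (n + 5) * (16 * y) ≤ (n + 5) * (4 * r + 3) := by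
      have h2 : (n + 5) * (16 * y) = kk (n + 5) * y := by rw [hk]; ring
      have h3 : (n + 5) * (4 * r + 3) = 4 * (n * r) + 20 * r + 3 * n + 15 := by ring
      rw [h2, h3]
      refine hy1.trans ?_
      rw [ha]; omega
    exact Nat.le_of_mul_le_mul_left h1 (by omega)
  have hyl : 1 ≤ y := by
    by_contra h
    have hy0 : y = 0 := by omega
    rw [hy0, Nat.mul_zero, Nat.zero_add, ha, hb, hq, hk] at hy2
    omega
  have hky : kk (n + 5) * y = 16 * (n * y) + 80 * y := by rw [hk]; ring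
  rw [hky, ha, hb, hq] at hy1 hy2
  rw [hk] at hy2
  have m1 : 4 * (n + 5) * jj (n + 5) = 12 * (n * r) + 60 * r + 8 * n + 40 := by rw [hj]; ring
  have m2 : 2 * (n + 5) * jj (n + 5) = 6 * (n * r) + 30 * r + 4 * n + 20 := by rw [hj]; ring
  have m3 : 4 * (n + 5 + 1) * jj (n + 5) = 12 * (n * r) + 72 * r + 8 * n + 48 := by rw [hj]; ring
  rw [m1, m2, m3, hK, hj, hb, hq, ha, ← hy, hky]
  clear hyd hy hle hk hkpos hky m1 m2 m3 hj hK ha hb hq
  refine ⟨⟨by omega, ⟨2 * (n * r) + 12 * r + n + 6, by ring⟩, hyl, by omega, by omega, by omega⟩,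
    ⟨by omega, by omega, by omega⟩, ⟨by omega, by omega, ?_, by omega⟩⟩
  have hr5 : r * (n + 5) = 1048576 * (n + 5) ^ 6 := by rw [hr]; unfold rr; ring
  have hr5' : r * (n + 5) = n * r + 5 * r := by ring
  have hM : n + 5 ≤ (n + 5) ^ 6 := Nat.le_self_pow (by norm_num) _
  obtain ⟨M, hMd⟩ : ∃ M, M = (n + 5) ^ 6 := ⟨_, rfl⟩
  rw [← hMd] at hr5 hM ⊢
  rw [hr5'] at hr5
  norm_num
  omega

end Pool.Agent.Work.MP_e0c7e8_nt.AV
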