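import Pool.Agent.Work.MP_e0c7e8_nt.AV.StmtsI

/-!
# Item QFN of the block AV (helper71): finitely many solutions, and the size of `v`
-/

set_option autoImplicit false

namespace Pool.Agent.Work.MP_e0c7e8_nt.AV

open Finset Pool.Agent.Work.MP_e0c7e8_nt.SM Pool.Agent.Work.MP_e0c7e8_nt.BG

namespace I_QFN

theorem prod_le {P i : ℕ} {A : Finset ℕ} (hA : A ∈ powersetCard i (Pr P)) :
    ∏ p ∈ A, p ≤ P ^ i := by
  obtain ⟨h1, h2⟩ := Finset.mem_powersetCard.1 hA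
  have h3 : ∏ p ∈ A, p ≤ ∏ _p ∈ A, P := by
    refine Finset.prod_le_prod (fun _ _ => Nat.zero_le _) fun p hp => ?_
    have := h1 hp
    unfold Pr at this
    exact (Finset.mem_Icc.1 (Finset.mem_filter.1 this).1).2
  rwa [Finset.prod_const, h2] at h3

theorem rhs_le {m P i : ℕ} {A B : Finset ℕ} (hA : A ∈ powersetCard i (Pr P))
    (hB : B ∈ powersetCard i (Pr P)) :
    4 * ((∏ p ∈ A, (p : ℤ)) * ∏ p ∈ B, (p : ℤ)) ^ m ≤ ((4 * P ^ (2 * m * i) : ℕ) : ℤ) := by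
  have h1 := Nat.mul_le_mul (prod_le hA) (prod_le hB)
  have h2 : ((∏ p ∈ A, p) * ∏ p ∈ B, p) ^ m ≤ (P ^ i * P ^ i) ^ m := Nat.pow_le_pow_left h1 m
  have h3 : (P ^ i * P ^ i) ^ m = P ^ (2 * m * i) := by
    rw [← pow_add, ← pow_mul]
    congr 1
    ring
  rw [h3] at h2
  have h4 : 4 * ((∏ p ∈ A, p) * ∏ p ∈ B, p) ^ m ≤ 4 * P ^ (2 * m * i) := Nat.mul_le_mul_left 4 h2
  have h5 : ((4 * ((∏ p ∈ A, p) * ∏ p ∈ B, p) ^ m : ℕ) : ℤ) ≤ ((4 * P ^ (2 * m * i) : ℕ) : ℤ) :=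
    Int.ofNat_le.2 h4
  refine le_trans (le_of_eq ?_) h5
  simp only [Nat.cast_mul, Nat.cast_pow, Nat.cast_prod, Nat.cast_ofNat]

end I_QFN

open I_QFN in
theorem QFN_pf : S_QFN := by
  intro m P i X hX
  have hmain : ∀ x ∈ QS m X P i, ∃ D : ℕ, X / 2 < (D : ℝ) ∧ 1 ≤ x.2.2.2 ∧
      x.2.2.1 ^ 2 + (D : ℤ) * (x.2.2.2 : ℤ) ^ 2 ≤ ((4 * P ^ (2 * m * i) : ℕ) : ℤ) := by
    rintro ⟨A, B, u, v⟩ ⟨hA, hB, _, hS⟩
    obtain ⟨D, hD1, _, hD3⟩ := hS.eq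
    exact ⟨D, hD1, hS.pos, by
      change u ^ 2 + (D : ℤ) * (v : ℤ) ^ 2 ≤ _
      change u ^ 2 + (D : ℤ) * (v : ℤ) ^ 2 = _ at hD3
      rw [hD3]
      exact rhs_le hA hB⟩
  refine ⟨?_, ?_⟩
  · set N : ℕ := 4 * P ^ (2 * m * i) with hN
    have hfin : ((powersetCard i (Pr P) ×ˢ powersetCard i (Pr P) ×ˢ
        (Finset.Icc (-(N : ℤ)) N) ×ˢ (Finset.range (N + 1)) :
          Finset (Finset ℕ × Finset ℕ × ℤ × ℕ)) : Set (Finset ℕ × Finset ℕ × ℤ × ℕ)).Finite :=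
      Finset.finite_toSet _
    refine hfin.subset ?_
    intro x hx
    obtain ⟨D, hD1, hv1, hD3⟩ := hmain x hx
    obtain ⟨A, B, u, v⟩ := x
    obtain ⟨hA, hB, _, _⟩ := hx
    change 1 ≤ v at hv1
    change u ^ 2 + (D : ℤ) * (v : ℤ) ^ 2 ≤ (N : ℤ) at hD3
    have hD : 1 ≤ (D : ℤ) := by
      have h1 : (0 : ℝ) < D := lt_trans (by positivity) hD1
      have h2 : 0 < D := by exact_mod_cast h1
      exact_mod_cast h2
    have hv0 : (0 : ℤ) ≤ (v : ℤ) ^ 2 := sq_nonneg _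
    have h1 : (v : ℤ) ^ 2 ≤ (D : ℤ) * (v : ℤ) ^ 2 := by nlinarith
    have h2 : u ^ 2 ≤ (N : ℤ) := by linarith
    have h3 : (v : ℤ) ^ 2 ≤ (N : ℤ) := by nlinarith [sq_nonneg u]
    have h4 : (v : ℤ) ≤ (N : ℤ) := by
      have : (v : ℤ) ≤ (v : ℤ) ^ 2 := by
        have : (1 : ℤ) ≤ (v : ℤ) := by exact_mod_cast hv1
        nlinarith
      linarith
    have h5 : |u| ≤ (N : ℤ) := by
      have h6 : |u| ≤ |u| ^ 2 := by
        rcases eq_or_ne u 0 with h | h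
        · rw [h]; simp
        · have : 1 ≤ |u| := Int.one_le_abs h
          nlinarith
      rw [sq_abs] at h6
      linarith
    rw [Finset.mem_coe, Finset.mem_product, Finset.mem_product, Finset.mem_product]
    refine ⟨hA, hB, ?_, ?_⟩
    · exact Finset.mem_Icc.2 ⟨(abs_le.1 h5).1, (abs_le.1 h5).2⟩
    · exact Finset.mem_range.2 (Nat.lt_succ_of_le (by exact_mod_cast h4))
  · intro x hx
    obtain ⟨D, hD1, hv1, hD3⟩ := hmain x hx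
    have h1 : ((x.2.2.1 : ℤ) : ℝ) ^ 2 + (D : ℝ) * (x.2.2.2 : ℝ) ^ 2 ≤ 4 * (P : ℝ) ^ (2 * m * i) := by
      exact_mod_cast hD3
    have h2 : (1 : ℝ) ≤ (x.2.2.2 : ℝ) := by exact_mod_cast hv1
    have h3 : 0 < (x.2.2.2 : ℝ) ^ 2 := by positivity
    have h4 : (x.2.2.2 : ℝ) ^ 2 * (X / 2) < (x.2.2.2 : ℝ) ^ 2 * D :=
      mul_lt_mul_of_pos_left hD1 h3
    nlinarith [sq_nonneg ((x.2.2.1 : ℤ) : ℝ)]

end Pool.Agent.Work.MP_e0c7e8_nt.AV
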