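import Pool.Agent.Work.MP_e0c7e8_nt.AV.StmtsI

/-!
# Item QIB of the block AV: fewer than `2 jj` primes in `A` and `B`
-/

set_option autoImplicit false

namespace Pool.Agent.Work.MP_e0c7e8_nt.AV

open Finset Pool.Agent.Work.MP_e0c7e8_nt.SM Pool.Agent.Work.MP_e0c7e8_nt.BG

namespace I_QIB

/-- `2 ^ ω(v)` is at most the number of divisors. -/
theorem two_pow_le (v : ℕ) (hv : v ≠ 0) : 2 ^ v.primeFactors.card ≤ v.divisors.card := by
  rw [Nat.card_divisors hv]
  have h : ∏ _p ∈ v.primeFactors, 2 ≤ ∏ p ∈ v.primeFactors, (v.factorization p + 1) := by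
    refine Finset.prod_le_prod' fun p hp => ?_
    have h1 : 0 < v.factorization p :=
      (Nat.prime_of_mem_primeFactors hp).factorization_pos_of_dvd hv
        (Nat.dvd_of_mem_primeFactors hp)
    omega
  rwa [Finset.prod_const] at h

/-- the size of `v` -/
theorem v_lt (v P m i K : ℕ) (X : ℝ) (hK : Even K) (hX : (P : ℝ) ^ K ≤ X)
    (h : (v : ℝ) ^ 2 * X < 8 * (P : ℝ) ^ (2 * m * i)) :
    (v : ℝ) * (P : ℝ) ^ (K / 2) < 3 * (P : ℝ) ^ (m * i) := by
  have hP : (0 : ℝ) ≤ (P : ℝ) := Nat.cast_nonneg P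
  have hv : (0 : ℝ) ≤ (v : ℝ) := Nat.cast_nonneg v
  have h1 : ((v : ℝ) * (P : ℝ) ^ (K / 2)) ^ 2 < (3 * (P : ℝ) ^ (m * i)) ^ 2 := by
    have e1 : ((P : ℝ) ^ (K / 2)) ^ 2 = (P : ℝ) ^ K := by
      rw [← pow_mul, Nat.div_mul_cancel hK.two_dvd]
    have e2 : ((P : ℝ) ^ (m * i)) ^ 2 = (P : ℝ) ^ (2 * m * i) := by
      rw [← pow_mul]
      congr 1
      ring
    rw [mul_pow, mul_pow, e1, e2]
    have h2 : (v : ℝ) ^ 2 * (P : ℝ) ^ K ≤ (v : ℝ) ^ 2 * X :=
      mul_le_mul_of_nonneg_left hX (by positivity)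
    have h3 : (0 : ℝ) ≤ (P : ℝ) ^ (2 * m * i) := by positivity
    nlinarith
  exact lt_of_pow_lt_pow_left₀ 2 (by positivity) h1

end I_QIB

open I_QIB in
theorem QIB_pf (hQ : S_QFN) (hT : S_TRV) (hD : S_DVB) (hPar : S_PAR) : S_QIB := by
  intro m hm
  obtain ⟨⟨-, hKe, -⟩, -⟩ := hPar m hm
  set K := KK m with hKdef
  set c : ℕ := 2 * m * jj m + 1 with hc
  obtain ⟨P1, hP1⟩ := hD c 16
  refine ⟨max P1 3, 56 * 2 ^ (K / 2) * (1 + 16 * c) + 168, by positivity, ?_⟩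
  intro P X hP hXl hXu i hi1 hi2
  have hPP1 : P1 ≤ P := le_trans (le_max_left _ _) hP
  have hP3 : 3 ≤ P := le_trans (le_max_right _ _) hP
  have hPr : (3 : ℝ) ≤ (P : ℝ) := by exact_mod_cast hP3
  have hP1r : (1 : ℝ) ≤ (P : ℝ) := by linarith
  have hP0r : (0 : ℝ) < (P : ℝ) := by linarith
  have hX1 : (1 : ℝ) ≤ X := le_trans (one_le_pow₀ hP1r) hXl
  have hX0 : (0 : ℝ) < X := by linarith
  obtain ⟨-, hv⟩ := hQ m P i X hX0
  set V : ℕ := ⌊3 * (P : ℝ) ^ (m * i) / (P : ℝ) ^ (K / 2)⌋₊ with hV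
  have hPK : (0 : ℝ) < (P : ℝ) ^ (K / 2) := by positivity
  have hvV : ∀ x ∈ QS m X P i, x.2.2.2 ≤ V := by
    intro x hx
    have h1 := v_lt x.2.2.2 P m i K X hKe hXl (hv x hx)
    refine Nat.le_floor ?_
    rw [le_div_iff₀ hPK]
    exact h1.le
  have hVP : (V : ℝ) * (P : ℝ) ^ (K / 2) ≤ 3 * (P : ℝ) ^ (m * i) := by
    rw [← le_div_iff₀ hPK]
    exact Nat.floor_le (by positivity)
  -- abbreviations
  set p16 : ℝ := (P : ℝ) ^ ((1 : ℝ) / 16) with hp16
  have hp16_1 : 1 ≤ p16 := Real.one_le_rpow hP1r (by norm_num)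
  have hp8 : (P : ℝ) ^ ((1 : ℝ) / 8) = p16 * p16 := by
    rw [hp16, ← Real.rpow_add hP0r]
    norm_num
  rcases Nat.eq_zero_or_pos V with h0 | hVpos
  · have hempty : QS m X P i = ∅ := by
      rw [Set.eq_empty_iff_forall_notMem]
      intro x hx
      have h1 := hvV x hx
      obtain ⟨-, -, -, hs⟩ := hx
      have h2 := hs.pos
      omega
    rw [hempty, Set.ncard_empty]
    rw [hp8]
    simp only [Nat.cast_zero, zero_mul]
    positivity
  · -- the number `T`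
    have hVc : V ≤ P ^ c := by
      have h1 : (V : ℝ) ≤ 3 * (P : ℝ) ^ (m * i) := by
        have h2 : (1 : ℝ) ≤ (P : ℝ) ^ (K / 2) := one_le_pow₀ hP1r
        have h3 : (0 : ℝ) ≤ (V : ℝ) := Nat.cast_nonneg V
        nlinarith
      have h2 : (3 : ℝ) * (P : ℝ) ^ (m * i) ≤ (P : ℝ) ^ (m * i + 1) := by
        rw [pow_succ, mul_comm]
        exact mul_le_mul_of_nonneg_left hPr (by positivity)
      have h3 : (P : ℝ) ^ (m * i + 1) ≤ (P : ℝ) ^ c := by
        refine pow_le_pow_right₀ hP1r ?_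
        have : m * i ≤ m * (2 * jj m) := Nat.mul_le_mul_left m hi2.le
        rw [hc]
        linarith [this, show m * (2 * jj m) = 2 * m * jj m by ring]
      exact_mod_cast h1.trans (h2.trans h3)
    set T : ℕ := ⌊p16⌋₊ with hTdef
    have hTr : (T : ℝ) ≤ p16 := Nat.floor_le (by linarith)
    have hTv : ∀ v : ℕ, 1 ≤ v → v ≤ V → 2 ^ v.primeFactors.card ≤ T := by
      intro v hv1 hv2
      have h1 := two_pow_le v (by omega)
      refine h1.trans (Nat.le_floor ?_)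
      have h2 := hP1 P hPP1 v (by omega) (hv2.trans hVc)
      have h3 : ((v.divisors.card : ℝ)) ^ 16 ≤ (P : ℝ) := by exact_mod_cast h2
      have h4 : (0 : ℝ) ≤ (v.divisors.card : ℝ) := Nat.cast_nonneg _
      have h5 : ((v.divisors.card : ℝ) ^ 16) ^ ((1 : ℝ) / 16) ≤ p16 :=
        Real.rpow_le_rpow (by positivity) h3 (by norm_num)
      have h6 : ((v.divisors.card : ℝ) ^ 16) ^ ((1 : ℝ) / 16) = (v.divisors.card : ℝ) := by
        have h7 := Real.pow_rpow_inv_natCast h4 (n := 16) (by norm_num)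
        rwa [show (((16 : ℕ) : ℝ))⁻¹ = (1 : ℝ) / 16 by norm_num] at h7
      rwa [h6] at h5
    have hmain := hT m P i V T X (by omega) hi1 hX1 hVpos hTv
    have hset : {x ∈ QS m X P i | x.2.2.2 ≤ V} = QS m X P i := by
      ext x
      exact ⟨fun h => h.1, fun h => ⟨h, hvV x h⟩⟩
    rw [hset] at hmain
    -- `√X`
    have hsq : Real.sqrt X ≤ 2 ^ (K / 2) * (P : ℝ) ^ (K / 2) := by
      rw [← mul_pow]
      refine (Real.sqrt_le_sqrt hXu).trans ?_
      have h1 : ((2 * (P : ℝ)) ^ K) = ((2 * (P : ℝ)) ^ (K / 2)) ^ 2 := by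
        rw [← pow_mul, Nat.div_mul_cancel hKe.two_dvd]
      rw [h1, Real.sqrt_sq (by positivity)]
    -- the logarithm
    have hlog : 1 + Real.log V ≤ (1 + 16 * c) * p16 := by
      have h1 : Real.log V ≤ c * Real.log P := by
        rw [← Real.log_pow]
        refine Real.log_le_log (by exact_mod_cast hVpos) ?_
        exact_mod_cast hVc
      have h2 : Real.log P ≤ 16 * p16 := by
        have := Real.log_le_rpow_div hP0r.le (show (0 : ℝ) < 1 / 16 by norm_num)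
        rw [← hp16] at this
        linarith
      have h3 : (c : ℝ) * Real.log P ≤ c * (16 * p16) :=
        mul_le_mul_of_nonneg_left h2 (Nat.cast_nonneg c)
      nlinarith
    have hlog0 : 0 ≤ 1 + Real.log V := by
      have : 0 ≤ Real.log V := Real.log_natCast_nonneg V
      linarith
    -- assembly
    have hT0 : (0 : ℝ) ≤ (T : ℝ) := Nat.cast_nonneg T
    have hP2i : (0 : ℝ) ≤ (P : ℝ) ^ (2 * i) := by positivity
    have e1 : (P : ℝ) ^ (2 * i) * ((P : ℝ) ^ (K / 2) * (P : ℝ) ^ (K / 2)) =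
        (P : ℝ) ^ (2 * i + K) := by
      rw [← pow_add, ← pow_add]
      congr 2
      have := Nat.div_mul_cancel hKe.two_dvd
      omega
    have e2 : (P : ℝ) ^ (2 * i) * (P : ℝ) ^ (m * i) = (P : ℝ) ^ ((2 + m) * i) := by
      rw [← pow_add]
      congr 1
      ring
    have s1 : Real.sqrt X * (1 + Real.log V) ≤
        2 ^ (K / 2) * (P : ℝ) ^ (K / 2) * ((1 + 16 * c) * p16) :=
      mul_le_mul hsq hlog hlog0 (by positivity)
    calc ((QS m X P i).ncard : ℝ) * (P : ℝ) ^ (K / 2)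
        ≤ 56 * T * (P : ℝ) ^ (2 * i) * (Real.sqrt X * (1 + Real.log V) + V) *
          (P : ℝ) ^ (K / 2) := mul_le_mul_of_nonneg_right hmain hPK.le
      _ = 56 * T * ((P : ℝ) ^ (2 * i) * (P : ℝ) ^ (K / 2) * (Real.sqrt X * (1 + Real.log V))) +
          56 * T * ((P : ℝ) ^ (2 * i) * ((V : ℝ) * (P : ℝ) ^ (K / 2))) := by ring
      _ ≤ 56 * p16 * ((P : ℝ) ^ (2 * i) * (P : ℝ) ^ (K / 2) *
            (2 ^ (K / 2) * (P : ℝ) ^ (K / 2) * ((1 + 16 * c) * p16))) +
          56 * p16 * ((P : ℝ) ^ (2 * i) * (3 * (P : ℝ) ^ (m * i))) := by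
          have hs0 : 0 ≤ Real.sqrt X * (1 + Real.log V) :=
            mul_nonneg (Real.sqrt_nonneg _) hlog0
          refine add_le_add ?_ ?_
          · refine mul_le_mul (by linarith) (mul_le_mul_of_nonneg_left s1 (by positivity))
              (by positivity) (by positivity)
          · refine mul_le_mul (by linarith) (mul_le_mul_of_nonneg_left hVP (by positivity))
              (by positivity) (by positivity)
      _ = 56 * 2 ^ (K / 2) * (1 + 16 * c) * (p16 * p16) *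
            ((P : ℝ) ^ (2 * i) * ((P : ℝ) ^ (K / 2) * (P : ℝ) ^ (K / 2))) +
          168 * p16 * ((P : ℝ) ^ (2 * i) * (P : ℝ) ^ (m * i)) := by ring
      _ = 56 * 2 ^ (K / 2) * (1 + 16 * c) * (p16 * p16) * (P : ℝ) ^ (2 * i + K) +
          168 * p16 * (P : ℝ) ^ ((2 + m) * i) := by rw [e1, e2]
      _ ≤ (56 * 2 ^ (K / 2) * (1 + 16 * c) + 168) * (P : ℝ) ^ ((1 : ℝ) / 8) *
          ((P : ℝ) ^ (2 * i + K) + (P : ℝ) ^ ((2 + m) * i)) := by
          rw [hp8]
          have a0 : (0 : ℝ) ≤ (P : ℝ) ^ (2 * i + K) := by positivity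
          have b0 : (0 : ℝ) ≤ (P : ℝ) ^ ((2 + m) * i) := by positivity
          have c0 : (0 : ℝ) ≤ 56 * 2 ^ (K / 2) * (1 + 16 * c) := by positivity
          have d0 : p16 ≤ p16 * p16 := by nlinarith
          have d1 : 0 ≤ p16 * p16 := by positivity
          have t1 : 168 * p16 * (P : ℝ) ^ ((2 + m) * i) ≤
              168 * (p16 * p16) * (P : ℝ) ^ ((2 + m) * i) :=
            mul_le_mul_of_nonneg_right (by linarith) b0
          have t2 : 0 ≤ 56 * 2 ^ (K / 2) * (1 + 16 * c) * (p16 * p16) *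
              (P : ℝ) ^ ((2 + m) * i) := by positivity
          have t3 : 0 ≤ 168 * (p16 * p16) * (P : ℝ) ^ (2 * i + K) := by positivity
          nlinarith [t1, t2, t3]

end Pool.Agent.Work.MP_e0c7e8_nt.AV
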