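import Pool.Agent.Work.MP_e0c7e8_nt.AV.RankL

/-!
# Step (R1) of note 4539 in pure form: the vectors are parallel
-/

set_option autoImplicit false

namespace Pool.Agent.Work.MP_e0c7e8_nt.AV.ParL

open Finset Matrix

/-- The minors of a matrix which has rank one modulo `m`, with unit column factors. -/
theorem pow_dvd_det {R : ℕ} (hR : 1 ≤ R) (m : ℕ) (A : Fin R → Fin R → ℤ)
    (a b : Fin R → ZMod m) (hb : ∀ u, IsUnit (b u))
    (hA : ∀ t u, ((A t u : ℤ) : ZMod m) = a t * b u) :
    ((m ^ (R - 1) : ℕ) : ℤ) ∣ (Matrix.of A).det := by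
  classical
  let z : Fin R := ⟨0, hR⟩
  have hc : ∀ u : Fin R, ∃ c : ℤ, (c : ZMod m) * b z = b u := by
    intro u
    obtain ⟨e, he⟩ := hb z
    obtain ⟨c, hc⟩ := ZMod.intCast_surjective (b u * ((e⁻¹ : (ZMod m)ˣ) : ZMod m))
    refine ⟨c, ?_⟩
    rw [hc, ← he, mul_assoc, Units.inv_mul, mul_one]
  choose c hc using hc
  have hE : ∀ u t : Fin R, ∃ E : ℤ, A t u - c u * A t z = m * E := by
    intro u t
    have : ((A t u - c u * A t z : ℤ) : ZMod m) = 0 := by
      push_cast
      rw [hA, hA, ← hc u]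
      ring
    exact (ZMod.intCast_zmod_eq_zero_iff_dvd _ m).mp this
  choose E hE using hE
  let v : Fin R → ℤ := fun u => if u = z then 1 else m
  let E' : Matrix (Fin R) (Fin R) ℤ := Matrix.of fun u t => if u = z then A t z else E u t
  let B : Matrix (Fin R) (Fin R) ℤ := Matrix.of fun u t => v u * E' u t
  have h1 : (Matrix.of A)ᵀ.det = B.det := by
    apply Matrix.det_eq_of_forall_row_eq_smul_add_const (fun u => if u = z then 0 else c u) z
    · simp
    · intro u t
      have hz : B z t = A t z := by simp [B, v, E']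
      rw [hz, Matrix.transpose_apply, Matrix.of_apply]
      by_cases e : u = z
      · subst e; simp [hz]
      · have : B u t = m * E u t := by simp [B, v, E', e]
        rw [this, if_neg e, ← hE u t]
        ring
  rw [← Matrix.det_transpose, h1]
  have h2 : B.det = (∏ u, v u) * E'.det := Matrix.det_mul_column v E'
  have h3 : (∏ u, v u) = ((m ^ (R - 1) : ℕ) : ℤ) := by
    rw [Finset.prod_ite, Finset.prod_const_one, one_mul, Finset.prod_const, Finset.filter_ne',
      Finset.card_erase_of_mem (Finset.mem_univ _), Finset.card_univ, Fintype.card_fin]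
    push_cast
    rfl
  rw [h2, h3]
  exact Dvd.intro _ rfl

/-- Step (R1). -/
theorem parallel (k Y U w : ℕ) (hY : 1 ≤ Y) (hw : 1 ≤ w) (X : Finset (Fin k → ℤ))
    (g : Fin k → ZMod (w ^ 2))
    (hX : ∀ x ∈ X, (∀ j, |x j| ≤ U) ∧
      ∃ G : ZMod (w ^ 2), IsUnit G ∧ ∀ j, ((x j : ℤ) : ZMod (w ^ 2)) = g j * G)
    (hg : ∀ y : Fin k → ℤ, y ≠ 0 → (∀ j, |y j| ≤ Y) →
      ∑ j, ((y j : ℤ) : ZMod (w ^ 2)) * g j ≠ 0)
    (h1 : k * Y * U ≤ w ^ 2)
    (h2 : 9 ^ k * k.factorial * (k * Y * U) ^ 2 < (Y + 1) ^ k * X.card * w ^ 2) :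
    ∀ x ∈ X, ∀ x' ∈ X, ∀ i j, x i * x' j = x j * x' i := by
  classical
  by_contra hne
  push Not at hne
  obtain ⟨x₁, hx₁, x₂, hx₂, i₀, j₀, hne⟩ := hne
  let B : (Fin k → Fin (Y + 1)) → X → ℤ := fun y x => ∑ j, ((y j : ℕ) : ℤ) * x.1 j
  have hrow : Function.Injective B := by
    intro y y' h
    have h0 := congrFun h ⟨x₁, hx₁⟩
    simp only [B] at h0
    obtain ⟨-, G, hG, hxG⟩ := hX x₁ hx₁
    by_contra hyy
    apply hg (fun j => ((y j : ℕ) : ℤ) - ((y' j : ℕ) : ℤ))
    · intro h3
      apply hyy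
      funext j
      have := congrFun h3 j
      simp only [Pi.zero_apply] at this
      apply Fin.ext
      omega
    · intro j
      have e1 := (y j).2
      have e2 := (y' j).2
      rw [abs_le]
      constructor <;> omega
    · apply hG.mul_left_injective
      simp only [zero_mul]
      rw [Finset.sum_mul]
      have h4 : ∑ j, (((y j : ℕ) : ℤ) - ((y' j : ℕ) : ℤ)) * x₁ j = 0 := by
        rw [← sub_eq_zero.mpr h0, ← Finset.sum_sub_distrib]
        exact Finset.sum_congr rfl (fun j _ => by ring)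
      have h5 := congrArg (Int.cast : ℤ → ZMod (w ^ 2)) h4
      rw [Int.cast_sum, Int.cast_zero] at h5
      rw [← h5]
      apply Finset.sum_congr rfl
      intro j _
      rw [Int.cast_mul, hxG j]
      ring
  have hunit : ∀ (j : Fin k) (x : X), B (Pi.single j ⟨1, by omega⟩) x = x.1 j := by
    intro j x
    simp only [B]
    rw [Finset.sum_eq_single j]
    · simp
    · intro i _ hi
      rw [Pi.single_eq_of_ne hi]
      simp
    · intro h; exact absurd (Finset.mem_univ j) h
  have hcol : Function.Injective fun (x : X) (y : Fin k → Fin (Y + 1)) => B y x := by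
    intro x x' h
    apply Subtype.ext
    funext j
    rw [← hunit j x, ← hunit j x']
    exact congrFun h _
  have hM : ∀ y x, |B y x| ≤ ((k * Y * U : ℕ) : ℤ) := by
    intro y x
    calc |B y x| ≤ ∑ j, |((y j : ℕ) : ℤ) * x.1 j| := Finset.abs_sum_le_sum_abs _ _
      _ ≤ ∑ _j : Fin k, (Y : ℤ) * U := by
        apply Finset.sum_le_sum
        intro j _
        rw [abs_mul]
        have e1 : |((y j : ℕ) : ℤ)| ≤ Y := by
          rw [abs_of_nonneg (by positivity)]
          have := (y j).2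
          omega
        have e2 := (hX x.1 x.2).1 j
        gcongr
      _ = ((k * Y * U : ℕ) : ℤ) := by simp [mul_assoc]
  set R := Module.finrank ℤ (Submodule.span ℤ (Set.range B)) with hR
  -- the coordinate functions
  let e : Fin k → X → ℤ := fun j x => x.1 j
  have hRk : R ≤ k := by
    have hle : Submodule.span ℤ (Set.range B) ≤ Submodule.span ℤ (Set.range e) := by
      rw [Submodule.span_le]
      rintro _ ⟨y, rfl⟩
      have : B y = ∑ j, ((y j : ℕ) : ℤ) • e j := by
        funext x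
        simp [B, e, Finset.sum_apply]
      rw [this]
      exact Submodule.sum_mem _ (fun j _ => Submodule.smul_mem _ _
        (Submodule.subset_span ⟨j, rfl⟩))
    calc R ≤ Module.finrank ℤ (Submodule.span ℤ (Set.range e)) := Submodule.finrank_mono hle
      _ ≤ Fintype.card (Fin k) := finrank_range_le_card e
      _ = k := Fintype.card_fin k
  have hR2 : 2 ≤ R := by
    let r : Fin 2 → Submodule.span ℤ (Set.range B) := fun a =>
      ⟨e (if a = 0 then i₀ else j₀), Submodule.subset_span ⟨Pi.single (if a = 0 then i₀ else j₀)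
        ⟨1, by omega⟩, by funext x; exact hunit _ x⟩⟩
    have hr : LinearIndependent ℤ r := by
      apply LinearIndependent.of_comp (Submodule.span ℤ (Set.range B)).subtype
      rw [Fintype.linearIndependent_iff]
      intro c hc
      have h3 := congrFun hc ⟨x₁, hx₁⟩
      have h4 := congrFun hc ⟨x₂, hx₂⟩
      simp only [Function.comp_apply, Submodule.subtype_apply, Fin.sum_univ_two, r, Pi.add_apply,
        Pi.smul_apply, smul_eq_mul, Pi.zero_apply, e, if_true, one_ne_zero, if_false] at h3 h4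
      have h5 : c 0 * (x₁ i₀ * x₂ j₀ - x₁ j₀ * x₂ i₀) = 0 := by
        linear_combination x₂ j₀ * h3 - x₁ j₀ * h4
      have h6 : c 1 * (x₁ i₀ * x₂ j₀ - x₁ j₀ * x₂ i₀) = 0 := by
        linear_combination x₁ i₀ * h4 - x₂ i₀ * h3
      have hn : x₁ i₀ * x₂ j₀ - x₁ j₀ * x₂ i₀ ≠ 0 := sub_ne_zero.mpr hne
      intro a
      fin_cases a
      · exact (mul_eq_zero.mp h5).resolve_right hn
      · exact (mul_eq_zero.mp h6).resolve_right hn
    have := hr.fintype_card_le_finrank
    simpa using this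
  have hD : ∀ (f : Fin R → (Fin k → Fin (Y + 1))) (u : Fin R → X),
      (((w ^ 2) ^ (R - 1) : ℕ) : ℤ) ∣ (Matrix.of fun t => fun s => B (f t) (u s)).det := by
    intro f u
    have hG : ∀ s : Fin R, ∃ G : ZMod (w ^ 2), IsUnit G ∧
        ∀ j, (((u s).1 j : ℤ) : ZMod (w ^ 2)) = g j * G := fun s => (hX (u s).1 (u s).2).2
    choose G hG hGx using hG
    apply pow_dvd_det (by omega) (w ^ 2) (fun t s => B (f t) (u s))
      (fun t => ∑ j, (((f t j : ℕ) : ℤ) : ZMod (w ^ 2)) * g j) G hG
    intro t s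
    simp only [B]
    rw [Int.cast_sum, Finset.sum_mul]
    apply Finset.sum_congr rfl
    intro j _
    rw [Int.cast_mul, hGx s j]
    ring
  have hmain := RankL.rank_lemma B (k * Y * U) ((w ^ 2) ^ (R - 1)) R hrow hcol hM hR.symm hD
  rw [Fintype.card_fun, Fintype.card_fin, Fintype.card_fin, Fintype.card_coe] at hmain
  have e1 : (w ^ 2) ^ (R - 1) = w ^ 2 * (w ^ 2) ^ (R - 2) := by
    rw [← pow_succ']; congr 1; omega
  have e2 : (k * Y * U) ^ R ≤ (k * Y * U) ^ 2 * (w ^ 2) ^ (R - 2) := by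
    calc (k * Y * U) ^ R = (k * Y * U) ^ 2 * (k * Y * U) ^ (R - 2) := by
          rw [← pow_add]; congr 1; omega
      _ ≤ _ := by gcongr
  have hpos : 0 < (w ^ 2) ^ (R - 2) := by positivity
  have h3 : ((Y + 1) ^ k * X.card * w ^ 2) * (w ^ 2) ^ (R - 2) ≤
      (9 ^ k * k.factorial * (k * Y * U) ^ 2) * (w ^ 2) ^ (R - 2) := by
    calc ((Y + 1) ^ k * X.card * w ^ 2) * (w ^ 2) ^ (R - 2)
        = (Y + 1) ^ k * X.card * (w ^ 2) ^ (R - 1) := by rw [e1]; ring
      _ ≤ 9 ^ R * R.factorial * (k * Y * U) ^ R := hmain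
      _ ≤ 9 ^ k * k.factorial * ((k * Y * U) ^ 2 * (w ^ 2) ^ (R - 2)) := by
        have : R.factorial ≤ k.factorial := Nat.factorial_le hRk
        gcongr
        norm_num
      _ = _ := by ring
  have h4 := Nat.le_of_mul_le_mul_right h3 hpos
  omega

end Pool.Agent.Work.MP_e0c7e8_nt.AV.ParL
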