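import Pool.Agent.Work.MP_e0c7e8_nt.AV.Stmts
import Pool.Agent.Work.MP_e0c7e8_nt.AV.ParL

/-! Item R1 of block AV (helper10): all columns are parallel. -/

set_option autoImplicit false

namespace Pool.Agent.Work.MP_e0c7e8_nt.AV

open Finset

theorem R1_pf : S_R1 := by
  classical
  intro k w U Y V γ C u g G hY hw hU hu hg h1 hV h2 c hc c' hc' j j'
  let X : Finset (Fin k → ℤ) := C.image fun c j => u j c
  have hX : ∀ x ∈ X, (∀ j, |x j| ≤ (U : ℤ)) ∧
      ∃ G' : ZMod (w ^ 2), IsUnit G' ∧ ∀ j, ((x j : ℤ) : ZMod (w ^ 2)) = g j * G' := by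
    intro x hx
    obtain ⟨c, hc, rfl⟩ := Finset.mem_image.mp hx
    exact ⟨fun j => hU j c hc, (G c : ZMod (w ^ 2)), (G c).isUnit, fun j => hu j c hc⟩
  have h3 : 9 ^ k * k.factorial * (k * Y * U) ^ 2 < (Y + 1) ^ k * X.card * w ^ 2 := by
    refine h2.trans_le ?_
    gcongr
  have h := ParL.parallel k Y U w hY hw X g hX hg h1 h3 (fun j => u j c)
    (Finset.mem_image_of_mem _ hc) (fun j => u j c') (Finset.mem_image_of_mem _ hc') j j'
  rw [h]
  ring

end Pool.Agent.Work.MP_e0c7e8_nt.AV
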