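import Pool.Agent.Work.MP_e0c7e8_nt.AV.Stmts
import Pool.Agent.Work.MP_e0c7e8_nt.SM.ItemC1b

/-!
# MP_e0c7e8_nt, block AV, item RT1 (helper90)
The number of square roots of one in the units modulo `w ^ 2`.
-/

set_option autoImplicit false

namespace Pool.Agent.Work.MP_e0c7e8_nt.AV

open Finset

namespace I_RT1

lemma FF_four (n : ℤ) : SM.FF 4 n = n ^ 2 + 4 * n + 3 := by
  unfold SM.FF
  norm_num

lemma card_le_wt (w : ℕ) (hw : 1 ≤ w) :
    Nat.card {x : (ZMod (w ^ 2))ˣ // x ^ 2 = 1} ≤ SM.wt 4 (w ^ 2) := by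
  haveI : NeZero (w ^ 2) := ⟨by positivity⟩
  have hmem : ∀ x : {x : (ZMod (w ^ 2))ˣ // x ^ 2 = 1},
      ((x.1 : ZMod (w ^ 2)) - 2).val ∈
        (range (w ^ 2)).filter (fun n : ℕ => ((w ^ 2 : ℕ) : ℤ) ∣ SM.FF 4 n) := by
    intro x
    refine Finset.mem_filter.2 ⟨Finset.mem_range.2 (ZMod.val_lt _), ?_⟩
    rw [← ZMod.intCast_zmod_eq_zero_iff_dvd, FF_four]
    push_cast
    rw [ZMod.natCast_zmod_val]
    have h1 : ((x.1 : ZMod (w ^ 2))) ^ 2 = 1 := by
      have h2 := x.2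
      have h3 := congrArg (fun u : (ZMod (w ^ 2))ˣ => (u : ZMod (w ^ 2))) h2
      simpa using h3
    linear_combination h1
  have hinj : Function.Injective (fun x : {x : (ZMod (w ^ 2))ˣ // x ^ 2 = 1} =>
      (⟨((x.1 : ZMod (w ^ 2)) - 2).val, hmem x⟩ :
        {n // n ∈ (range (w ^ 2)).filter (fun n : ℕ => ((w ^ 2 : ℕ) : ℤ) ∣ SM.FF 4 n)})) := by
    intro x y hxy
    have h1 := congrArg Subtype.val hxy
    have h2 := ZMod.val_injective _ h1
    have h3 : (x.1 : ZMod (w ^ 2)) = y.1 := by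
      have := congrArg (fun z => z + 2) h2
      simpa using this
    exact Subtype.ext (Units.ext h3)
  refine (Nat.card_le_card_of_injective _ hinj).trans ?_
  rw [Nat.card_eq_fintype_card, Fintype.card_coe]
  exact le_rfl

end I_RT1

theorem RT1_pf : S_RT1 := by
  intro w hw
  have h1 := I_RT1.card_le_wt w hw
  have h2 := SM.claimC1b 4 (by norm_num) (Or.inl (by norm_num)) (w ^ 2)
    (Nat.one_le_pow _ _ hw)
  have h3 : ∑ s ∈ (w ^ 2).divisors.filter
      (fun s : ℕ => s ^ 2 ∣ w ^ 2 ∧ ((s : ℤ) ^ 2 ∣ (4 : ℤ))), s ≤ 3 := by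
    have hsub : (w ^ 2).divisors.filter
        (fun s : ℕ => s ^ 2 ∣ w ^ 2 ∧ ((s : ℤ) ^ 2 ∣ (4 : ℤ))) ⊆ ({1, 2} : Finset ℕ) := by
      intro s hs
      obtain ⟨h4, h5, h6⟩ := Finset.mem_filter.1 hs
      have h7 : s ^ 2 ∣ 4 := by exact_mod_cast h6
      have h8 : s ^ 2 ≤ 4 := Nat.le_of_dvd (by norm_num) h7
      have h9 : s ≤ 2 := by nlinarith
      have h10 : s ≠ 0 := by
        rintro rfl
        norm_num at h7
      have h11 : s = 1 ∨ s = 2 := by omega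
      simpa using h11
    refine (Finset.sum_le_sum_of_subset hsub).trans ?_
    simp
  have h5 : (w ^ 2).primeFactors = w.primeFactors := Nat.primeFactors_pow _ two_ne_zero
  rw [h5] at h2
  calc Nat.card {x : (ZMod (w ^ 2))ˣ // x ^ 2 = 1} ≤ SM.wt 4 (w ^ 2) := h1
    _ ≤ _ := h2
    _ ≤ 4 * 2 ^ w.primeFactors.card * 3 := Nat.mul_le_mul_left _ h3
    _ ≤ 28 * 2 ^ w.primeFactors.card := by
      have : 0 < 2 ^ w.primeFactors.card := by positivity
      nlinarith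

end Pool.Agent.Work.MP_e0c7e8_nt.AV
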