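import Pool.Agent.Work.MP_e0c7e8_nt.AV.StmtsI
import Pool.Agent.Work.MP_e0c7e8_nt.SM.ItemC1b

/-!
# Block AV, item RT2 (helper85): the number of roots of `4 n^m` modulo `v^2`
-/

set_option autoImplicit false

namespace Pool.Agent.Work.MP_e0c7e8_nt.AV

open Finset Pool.Agent.Work.MP_e0c7e8_nt.SM Pool.Agent.Work.MP_e0c7e8_nt.BG

namespace I_RT2

/-- Injection of the square roots of `D` into the roots of `F`. -/
theorem R_le_wt (d D c : ℤ) (q : ℕ) (hq : 0 < q) (h : ∀ x : ℤ, FF d x = (x + c) ^ 2 - D) :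
    ItemC1b.R D q ≤ SM.wt d q := by
  have hq' : (0 : ℤ) < (q : ℤ) := by exact_mod_cast hq
  unfold SM.wt ItemC1b.R
  have hmod : ∀ n : ℤ, (q : ℤ) ∣ n - (((n % q).toNat : ℕ) : ℤ) := by
    intro n
    rw [Int.toNat_of_nonneg (Int.emod_nonneg _ hq'.ne')]
    exact Int.dvd_self_sub_emod
  refine Finset.card_le_card_of_injOn (fun n : ℕ => (((n : ℤ) - c) % q).toNat) ?_ ?_
  · intro n hn
    obtain ⟨_, hn2⟩ := Finset.mem_filter.1 (Finset.mem_coe.1 hn)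
    rw [Finset.mem_coe, Finset.mem_filter, Finset.mem_range]
    constructor
    · have h1 := Int.emod_lt_of_pos ((n : ℤ) - c) hq'
      have h0 := Int.emod_nonneg ((n : ℤ) - c) hq'.ne'
      change (((n : ℤ) - c) % q).toNat < q
      omega
    · have h2 := hmod ((n : ℤ) - c)
      have e : FF d (((((n : ℤ) - c) % q).toNat : ℕ) : ℤ) = ((n : ℤ) ^ 2 - D) -
        (((n : ℤ) - c) - (((((n : ℤ) - c) % q).toNat : ℕ) : ℤ)) *
          (((n : ℤ) + c) + (((((n : ℤ) - c) % q).toNat : ℕ) : ℤ)) := by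
        rw [h]
        ring
      rw [e]
      exact dvd_sub hn2 (Dvd.dvd.mul_right h2 _)
  · intro n hn m hm hnm
    have hn1 := Finset.mem_range.1 (Finset.mem_filter.1 (Finset.mem_coe.1 hn)).1
    have hm1 := Finset.mem_range.1 (Finset.mem_filter.1 (Finset.mem_coe.1 hm)).1
    have h1 := hmod ((n : ℤ) - c)
    have h2 := hmod ((m : ℤ) - c)
    have hnm' : (((((n : ℤ) - c) % q).toNat : ℕ) : ℤ) = (((((m : ℤ) - c) % q).toNat : ℕ) : ℤ) := by
      exact_mod_cast hnm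
    rw [hnm'] at h1
    have h4 : (q : ℤ) ∣ (n : ℤ) - m := by
      have h3 := dvd_sub h1 h2
      have e : (n : ℤ) - c - (((((m : ℤ) - c) % q).toNat : ℕ) : ℤ) -
        ((m : ℤ) - c - (((((m : ℤ) - c) % q).toNat : ℕ) : ℤ)) = n - m := by ring
      rwa [e] at h3
    by_contra hne
    rcases Nat.lt_or_gt_of_ne hne with hl | hl
    · have h5 : (q : ℤ) ∣ (m : ℤ) - n := by
        rw [← dvd_neg]
        have e2 : -((m : ℤ) - n) = n - m := by ring
        rwa [e2]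
      have := Int.le_of_dvd (by omega) h5
      omega
    · have := Int.le_of_dvd (by omega) h4
      omega

end I_RT2

theorem RT2_pf : S_RT2 := by
  intro v n m hv hn hc
  have hv2 : 0 < v ^ 2 := by positivity
  have hd4 : ((16 : ℤ) * (n : ℤ) ^ m) % 4 = 0 := by omega
  have hFF : ∀ x : ℤ, FF (16 * (n : ℤ) ^ m) x = (x + 8 * (n : ℤ) ^ m) ^ 2 - 4 * (n : ℤ) ^ m := by
    intro x
    have h1 := ItemC1b.FF_four (16 * (n : ℤ) ^ m) x (Or.inl hd4)
    have h2 : (4 : ℤ) * FF (16 * (n : ℤ) ^ m) x =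
        4 * ((x + 8 * (n : ℤ) ^ m) ^ 2 - 4 * (n : ℤ) ^ m) := by
      rw [h1]
      ring
    linarith
  have h1 := I_RT2.R_le_wt _ _ _ (v ^ 2) hv2 hFF
  obtain ⟨s, hs1, hs2, hs3⟩ := ItemC1b.main (16 * (n : ℤ) ^ m) (Or.inl hd4) (v ^ 2) hv2
  have hsv : s ∣ v := (Nat.pow_dvd_pow_iff (by norm_num)).1 hs1
  have hsn : Nat.Coprime (s ^ 2) (n ^ m) :=
    Nat.Coprime.pow _ _ (Nat.Coprime.coprime_dvd_left hsv hc.symm)
  have hs16 : s ^ 2 ∣ 16 := by
    have h2 : s ^ 2 ∣ 16 * n ^ m := by exact_mod_cast hs2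
    exact hsn.dvd_of_dvd_mul_right h2
  have hs4 : s ≤ 4 := by
    have := Nat.le_of_dvd (by norm_num) hs16
    nlinarith
  have h2 : (if 2 ∣ v ^ 2 then 2 else 1) ≤ 2 := by split_ifs <;> norm_num
  rw [Nat.primeFactors_pow v (by norm_num)] at hs3
  have h3 : ((range (v ^ 2)).filter fun u : ℕ => (v : ℤ) ^ 2 ∣ (u : ℤ) ^ 2 - 4 * (n : ℤ) ^ m).card ≤
      ItemC1b.R (4 * (n : ℤ) ^ m) (v ^ 2) := by
    refine Finset.card_le_card fun u hu => ?_
    obtain ⟨hu1, hu2⟩ := Finset.mem_filter.1 hu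
    refine Finset.mem_filter.2 ⟨hu1, ?_⟩
    rw [Nat.cast_pow]
    exact hu2
  refine h3.trans ?_
  calc ItemC1b.R (4 * (n : ℤ) ^ m) (v ^ 2) ≤ SM.wt (16 * (n : ℤ) ^ m) (v ^ 2) := h1
    _ ≤ (if 2 ∣ v ^ 2 then 2 else 1) * 2 ^ v.primeFactors.card * s := hs3
    _ ≤ 2 * 2 ^ v.primeFactors.card * 4 := by gcongr
    _ ≤ 28 * 2 ^ v.primeFactors.card := by
        have : 0 ≤ 2 ^ v.primeFactors.card := Nat.zero_le _
        omega

end Pool.Agent.Work.MP_e0c7e8_nt.AV
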