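import Pool.Agent.Work.MP_e0c7e8_nt.AV.StmtsI

/-!
# MP_e0c7e8_nt, block AV: item SLS
-/

set_option autoImplicit false

namespace Pool.Agent.Work.MP_e0c7e8_nt.AV

open Finset Pool.Agent.Work.MP_e0c7e8_nt.SM Pool.Agent.Work.MP_e0c7e8_nt.BG

namespace I_SLS

theorem sp_sub (d : ℤ) (P : ℕ) : Sp d P ⊆ Pr P := by
  intro p hp
  simp only [Sp, Pr, Finset.mem_filter] at hp ⊢
  refine ⟨hp.1, hp.2.1, ?_⟩
  by_contra h
  have h2 := hp.2.2
  simp [chi, h] at h2

end I_SLS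

theorem SLS_pf : S_SLS := by
  classical
  intro m P i X Ds c hm hi hX hD hfin
  have key : ∀ d ∈ Ds, ∀ x ∈ DPR (c d) m i (Sp d P), ∃ (u : ℤ) (v : ℕ), 1 ≤ v ∧
      (∀ p ∈ x.1 ∪ x.2, ¬ p ∣ v) ∧
      u ^ 2 + (d.natAbs : ℤ) * (v : ℤ) ^ 2 =
        4 * ((∏ p ∈ x.1, (p : ℤ)) * ∏ p ∈ x.2, (p : ℤ)) ^ m := by
    intro d hd x hx
    obtain ⟨-, -, -, -, hcl⟩ := hD d hd
    simp only [DPR, PRS, Finset.mem_filter, Finset.mem_product] at hx
    obtain ⟨⟨⟨h1, h2⟩, h3⟩, h4⟩ := hx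
    rw [Finset.mem_powersetCard] at h1 h2
    refine hcl x.1 x.2 m ?_ h4 ?_ hm h3
    · intro p hp
      have hs : p ∈ Sp d P := by
        rcases Finset.mem_union.mp hp with h | h
        · exact h1.1 h
        · exact h2.1 h
      simp only [Sp, Finset.mem_filter] at hs
      exact hs.2
    · have hc : 0 < x.1.card := by omega
      exact (Finset.card_pos.mp hc).mono Finset.subset_union_left
  choose! u v hv hcop heq using key
  rw [← Finset.card_sigma, ← Set.ncard_coe_finset]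
  refine Set.ncard_le_ncard_of_injOn
    (fun y : (_ : ℤ) × (Finset ℕ × Finset ℕ) => (y.2.1, y.2.2, u y.1 y.2, v y.1 y.2)) ?_ ?_ hfin
  · rintro ⟨d, x⟩ hy
    rw [Finset.mem_coe, Finset.mem_sigma] at hy
    obtain ⟨hd, hx⟩ := hy
    simp only at hd hx
    obtain ⟨-, -, hX1, hX2, -⟩ := hD d hd
    have hx' := hx
    simp only [DPR, PRS, Finset.mem_filter, Finset.mem_product] at hx'
    obtain ⟨⟨⟨h1, h2⟩, h3⟩, h4⟩ := hx'
    have hcast : ((d.natAbs : ℕ) : ℝ) = |(d : ℝ)| := by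
      rw [Nat.cast_natAbs, Int.cast_abs]
    refine ⟨Finset.powersetCard_mono (I_SLS.sp_sub d P) h1,
      Finset.powersetCard_mono (I_SLS.sp_sub d P) h2, h4, hv d hd x hx, hcop d hd x hx,
      d.natAbs, ?_, ?_, heq d hd x hx⟩
    · rw [hcast]
      exact hX1
    · rw [hcast]
      exact hX2
  · rintro ⟨d, x⟩ hy ⟨d', x'⟩ hy' hf
    rw [Finset.mem_coe, Finset.mem_sigma] at hy hy'
    obtain ⟨hd, hx⟩ := hy
    obtain ⟨hd', hx'⟩ := hy'
    simp only at hd hx hd' hx'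
    simp only [Prod.mk.injEq] at hf
    obtain ⟨f1, f2, f3, f4⟩ := hf
    have hxx : x = x' := Prod.ext f1 f2
    subst hxx
    have e1 := heq d hd x hx
    have e2 := heq d' hd' x hx'
    have hv1 := hv d hd x hx
    rw [← f3, ← f4] at e2
    have e3 : (d.natAbs : ℤ) * (v d x : ℤ) ^ 2 = (d'.natAbs : ℤ) * (v d x : ℤ) ^ 2 := by
      linarith
    have hpos : (v d x : ℤ) ^ 2 ≠ 0 := by positivity
    have e4 := mul_right_cancel₀ hpos e3
    have n1 := (hD d hd).1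
    have n2 := (hD d' hd').1
    have e5 : d = d' := by omega
    subst e5
    rfl

end Pool.Agent.Work.MP_e0c7e8_nt.AV
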