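import Pool.Agent.Work.MP_e0c7e8_nt.AV.StmtsI

/-! Item SQC of the block AV: square classes. Author: helper7. -/

set_option autoImplicit false

namespace Pool.Agent.Work.MP_e0c7e8_nt.AV

open Finset Pool.Agent.Work.MP_e0c7e8_nt.SM Pool.Agent.Work.MP_e0c7e8_nt.BG

namespace I_SQC

theorem eq_of_sq {a b c : ℕ} (ha : Squarefree a) (hb : Squarefree b) (h : a * b = c ^ 2) :
    a = b := by
  have key : ∀ a b : ℕ, Squarefree a → a * b = c ^ 2 → a ∣ b := by
    intro a b ha h
    have ha0 : 0 < a := Nat.pos_of_ne_zero ha.ne_zero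
    have h1 : a ∣ c ^ 2 := ⟨b, h.symm⟩
    have h2 : a ∣ c := (ha.dvd_pow_iff_dvd two_ne_zero).1 h1
    obtain ⟨t, rfl⟩ := h2
    refine ⟨t ^ 2, ?_⟩
    have h3 : a * b = a * (a * t ^ 2) := by rw [h]; ring
    exact Nat.eq_of_mul_eq_mul_left ha0 h3
  exact Nat.dvd_antisymm (key a b ha h) (key b a hb (by rw [mul_comm]; exact h))

end I_SQC

open I_SQC in
theorem SQC_pf : S_SQC := by
  intro J X S hX hS hJ
  classical
  have hex : ∀ n : ℤ, ∃ a b : ℕ, b ^ 2 * a = n.natAbs ∧ Squarefree a := fun n =>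
    Nat.sq_mul_squarefree n.natAbs
  choose f r hfr hf using hex
  -- representatives
  have hrep : ∀ a ∈ S.image f, ∃ d ∈ S, f d = a := fun a ha => mem_image.1 ha
  choose! g hgS hgf using hrep
  have hginj : Set.InjOn g (S.image f : Set ℕ) := by
    intro a ha b hb hab
    rw [← hgf a ha, ← hgf b hb, hab]
  set S' : Finset ℤ := (S.image f).image g with hS'
  have hS'S : S' ⊆ S := by
    intro d hd
    obtain ⟨a, ha, rfl⟩ := mem_image.1 hd
    exact hgS a ha
  have hcard : S'.card = (S.image f).card := card_image_of_injOn hginj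
  have hNS : NSq S' := by
    intro d hd e he hde hsq
    obtain ⟨a, ha, rfl⟩ := mem_image.1 hd
    obtain ⟨b, hb, rfl⟩ := mem_image.1 he
    have hab : a ≠ b := fun h => hde (by rw [h])
    obtain ⟨c, hc⟩ := hsq
    have h1 : (g a).natAbs * (g b).natAbs = c.natAbs ^ 2 := by
      rw [← Int.natAbs_mul, hc, Int.natAbs_mul, sq]
    rw [← hfr (g a), ← hfr (g b), hgf a ha, hgf b hb] at h1
    have hd0 : (g a).natAbs ≠ 0 := by
      have := (hS _ (hgS a ha)).1
      omega
    have he0 : (g b).natAbs ≠ 0 := by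
      have := (hS _ (hgS b hb)).1
      omega
    have hr1 : 0 < r (g a) := by
      rcases Nat.eq_zero_or_pos (r (g a)) with h | h
      · exact absurd (by rw [← hfr (g a), h]; simp) hd0
      · exact h
    have hr2 : 0 < r (g b) := by
      rcases Nat.eq_zero_or_pos (r (g b)) with h | h
      · exact absurd (by rw [← hfr (g b), h]; simp) he0
      · exact h
    have h2 : (r (g a) * r (g b)) ^ 2 * (a * b) = c.natAbs ^ 2 := by rw [← h1]; ring
    have h3 : r (g a) * r (g b) ∣ c.natAbs :=
      (Nat.pow_dvd_pow_iff two_ne_zero).1 ⟨a * b, h2.symm⟩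
    obtain ⟨t, ht⟩ := h3
    have h4 : a * b = t ^ 2 := by
      have hpos : 0 < (r (g a) * r (g b)) ^ 2 := by positivity
      refine Nat.eq_of_mul_eq_mul_left hpos ?_
      rw [h2, ht]
      ring
    have hfa : Squarefree a := by
      have := hf (g a)
      rwa [hgf a ha] at this
    have hfb : Squarefree b := by
      have := hf (g b)
      rwa [hgf b hb] at this
    exact hab (eq_of_sq hfa hfb h4)
  have hF : (S.image f).card ≤ J := by
    rw [← hcard]
    exact hJ S' hS'S hNS
  -- fibres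
  have hfib : ∀ a ∈ S.image f, (S.filter fun d => f d = a).card ≤ ⌊Real.sqrt X⌋₊ := by
    intro a _
    have h1 : (S.filter fun d => f d = a).card ≤ (Icc 1 ⌊Real.sqrt X⌋₊).card := by
      refine card_le_card_of_injOn r ?_ ?_
      · intro d hd
        rw [mem_coe, mem_filter] at hd
        have hneg := (hS d hd.1).1
        have hle := (hS d hd.1).2
        have hd0 : d.natAbs ≠ 0 := by omega
        have hr0 : r d ≠ 0 := by
          intro h
          exact hd0 (by rw [← hfr d, h]; simp)
        have ha0 : 1 ≤ f d := Nat.pos_of_ne_zero (hf d).ne_zero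
        rw [mem_coe, mem_Icc]
        refine ⟨Nat.pos_of_ne_zero hr0, Nat.le_floor ?_⟩
        refine Real.le_sqrt_of_sq_le ?_
        have h5 : ((r d : ℝ)) ^ 2 ≤ (d.natAbs : ℝ) := by
          have h6 : r d ^ 2 ≤ d.natAbs := by
            calc r d ^ 2 = r d ^ 2 * 1 := (mul_one _).symm
              _ ≤ r d ^ 2 * f d := Nat.mul_le_mul_left _ ha0
              _ = d.natAbs := hfr d
          exact_mod_cast h6
        refine h5.trans ?_
        have h7 : (d.natAbs : ℝ) = |(d : ℝ)| := by
          rw [Nat.cast_natAbs, Int.cast_abs]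
        rw [h7]
        exact hle
      · intro d hd e he hde
        rw [mem_coe, mem_filter] at hd he
        have h1 : d.natAbs = e.natAbs := by
          rw [← hfr d, ← hfr e, hde, hd.2, he.2]
        have h2 := (hS d hd.1).1
        have h3 := (hS e he.1).1
        omega
    rwa [Nat.card_Icc, Nat.add_sub_cancel] at h1
  have htot : S.card ≤ J * ⌊Real.sqrt X⌋₊ := by
    calc S.card = ∑ a ∈ S.image f, (S.filter fun d => f d = a).card :=
          card_eq_sum_card_image f S
      _ ≤ ∑ _a ∈ S.image f, ⌊Real.sqrt X⌋₊ := sum_le_sum hfib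
      _ = (S.image f).card * ⌊Real.sqrt X⌋₊ := by rw [sum_const, smul_eq_mul]
      _ ≤ J * ⌊Real.sqrt X⌋₊ := Nat.mul_le_mul_right _ hF
  calc (S.card : ℝ) ≤ ((J * ⌊Real.sqrt X⌋₊ : ℕ) : ℝ) := by exact_mod_cast htot
    _ = (J : ℝ) * (⌊Real.sqrt X⌋₊ : ℝ) := by push_cast; ring
    _ ≤ (J : ℝ) * Real.sqrt X := by
        refine mul_le_mul_of_nonneg_left (Nat.floor_le (Real.sqrt_nonneg X)) ?_
        positivity

end Pool.Agent.Work.MP_e0c7e8_nt.AV
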