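import Pool.Agent.Work.MP_e0c7e8_nt.AV.StmtsI

/-!
# Item TRV: solutions with small `v`
-/

set_option autoImplicit false

namespace Pool.Agent.Work.MP_e0c7e8_nt.AV

open Finset Pool.Agent.Work.MP_e0c7e8_nt.SM Pool.Agent.Work.MP_e0c7e8_nt.BG

namespace I_TRV

theorem card_Pr (P : ℕ) : (Pr P).card ≤ P := by
  unfold Pr
  exact (card_filter_le _ _).trans (by simp)

theorem card_pow (P i : ℕ) : (powersetCard i (Pr P)).card ≤ P ^ i := by
  rw [card_powersetCard]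
  exact (Nat.choose_le_pow _ _).trans (Nat.pow_le_pow_left (card_Pr P) i)

theorem prime_mem {A : Finset ℕ} {P i : ℕ} (hA : A ∈ powersetCard i (Pr P)) {p : ℕ} (hp : p ∈ A) :
    p.Prime := by
  have h := (mem_powersetCard.1 hA).1 hp
  unfold Pr at h
  exact (mem_filter.1 h).2.1

theorem cop_one {A : Finset ℕ} {P i v : ℕ} (hA : A ∈ powersetCard i (Pr P))
    (h : ∀ p ∈ A, ¬ p ∣ v) : (∏ p ∈ A, p).Coprime v := by
  refine Nat.Coprime.prod_left fun p hp => ?_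
  exact ((prime_mem hA hp).coprime_iff_not_dvd).2 (h p hp)

theorem prod_pos_one {A : Finset ℕ} {P i : ℕ} (hA : A ∈ powersetCard i (Pr P)) :
    0 < ∏ p ∈ A, p :=
  Finset.prod_pos fun _ hp => (prime_mem hA hp).pos

/-- the harmonic sum -/
theorem harm (V : ℕ) : ∑ v ∈ Icc 1 V, ((v : ℝ))⁻¹ ≤ 1 + Real.log V := by
  have h := harmonic_le_one_add_log V
  rw [harmonic_eq_sum_Icc] at h
  push_cast at h
  exact h

theorem fibre (hN : S_NUU) {m P i V T : ℕ} {X : ℝ} (hX : 1 ≤ X)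
    (hT : ∀ v : ℕ, 1 ≤ v → v ≤ V → 2 ^ v.primeFactors.card ≤ T)
    (F : Finset (Finset ℕ × Finset ℕ × ℤ × ℕ)) (hF : ∀ x ∈ F, x ∈ QS m X P i ∧ x.2.2.2 ≤ V)
    (A B : Finset ℕ) (v : ℕ) :
    ((F.filter fun x => ((x.1, x.2.1), x.2.2.2) = ((A, B), v)).card : ℝ) ≤
      56 * T * (Real.sqrt X * (v : ℝ)⁻¹ + 1) := by
  rcases (F.filter fun x => ((x.1, x.2.1), x.2.2.2) = ((A, B), v)).eq_empty_or_nonempty with he | hne
  · rw [he]
    simp only [card_empty, Nat.cast_zero]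
    positivity
  · obtain ⟨x, hx⟩ := hne
    rw [mem_filter] at hx
    obtain ⟨hxF, hxe⟩ := hx
    obtain ⟨hxQ, hxV⟩ := hF x hxF
    simp only [Prod.mk.injEq] at hxe
    obtain ⟨⟨h1, h2⟩, h3⟩ := hxe
    obtain ⟨hA, hB, hdis, hsol⟩ := hxQ
    rw [h1] at hA hdis hsol
    rw [h2] at hB hdis hsol
    rw [h3] at hsol hxV
    have hcop : ((∏ p ∈ A, p) * ∏ p ∈ B, p).Coprime v := by
      refine Nat.Coprime.mul_left ?_ ?_
      · exact cop_one hA fun p hp => hsol.cop p (mem_union_left _ hp)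
      · exact cop_one hB fun p hp => hsol.cop p (mem_union_right _ hp)
    have hn1 : 1 ≤ (∏ p ∈ A, p) * ∏ p ∈ B, p :=
      Nat.mul_pos (prod_pos_one hA) (prod_pos_one hB)
    obtain ⟨hUf, hUc⟩ := hN ((∏ p ∈ A, p) * ∏ p ∈ B, p) v m X hn1 hsol.pos hcop (by linarith)
    set U := {u : ℤ | ∃ D : ℕ, X / 2 < (D : ℝ) ∧ (D : ℝ) ≤ X ∧
      u ^ 2 + (D : ℤ) * (v : ℤ) ^ 2 = 4 * (((∏ p ∈ A, p) * ∏ p ∈ B, p : ℕ) : ℤ) ^ m} with hU
    have hle : (F.filter fun x => ((x.1, x.2.1), x.2.2.2) = ((A, B), v)).card ≤ U.ncard := by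
      rw [Set.ncard_eq_toFinset_card U hUf]
      refine card_le_card_of_injOn (fun x => x.2.2.1) ?_ ?_
      · intro y hy
        rw [mem_coe, mem_filter] at hy
        obtain ⟨hyF, hye⟩ := hy
        simp only [Prod.mk.injEq] at hye
        obtain ⟨⟨g1, g2⟩, g3⟩ := hye
        obtain ⟨-, -, -, hs⟩ := (hF y hyF).1
        rw [g1, g2, g3] at hs
        rw [mem_coe, Set.Finite.mem_toFinset]
        obtain ⟨D, hD1, hD2, hD3⟩ := hs.eq
        refine ⟨D, hD1, hD2, ?_⟩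
        rw [hD3]
        push_cast
        rfl
      · intro y hy z hz hyz
        rw [mem_coe, mem_filter] at hy hz
        have e1 := hy.2
        have e2 := hz.2
        simp only [Prod.mk.injEq] at e1 e2
        obtain ⟨y1, y2, y3, y4⟩ := y
        obtain ⟨z1, z2, z3, z4⟩ := z
        simp only at e1 e2 hyz
        obtain ⟨⟨a1, a2⟩, a3⟩ := e1
        obtain ⟨⟨b1, b2⟩, b3⟩ := e2
        subst a1 a2 a3 b1 b2 b3 hyz
        rfl
    have hT' : ((2 ^ v.primeFactors.card : ℕ) : ℝ) ≤ T := by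
      exact_mod_cast hT v hsol.pos hxV
    calc ((F.filter fun x => ((x.1, x.2.1), x.2.2.2) = ((A, B), v)).card : ℝ)
        ≤ (U.ncard : ℝ) := by exact_mod_cast hle
      _ ≤ 56 * 2 ^ v.primeFactors.card * (Real.sqrt X / v + 1) := hUc
      _ ≤ 56 * T * (Real.sqrt X * (v : ℝ)⁻¹ + 1) := by
        rw [div_eq_mul_inv]
        push_cast at hT'
        have hp : 0 ≤ Real.sqrt X * (v : ℝ)⁻¹ + 1 := by positivity
        exact mul_le_mul_of_nonneg_right (by linarith) hp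

end I_TRV

open I_TRV in
theorem TRV_pf (hN : S_NUU) (hQ : S_QFN) : S_TRV := by
  intro m P i V T X hm hi hX hV hT
  have hX0 : 0 < X := by linarith
  obtain ⟨hfin, -⟩ := hQ m P i X hX0
  have hSf : {x ∈ QS m X P i | x.2.2.2 ≤ V}.Finite := hfin.subset (fun x hx => hx.1)
  rw [Set.ncard_eq_toFinset_card _ hSf]
  set F := hSf.toFinset with hFd
  have hF : ∀ x ∈ F, x ∈ QS m X P i ∧ x.2.2.2 ≤ V := by
    intro x hx
    rw [hFd, Set.Finite.mem_toFinset] at hx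
    exact hx
  have hmap : ∀ x ∈ F, ((x.1, x.2.1), x.2.2.2) ∈
      (powersetCard i (Pr P) ×ˢ powersetCard i (Pr P)) ×ˢ Icc 1 V := by
    intro x hx
    obtain ⟨⟨h1, h2, h3, h4⟩, h5⟩ := hF x hx
    simp only [mem_product, mem_Icc]
    exact ⟨⟨h1, h2⟩, h4.pos, h5⟩
  rw [card_eq_sum_card_fiberwise hmap]
  push_cast
  have hc : ((powersetCard i (Pr P)).card : ℝ) ≤ (P : ℝ) ^ i := by
    exact_mod_cast card_pow P i
  have hlog : 0 ≤ Real.log V := Real.log_natCast_nonneg V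
  have hsum : ∑ v ∈ Icc 1 V, (56 * (T : ℝ) * (Real.sqrt X * (v : ℝ)⁻¹ + 1)) ≤
      56 * T * (Real.sqrt X * (1 + Real.log V) + V) := by
    rw [← mul_sum, sum_add_distrib, ← mul_sum]
    have h2 := harm V
    have h3 : ∑ _v ∈ Icc 1 V, (1 : ℝ) = V := by simp
    rw [h3]
    have h4 : Real.sqrt X * ∑ v ∈ Icc 1 V, ((v : ℝ))⁻¹ ≤ Real.sqrt X * (1 + Real.log V) :=
      mul_le_mul_of_nonneg_left h2 (Real.sqrt_nonneg _)
    exact mul_le_mul_of_nonneg_left (by linarith) (by positivity)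
  calc _ ≤ ∑ y ∈ (powersetCard i (Pr P) ×ˢ powersetCard i (Pr P)) ×ˢ Icc 1 V,
        56 * (T : ℝ) * (Real.sqrt X * ((y.2 : ℕ) : ℝ)⁻¹ + 1) := by
        refine sum_le_sum fun y _ => ?_
        obtain ⟨⟨A, B⟩, v⟩ := y
        exact fibre hN hX hT F hF A B v
    _ = ((powersetCard i (Pr P)).card : ℝ) * ((powersetCard i (Pr P)).card : ℝ) *
        ∑ v ∈ Icc 1 V, (56 * (T : ℝ) * (Real.sqrt X * (v : ℝ)⁻¹ + 1)) := by
        rw [sum_product]
        simp only [sum_const, card_product, nsmul_eq_mul]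
        push_cast
        ring
    _ ≤ ((P : ℝ) ^ i * (P : ℝ) ^ i) * (56 * T * (Real.sqrt X * (1 + Real.log V) + V)) := by
        refine mul_le_mul ?_ hsum ?_ (by positivity)
        · exact mul_le_mul hc hc (by positivity) (by positivity)
        · exact sum_nonneg fun v _ => by positivity
    _ = 56 * T * (P : ℝ) ^ (2 * i) * (Real.sqrt X * (1 + Real.log V) + V) := by
        rw [← pow_add, two_mul]
        ring

end Pool.Agent.Work.MP_e0c7e8_nt.AV
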