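import Pool.Agent.Work.MP_e0c7e8_nt.AV.Stmts

/-!
# Item TYP of the block AV: roots that are products of four functions
-/

set_option autoImplicit false

namespace Pool.Agent.Work.MP_e0c7e8_nt.AV

open Finset

namespace I_TYP

/-- the index of the group of squares -/
lemma card_quot (G : Type) [CommGroup G] [Finite G] :
    Nat.card (G ⧸ (powMonoidHom 2 : G →* G).range) = Nat.card {x : G // x ^ 2 = 1} := by
  have h1 := Subgroup.card_mul_index (powMonoidHom 2 : G →* G).range
  have h2 := Subgroup.card_mul_index (powMonoidHom 2 : G →* G).ker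
  rw [Subgroup.index_ker] at h2
  have h3 : Nat.card {x : G // x ^ 2 = 1} = Nat.card (powMonoidHom 2 : G →* G).ker :=
    Nat.card_congr (Equiv.subtypeEquivRight (fun x => by simp [MonoidHom.mem_ker]))
  have h4 : 0 < Nat.card (powMonoidHom 2 : G →* G).range := Nat.card_pos
  rw [h3]
  change (powMonoidHom 2 : G →* G).range.index = _
  exact Nat.eq_of_mul_eq_mul_left h4 (by rw [h1, ← h2, mul_comm])

end I_TYP

open I_TYP in
theorem TYP_pf : S_TYP := by
  classical
  intro G α _ _ _ L hL H a l u hu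
  let S : Subgroup G := (powMonoidHom 2 : G →* G).range
  have hs : ∀ x : G, ∃ s : G, s ^ 2 = Quotient.out (QuotientGroup.mk x : G ⧸ S) * x := by
    intro x
    have h1 : (QuotientGroup.mk (Quotient.out (QuotientGroup.mk x : G ⧸ S)) : G ⧸ S) =
        QuotientGroup.mk x := QuotientGroup.out_eq' _
    rw [QuotientGroup.eq] at h1
    obtain ⟨y, hy⟩ := h1
    refine ⟨Quotient.out (QuotientGroup.mk x : G ⧸ S) * y, ?_⟩
    have h2 : y ^ 2 = (Quotient.out (QuotientGroup.mk x : G ⧸ S))⁻¹ * x := hy
    rw [mul_pow, h2, sq, mul_assoc, mul_inv_cancel_left]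
  choose s hs using hs
  let ka : (Fin 4 → α) → G := fun P => u P * (∏ i, s (a (P i)))⁻¹
  let cls : (Fin 4 → α) → Fin 4 → G ⧸ S := fun P i => QuotientGroup.mk (a (P i))
  have hka : ∀ P ∈ H, ka P ^ 2 = l * (∏ i, Quotient.out (cls P i))⁻¹ := by
    intro P hP
    have h1 : ka P ^ 2 = u P ^ 2 * (∏ i, s (a (P i)) ^ 2)⁻¹ := by
      simp only [ka]
      rw [mul_pow, inv_pow, Finset.prod_pow]
    have h2 : ∏ i, s (a (P i)) ^ 2 = (∏ i, Quotient.out (cls P i)) * ∏ i, a (P i) := by
      rw [← Finset.prod_mul_distrib]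
      exact Finset.prod_congr rfl (fun i _ => hs _)
    rw [h1, h2, hu P hP, mul_inv, mul_assoc]
    congr 1
    rw [mul_comm, mul_assoc, inv_mul_cancel, mul_one]
  let rep : (Fin 4 → G ⧸ S) → G := fun q =>
    if h : ∃ P ∈ H, cls P = q then ka h.choose else 1
  have hrep : ∀ P ∈ H, (ka P * (rep (cls P))⁻¹) ^ 2 = 1 := by
    intro P hP
    have h : ∃ P' ∈ H, cls P' = cls P := ⟨P, hP, rfl⟩
    have h1 : rep (cls P) = ka h.choose := dif_pos h
    have h2 := hka _ h.choose_spec.1
    rw [h.choose_spec.2] at h2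
    rw [mul_pow, inv_pow, h1, h2, hka P hP, mul_inv_cancel]
  have : Fintype G := Fintype.ofFinite G
  have : Fintype (G ⧸ S) := Fintype.ofFinite _
  let f : (Fin 4 → α) → (Fin 4 → G ⧸ S) × G := fun P => (cls P, ka P * (rep (cls P))⁻¹)
  let t : Finset ((Fin 4 → G ⧸ S) × G) := Finset.univ ×ˢ (Finset.univ.filter fun x : G => x ^ 2 = 1)
  have hf : ∀ P ∈ H, f P ∈ t := by
    intro P hP
    simp only [t, f, Finset.mem_product, Finset.mem_univ, true_and, Finset.mem_filter]
    exact hrep P hP
  have ht : t.Nonempty :=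
    ⟨(fun _ => QuotientGroup.mk 1, 1), by simp [t]⟩
  have hcard : t.card ≤ L ^ 5 := by
    have h1 : (Finset.univ.filter fun x : G => x ^ 2 = 1).card ≤ L := by
      rw [← Fintype.card_subtype, ← Nat.card_eq_fintype_card]
      exact hL
    have h2 : Fintype.card (G ⧸ S) ≤ L := by
      rw [← Nat.card_eq_fintype_card]
      exact (card_quot G).le.trans hL
    calc t.card = Fintype.card (G ⧸ S) ^ 4 *
          (Finset.univ.filter fun x : G => x ^ 2 = 1).card := by
          rw [Finset.card_product, Finset.card_univ, Fintype.card_pi_const]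
      _ ≤ L ^ 4 * L := Nat.mul_le_mul (Nat.pow_le_pow_left h2 4) h1
      _ = L ^ 5 := (pow_succ L 4).symm
  obtain ⟨y, hy, hmax⟩ := Finset.exists_max_image t (fun y => (H.filter fun P => f P = y).card) ht
  refine ⟨H.filter fun P => f P = y, Finset.filter_subset _ _, ?_, y.2 * rep y.1,
    fun i => Quotient.out (y.1 i), fun _ x => s (a x), ?_, ?_⟩
  · have h1 := Finset.card_le_mul_card_image_of_maps_to hf
      (H.filter fun P => f P = y).card hmax
    calc H.card ≤ (H.filter fun P => f P = y).card * t.card := h1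
      _ ≤ (H.filter fun P => f P = y).card * L ^ 5 := Nat.mul_le_mul_left _ hcard
      _ = L ^ 5 * (H.filter fun P => f P = y).card := mul_comm _ _
  · intro P hP
    obtain ⟨hPH, hPy⟩ := Finset.mem_filter.1 hP
    have h1 : cls P = y.1 := congrArg Prod.fst hPy
    have h2 : ka P * (rep (cls P))⁻¹ = y.2 := congrArg Prod.snd hPy
    rw [← h2, ← h1, inv_mul_cancel_right]
    simp only [ka]
    rw [inv_mul_cancel_right]
  · intro P hP i
    obtain ⟨hPH, hPy⟩ := Finset.mem_filter.1 hP
    have h1 : cls P = y.1 := congrArg Prod.fst hPy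
    rw [← h1]
    exact hs _

end Pool.Agent.Work.MP_e0c7e8_nt.AV
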