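import Pool.Agent.Work.MP_e0c7e8_nt.AV.I_AVG
import Pool.Agent.Work.MP_e0c7e8_nt.AV.I_BAD
import Pool.Agent.Work.MP_e0c7e8_nt.AV.I_BIG
import Pool.Agent.Work.MP_e0c7e8_nt.AV.I_BOX
import Pool.Agent.Work.MP_e0c7e8_nt.AV.I_CCP
import Pool.Agent.Work.MP_e0c7e8_nt.AV.I_CL1
import Pool.Agent.Work.MP_e0c7e8_nt.AV.I_CL2
import Pool.Agent.Work.MP_e0c7e8_nt.AV.I_CLP
import Pool.Agent.Work.MP_e0c7e8_nt.AV.I_COA
import Pool.Agent.Work.MP_e0c7e8_nt.AV.I_CSG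
import Pool.Agent.Work.MP_e0c7e8_nt.AV.I_DVB
import Pool.Agent.Work.MP_e0c7e8_nt.AV.I_EXA
import Pool.Agent.Work.MP_e0c7e8_nt.AV.I_FDM
import Pool.Agent.Work.MP_e0c7e8_nt.AV.I_FIN
import Pool.Agent.Work.MP_e0c7e8_nt.AV.I_FXD
import Pool.Agent.Work.MP_e0c7e8_nt.AV.I_FXT
import Pool.Agent.Work.MP_e0c7e8_nt.AV.I_FXW
import Pool.Agent.Work.MP_e0c7e8_nt.AV.I_GDS
import Pool.Agent.Work.MP_e0c7e8_nt.AV.I_GEO2
import Pool.Agent.Work.MP_e0c7e8_nt.AV.I_GSM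
import Pool.Agent.Work.MP_e0c7e8_nt.AV.I_MTA
import Pool.Agent.Work.MP_e0c7e8_nt.AV.I_MTB
import Pool.Agent.Work.MP_e0c7e8_nt.AV.I_NUU
import Pool.Agent.Work.MP_e0c7e8_nt.AV.I_NZM
import Pool.Agent.Work.MP_e0c7e8_nt.AV.I_PAR
import Pool.Agent.Work.MP_e0c7e8_nt.AV.I_QFN
import Pool.Agent.Work.MP_e0c7e8_nt.AV.I_QIB
import Pool.Agent.Work.MP_e0c7e8_nt.AV.I_QJB
import Pool.Agent.Work.MP_e0c7e8_nt.AV.I_R1
import Pool.Agent.Work.MP_e0c7e8_nt.AV.I_RT1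
import Pool.Agent.Work.MP_e0c7e8_nt.AV.I_RT2
import Pool.Agent.Work.MP_e0c7e8_nt.AV.I_SLS
import Pool.Agent.Work.MP_e0c7e8_nt.AV.I_SQC
import Pool.Agent.Work.MP_e0c7e8_nt.AV.I_TRV
import Pool.Agent.Work.MP_e0c7e8_nt.AV.I_TYP
import Pool.Agent.Work.MP_e0c7e8_nt.BG.Main

/-!
# The average of `k`-torsion below Heath-Brown and Pierce: assembly
-/

set_option autoImplicit false

namespace Pool.Agent.Work.MP_e0c7e8_nt.AV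

open Finset Pool.Agent.Work.MP_e0c7e8_nt.SM Pool.Agent.Work.MP_e0c7e8_nt.BG

theorem MTP_all : S_MTP :=
  MTP_pf (MTA_pf DVB_pf (EXA_pf NZM_pf) COA_pf AVG_pf PAR_pf)
    (MTB_pf (FXW_pf (FXT_pf TYP_pf) BOX_pf (FXD_pf R1_pf) GEO_pf) RT1_pf DVB_pf PAR_pf)

theorem X4_all : ClaimX4 := claimX4 claimX5 claimX6 (claimX8 (claimX7 claimS1)) claimX9 claimX10

theorem TRV_all : S_TRV := TRV_pf (NUU_pf RT2_pf) QFN_pf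

theorem GDS_all : S_GDS :=
  GDS_pf (CLP_pf claimC2b0 (CL1_pf c2b1_all) (CL2_pf claimC0 c2b1_all)) CSG_pf CCP_pf SLS_pf
    QFN_pf c1a_all

theorem FIN_all : S_FIN :=
  FIN_pf (FDM_pf PAR_pf (BAD_pf X4_all SQC_pf)
    (GSM_pf GDS_all (QIB_pf QFN_pf TRV_all DVB_pf PAR_pf)
      (QJB_pf QFN_pf TRV_all (BIG_pf (NUU_pf RT2_pf) QFN_pf) MTP_all DVB_pf PAR_pf) PAR_pf c1a_all
      c1c_all) c1a_all c1c_all) TWO_all PAR_pf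

end Pool.Agent.Work.MP_e0c7e8_nt.AV
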