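import Mathlib

/-!
# The rank lemma (note 4539 on MP_e0c7e8_nt)

An integer matrix with distinct rows `I`, distinct columns `J`, entries at most `M`, row rank `R`
and all `R × R` minors divisible by `D` has `|I| |J| D ≤ 9 ^ R R! M ^ R`.
-/

set_option autoImplicit false

namespace Pool.Agent.Work.MP_e0c7e8_nt.AV.RankL

open Finset Matrix

/-- Divisibility of the determinants passes from a set to its span. -/
theorem dvd_det_span {n : Type} [Fintype n] [DecidableEq n] (S : Set (n → ℤ)) (D c : ℤ)
    (h : ∀ s : n → n → ℤ, (∀ t, s t ∈ S) → D ∣ c * (Matrix.of s).det) (s : n → n → ℤ)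
    (hs : ∀ t, s t ∈ Submodule.span ℤ S) : D ∣ c * (Matrix.of s).det := by
  have key : ∀ T : Finset n, ∀ s : n → n → ℤ, (∀ t ∈ T, s t ∈ Submodule.span ℤ S) →
      (∀ t, t ∉ T → s t ∈ S) → D ∣ c * (Matrix.of s).det := by
    intro T
    induction T using Finset.induction_on with
    | empty => intro s _ h2; exact h s (fun t => h2 t (by simp))
    | insert a T ha ih =>
      intro s h1 h2
      have hx : ∀ x ∈ Submodule.span ℤ S,
          D ∣ c * (Matrix.of (Function.update s a x)).det := by
        intro x hx
        induction hx using Submodule.span_induction with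
        | mem x hx =>
          apply ih
          · intro t ht
            have : t ≠ a := fun e => ha (e ▸ ht)
            rw [Function.update_of_ne this]
            exact h1 t (Finset.mem_insert_of_mem ht)
          · intro t ht
            by_cases e : t = a
            · subst e; simpa using hx
            · rw [Function.update_of_ne e]
              exact h2 t (by simp [e, ht])
        | zero =>
          have : (Matrix.of (Function.update s a 0)).det = 0 := by
            apply Matrix.det_eq_zero_of_row_eq_zero a
            intro j; simp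
          rw [this]; simp
        | add x y _ _ hx hy =>
          have e : (Matrix.of (Function.update s a (x + y))).det =
              (Matrix.of (Function.update s a x)).det + (Matrix.of (Function.update s a y)).det :=
            Matrix.det_updateRow_add (Matrix.of s) a x y
          rw [e, mul_add]; exact dvd_add hx hy
        | smul z x _ hx =>
          have e : (Matrix.of (Function.update s a (z • x))).det =
              z * (Matrix.of (Function.update s a x)).det :=
            Matrix.det_updateRow_smul (Matrix.of s) a z x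
          rw [e, mul_left_comm]; exact Dvd.dvd.mul_left hx z
      have := hx (s a) (h1 a (Finset.mem_insert_self a T))
      rwa [Function.update_eq_self] at this
  exact key Finset.univ s (fun t _ => hs t) (fun t ht => absurd (Finset.mem_univ t) ht)

/-- The counting lemma in `ℤ ^ n`. -/
theorem lat {n : Type} [Fintype n] [DecidableEq n] (S : Finset (n → ℤ)) (D Δ : ℕ)
    (h0 : ∃ s : n → n → ℤ, (∀ t, s t ∈ S) ∧ (Matrix.of s).det ≠ 0)
    (h1 : ∀ s : n → n → ℤ, (∀ t, s t ∈ S) →
      (D : ℤ) ∣ (Matrix.of s).det ∧ |(Matrix.of s).det| ≤ Δ) :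
    S.card * D ≤ 3 ^ Fintype.card n * Δ := by
  classical
  obtain ⟨s₀, hs₀, hd₀⟩ := h0
  obtain ⟨s, hs, hmax⟩ := Finset.exists_max_image (Fintype.piFinset (fun _ : n => S))
    (fun s => (Matrix.of s).det.natAbs) ⟨s₀, by simpa using hs₀⟩
  simp only [Fintype.mem_piFinset] at hs hmax
  set d : ℤ := (Matrix.of s).det with hd
  have hd0 : d ≠ 0 := by
    have := hmax s₀ hs₀
    intro e
    rw [e] at this
    simp at this
    exact hd₀ this
  have hN : 0 < d.natAbs := Int.natAbs_pos.mpr hd0
  -- the coordinates
  let c : (n → ℤ) → n → ℤ := fun x t => (Matrix.of (Function.update s t x)).det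
  have hcadd : ∀ x y t, c (x + y) t = c x t + c y t := fun x y t =>
    Matrix.det_updateRow_add (Matrix.of s) t x y
  have hcsmul : ∀ (z : ℤ) x t, c (z • x) t = z * c x t := fun z x t =>
    Matrix.det_updateRow_smul (Matrix.of s) t z x
  have hcle : ∀ x ∈ S, ∀ t, (c x t).natAbs ≤ d.natAbs := by
    intro x hx t
    apply hmax
    intro u
    by_cases e : u = t
    · subst e; simpa using hx
    · rw [Function.update_of_ne e]; exact hs u
  have hcram : ∀ x : n → ℤ, d • x = ∑ t, c x t • s t := by
    intro x
    have h := Matrix.mulVec_cramer (Matrix.of s)ᵀ x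
    rw [Matrix.det_transpose] at h
    rw [← h]
    ext j
    rw [Matrix.mulVec, dotProduct, Finset.sum_apply]
    apply Finset.sum_congr rfl
    intro t _
    rw [Matrix.cramer_transpose_apply]
    simp only [Matrix.transpose_apply, Matrix.of_apply, Pi.smul_apply, smul_eq_mul]
    rw [mul_comm]
    rfl
  have hcself : ∀ i t, d ∣ c (s i) t := by
    intro i t
    by_cases e : i = t
    · subst e
      simp only [c, Function.update_eq_self]
      exact dvd_refl _
    · have : c (s i) t = 0 := by
        apply Matrix.det_zero_of_row_eq (i := i) (j := t) e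
        change Function.update s t (s i) i = Function.update s t (s i) t
        rw [Function.update_of_ne e, Function.update_self]
      rw [this]; exact dvd_zero _
  have hcspan : ∀ z ∈ Submodule.span ℤ (Set.range s), ∀ t, d ∣ c z t := by
    intro z hz t
    induction hz using Submodule.span_induction with
    | mem x hx => obtain ⟨i, rfl⟩ := hx; exact hcself i t
    | zero =>
      have : c 0 t = 0 := by have := hcsmul 0 0 t; simpa using this
      rw [this]; exact dvd_zero _
    | add x y _ _ hx hy => rw [hcadd]; exact dvd_add hx hy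
    | smul z x _ hx => rw [hcsmul]; exact Dvd.dvd.mul_left hx z
  -- independence of `s`
  have hli : LinearIndependent ℤ s := by
    rw [Fintype.linearIndependent_iff]
    intro g hg t
    have h2 : c (∑ i, g i • s i) t = g t * d := by
      have : ∀ T : Finset n, c (∑ i ∈ T, g i • s i) t = ∑ i ∈ T, g i * c (s i) t := by
        intro T
        induction T using Finset.induction_on with
        | empty =>
          have := hcsmul 0 0 t
          simpa using this
        | insert a T ha ih => rw [Finset.sum_insert ha, Finset.sum_insert ha, hcadd, hcsmul, ih]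
      rw [this, Finset.sum_eq_single t]
      · simp only [c, Function.update_eq_self]; rfl
      · intro i _ hi
        have : c (s i) t = 0 := by
          apply Matrix.det_zero_of_row_eq (i := i) (j := t) hi
          change Function.update s t (s i) i = Function.update s t (s i) t
          rw [Function.update_of_ne hi, Function.update_self]
        rw [this, mul_zero]
      · intro h; exact absurd (Finset.mem_univ t) h
    rw [hg] at h2
    have h3 : c 0 t = 0 := by have := hcsmul 0 0 t; simpa using this
    rw [h3] at h2
    rcases mul_eq_zero.mp h2.symm with h | h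
    · exact h
    · exact absurd h hd0
  -- the two lattices
  let Λ₀ : Submodule ℤ (n → ℤ) := Submodule.span ℤ (Set.range s)
  let Λ : Submodule ℤ (n → ℤ) := Submodule.span ℤ (S : Set (n → ℤ))
  have hle : Λ₀ ≤ Λ := by
    apply Submodule.span_mono
    rintro _ ⟨t, rfl⟩
    exact hs t
  have hidx0 : Λ₀.toAddSubgroup.index = d.natAbs := by
    rw [AddSubgroup.index_eq_natAbs_det (Pi.basisFun ℤ n) Λ₀.toAddSubgroup
      (Module.Basis.span hli)]
    congr 1
    rw [Module.Basis.det_apply, hd, ← Matrix.det_transpose (Matrix.of s)]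
    congr 1
    ext i j
    rw [Module.Basis.toMatrix_apply]
    simp only [Pi.basisFun_repr, Matrix.transpose_apply, Matrix.of_apply]
    rw [Module.Basis.span_apply]
  have hfr : Module.finrank ℤ Λ = Fintype.card n := by
    apply le_antisymm
    · have := Submodule.finrank_le Λ
      simpa using this
    · let s' : n → Λ := fun t => ⟨s t, Submodule.subset_span (hs t)⟩
      have : LinearIndependent ℤ s' := by
        apply LinearIndependent.of_comp Λ.subtype
        exact hli
      exact this.fintype_card_le_finrank
  let bΛ : Module.Basis n ℤ Λ :=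
    (Module.finBasisOfFinrankEq ℤ Λ hfr).reindex (Fintype.equivFin n).symm
  have hidx1 : (D : ℤ) ∣ (Λ.toAddSubgroup.index : ℤ) := by
    rw [AddSubgroup.index_eq_natAbs_det (Pi.basisFun ℤ n) Λ.toAddSubgroup bΛ]
    rw [Int.dvd_natAbs]
    rw [Module.Basis.det_apply, ← Matrix.det_transpose]
    have h := dvd_det_span (S : Set (n → ℤ)) D 1 (fun s hs => by
      rw [one_mul]; exact (h1 s hs).1) (fun t => (bΛ t : n → ℤ)) (fun t => (bΛ t).2)
    rw [one_mul] at h
    have e : ((Pi.basisFun ℤ n).toMatrix fun x => (bΛ x : n → ℤ))ᵀ
        = Matrix.of fun t => (bΛ t : n → ℤ) := by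
      ext i j
      rw [Matrix.transpose_apply, Module.Basis.toMatrix_apply, Pi.basisFun_repr, Matrix.of_apply]
    rw [e]
    exact h
  have hmul : Λ₀.toAddSubgroup.relIndex Λ.toAddSubgroup * Λ.toAddSubgroup.index = d.natAbs := by
    rw [← hidx0]
    exact AddSubgroup.relIndex_mul_index hle
  have hrel : Λ₀.toAddSubgroup.relIndex Λ.toAddSubgroup ≠ 0 := by
    intro e; rw [e, zero_mul] at hmul; omega
  have hDle : D ≤ Λ.toAddSubgroup.index := by
    apply Nat.le_of_dvd _ (by exact_mod_cast hidx1)
    rcases Nat.eq_zero_or_pos (Λ.toAddSubgroup.index) with e | e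
    · rw [e, mul_zero] at hmul; omega
    · exact e
  -- counting
  let Q := Λ.toAddSubgroup ⧸ (Λ₀.toAddSubgroup.addSubgroupOf Λ.toAddSubgroup)
  have hfin : Finite Q := Nat.finite_of_card_ne_zero hrel
  have : Fintype Q := Fintype.ofFinite Q
  let f : {x // x ∈ S} → Q := fun x =>
    QuotientAddGroup.mk (⟨x.1, Submodule.subset_span x.2⟩ : Λ.toAddSubgroup)
  have hcard : S.attach.card ≤ 3 ^ Fintype.card n * (S.attach.image f).card := by
    apply Finset.card_le_mul_card_image
    intro a _
    have e3 : (Fintype.piFinset (fun _ : n => Finset.Icc (-1 : ℤ) 1)).card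
        = 3 ^ Fintype.card n := by
      rw [Fintype.card_piFinset]; simp
    rw [← e3]
    apply Finset.card_le_card_of_injOn (fun x t => c x.1 t / (d.natAbs : ℤ))
    · intro x hx
      rw [Finset.mem_coe, Fintype.mem_piFinset]
      intro t
      rw [Finset.mem_Icc]
      have h := hcle x.1 x.2 t
      have hp : (0 : ℤ) < d.natAbs := by exact_mod_cast hN
      have hb : |c x.1 t| ≤ (d.natAbs : ℤ) := by
        rw [Int.abs_eq_natAbs]; exact_mod_cast h
      rw [abs_le] at hb
      constructor
      · rw [Int.le_ediv_iff_mul_le hp]; linarith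
      · apply Int.lt_add_one_iff.mp
        rw [Int.ediv_lt_iff_lt_mul hp]; linarith
    · intro x hx y hy hxy
      simp only [Finset.coe_filter, Set.mem_ofPred_eq] at hx hy
      have hq : f x = f y := hx.2.trans hy.2.symm
      rw [QuotientAddGroup.eq] at hq
      have hz : (-(x.1) + y.1) ∈ Λ₀ := hq
      apply Subtype.ext
      have hct : ∀ t, c x.1 t = c y.1 t := by
        intro t
        have h1 := hcspan _ hz t
        have h2 : c (-(x.1) + y.1) t = c y.1 t - c x.1 t := by
          rw [hcadd]
          have := hcsmul (-1) x.1 t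
          rw [neg_one_smul] at this
          rw [this]; ring
        rw [h2] at h1
        have h3 : (d.natAbs : ℤ) ∣ c y.1 t - c x.1 t := Int.natAbs_dvd.mpr h1
        have h4 := congrFun hxy t
        simp only at h4
        have h5 : c x.1 t % (d.natAbs : ℤ) = c y.1 t % (d.natAbs : ℤ) :=
          Int.modEq_iff_dvd.mpr h3
        rw [← Int.mul_ediv_add_emod (c x.1 t) d.natAbs, ← Int.mul_ediv_add_emod (c y.1 t) d.natAbs,
          h4, h5]
      have h6 : d • x.1 = d • y.1 := by
        rw [hcram, hcram]
        exact Finset.sum_congr rfl (fun t _ => by rw [hct t])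
      exact smul_right_injective (n → ℤ) hd0 h6
  have himg : (S.attach.image f).card ≤ Λ₀.toAddSubgroup.relIndex Λ.toAddSubgroup := by
    have : Λ₀.toAddSubgroup.relIndex Λ.toAddSubgroup = Nat.card Q := rfl
    rw [this, Nat.card_eq_fintype_card]
    exact Finset.card_le_univ _
  have hdΔ : d.natAbs ≤ Δ := by
    have := (h1 s hs).2
    rw [← hd, Int.abs_eq_natAbs] at this
    exact_mod_cast this
  rw [Finset.card_attach] at hcard
  calc S.card * D ≤ (3 ^ Fintype.card n * Λ₀.toAddSubgroup.relIndex Λ.toAddSubgroup) *
        Λ.toAddSubgroup.index := by gcongr; exact hcard.trans (by gcongr)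
    _ = 3 ^ Fintype.card n * d.natAbs := by rw [mul_assoc, hmul]
    _ ≤ 3 ^ Fintype.card n * Δ := by gcongr

/-- A matrix with linearly independent rows has a nonzero maximal minor. -/
theorem exists_minor {R : ℕ} {J : Type} [Fintype J] (G : Fin R → J → ℤ)
    (hG : LinearIndependent ℤ G) :
    ∃ g : Fin R → J, (Matrix.of fun t => fun u => G u (g t)).det ≠ 0 := by
  classical
  -- over `ℚ`
  let G' : Matrix (Fin R) J ℚ := Matrix.of fun t j => (G t j : ℚ)
  have hG' : LinearIndependent ℚ G'.row := by
    rw [← LinearIndependent.iff_fractionRing ℤ ℚ]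
    let φ : (J → ℤ) →ₗ[ℤ] (J → ℚ) :=
      { toFun := fun v j => (v j : ℚ)
        map_add' := fun v w => by ext j; simp
        map_smul' := fun z v => by ext j; simp }
    have hφ : Function.Injective φ := by
      intro v w h
      ext j
      have h2 : ((v j : ℤ) : ℚ) = ((w j : ℤ) : ℚ) := congrFun h j
      exact_mod_cast h2
    exact hG.map' φ (LinearMap.ker_eq_bot.mpr hφ)
  have hr : G'.rank = R := by
    have := hG'.rank_matrix
    simpa using this
  rw [Matrix.rank_eq_finrank_span_cols] at hr
  have htop : Submodule.span ℚ (Set.range G'.col) = ⊤ := by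
    apply Submodule.eq_top_of_finrank_eq
    rw [hr]; simp
  obtain ⟨b, hb, hspan, hli⟩ := exists_linearIndependent ℚ (Set.range G'.col)
  rw [htop] at hspan
  let B : Module.Basis b ℚ (Fin R → ℚ) := Module.Basis.mk hli (by
    rw [Subtype.range_coe_subtype]
    simpa using hspan.ge)
  have hfb : Finite b := (Module.Finite.finite_basis B)
  have : Fintype b := Fintype.ofFinite b
  have hcb : Fintype.card b = R := by
    have := Module.finrank_eq_card_basis B
    simpa using this.symm
  let e : Fin R ≃ b := (Fintype.equivFinOfCardEq hcb).symm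
  have hg : ∀ t : Fin R, ∃ j : J, G'.col j = (e t : Fin R → ℚ) := fun t => hb (e t).2
  choose g hg using hg
  refine ⟨g, ?_⟩
  have hli2 : LinearIndependent ℚ (fun t : Fin R => (e t : Fin R → ℚ)) :=
    hli.comp e e.injective
  let A : Matrix (Fin R) (Fin R) ℚ := Matrix.of fun t => fun u => (G u (g t) : ℚ)
  have hA : LinearIndependent ℚ A.row := by
    have : A.row = fun t : Fin R => (e t : Fin R → ℚ) := by
      funext t
      rw [← hg t]
      rfl
    rw [this]; exact hli2
  rw [Matrix.linearIndependent_rows_iff_isUnit, Matrix.isUnit_iff_isUnit_det] at hA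
  intro h0
  apply hA.ne_zero
  have : A.det = (((Matrix.of fun t => fun u => G u (g t)).det : ℤ) : ℚ) := by
    rw [Int.cast_det]
    rfl
  rw [this, h0]; simp

/-- THE RANK LEMMA. -/
theorem rank_lemma {I J : Type} [Fintype I] [Fintype J] (B : I → J → ℤ) (M D R : ℕ)
    (hrow : Function.Injective B) (hcol : Function.Injective fun (j : J) (i : I) => B i j)
    (hM : ∀ i j, |B i j| ≤ M) (hR : Module.finrank ℤ (Submodule.span ℤ (Set.range B)) = R)
    (hD : ∀ (f : Fin R → I) (g : Fin R → J),
      (D : ℤ) ∣ (Matrix.of fun t => fun u => B (f t) (g u)).det) :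
    Fintype.card I * Fintype.card J * D ≤ 9 ^ R * R.factorial * M ^ R := by
  classical
  let L : Submodule ℤ (J → ℤ) := Submodule.span ℤ (Set.range B)
  let bL : Module.Basis (Fin R) ℤ L := Module.finBasisOfFinrankEq ℤ L hR
  let row : I → L := fun i => ⟨B i, Submodule.subset_span ⟨i, rfl⟩⟩
  let F : I → Fin R → ℤ := fun i t => bL.repr (row i) t
  let G : Fin R → J → ℤ := fun t => (bL t : J → ℤ)
  have hBFG : ∀ i j, B i j = ∑ t, F i t * G t j := by
    intro i j
    have h := bL.sum_repr (row i)
    have h2 := congrArg (fun x : L => (x : J → ℤ) j) h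
    simp only [Submodule.coe_sum, Submodule.coe_smul, Finset.sum_apply, Pi.smul_apply,
      smul_eq_mul] at h2
    exact h2.symm
  have hFinj : Function.Injective F := by
    intro i i' h
    apply hrow
    funext j
    rw [hBFG, hBFG, h]
  have hGinj : Function.Injective fun (j : J) (t : Fin R) => G t j := by
    intro j j' h
    apply hcol
    funext i
    simp only
    rw [hBFG, hBFG]
    have h' : ∀ t, G t j = G t j' := fun t => congrFun h t
    exact Finset.sum_congr rfl (fun t _ => by rw [h' t])
  have hFspan : Submodule.span ℤ (Set.range F) = ⊤ := by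
    rw [eq_top_iff]
    intro y _
    -- `y` is the coordinate vector of an element of `L`
    let ψ : L ≃ₗ[ℤ] (Fin R → ℤ) := bL.equivFun
    obtain ⟨x, rfl⟩ := ψ.surjective y
    have hx : (x : J → ℤ) ∈ Submodule.span ℤ (Set.range B) := x.2
    have hrow2 : Submodule.span ℤ (Set.range row) = ⊤ := by
      have : Set.range row = ((↑) : L → (J → ℤ)) ⁻¹' Set.range B := by
        ext z
        constructor
        · rintro ⟨i, rfl⟩; exact ⟨i, rfl⟩
        · rintro ⟨i, hi⟩; exact ⟨i, Subtype.ext hi⟩
      rw [this]
      exact Submodule.span_span_coe_preimage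
    have hx2 : x ∈ Submodule.span ℤ (Set.range row) := by rw [hrow2]; trivial
    have h3 : ψ x ∈ Submodule.map (ψ : L →ₗ[ℤ] (Fin R → ℤ)) (Submodule.span ℤ (Set.range row)) :=
      Submodule.mem_map_of_mem hx2
    rw [Submodule.map_span] at h3
    have h4 : (ψ : L →ₗ[ℤ] (Fin R → ℤ)) '' Set.range row = Set.range F := by
      rw [← Set.range_comp]
      rfl
    rwa [h4] at h3
  have hdet : ∀ (f : Fin R → I) (g : Fin R → J),
      (Matrix.of fun t => fun u => B (f t) (g u)).det =
      (Matrix.of fun t => G t ∘ g).det * (Matrix.of fun t => F (f t)).det := by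
    intro f g
    rw [mul_comm, ← Matrix.det_mul]
    congr 1
    ext t u
    rw [Matrix.mul_apply, Matrix.of_apply, hBFG]
    rfl
  -- the determinants of `F`
  obtain ⟨f₀, hf₀⟩ : ∃ f : Fin R → I, (Matrix.of fun t => F (f t)).det ≠ 0 := by
    by_contra hne
    push Not at hne
    have h := dvd_det_span (Set.range F) 0 1 (fun s hs => by
      choose f hf using hs
      have : s = fun t => F (f t) := by funext t; exact (hf t).symm
      rw [this, hne f]; simp) (fun t => Pi.single t 1) (fun t => by rw [hFspan]; trivial)
    have h1 : (Matrix.of fun t : Fin R => (Pi.single t (1 : ℤ) : Fin R → ℤ)).det = 1 := by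
      have : (Matrix.of fun t : Fin R => (Pi.single t (1 : ℤ) : Fin R → ℤ)) = 1 := by
        ext i j
        rw [Matrix.of_apply, Matrix.one_apply, Pi.single_apply]
        simp [eq_comm]
      rw [this, Matrix.det_one]
    rw [h1] at h
    simp at h
  -- `D` divides the minors of `G`
  have hDG : ∀ g : Fin R → J, (D : ℤ) ∣ (Matrix.of fun t => G t ∘ g).det := by
    intro g
    have h := dvd_det_span (Set.range F) D (Matrix.of fun t => G t ∘ g).det (fun s hs => by
      choose f hf using hs
      have : s = fun t => F (f t) := by funext t; exact (hf t).symm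
      rw [this, ← hdet f g]
      exact hD f g) (fun t => Pi.single t 1) (fun t => by rw [hFspan]; trivial)
    have h1 : (Matrix.of fun t : Fin R => (Pi.single t (1 : ℤ) : Fin R → ℤ)).det = 1 := by
      have : (Matrix.of fun t : Fin R => (Pi.single t (1 : ℤ) : Fin R → ℤ)) = 1 := by
        ext i j
        rw [Matrix.of_apply, Matrix.one_apply, Pi.single_apply]
        simp [eq_comm]
      rw [this, Matrix.det_one]
    rwa [h1, mul_one] at h
  have hGli : LinearIndependent ℤ G := by
    have := bL.linearIndependent.map' L.subtype (by simp)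
    exact this
  obtain ⟨g₀, hg₀⟩ := exists_minor G hGli
  -- maximal minors
  obtain ⟨f₁, _, hf₁⟩ := Finset.exists_max_image (Finset.univ : Finset (Fin R → I))
    (fun f => (Matrix.of fun t => F (f t)).det.natAbs) ⟨f₀, Finset.mem_univ _⟩
  obtain ⟨g₁, _, hg₁⟩ := Finset.exists_max_image (Finset.univ : Finset (Fin R → J))
    (fun g => (Matrix.of fun t => G t ∘ g).det.natAbs) ⟨g₀, Finset.mem_univ _⟩
  set ΔF := (Matrix.of fun t => F (f₁ t)).det.natAbs with hΔF
  set ΔG := (Matrix.of fun t => G t ∘ g₁).det.natAbs with hΔG
  have hprod : ΔG * ΔF ≤ R.factorial * M ^ R := by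
    rw [hΔF, hΔG, ← Int.natAbs_mul, ← hdet f₁ g₁]
    have h := Matrix.det_le (A := (Matrix.of fun t => fun u => B (f₁ t) (g₁ u)))
      (abv := (AbsoluteValue.abs : AbsoluteValue ℤ ℤ)) (x := (M : ℤ)) (fun i j => hM _ _)
    simp only [AbsoluteValue.abs_apply, Fintype.card_fin, nsmul_eq_mul] at h
    rw [Int.abs_eq_natAbs] at h
    exact_mod_cast h
  have hI : Fintype.card I ≤ 3 ^ R * ΔF := by
    have h := lat (Finset.univ.image F) 1 ΔF ⟨fun t => F (f₀ t), by simp, hf₀⟩ (fun s hs => by
      refine ⟨by simp, ?_⟩
      have : ∀ t, ∃ i, F i = s t := fun t => by simpa using hs t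
      choose f hf using this
      have e : s = fun t => F (f t) := by funext t; exact (hf t).symm
      rw [e, Int.abs_eq_natAbs]
      exact_mod_cast hf₁ f (Finset.mem_univ _))
    rw [Finset.card_image_of_injective _ hFinj, Finset.card_univ, mul_one, Fintype.card_fin] at h
    exact h
  have hJ : Fintype.card J * D ≤ 3 ^ R * ΔG := by
    have htr : ∀ g : Fin R → J, (Matrix.of fun t => fun u => G u (g t)).det =
        (Matrix.of fun t => G t ∘ g).det := by
      intro g
      rw [← Matrix.det_transpose]
      rfl
    have h := lat (Finset.univ.image fun (j : J) (t : Fin R) => G t j) D ΔG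
      ⟨fun t => fun u => G u (g₀ t), by simp, hg₀⟩ (fun s hs => by
      have : ∀ t, ∃ j, (fun u => G u j) = s t := fun t => by simpa using hs t
      choose g hg using this
      have e : s = fun t => fun u => G u (g t) := by funext t; exact (hg t).symm
      rw [e, htr g]
      refine ⟨hDG g, ?_⟩
      rw [Int.abs_eq_natAbs]
      exact_mod_cast hg₁ g (Finset.mem_univ _))
    rw [Finset.card_image_of_injective _ hGinj, Finset.card_univ, Fintype.card_fin] at h
    exact h
  calc Fintype.card I * Fintype.card J * D = Fintype.card I * (Fintype.card J * D) := by ring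
    _ ≤ (3 ^ R * ΔF) * (3 ^ R * ΔG) := by gcongr
    _ = 9 ^ R * (ΔG * ΔF) := by
      have : (9 : ℕ) ^ R = 3 ^ R * 3 ^ R := by rw [← mul_pow]; norm_num
      rw [this]; ring
    _ ≤ 9 ^ R * (R.factorial * M ^ R) := by gcongr
    _ = 9 ^ R * R.factorial * M ^ R := by ring

end Pool.Agent.Work.MP_e0c7e8_nt.AV.RankL
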