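import Pool.Agent.Work.MP_e0c7e8_nt.AV.Stmts
import Pool.Agent.Work.MP_e0c7e8_nt.BG.StmtsI

/-!
# The average of `k`-torsion below Heath-Brown and Pierce: statements, class groups and assembly

Paper proof: note 4539 on MP_e0c7e8_nt. `Od`, `th`, `Pi1`, `Pi2`, `chi`, `FF`, `wt`, `Pd`, `NSq` are
the definitions of `SM/Defs.lean`, `SM/StmtsX.lean`, and `Rt` is in `BG/StmtsI.lean`; all `Claim..`
of `SM` and all `S_..` of `BG` are proved on main (`SM/Item*.lean`, `BG/I_*.lean`, see `BG/Main.lean`)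
and may be used as hypotheses or directly.
-/

set_option autoImplicit false

namespace Pool.Agent.Work.MP_e0c7e8_nt.AV

open Finset Pool.Agent.Work.MP_e0c7e8_nt.SM Pool.Agent.Work.MP_e0c7e8_nt.BG

/-- The odd primes up to `P`. -/
def Pr (P : ℕ) : Finset ℕ := (Icc 1 P).filter fun p => p.Prime ∧ Odd p

/-- The split primes up to `P`; `Pd d P` is their number. -/
def Sp (d : ℤ) (P : ℕ) : Finset ℕ := (Icc 1 P).filter (fun p => p.Prime ∧ chi d p = 1)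

/-- The products of `j` different odd primes up to `P`. -/
def NN (P j : ℕ) : Finset ℕ := (powersetCard j (Pr P)).image fun A => ∏ p ∈ A, p

/-- Solutions of `u^2 + D v^2 = 4 n^m`, `X / 2 < D ≤ X`, `n = ∏ A ∏ B` prime to `v`. -/
structure Sol (m : ℕ) (X : ℝ) (A B : Finset ℕ) (u : ℤ) (v : ℕ) : Prop where
  pos : 1 ≤ v
  cop : ∀ p ∈ A ∪ B, ¬ p ∣ v
  eq : ∃ D : ℕ, X / 2 < (D : ℝ) ∧ (D : ℝ) ≤ X ∧
    u ^ 2 + (D : ℤ) * (v : ℤ) ^ 2 = 4 * ((∏ p ∈ A, (p : ℤ)) * ∏ p ∈ B, (p : ℤ)) ^ m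

/-- The solutions with disjoint sets `A`, `B` of `i` odd primes up to `P`. -/
def QS (m : ℕ) (X : ℝ) (P i : ℕ) : Set (Finset ℕ × Finset ℕ × ℤ × ℕ) :=
  {x | x.1 ∈ powersetCard i (Pr P) ∧ x.2.1 ∈ powersetCard i (Pr P) ∧ Disjoint x.1 x.2.1 ∧
    Sol m X x.1 x.2.1 x.2.2.1 x.2.2.2}

open Classical in
/-- The pairs of `i`-element subsets of `S` with equal `m`-th powers. -/
noncomputable def PRS {G : Type} [CommGroup G] (c : ℕ → G) (m i : ℕ) (S : Finset ℕ) :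
    Finset (Finset ℕ × Finset ℕ) :=
  (powersetCard i S ×ˢ powersetCard i S).filter fun x =>
    (∏ p ∈ x.1, c p) ^ m = (∏ p ∈ x.2, c p) ^ m

open Classical in
/-- The disjoint pairs. -/
noncomputable def DPR {G : Type} [CommGroup G] (c : ℕ → G) (m i : ℕ) (S : Finset ℕ) :
    Finset (Finset ℕ × Finset ℕ) :=
  (PRS c m i S).filter fun x => Disjoint x.1 x.2

/-- Equal `m`-th powers of disjoint products of split primes give solutions. -/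
def Cl (d : ℤ) (c : ℕ → ClassGroup ↥(Od d)) : Prop := ∀ (A B : Finset ℕ) (m : ℕ),
  (∀ p ∈ A ∪ B, p.Prime ∧ chi d p = 1) → Disjoint A B → (A ∪ B).Nonempty → 1 ≤ m →
  (∏ p ∈ A, c p) ^ m = (∏ p ∈ B, c p) ^ m → ∃ (u : ℤ) (v : ℕ), 1 ≤ v ∧ (∀ p ∈ A ∪ B, ¬ p ∣ v) ∧
    u ^ 2 + (d.natAbs : ℤ) * (v : ℤ) ^ 2 = 4 * ((∏ p ∈ A, (p : ℤ)) * ∏ p ∈ B, (p : ℤ)) ^ m

/-! ## Class groups -/

/-- [CL1] classes and generators (as `BG/I_IDB.lean` and `SM/ItemC2b.lean`; `c p` is the class of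
`Pi1 d p (n p)`, and `Pi1 Pi2 = (p)` by `ClaimC2b1`). -/
def S_CL1 : Prop := ∀ (d : ℤ) (n : ℕ → ℤ), d < 0 → (d % 4 = 0 ∨ d % 4 = 1) → Rt d n →
  ∃ c : ℕ → ClassGroup ↥(Od d), ∀ (A B : Finset ℕ) (m : ℕ),
    (∀ p ∈ A ∪ B, p.Prime ∧ chi d p = 1) → (∏ p ∈ A, c p) ^ m = (∏ p ∈ B, c p) ^ m →
    ∃ g : ↥(Od d), (∏ p ∈ A, Pi1 d p (n p)) ^ m * (∏ p ∈ B, Pi2 d p (n p)) ^ m = Ideal.span {g}

/-- [CL2] the equation. `g = u' + v' θ` (`ClaimC0`), norm `n^m`, `n = ∏ A ∏ B` (`ClaimC2b1`, conjugate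
ideals, as in `BG/I_IDC.lean`, `SM/ItemC2b2.lean`); `u = 2 u' + d v'`, `v = |v'|`,
`4 N(g) = u^2 + |d| v^2`. If `p ∣ v'` and `p ∣ n` then `p ∣ u'`, so `p ∣ g` and
`(g) ⊆ (p) = Pi1 Pi2`: impossible, `(g)` is a product of powers of only one of the two prime
ideals over `p` and of other prime ideals (`not_dvd` in `SM/ItemC2b2.lean`). `v' = 0` would give this
for every `p` in `A ∪ B`. -/
def S_CL2 : Prop := ∀ (d : ℤ) (n : ℕ → ℤ), d < 0 → (d % 4 = 0 ∨ d % 4 = 1) → Rt d n →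
  ∀ (A B : Finset ℕ) (m : ℕ) (g : ↥(Od d)), (∀ p ∈ A ∪ B, p.Prime ∧ chi d p = 1) →
    Disjoint A B → (A ∪ B).Nonempty → 1 ≤ m →
    (∏ p ∈ A, Pi1 d p (n p)) ^ m * (∏ p ∈ B, Pi2 d p (n p)) ^ m = Ideal.span {g} →
    ∃ (u : ℤ) (v : ℕ), 1 ≤ v ∧ (∀ p ∈ A ∪ B, ¬ p ∣ v) ∧
      u ^ 2 + (d.natAbs : ℤ) * (v : ℤ) ^ 2 = 4 * ((∏ p ∈ A, (p : ℤ)) * ∏ p ∈ B, (p : ℤ)) ^ m

/-- [CLP] (`CL1`, `CL2`, `ClaimC2b0`.) -/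
def S_CLP : Prop := ∀ d : ℤ, d < 0 → (d % 4 = 0 ∨ d % 4 = 1) → ∃ c : ℕ → ClassGroup ↥(Od d), Cl d c

/-- [CSG] Cauchy-Schwarz: `A ↦ (∏ c)^m` has values in the group of `m`-th powers, which has
`#G / #G[m]` elements. -/
def S_CSG : Prop := ∀ (G : Type) [CommGroup G] [Finite G] (c : ℕ → G) (m J : ℕ) (S : Finset ℕ),
  Nat.card {y : G // y ^ m = 1} * (powersetCard J S).card ^ 2 ≤ Nat.card G * (PRS c m J S).card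

/-- [CCP] common primes: `(A, B) ↦ (A \ B, B \ A, A ∩ B)`. -/
def S_CCP : Prop := ∀ (G : Type) [CommGroup G] (c : ℕ → G) (m J : ℕ) (S : Finset ℕ),
  (PRS c m J S).card ≤ ∑ i ∈ range (J + 1), S.card ^ (J - i) * (DPR c m i S).card

/-- [SLS] sum over `d`: `(d, A, B) ↦ (A, B, u, v)`; `D = |d|` is determined by `A, B, u, v`. -/
def S_SLS : Prop := ∀ (m P i : ℕ) (X : ℝ) (Ds : Finset ℤ) (c : ∀ d : ℤ, ℕ → ClassGroup ↥(Od d)),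
  1 ≤ m → 1 ≤ i → 0 < X →
  (∀ d ∈ Ds, d < 0 ∧ (d % 4 = 0 ∨ d % 4 = 1) ∧ X / 2 < |(d : ℝ)| ∧ |(d : ℝ)| ≤ X ∧ Cl d (c d)) →
  (QS m X P i).Finite →
  ∑ d ∈ Ds, (DPR (c d) m i (Sp d P)).card ≤ (QS m X P i).ncard

/-- [QFN] finitely many solutions, and the size of `v`: `v^2 X / 2 < v^2 D ≤ 4 n^m`. -/
def S_QFN : Prop := ∀ (m P i : ℕ) (X : ℝ), 0 < X → (QS m X P i).Finite ∧
  ∀ x ∈ QS m X P i, (x.2.2.2 : ℝ) ^ 2 * X < 8 * (P : ℝ) ^ (2 * m * i)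

/-- [GDS] the sum over `d` with many split primes (`CLP`, `CSG`, `CCP`, `SLS`, `QFN`; `ClaimC1a`
for the finiteness of the class group; `|Sp d P| ≤ P`). -/
def S_GDS : Prop := ∀ (m J P : ℕ) (X Hc G : ℝ) (Ds : Finset ℤ), 1 ≤ m → 1 ≤ J → 0 < X → 0 ≤ G →
  0 ≤ Hc → (∀ d ∈ Ds, d < 0 ∧ (d % 4 = 0 ∨ d % 4 = 1) ∧ X / 2 < |(d : ℝ)| ∧ |(d : ℝ)| ≤ X ∧
    (Nat.card (ClassGroup ↥(Od d)) : ℝ) ≤ Hc ∧ G ≤ ((powersetCard J (Sp d P)).card : ℝ)) →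
  (∑ d ∈ Ds, (Nat.card {y : ClassGroup ↥(Od d) // y ^ m = 1} : ℝ)) * G ^ 2 ≤
    Hc * ((Ds.card : ℝ) * (P : ℝ) ^ J +
      ∑ i ∈ Icc 1 J, (P : ℝ) ^ (J - i) * ((QS m X P i).ncard : ℝ))

/-! ## Counting solutions -/

/-- [RT2] the number of roots of `4 n^m` modulo `v^2`: `claimC1b` (`SM/ItemC1b.lean`) for
`d = 16 n^m`, `a = v^2`: `FF d x = (x + 8 n^m)^2 - 4 n^m`; `s^2 ∣ 16 n^m` and `s^2 ∣ v^2` imply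
`s ∈ {1, 2, 4}`. -/
def S_RT2 : Prop := ∀ v n m : ℕ, 1 ≤ v → 1 ≤ n → n.Coprime v →
  ((range (v ^ 2)).filter fun u : ℕ => (v : ℤ) ^ 2 ∣ (u : ℤ) ^ 2 - 4 * (n : ℤ) ^ m).card ≤
    28 * 2 ^ v.primeFactors.card

/-- [NUU] the number of `u` for given `n`, `v`: two solutions `u, u' ≥ 0` satisfy
`|u^2 - u'^2| ≤ X v^2 / 2`, so `|u - u'| ≤ √X v`; `RT2`. -/
def S_NUU : Prop := ∀ (n v m : ℕ) (X : ℝ), 1 ≤ n → 1 ≤ v → n.Coprime v → 0 < X →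
  {u : ℤ | ∃ D : ℕ, X / 2 < (D : ℝ) ∧ (D : ℝ) ≤ X ∧
    u ^ 2 + (D : ℤ) * (v : ℤ) ^ 2 = 4 * (n : ℤ) ^ m}.Finite ∧
  ({u : ℤ | ∃ D : ℕ, X / 2 < (D : ℝ) ∧ (D : ℝ) ≤ X ∧
    u ^ 2 + (D : ℤ) * (v : ℤ) ^ 2 = 4 * (n : ℤ) ^ m}.ncard : ℝ) ≤
      56 * 2 ^ v.primeFactors.card * (Real.sqrt X / v + 1)

/-- [TRV] solutions with `v ≤ V`: at most `P^(2i)` pairs `(A, B)`; `NUU`; sum over `v`. -/
def S_TRV : Prop := ∀ (m P i V T : ℕ) (X : ℝ), 1 ≤ m → 1 ≤ i → 1 ≤ X → 1 ≤ V →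
  (∀ v : ℕ, 1 ≤ v → v ≤ V → 2 ^ v.primeFactors.card ≤ T) →
  ({x ∈ QS m X P i | x.2.2.2 ≤ V}.ncard : ℝ) ≤
    56 * T * (P : ℝ) ^ (2 * i) * (Real.sqrt X * (1 + Real.log V) + V)

/-- [BIG] solutions with large `v`. For `v` odd put `(w, l, u'') = (v, 4, u)`, for `v` even
`(v / 2, 1, u / 2)` (then `u` is even); split `A` and `B` into two halves (in any way): the four
products are a point of `HW m l U w (NN P j)`, which determines `A` and `B`; at most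
`56 * 2^ω(v) * 2` numbers `u` for given `A, B, v` (`NUU`). -/
def S_BIG : Prop := ∀ (m P j U W0 W1 T : ℕ) (X : ℝ), 1 ≤ m → 1 ≤ j → 1 ≤ X →
  2 * P ^ (2 * m * j) ≤ U → Real.sqrt X ≤ 2 * W0 →
  (∀ v : ℕ, 1 ≤ v → v ≤ W1 → 2 ^ v.primeFactors.card ≤ T) →
  (∀ x ∈ QS m X P (2 * j), x.2.2.2 ≤ W1) →
  ({x ∈ QS m X P (2 * j) | 2 * W0 + 1 < x.2.2.2}.ncard : ℝ) ≤ 112 * T *
    (∑ w ∈ (Ioc W0 W1).filter (fun w => Nat.Coprime 4 w), ((HW m 4 U w (NN P j)).card : ℝ) +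
      ∑ w ∈ (Ioc W0 W1).filter (fun w => Nat.Coprime 1 w), ((HW m 1 U w (NN P j)).card : ℝ))

/-- [QIB] fewer than `2 jj` primes in `A` and `B` (`QFN`, `TRV` with `V = ⌊3 P^(mi) / P^(K/2)⌋`,
`DVB`; there are no solutions if `V = 0`). -/
def S_QIB : Prop := ∀ m : ℕ, 5 ≤ m → ∃ (P0 : ℕ) (C : ℝ), 0 < C ∧ ∀ (P : ℕ) (X : ℝ), P0 ≤ P →
  (P : ℝ) ^ KK m ≤ X → X ≤ (2 * P : ℝ) ^ KK m → ∀ i, 1 ≤ i → i < 2 * jj m →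
  ((QS m X P i).ncard : ℝ) * (P : ℝ) ^ (KK m / 2) ≤
    C * (P : ℝ) ^ ((1 : ℝ) / 8) * ((P : ℝ) ^ (2 * i + KK m) + (P : ℝ) ^ ((2 + m) * i))

/-- [QJB] `2 jj` primes in `A` and `B` (`QFN`, `TRV` with `V = 2 P^(aa - bb) + 1`, `BIG` with
`j = jj`, `W0 = P^(aa - bb)`, `W1 = 3 P^aa`, `MTP`, `DVB`, `PAR`; the elements of `NN P jj` are
squarefree). -/
def S_QJB : Prop := ∀ m : ℕ, 5 ≤ m → Odd m → ∃ (P0 : ℕ) (C : ℝ), 0 < C ∧ ∀ (P : ℕ) (X : ℝ),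
  P0 ≤ P → (P : ℝ) ^ KK m ≤ X → X ≤ (2 * P : ℝ) ^ KK m →
  ((QS m X P (2 * jj m)).ncard : ℝ) * (P : ℝ) ^ (KK m / 2 + bb m) ≤
    C * (P : ℝ) ^ ((1 : ℝ) / 8) *
      ((P : ℝ) ^ (4 * jj m + KK m + bb m) + (P : ℝ) ^ ((2 + m) * (2 * jj m)))

/-! ## Discriminants with few split primes -/

/-- [SQC] square classes. Take a maximal `NSq` subset `S'` of `S`; every `d ∈ S` is in the square
class of some `e ∈ S'`; if `e = -f r^2` with `f` squarefree then `d = -f s^2`, `s ≤ √X`. -/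
def S_SQC : Prop := ∀ (J : ℕ) (X : ℝ) (S : Finset ℤ), 1 ≤ X → (∀ d ∈ S, d < 0 ∧ |(d : ℝ)| ≤ X) →
  (∀ S' ⊆ S, NSq S' → S'.card ≤ J) → (S.card : ℝ) ≤ J * Real.sqrt X

/-- [BAD] few discriminants with few split primes (`ClaimX4`, `SQC`). -/
def S_BAD : Prop := ∀ K : ℕ, 0 < K → ∀ c : ℝ, 0 < c → c < 1 / 2 → ∃ C : ℝ, 0 < C ∧
  ∃ X0 : ℝ, 1 ≤ X0 ∧ ∀ (X : ℝ) (S : Finset ℤ), X0 ≤ X → (∀ d ∈ S, d < 0 ∧ |(d : ℝ)| ≤ X ∧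
    (Pd d ⌊X ^ ((1 : ℝ) / K)⌋₊ : ℝ) ≤ X ^ ((1 - c) / K)) → (S.card : ℝ) ≤ C * X ^ ((1 : ℝ) / 2)

/-! ## Assembly -/

/-- The discriminants with `X / 2 < |d| ≤ X`. -/
noncomputable def DD (X : ℝ) : Finset ℤ :=
  (Icc (-⌊X⌋) (-1)).filter fun d => (d % 4 = 0 ∨ d % 4 = 1) ∧ X / 2 < |(d : ℝ)|

/-- [GSM] the discriminants with many split primes. `J = 2 jj`, `X ≥ P^K`,
`G = (P^(1 - c) / (2 J))^J` with `c = 1 / (16 J)`, so `G^2 = P^(2 J - 1/8) / (2 J)^(2 J)`;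
`Hc = C P^(K/2 + 1/16)` (`ClaimC1a`, `ClaimC1c`); `GDS`, `QIB`, `QJB`, `PAR`. All exponents are at
most `3 K / 2 - J + 1/16 + 1/8 + 1/8`, as `K ≤ 3 K / 2 - J`, and for `i ≤ J - 1`:
`J - i + (2 + m) i - 2 J ≤ m J - (m + 1) = 3 K / 2 - J`, and `m J - bb ≤ 3 K / 2 - J`. -/
def S_GSM : Prop := ∀ m : ℕ, 5 ≤ m → Odd m → ∃ (X0 : ℝ) (C : ℝ), 1 ≤ X0 ∧ 0 < C ∧
  ∀ (X : ℝ) (Ds : Finset ℤ), X0 ≤ X →
  (∀ d ∈ Ds, d < 0 ∧ (d % 4 = 0 ∨ d % 4 = 1) ∧ X / 2 < |(d : ℝ)| ∧ |(d : ℝ)| ≤ X ∧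
    X ^ ((1 - 1 / (32 * jj m)) / (KK m : ℝ)) ≤ (Pd d ⌊X ^ ((1 : ℝ) / (KK m : ℕ))⌋₊ : ℝ)) →
  ∑ d ∈ Ds, (Nat.card {y : ClassGroup ↥(Od d) // y ^ m = 1} : ℝ) ≤
    C * X ^ ((3 : ℝ) / 2 - (2 * jj m - 1 / 2) / KK m)

/-- [FDM] one dyadic interval (`GSM`, `BAD` with `c = 1 / (32 jj)`, `ClaimC1a`, `ClaimC1c`, `PAR`):
`(2 jj - 1) / K = 3 / (2 m + 2)`. For `X < X0` the sum is bounded. -/
def S_FDM : Prop := ∀ m : ℕ, 5 ≤ m → Odd m → ∃ C : ℝ, 0 < C ∧ ∀ X : ℝ, 1 ≤ X →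
  ∑ d ∈ DD X, (Nat.card {y : ClassGroup ↥(Od d) // y ^ m = 1} : ℝ) ≤
    C * X ^ ((3 : ℝ) / 2 - 3 / (2 * m + 2) - 1 / (2 * KK m))

/-- [FIN] the final theorem (`FDM`, `BG.S_TWO`, `PAR`; sum over dyadic intervals). -/
def S_FIN : Prop := ∀ a m : ℕ, 5 ≤ m → Odd m → ∃ C : ℝ, 0 < C ∧ ∀ X : ℝ, 1 ≤ X →
  ∑ d ∈ (Icc (-⌊X⌋) (-1)).filter (fun d : ℤ => d % 4 = 0 ∨ d % 4 = 1),
    (Nat.card {x : ClassGroup ↥(Od d) // x ^ (2 ^ a * m) = 1} : ℝ) ≤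
      C * X ^ ((3 : ℝ) / 2 - 3 / (2 * m + 2) - 1 / (20000000 * m ^ 6))

end Pool.Agent.Work.MP_e0c7e8_nt.AV
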